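import Pool.Agent.AD.F.Defs
import Pool.Agent.H22.W.Zal

/-!
# AD F Vel: the speed of a curve
-/

set_option autoImplicit false

open Topology Filter Metric

namespace Pool.Agent.AD.F

open Pool.Agent.H36.BP (EN fs wd Sub Curve)
open Pool.Agent.H14.PP (IsCone Tan CurveAt)
open Pool.Agent.H22.W (PseudoLength)
open Pool.Agent.H62.EF (pr Lat)

variable {N : ℕ} {X : Set (EN N)}

theorem Curve.at {U : Set ℂ} (hU : IsOpen U) {F : ℂ → EN N} (hF : Curve X U F) {z : ℂ} (hz : z ∈ U) : CurveAt X F z := by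
  refine ⟨hF.1.analyticAt (hU.mem_nhds hz), ?_⟩
  filter_upwards [hU.mem_nhds hz] with w hw using hF.2 w hw

theorem Curve.tan {U : Set ℂ} (hU : IsOpen U) {F : ℂ → EN N} (hF : Curve X U F) {z : ℂ} (hz : z ∈ U) : Tan X (F z) (deriv F z) :=
  Pool.Agent.H22.W.tan_curve (Curve.at hU hF hz)

theorem Curve.mono {U V : Set ℂ} {F : ℂ → EN N} (hF : Curve X U F) (h : V ⊆ U) : Curve X V F :=
  ⟨hF.1.mono h, fun z hz => hF.2 z (h hz)⟩

/-- change of the variable -/
theorem Curve.comp {U V : Set ℂ} {F : ℂ → EN N} (hF : Curve X U F) {φ : ℂ → ℂ} (hφ : DifferentiableOn ℂ φ V) (h : Set.MapsTo φ V U) :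
    Curve X V (fun z => F (φ z)) :=
  ⟨hF.1.comp hφ h, fun z hz => hF.2 (φ z) (h hz)⟩

theorem vel_nonneg (ν : PseudoLength X) {U : Set ℂ} (hU : IsOpen U) {F : ℂ → EN N} (hF : Curve X U F) {z : ℂ} (hz : z ∈ U) :
    0 ≤ vel ν F z := ν.nonneg _ _ (Curve.tan hU hF hz)

theorem vel_cont (ν : PseudoLength X) {U : Set ℂ} (hU : IsOpen U) {F : ℂ → EN N} (hF : Curve X U F) : ContinuousOn (vel ν F) U := by
  intro z hz
  refine ContinuousAt.continuousWithinAt ?_
  have h1 : AnalyticAt ℂ F z := (Curve.at hU hF hz).1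
  refine ν.tendsto ?_ (Curve.tan hU hF hz) h1.continuousAt.tendsto h1.deriv.continuousAt.tendsto
  filter_upwards [hU.mem_nhds hz] with w hw using Curve.tan hU hF hw

/-- the chain rule -/
theorem vel_comp (ν : PseudoLength X) {U : Set ℂ} (hU : IsOpen U) {F : ℂ → EN N} (hF : Curve X U F) {φ : ℂ → ℂ} {z : ℂ}
    (hφ : DifferentiableAt ℂ φ z) (hz : φ z ∈ U) : vel ν (fun w => F (φ w)) z = ‖deriv φ z‖ * vel ν F (φ z) := by
  have h1 : HasDerivAt F (deriv F (φ z)) (φ z) := (Curve.at hU hF hz).1.differentiableAt.hasDerivAt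
  have h2 : HasDerivAt (fun w => F (φ w)) (deriv φ z • deriv F (φ z)) z := h1.scomp z hφ.hasDerivAt
  unfold vel
  rw [h2.deriv]
  exact ν.smul _ _ (Curve.tan hU hF hz) _

theorem vel_affine (ν : PseudoLength X) {U : Set ℂ} (hU : IsOpen U) {F : ℂ → EN N} (hF : Curve X U F) (a b : ℂ) {z : ℂ}
    (hz : b + a * z ∈ U) : vel ν (fun w => F (b + a * w)) z = ‖a‖ * vel ν F (b + a * z) := by
  have h : HasDerivAt (fun w : ℂ => b + a * w) a z := by
    simpa using ((hasDerivAt_id z).const_mul a).const_add b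
  have h1 := vel_comp ν hU hF (φ := fun w : ℂ => b + a * w) h.differentiableAt hz
  rw [h.deriv] at h1
  exact h1

/-- the chain rule for the Fubini-Study length -/
theorem fs_comp {U : Set ℂ} (hU : IsOpen U) {F : ℂ → EN N} (hF : DifferentiableOn ℂ F U) {φ : ℂ → ℂ} {z : ℂ}
    (hφ : DifferentiableAt ℂ φ z) (hz : φ z ∈ U) :
    fs (F (φ z)) (deriv (fun w => F (φ w)) z) = ‖deriv φ z‖ * fs (F (φ z)) (deriv F (φ z)) := by
  have h1 : HasDerivAt F (deriv F (φ z)) (φ z) := (hF.differentiableAt (hU.mem_nhds hz)).hasDerivAt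
  have h2 : HasDerivAt (fun w => F (φ w)) (deriv φ z • deriv F (φ z)) z := h1.scomp z hφ.hasDerivAt
  rw [h2.deriv, Pool.Agent.H36.BP.fs_smul_right]

theorem fs_affine {U : Set ℂ} (hU : IsOpen U) {F : ℂ → EN N} (hF : DifferentiableOn ℂ F U) (a b : ℂ) {z : ℂ}
    (hz : b + a * z ∈ U) : fs (F (b + a * z)) (deriv (fun w => F (b + a * w)) z) = ‖a‖ * fs (F (b + a * z)) (deriv F (b + a * z)) := by
  have h : HasDerivAt (fun w : ℂ => b + a * w) a z := by
    simpa using ((hasDerivAt_id z).const_mul a).const_add b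
  have h1 := fs_comp hU hF (φ := fun w : ℂ => b + a * w) h.differentiableAt hz
  rw [h.deriv] at h1
  exact h1

theorem Setup.vel_le (S : Setup X) {U : Set ℂ} (hU : IsOpen U) {F : ℂ → EN N} (hF : Curve X U F) {z : ℂ} (hz : z ∈ U) :
    vel S.ν F z ≤ S.C * fs (F z) (deriv F z) := S.bound _ _ (Curve.tan hU hF hz)

/-- Zalcman's bound on a disc of radius `s` -/
theorem Setup.fs_le (S : Setup X) {F : ℂ → EN N} {z₀ : ℂ} {s B : ℝ} (hs : 0 < s) (hF : Curve X (ball z₀ s) F)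
    (hB : ∀ z ∈ ball z₀ s, vel S.ν F z ≤ B) : fs (F z₀) (deriv F z₀) ≤ S.C * max B (1 / s) := by
  obtain ⟨m, hm⟩ : ∃ m : ℝ, m = max B (1 / s) := ⟨_, rfl⟩
  have hm1 : 1 / s ≤ m := by rw [hm]; exact le_max_right _ _
  have hm0 : 0 < m := lt_of_lt_of_le (by positivity) hm1
  have hmB : B ≤ m := by rw [hm]; exact le_max_left _ _
  rw [← hm]
  have hms : m⁻¹ ≤ s := by
    rw [inv_le_comm₀ hm0 hs, ← one_div]
    exact hm1
  have hmaps : Set.MapsTo (fun z : ℂ => z₀ + ((m⁻¹ : ℝ) : ℂ) * z) (ball 0 1) (ball z₀ s) := by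
    intro z hz
    rw [mem_ball_zero_iff] at hz
    rw [mem_ball_iff_norm]
    show ‖z₀ + ((m⁻¹ : ℝ) : ℂ) * z - z₀‖ < s
    rw [add_sub_cancel_left, norm_mul, Complex.norm_real, Real.norm_of_nonneg (by positivity)]
    calc m⁻¹ * ‖z‖ < m⁻¹ * 1 := by
          refine mul_lt_mul_of_pos_left hz (by positivity)
      _ ≤ s := by rw [mul_one]; exact hms
  have hG : Curve X (ball 0 1) (fun z : ℂ => F (z₀ + ((m⁻¹ : ℝ) : ℂ) * z)) :=
    Curve.comp hF (by fun_prop) hmaps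
  have h1 := S.zal _ hG (fun z hz => by
    rw [vel_affine S.ν isOpen_ball hF _ _ (hmaps hz), Complex.norm_real, Real.norm_of_nonneg (by positivity)]
    have h2 := hB _ (hmaps hz)
    calc m⁻¹ * vel S.ν F (z₀ + ((m⁻¹ : ℝ) : ℂ) * z) ≤ m⁻¹ * m := by
          refine mul_le_mul_of_nonneg_left (h2.trans hmB) (by positivity)
      _ = 1 := inv_mul_cancel₀ hm0.ne')
  have h3 := fs_affine isOpen_ball hF.1 ((m⁻¹ : ℝ) : ℂ) z₀ (z := 0) (hmaps (mem_ball_self one_pos))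
  simp only [mul_zero, add_zero] at h1 h3
  rw [h3, Complex.norm_real, Real.norm_of_nonneg (by positivity)] at h1
  rw [inv_mul_le_iff₀ hm0] at h1
  linarith

end Pool.Agent.AD.F
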