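import Pool.Agent.H22.W.Def
import Pool.Agent.H62.EF.PrA

/-!
# AD F Defs: the definitions of the function theory half of project AD (all dimensions)

`X` is the cone (without `0`) of a projective manifold, `pd x y` the distance of the points of projective space given by `x` and `y`,
`vel ν F z` the length of `F'(z)` for the pseudo-length `ν`.

`Tube`: a function `ρ a x`, defined for `x` near the germ at `a` of the entire curve `g`, which measures the distance of `x` from that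
germ and grows along every holomorphic curve.  `Setup`: the data used in the function theory half of the project: a pseudo-length, a
finite family of doubly periodic curves `g i` which contains all the entire curves of constant speed one, with tubes.
`Setup.Fol`: the curve `F` follows `g i` over `U`, with the lift `ζ`.
-/

set_option autoImplicit false

open Topology Filter Metric

namespace Pool.Agent.AD.F

open Pool.Agent.H36.BP (EN fs wd Sub Curve)
open Pool.Agent.H14.PP (IsCone Tan CurveAt)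
open Pool.Agent.H22.W (PseudoLength)
open Pool.Agent.H62.EF (pr Lat)

variable {N : ℕ} {X : Set (EN N)}

/-- the distance of the points of projective space given by `x` and `y` -/
noncomputable def pd (x y : EN N) : ℝ := dist (pr x) (pr y)

/-- the length of `F'(z)` -/
noncomputable def vel (ν : PseudoLength X) (F : ℂ → EN N) (z : ℂ) : ℝ := ν.toFun (F z) (deriv F z)

/-- A tube around the entire curve `g` with the periods `Λ`. -/
structure Tube (X : Set (EN N)) (g : ℂ → EN N) (Λ : AddSubgroup ℂ) (r ε κ C : ℝ) (ρ : ℂ → EN N → ℝ) : Prop where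
  nonneg : ∀ a x, 0 ≤ ρ a x
  /-- (T0) -/
  smul : ∀ a, ∀ x ∈ X, ∀ c : ℂ, c ≠ 0 → ρ a (c • x) = ρ a x
  /-- (T4) -/
  per : ∀ l ∈ Λ, ∀ a x, ρ (a + l) x = ρ a x
  /-- (T1) -/
  le_one : ∀ a, ∀ x ∈ X, pd x (g a) < ε → ρ a x ≤ 1
  /-- (T1) -/
  foot : ∀ a, ∀ x ∈ X, pd x (g a) < ε → ∃ w, ‖w - a‖ ≤ r / 8 ∧ pd x (g w) ≤ C * ρ a x
  /-- (T1) -/
  le : ∀ a, ∀ x ∈ X, pd x (g a) < ε → ∀ w, ‖w - a‖ ≤ r / 8 → ρ a x ≤ C * pd x (g w)
  /-- (T2) -/
  indep : ∀ a b, ∀ x ∈ X, ‖a - b‖ ≤ r / 2 → pd x (g a) < ε → pd x (g b) < ε → ρ a x = ρ b x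
  /-- (T3) -/
  cont : ∀ a, ContinuousOn (ρ a) {x | x ∈ X ∧ pd x (g a) < ε}
  /-- (T3) -/
  sub : ∀ (a : ℂ) (F : ℂ → EN N) (z₀ : ℂ), CurveAt X F z₀ → pd (F z₀) (g a) < ε → 0 < ρ a (F z₀) →
    Sub (fun z => ρ a (F z)) z₀ (κ * fs (F z₀) (deriv F z₀) ^ 2)
  /-- (T5) -/
  inj : ∀ a b, ‖a - b‖ ≤ 4 * r → ‖a - b‖ ≤ C * pd (g a) (g b)

/-- The data of the function theory half. -/
structure Setup (X : Set (EN N)) where
  /-- the pseudo-length -/
  ν : PseudoLength X
  /-- the index set of the curves -/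
  ι : Type
  /-- the curves -/
  g : ι → ℂ → EN N
  /-- their periods -/
  Λ : ι → AddSubgroup ℂ
  /-- their tubes -/
  ρ : ι → ℂ → EN N → ℝ
  /-- the radius of the tubes in the domain -/
  r : ℝ
  /-- the radius of the tubes in the space -/
  ε : ℝ
  /-- the rate -/
  κ : ℝ
  /-- a constant -/
  C : ℝ
  /-- the number of branches at the points `pts` -/
  M : ℕ
  /-- the points in several branches -/
  pts : Set (EN N)
  cone : IsCone X
  fin : Finite ι
  r_pos : 0 < r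
  ε_pos : 0 < ε
  κ_pos : 0 < κ
  C_ge : 1 ≤ C
  small : 64 * C * ε ≤ r
  M_pos : 1 ≤ M
  entire : ∀ i, Differentiable ℂ (g i)
  mem : ∀ i z, g i z ∈ X
  unit : ∀ i z, vel ν (g i) z = 1
  lat : ∀ i, Lat (Λ i)
  per : ∀ i, ∀ l ∈ Λ i, ∀ z, pr (g i (z + l)) = pr (g i z)
  tube : ∀ i, Tube X (g i) (Λ i) r ε κ C (ρ i)
  /-- the pseudo-length is bounded -/
  bound : ∀ x v, Tan X x v → ν.toFun x v ≤ C * fs x v
  /-- curves in the disc with speed at most one have bounded derivative at `0` -/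
  zal : ∀ F : ℂ → EN N, Curve X (ball 0 1) F → (∀ z ∈ ball (0 : ℂ) 1, vel ν F z ≤ 1) → fs (F 0) (deriv F 0) ≤ C
  /-- the family contains all the entire curves of speed one -/
  all : ∀ F : ℂ → EN N, Differentiable ℂ F → (∀ z, F z ∈ X) → (∀ z, vel ν F z = 1) →
    ∃ (i : ι) (a b : ℂ), ‖a‖ = 1 ∧ ∀ z, pr (F z) = pr (g i (a * z + b))
  pts_fin : pts.Finite
  pts_mem : ∀ p ∈ pts, p ∈ X
  /-- a point near two different branches is near one of the points `pts` -/
  sep : ∀ i j a b, ¬ (i = j ∧ ∃ l ∈ Λ i, ‖a - b - l‖ ≤ r) → ∀ x ∈ X, ∀ d : ℝ, d ≤ ε → pd x (g i a) ≤ d → pd x (g j b) ≤ d →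
    ∃ p ∈ pts, pd x p ≤ C * d ^ ((M : ℝ)⁻¹)

namespace Setup

/-- The curve `F` follows the curve `g i` over `U`. -/
structure Fol (S : Setup X) (i : S.ι) (ζ : ℂ → ℂ) (F : ℂ → EN N) (U : Set ℂ) : Prop where
  near : ∀ z ∈ U, pd (F z) (S.g i (ζ z)) < S.ε
  coarse : ∀ z ∈ U, ∀ᶠ w in 𝓝 z, w ∈ U → ‖ζ w - ζ z‖ ≤ S.r / 8

/-- The distance of `F` from the curve which it follows. -/
noncomputable def R (S : Setup X) (i : S.ι) (ζ : ℂ → ℂ) (F : ℂ → EN N) (z : ℂ) : ℝ := S.ρ i (ζ z) (F z)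

/-- The boundary point `b` of `U` is not bad. -/
def NotBad (S : Setup X) (i : S.ι) (ζ : ℂ → ℂ) (F : ℂ → EN N) (U : Set ℂ) (b : ℂ) : Prop :=
  ∃ (δ : ℝ) (w : ℂ), 0 < δ ∧ pd (F b) (S.g i w) < S.ε ∧ ∀ z ∈ U ∩ ball b δ, ‖ζ z - w‖ ≤ S.r / 2

/-- The places `a` on `g i` and `b` on `g j` are the same. -/
def Eqv (S : Setup X) (i : S.ι) (a : ℂ) (j : S.ι) (b : ℂ) : Prop := i = j ∧ ∃ l ∈ S.Λ i, ‖a - b - l‖ ≤ S.r

/-- the point `w` is `s`-good for the curve `F` on `D` -/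
def Good (S : Setup X) (F : ℂ → EN N) (D : Set ℂ) (s : ℝ) (w : ℂ) : Prop :=
  0 < vel S.ν F w ∧ ball w (s / vel S.ν F w) ⊆ D ∧ ∀ z ∈ ball w (s / vel S.ν F w), vel S.ν F z ≤ 2 * vel S.ν F w

end Setup

end Pool.Agent.AD.F
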