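import Pool.Agent.AD.F.Sep
import Pool.Agent.AD.TB.Tube
import Pool.Agent.AD.TB.SepA
import Pool.Agent.AD.BD.Per
import Pool.Agent.AD.W.Scale
import Pool.Agent.AD.W.Zal
import Pool.Agent.H17EF.Bridge

/-!
# AD F Asm: the setup exists

* `exists_family`: the entire curves of speed one: there is a finite family of them, without repetitions, which contains all up to `z ↦ a z + b`, `|a| = 1`.
* `perGroup`: the group of the periods; it is a lattice for a doubly periodic curve with bounded distortion.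
* `exists_setup`: choice of the constants.
-/

set_option autoImplicit false

open Topology Filter Metric

namespace Pool.Agent.AD.F

open Pool.Agent.H36.BP (EN fs wd Sub Curve)
open Pool.Agent.H14.PP (IsCone Tan CurveAt)
open Pool.Agent.H22.W (PseudoLength)
open Pool.Agent.H62.EF (pr Lat)
open Pool.Agent.H5.BD (BC evp Equi)
open Pool.Agent.AD.BD
open Pool.Agent.AD.TB (exists_tube rigid)

variable {N n : ℕ} {X : Set (EN N)}

/-- the entire curves of speed one -/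
def E1 (ν : PseudoLength X) : Set (ℂ → EN N) := {F | Differentiable ℂ F ∧ (∀ z, F z ∈ X) ∧ ∀ z, vel ν F z = 1}

theorem exists_BC (hX : IsCone X) (hch : Charts n X) (ν : PseudoLength X) (hNN : ν.NoNullBrody) :
    ∃ c L : ℝ, 0 < c ∧ 0 < L ∧ ∀ F ∈ E1 ν, F ∈ BC X c L := by
  obtain ⟨L, hL, hlip⟩ := Pool.Agent.H22.W.exists_lipschitz hX ν hNN
  obtain ⟨c, hc, hlow⟩ := Pool.Agent.AD.exists_lower hX hch ν one_pos
  refine ⟨c, L, hc, hL, fun F hF => ⟨hF.1, hF.2.1, fun z => ⟨hlow F hF.1 hF.2.1 hF.2.2 z, hlip F hF.1 hF.2.1 (fun z => (hF.2.2 z).le) z⟩⟩⟩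

theorem Equi.trans {F G H : ℂ → EN N} (h : Equi F G) (h' : Equi G H) : Equi F H := by
  obtain ⟨a, b, ha, h⟩ := h
  obtain ⟨a', b', ha', h'⟩ := h'
  refine ⟨a' * a, a' * b + b', mul_ne_zero ha' ha, fun z => ?_⟩
  rw [h, h']
  congr 1
  ring

/-- equivalent curves of speed one are equal up to `z ↦ a z + b` with `|a| = 1` -/
theorem Equi.unit (hX : IsCone X) (ν : PseudoLength X) {F G : ℂ → EN N} (hF : F ∈ E1 ν) (hG : G ∈ E1 ν) (h : Equi F G) :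
    ∃ a b : ℂ, ‖a‖ = 1 ∧ ∀ z, pr (F z) = pr (G (a * z + b)) := by
  obtain ⟨a, b, ha, hab⟩ := h
  obtain ⟨α, β, hα, -, hall⟩ := rigid hX ν hF.1 hF.2.1 hG.1 hG.2.1 hF.2.2 hG.2.2 (a := 0) (b := a * 0 + b) (ψ := fun z => a * z + b) (by fun_prop) rfl
    (Eventually.of_forall fun z => hab z)
  exact ⟨α, β, hα, hall⟩

theorem exists_family (hX : IsCone X) (hch : Charts n X) {m J : ℕ} (hm : 1 ≤ m) (Ω : Fin J → BForm n X m) (hΩ : NoZero Ω) (ν : PseudoLength X)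
    (hNN : ν.NoNullBrody) : ∃ T : Finset (ℂ → EN N), (∀ g ∈ T, g ∈ E1 ν) ∧ (∀ F ∈ E1 ν, ∃ g ∈ T, Equi F g) ∧
      ∀ g ∈ T, ∀ g' ∈ T, Equi g g' → g = g' := by
  classical
  obtain ⟨c, L, hc, hL, hBC⟩ := exists_BC hX hch ν hNN
  obtain ⟨-, T', -, hT'⟩ := curves_of_bounded_distortion hX hch hm Ω hΩ hc hL
  -- a finite covering family in `E1`
  have hex : ∃ T : Finset (ℂ → EN N), (∀ g ∈ T, g ∈ E1 ν) ∧ ∀ F ∈ E1 ν, ∃ g ∈ T, Equi F g := by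
    obtain ⟨f, hf⟩ : ∃ f : (ℂ → EN N) → (ℂ → EN N), ∀ G, (∃ F ∈ E1 ν, Equi F G) → f G ∈ E1 ν ∧ Equi (f G) G := by
      have h1 : ∀ G : ℂ → EN N, ∃ F : ℂ → EN N, (∃ F ∈ E1 ν, Equi F G) → F ∈ E1 ν ∧ Equi F G := by
        intro G
        by_cases h : ∃ F ∈ E1 ν, Equi F G
        · obtain ⟨F, h2, h3⟩ := h
          exact ⟨F, fun _ => ⟨h2, h3⟩⟩
        · exact ⟨G, fun h2 => absurd h2 h⟩
      choose f hf using h1
      exact ⟨f, hf⟩
    refine ⟨(T'.filter fun G => ∃ F ∈ E1 ν, Equi F G).image f, ?_, ?_⟩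
    · intro g hg
      obtain ⟨G, hG, rfl⟩ := Finset.mem_image.1 hg
      exact (hf G (Finset.mem_filter.1 hG).2).1
    · intro F hF
      obtain ⟨G, hG, hFG⟩ := hT' F (hBC F hF)
      have h1 : ∃ F ∈ E1 ν, Equi F G := ⟨F, hF, hFG⟩
      exact ⟨f G, Finset.mem_image_of_mem _ (Finset.mem_filter.2 ⟨hG, h1⟩), Equi.trans hFG (hf G h1).2.symm⟩
  -- a minimal one
  obtain ⟨T, hT, hmin⟩ : ∃ T : Finset (ℂ → EN N), ((∀ g ∈ T, g ∈ E1 ν) ∧ ∀ F ∈ E1 ν, ∃ g ∈ T, Equi F g) ∧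
      ∀ T₁ : Finset (ℂ → EN N), ((∀ g ∈ T₁, g ∈ E1 ν) ∧ ∀ F ∈ E1 ν, ∃ g ∈ T₁, Equi F g) → T.card ≤ T₁.card := by
    have hne : {k : ℕ | ∃ T : Finset (ℂ → EN N), T.card = k ∧ ((∀ g ∈ T, g ∈ E1 ν) ∧ ∀ F ∈ E1 ν, ∃ g ∈ T, Equi F g)}.Nonempty := by
      obtain ⟨T, hT⟩ := hex
      exact ⟨T.card, T, rfl, hT⟩
    obtain ⟨T, h1, h2⟩ := Nat.sInf_mem hne
    refine ⟨T, h2, fun T₁ hT₁ => ?_⟩
    rw [h1]
    exact Nat.sInf_le ⟨T₁, rfl, hT₁⟩
  refine ⟨T, hT.1, hT.2, fun g hg g' hg' hgg => ?_⟩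
  by_contra hne
  have h1 := hmin (T.erase g) ⟨fun h hh => hT.1 h (Finset.mem_of_mem_erase hh), fun F hF => by
    obtain ⟨h, hh, hFh⟩ := hT.2 F hF
    by_cases hgh : h = g
    · refine ⟨g', Finset.mem_erase.2 ⟨fun h => hne h.symm, hg'⟩, ?_⟩
      rw [hgh] at hFh
      exact Equi.trans hFh hgg
    · exact ⟨h, Finset.mem_erase.2 ⟨hgh, hh⟩, hFh⟩⟩
  have h2 := Finset.card_erase_lt_of_mem hg
  omega

/-- the group of the periods -/
def perGroup (g : ℂ → EN N) : AddSubgroup ℂ where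
  carrier := {l | ∀ z, pr (g (z + l)) = pr (g z)}
  add_mem' := by
    intro a b ha hb z
    rw [← add_assoc, hb, ha]
  zero_mem' := fun z => by rw [add_zero]
  neg_mem' := by
    intro a ha z
    have := ha (z + -a)
    rw [neg_add_cancel_right] at this
    exact this.symm

theorem lat_perGroup {A : Atlas n X} {c L r₀ c₁ K₀ r₂ r₃ ε₃ K : ℝ} (h : MC A c L r₀ c₁ K₀ r₂ r₃ ε₃ K) {g : ℂ → EN N} (hg : g ∈ BC X c L) {w₁ w₂ : ℂ}
    (hw : LinearIndependent ℝ ![w₁, w₂]) (hper : ∀ z, pr (g (z + w₁)) = pr (g z) ∧ pr (g (z + w₂)) = pr (g z)) : Lat (perGroup g) := by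
  have h1 := Pool.Agent.H17EF.lat_of_basis hw
  have hle : AddSubgroup.closure (Set.range ![w₁, w₂]) ≤ perGroup g := by
    rw [AddSubgroup.closure_le]
    rintro x ⟨i, rfl⟩
    fin_cases i
    · exact fun z => (hper z).1
    · exact fun z => (hper z).2
  refine ⟨⟨4 * r₂, by have := h.r₂_pos; positivity, fun l hl hl4 => ?_⟩, ?_⟩
  · have hK : 0 < K := lt_of_lt_of_le one_pos (h.lc.one_le.trans h.le_K)
    have h2 := h.emb g hg (0 + l) 0 (by rw [sub_zero, zero_add]; exact hl4.le)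
    rw [hl 0, dist_self, sub_zero, zero_add] at h2
    have h3 : ‖l‖ ≤ 0 := by
      by_contra hcon
      push Not at hcon
      have : 0 < K⁻¹ * ‖l‖ := by positivity
      linarith
    exact norm_le_zero_iff.1 h3
  · obtain ⟨R, hR, hcov⟩ := h1.cocompact
    exact ⟨R, hR, fun z => by
      obtain ⟨l, hl, h2⟩ := hcov z
      exact ⟨l, hle hl, h2⟩⟩

theorem Tube.mono {g : ℂ → EN N} {Λ : AddSubgroup ℂ} {r ε κ C κ' C' : ℝ} {ρ : ℂ → EN N → ℝ} (h : Tube X g Λ r ε κ C ρ) (hκ : κ' ≤ κ) (hC : C ≤ C') :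
    Tube X g Λ r ε κ' C' ρ := by
  refine ⟨h.nonneg, h.smul, h.per, h.le_one, ?_, ?_, h.indep, h.cont, ?_, ?_⟩
  · intro a x hx hpd
    obtain ⟨w, h1, h2⟩ := h.foot a x hx hpd
    exact ⟨w, h1, h2.trans (mul_le_mul_of_nonneg_right hC (h.nonneg a x))⟩
  · intro a x hx hpd w hw
    exact (h.le a x hx hpd w hw).trans (mul_le_mul_of_nonneg_right hC dist_nonneg)
  · intro a F z₀ hF hpd hpos
    exact (h.sub a F z₀ hF hpd hpos).anti (mul_le_mul_of_nonneg_right hκ (sq_nonneg _))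
  · intro a b hab
    exact (h.inj a b hab).trans (mul_le_mul_of_nonneg_right hC dist_nonneg)

private theorem exists_le {ι : Type} [Finite ι] (f : ι → ℝ) (hf : ∀ i, 0 < f i) : ∃ t : ℝ, 0 < t ∧ ∀ i, t ≤ f i := by
  rcases isEmpty_or_nonempty ι with h0 | h0
  · exact ⟨1, one_pos, fun i => (h0.false i).elim⟩
  · obtain ⟨i₀, hi₀⟩ := Finite.exists_min f
    exact ⟨f i₀, hf i₀, hi₀⟩

private theorem exists_ge {ι : Type} [Finite ι] (f : ι → ℝ) : ∃ t : ℝ, 1 ≤ t ∧ ∀ i, f i ≤ t := by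
  rcases isEmpty_or_nonempty ι with h0 | h0
  · exact ⟨1, le_refl _, fun i => (h0.false i).elim⟩
  · obtain ⟨i₀, hi₀⟩ := Finite.exists_max f
    exact ⟨max 1 (f i₀), le_max_left _ _, fun i => (hi₀ i).trans (le_max_right _ _)⟩

/-- **The setup.** -/
theorem exists_setup (hX : IsCone X) (hch : Charts n X) {m J : ℕ} (hm : 1 ≤ m) (Ω : Fin J → BForm n X m) (hΩ : NoZero Ω) (ν : PseudoLength X)
    (hNN : ν.NoNullBrody) : ∃ S : Setup X, S.ν = ν := by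
  classical
  obtain ⟨c, L, hc, hL, hBC⟩ := exists_BC hX hch ν hNN
  obtain ⟨T, hT1, hT2, hT3⟩ := exists_family hX hch hm Ω hΩ ν hNN
  obtain ⟨hdp, -⟩ := curves_of_bounded_distortion hX hch hm Ω hΩ hc hL
  obtain ⟨g, hg⟩ : ∃ g : {x // x ∈ T} → ℂ → EN N, g = fun i => i.1 := ⟨_, rfl⟩
  have hgE : ∀ i, g i ∈ E1 ν := by
    intro i
    rw [hg]
    exact hT1 _ i.2
  have hgB : ∀ i, g i ∈ BC X c L := fun i => hBC _ (hgE i)
  have hAt : ∀ i : {x // x ∈ T}, ∃ (A : Atlas n X) (r₀ c₁ K₀ r₂ r₃ ε₃ K : ℝ), MC A c L r₀ c₁ K₀ r₂ r₃ ε₃ K := by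
    intro i
    obtain ⟨A⟩ := exists_atlas hX hch ⟨g i 0, (hgE i).2.1 0⟩
    obtain ⟨r₀, c₁, K₀, r₂, r₃, ε₃, K, h⟩ := exists_MC hX A hc hL
    exact ⟨A, r₀, c₁, K₀, r₂, r₃, ε₃, K, h⟩
  have hlat : ∀ i, Lat (perGroup (g i)) := by
    intro i
    obtain ⟨A, r₀, c₁, K₀, r₂, r₃, ε₃, K, h⟩ := hAt i
    obtain ⟨w₁, w₂, hw, hper⟩ := hdp (g i) (hgB i)
    exact lat_perGroup h (hgB i) hw hper
  have htube : ∀ i, ∃ rmax κ C : ℝ, 0 < rmax ∧ 0 < κ ∧ 1 ≤ C ∧ ∀ r, 0 < r → r ≤ rmax → ∃ ε₀, 0 < ε₀ ∧ ∀ ε, 0 < ε → ε ≤ ε₀ →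
      ∃ ρ : ℂ → EN N → ℝ, Tube X (g i) (perGroup (g i)) r ε κ C ρ := by
    intro i
    obtain ⟨A, r₀, c₁, K₀, r₂, r₃, ε₃, K, h⟩ := hAt i
    exact exists_tube hX A h.lc hm Ω hΩ (hgB i) (hlat i) (fun l hl => hl)
  choose rm κ' C' hrm hκ' hC' htube' using htube
  obtain ⟨r, hr, hrr⟩ := exists_le rm hrm
  obtain ⟨κ, hκ, hκκ⟩ := exists_le κ' hκ'
  obtain ⟨C₁, hC₁, hCC⟩ := exists_ge C'
  choose e₀ he₀ htube₂ using fun i => htube' i r hr (hrr i)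
  obtain ⟨e₁, he₁, hee⟩ := exists_le e₀ he₀
  obtain ⟨M, pts, C₂, hM, hpf, hpm, hC₂, hsep⟩ := exists_sep hX ν g (fun i => perGroup (g i)) (fun i => (hgE i).1) (fun i => (hgE i).2.1)
    (fun i => (hgE i).2.2) hlat (fun i l hl => hl) (fun i l hl => hl) (fun i j a b ha hab => by
      have h1 : Equi (g i) (g j) := ⟨a, b, by intro h0; rw [h0, norm_zero] at ha; exact zero_ne_one ha, hab⟩
      have h2 := hT3 (g i) (by rw [hg]; exact i.2) (g j) (by rw [hg]; exact j.2) h1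
      rw [hg] at h2
      exact Subtype.ext h2) hr
  obtain ⟨C₃, hC₃, hbound⟩ := Pool.Agent.AD.length_bound hX hch ν
  obtain ⟨C₄, hC₄, hzal⟩ := Pool.Agent.AD.exists_bound_unit hX ν hNN
  obtain ⟨C, hC⟩ : ∃ C : ℝ, C = C₁ + C₂ + C₃ + C₄ := ⟨_, rfl⟩
  have hC1 : 1 ≤ C := by rw [hC]; linarith
  have hCt : ∀ i, C' i ≤ C := fun i => (hCC i).trans (by rw [hC]; linarith)
  have hC2 : C₂ ≤ C := by rw [hC]; linarith
  have hC3 : C₃ ≤ C := by rw [hC]; linarith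
  have hC4 : C₄ ≤ C := by rw [hC]; linarith
  obtain ⟨ε, hε⟩ : ∃ ε : ℝ, ε = min e₁ (r / (64 * C)) := ⟨_, rfl⟩
  have hε0 : 0 < ε := by
    rw [hε]
    exact lt_min he₁ (by positivity)
  have hε1 : ε ≤ e₁ := by rw [hε]; exact min_le_left _ _
  have hε2 : 64 * C * ε ≤ r := by
    have h1 : ε ≤ r / (64 * C) := by rw [hε]; exact min_le_right _ _
    rw [le_div_iff₀ (by positivity)] at h1
    linarith
  choose ρ hρ using fun i => htube₂ i ε hε0 (hε1.trans (hee i))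
  have hfs : ∀ x v : EN N, 0 ≤ fs x v := Pool.Agent.H36.BP.fs_nonneg
  refine ⟨Setup.mk (X := X) ν {x // x ∈ T} g (fun i => perGroup (g i)) ρ r ε κ C M pts hX inferInstance hr hε0 hκ hC1 hε2 hM (fun i => (hgE i).1)
    (fun i => (hgE i).2.1) (fun i => (hgE i).2.2) hlat (fun i l hl => hl) (fun i => Tube.mono (hρ i) (hκκ i) (hCt i))
    (fun x v hxv => (hbound x v hxv).trans (mul_le_mul_of_nonneg_right hC3 (hfs x v))) (fun F hF hv => (hzal F hF.1 hF.2 hv).trans hC4) ?_ hpf hpm ?_, rfl⟩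
  · intro F hF hFX hv
    obtain ⟨h, hh, hFh⟩ := hT2 F ⟨hF, hFX, hv⟩
    obtain ⟨a, b, ha, hab⟩ := Equi.unit hX ν ⟨hF, hFX, hv⟩ (hT1 h hh) hFh
    refine ⟨⟨h, hh⟩, a, b, ha, fun z => ?_⟩
    rw [hg]
    exact hab z
  · intro i j a b hne x hx d _ h1 h2
    obtain ⟨p, hp, h3⟩ := hsep i j a b hne x hx d h1 h2
    have hd : 0 ≤ d := (dist_nonneg : 0 ≤ pd x (g i a)).trans h1
    exact ⟨p, hp, h3.trans (mul_le_mul_of_nonneg_right hC2 (Real.rpow_nonneg hd _))⟩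

end Pool.Agent.AD.F
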