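import Pool.Agent.AD.F.Cpt

/-!
# AD F Bad: a boundary point with a small tube function is not bad (Q2)

`step`: on `ball z₀ s` the constant lift `a` is followed (`Fol.const`: `pd (F z) (g a) ≤ pd (F z) (F z₀) + pd (F z₀) (g a) < ε`), so
`R z = ρ a (F z)` is continuous, `≤ 1`, `Sub R z 0` where it is positive.  Let `η = 4^(-τ)`, `τ ≥ 0`.  `sub_le` for `R z * ‖s / (z - z₀)‖^τ` on
`s/4 ≤ ‖z - z₀‖ ≤ t` (`t < s`, then `t → s`): bounded by `max 1 (s/t)^τ`.  So `R z ≤ (‖z - z₀‖/s)^τ ≤ 2^(-τ) = √η` for `s/4 ≤ ‖z - z₀‖ ≤ s/2`.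
(For `η = 0`: apply the case `η > 0` for all small `η`.)

`notBad_of_small` (Q2): `F` has `fs ≤ C * max 1 1` on `ball 0 3` (`Setup.fs_le` on discs of radius `1`), so `pd (F z) (F w) ≤ 2 C ‖z - w‖` on `ball 0 3`.
Fix `s ≤ 1/2` with `2 C s ≤ ε/4` (so `s` depends only on the setup), points `z_j = -b (1 - j s/8)`, `j = 0..n` on the segment from `-b` to `0`, the last within `s/4` of `0`.
Inductively there are `a_j` with `pd (F z_j) (g a_j) ≤ ε/4`, `ρ a_j (F z) ≤ η_j` on `ball z_j (s/4)`, and `‖ζ z - a_j‖ ≤ r/32` on `ball z_j s ∩ Ω` (`Ω` = the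
region, convex; `Fol.lift_near` with the constant lift).  Start: `a_0` = the foot of `F z_0` (`Fol.foot`), `η_0 = η₁`.  Step: `step` gives `ρ a_j (F z) ≤ √η_j` on
`ball z_j (s/2) ⊇ ball z_(j+1) (s/4)`, `a_(j+1)` = the foot of `F z_(j+1)` for `a_j` (`Tube.foot`): `‖a_(j+1) - a_j‖ ≤ r/8`,
`pd (F z_(j+1)) (g a_(j+1)) ≤ C √η_j ≤ ε/4` if `η₁` is small, `ρ a_(j+1) = ρ a_j` there (T2).  At the end `0 ∈ ball z_n (s/2)`: `w` = the foot of `F 0` for `a_n`:
`pd (F 0) (g w) ≤ C √η_n < ε`, and for `z ∈ Ω` near `0`: `‖ζ z - w‖ ≤ r/32 + r/8 ≤ r/2`.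
-/

set_option autoImplicit false

open Topology Filter Metric

namespace Pool.Agent.AD.F

open Pool.Agent.H36.BP (EN fs wd Sub Curve)
open Pool.Agent.H14.PP (IsCone Tan CurveAt)
open Pool.Agent.H22.W (PseudoLength)
open Pool.Agent.H62.EF (pr Lat)

variable {N : ℕ} {X : Set (EN N)}

namespace Setup

variable {S : Setup X}

private theorem step_pos {i : S.ι} {F : ℂ → EN N} {z₀ a : ℂ} {s η : ℝ} (hs : 0 < s) (hη : 0 < η) (hη1 : η ≤ 1) (hF : Curve X (ball z₀ s) F)
    (ha : ∀ z ∈ ball z₀ s, pd (F z) (S.g i a) < S.ε) (h : ∀ z ∈ ball z₀ (s / 4), S.ρ i a (F z) ≤ η) :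
    ∀ z ∈ ball z₀ (s / 2), S.ρ i a (F z) ≤ Real.sqrt η := by
  have hfol : S.Fol i (fun _ => a) F (ball z₀ s) := Fol.const ha
  have hRc : ContinuousOn (fun z => S.ρ i a (F z)) (ball z₀ s) := Fol.R_cont isOpen_ball hF hfol
  have hR0 : ∀ z, 0 ≤ S.ρ i a (F z) := fun z => (S.tube i).nonneg _ _
  have hR1 : ∀ z ∈ ball z₀ s, S.ρ i a (F z) ≤ 1 := fun z hz => Fol.R_le_one hF.2 hfol hz
  have hRsub : ∀ z ∈ ball z₀ s, 0 < S.ρ i a (F z) → Sub (fun z => S.ρ i a (F z)) z 0 := by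
    intro z hz hpos
    have h1 := Fol.R_sub_vel isOpen_ball hF hfol hz hpos
    refine h1.anti ?_
    have h2 := S.κ_pos
    have h3 := S.C_ge
    positivity
  have hlog4 : 0 < Real.log 4 := Real.log_pos (by norm_num)
  obtain ⟨τ, hτ⟩ : ∃ τ : ℝ, τ = -Real.log η / Real.log 4 := ⟨_, rfl⟩
  have hlη : Real.log η ≤ 0 := Real.log_nonpos hη.le hη1
  have hτ0 : 0 ≤ τ := by
    rw [hτ]
    exact div_nonneg (by linarith) hlog4.le
  have h4τ : (4 : ℝ) ^ τ = η⁻¹ := by
    rw [Real.rpow_def_of_pos (by norm_num), hτ, mul_div_cancel₀ _ hlog4.ne', Real.exp_neg, Real.exp_log hη]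
  have h2τ : ((1 : ℝ) / 2) ^ τ = Real.sqrt η := by
    have h1 : ((1 : ℝ) / 2) ^ τ * ((1 : ℝ) / 2) ^ τ = η := by
      rw [← Real.mul_rpow (by norm_num) (by norm_num), show (1 : ℝ) / 2 * (1 / 2) = 4⁻¹ by norm_num, Real.inv_rpow (by norm_num),
        h4τ, inv_inv]
    have h2 : 0 ≤ ((1 : ℝ) / 2) ^ τ := by positivity
    rw [← h1, Real.sqrt_mul_self h2]
  intro z hz
  rw [mem_ball_iff_norm] at hz
  rcases lt_or_ge ‖z - z₀‖ (s / 4) with hlt | hge
  · have h1 := h z (by rwa [mem_ball_iff_norm])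
    refine h1.trans ?_
    rw [Real.le_sqrt hη.le hη.le]
    nlinarith
  -- the circle of radius s/4
  have hcirc : ∀ w, ‖w - z₀‖ = s / 4 → S.ρ i a (F w) ≤ η := by
    intro w hw
    by_contra hcon
    push Not at hcon
    have hwb : w ∈ ball z₀ s := by
      rw [mem_ball_iff_norm, hw]
      linarith
    have hca : ContinuousAt (fun z => S.ρ i a (F z)) w := hRc.continuousAt (isOpen_ball.mem_nhds hwb)
    have h1 : ∀ᶠ y in 𝓝 w, η < S.ρ i a (F y) := hca.eventually_const_lt hcon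
    have h2 : w ∈ closure (ball z₀ (s / 4)) := by
      rw [closure_ball z₀ (by positivity), mem_closedBall_iff_norm, hw]
    obtain ⟨y, hy1, hy2⟩ := (mem_closure_iff_nhds.1 h2) _ h1
    have h3 := h y hy2
    have h4 : η < S.ρ i a (F y) := hy1
    linarith
  have key : ∀ t : ℝ, s / 2 < t → t < s → S.ρ i a (F z) * ‖(s : ℂ) / (z - z₀)‖ ^ τ ≤ (s / t) ^ τ := by
    intro t ht1 ht2
    have ht0 : 0 < t := by linarith
    have hst : 1 ≤ s / t := by
      rw [le_div_iff₀ ht0]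
      linarith
    have hA1 : 1 ≤ (s / t) ^ τ := Real.one_le_rpow hst hτ0
    obtain ⟨K, hK⟩ : ∃ K : Set ℂ, K = {w | s / 4 ≤ ‖w - z₀‖ ∧ ‖w - z₀‖ ≤ t} := ⟨_, rfl⟩
    obtain ⟨V, hV⟩ : ∃ V : Set ℂ, V = {w | s / 4 < ‖w - z₀‖ ∧ ‖w - z₀‖ < t} := ⟨_, rfl⟩
    have hcn : Continuous fun w : ℂ => ‖w - z₀‖ := by fun_prop
    have hKc : IsCompact K := by
      have h1 : K = closedBall z₀ t ∩ {w | s / 4 ≤ ‖w - z₀‖} := by
        rw [hK]
        ext w
        simp only [Set.mem_ofPred_eq, Set.mem_inter_iff, mem_closedBall_iff_norm]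
        tauto
      rw [h1]
      exact (isCompact_closedBall _ _).inter_right (isClosed_le continuous_const hcn)
    have hVo : IsOpen V := by
      rw [hV]
      exact (isOpen_lt continuous_const hcn).inter (isOpen_lt hcn continuous_const)
    have hKs : ∀ w ∈ K, w ∈ ball z₀ s := by
      intro w hw
      rw [hK] at hw
      rw [mem_ball_iff_norm]
      exact hw.2.trans_lt ht2
    have hKne : ∀ w ∈ K, w - z₀ ≠ 0 := by
      intro w hw h0
      rw [hK] at hw
      have := hw.1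
      rw [h0, norm_zero] at this
      linarith
    have hVK : V ⊆ K := by
      rw [hV, hK]
      exact fun w hw => ⟨hw.1.le, hw.2.le⟩
    have hns : ∀ w : ℂ, ‖(s : ℂ) / (w - z₀)‖ = s / ‖w - z₀‖ := by
      intro w
      rw [norm_div, Complex.norm_real, Real.norm_of_nonneg hs.le]
    have hcontu : ContinuousOn (fun w => S.ρ i a (F w) * ‖(s : ℂ) / (w - z₀)‖ ^ τ) K := by
      refine (hRc.mono hKs).mul ?_
      refine ContinuousOn.rpow_const ?_ (fun w hw => Or.inr hτ0)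
      refine ContinuousOn.norm ?_
      exact continuousOn_const.div (by fun_prop) hKne
    have hsubu : ∀ w ∈ V, 0 < S.ρ i a (F w) * ‖(s : ℂ) / (w - z₀)‖ ^ τ →
        Sub (fun w => S.ρ i a (F w) * ‖(s : ℂ) / (w - z₀)‖ ^ τ) w 0 := by
      intro w hw hpos
      have hne := hKne w (hVK hw)
      have hρ0 : 0 < S.ρ i a (F w) := by
        rcases (hR0 w).eq_or_lt with h0 | h0
        · rw [← h0, zero_mul] at hpos
          exact absurd hpos (lt_irrefl _)
        · exact h0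
      have h1 := hRsub w (hKs w (hVK hw)) hρ0
      have h2 : AnalyticAt ℂ (fun w : ℂ => (s : ℂ) / (w - z₀)) w := by
        refine analyticAt_const.div ?_ hne
        fun_prop
      have hs0 : (s : ℂ) ≠ 0 := by exact_mod_cast hs.ne'
      have h3 := (Sub.of_holo h2 (div_ne_zero hs0 hne)).rpow hτ0
      rw [mul_zero] at h3
      have h4 := h1.mul h3
      rw [add_zero] at h4
      exact h4
    have hbd : ∀ w ∈ K \ V, S.ρ i a (F w) * ‖(s : ℂ) / (w - z₀)‖ ^ τ ≤ (s / t) ^ τ := by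
      rintro w ⟨hwK, hwV⟩
      rw [hns w]
      have hw1 := hwK
      rw [hK] at hw1
      obtain ⟨hw1, hw2⟩ := hw1
      rw [hV] at hwV
      have hor : ‖w - z₀‖ = s / 4 ∨ ‖w - z₀‖ = t := by
        by_contra hno
        push Not at hno
        exact hwV ⟨lt_of_le_of_ne hw1 (Ne.symm hno.1), lt_of_le_of_ne hw2 hno.2⟩
      rcases hor with h1 | h1
      · rw [h1, show s / (s / 4) = 4 by field_simp, h4τ]
        have h2 := hcirc w h1
        calc S.ρ i a (F w) * η⁻¹ ≤ η * η⁻¹ := by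
              exact mul_le_mul_of_nonneg_right h2 (inv_nonneg.2 hη.le)
          _ = 1 := mul_inv_cancel₀ hη.ne'
          _ ≤ _ := hA1
      · rw [h1]
        have h2 := hR1 w (hKs w hwK)
        exact mul_le_of_le_one_left (by positivity) h2
    have hzK : z ∈ K := by
      rw [hK]
      exact ⟨hge, by linarith⟩
    exact sub_le hKc hVo hVK hcontu hsubu (by positivity) hbd z hzK
  have hlim : S.ρ i a (F z) * ‖(s : ℂ) / (z - z₀)‖ ^ τ ≤ 1 := by
    have h1 : Tendsto (fun t : ℝ => (s / t) ^ τ) (𝓝[<] s) (𝓝 ((s / s) ^ τ)) := by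
      have h2 : ContinuousAt (fun t : ℝ => (s / t) ^ τ) s := by
        refine ContinuousAt.rpow_const ?_ (Or.inr hτ0)
        exact continuousAt_const.div continuousAt_id hs.ne'
      exact h2.tendsto.mono_left nhdsWithin_le_nhds
    rw [div_self hs.ne', Real.one_rpow] at h1
    refine ge_of_tendsto h1 ?_
    have h3 : Set.Ioo (s / 2) s ∈ 𝓝[<] s := Ioo_mem_nhdsLT (by linarith)
    filter_upwards [h3] with t ht
    exact key t ht.1 ht.2
  have hzn : 0 < ‖z - z₀‖ := by linarith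
  rw [norm_div, Complex.norm_real, Real.norm_of_nonneg hs.le] at hlim
  have hq : 2 ≤ s / ‖z - z₀‖ := by
    rw [le_div_iff₀ hzn]
    linarith
  have h5 : (2 : ℝ) ^ τ ≤ (s / ‖z - z₀‖) ^ τ := Real.rpow_le_rpow (by norm_num) hq hτ0
  have h6 : S.ρ i a (F z) * (2 : ℝ) ^ τ ≤ 1 := (mul_le_mul_of_nonneg_left h5 (hR0 z)).trans hlim
  rw [← h2τ, Real.div_rpow (by norm_num) (by norm_num), Real.one_rpow, le_div_iff₀ (by positivity)]
  exact h6

theorem step {i : S.ι} {F : ℂ → EN N} {z₀ a : ℂ} {s η : ℝ} (hs : 0 < s) (hη : 0 ≤ η) (hη1 : η ≤ 1) (hF : Curve X (ball z₀ s) F)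
    (ha : ∀ z ∈ ball z₀ s, pd (F z) (S.g i a) < S.ε) (h : ∀ z ∈ ball z₀ (s / 4), S.ρ i a (F z) ≤ η) :
    ∀ z ∈ ball z₀ (s / 2), S.ρ i a (F z) ≤ Real.sqrt η := by
  rcases hη.eq_or_lt with h0 | h0
  · intro z hz
    have h1 : ∀ x ∈ Set.Ioc (0 : ℝ) 1, S.ρ i a (F z) ≤ Real.sqrt x := by
      intro x hx
      refine step_pos hs hx.1 hx.2 hF ha (fun w hw => ?_) z hz
      have := h w hw
      rw [← h0] at this
      exact this.trans hx.1.le
    rw [← h0]
    have h2 : Tendsto Real.sqrt (𝓝[>] 0) (𝓝 (Real.sqrt 0)) :=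
      (Real.continuous_sqrt.tendsto 0).mono_left nhdsWithin_le_nhds
    refine ge_of_tendsto h2 ?_
    filter_upwards [Ioc_mem_nhdsGT (zero_lt_one (α := ℝ))] with x hx
    exact h1 x hx
  · exact step_pos hs h0 hη1 hF ha h

/-- **(Q2)** -/
theorem exists_notBad (S : Setup X) : ∃ η : ℝ, 0 < η ∧ ∀ (i : S.ι) (ζ : ℂ → ℂ) (F : ℂ → EN N) (b : ℂ) (l : ℝ), ‖b‖ = 1 → 1 ≤ l →
    Curve X (ball 0 4) F → (∀ z ∈ ball (0 : ℂ) 4, vel S.ν F z ≤ 1) → S.Fol i ζ F (ball (-((l : ℂ) * b)) l ∩ ball 0 4) →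
    (∀ z ∈ ball (-b) (1 / 2), S.R i ζ F z ≤ η) → S.NotBad i ζ F (ball (-((l : ℂ) * b)) l ∩ ball 0 4) 0 := by
  have hε := S.ε_pos
  have hr := S.r_pos
  have hC := S.C_ge
  have hC0 : 0 < S.C := by linarith
  obtain ⟨θ, hθ⟩ : ∃ θ : ℝ, θ = min 1 (S.ε / (4 * S.C)) := ⟨_, rfl⟩
  have hθ0 : 0 < θ := by
    rw [hθ]
    exact lt_min one_pos (by positivity)
  have hθ1 : θ ≤ 1 := by rw [hθ]; exact min_le_left _ _
  have hθε : S.C * θ ≤ S.ε / 4 := by
    have h1 : θ ≤ S.ε / (4 * S.C) := by rw [hθ]; exact min_le_right _ _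
    rw [le_div_iff₀ (by positivity)] at h1
    linarith
  obtain ⟨m, hm⟩ := exists_nat_gt (max 16 (64 * S.C / S.ε))
  have hm16 : (16 : ℝ) < m := lt_of_le_of_lt (le_max_left _ _) hm
  have hmε : 64 * S.C / S.ε < m := lt_of_le_of_lt (le_max_right _ _) hm
  have hm0 : (0 : ℝ) < m := by linarith
  obtain ⟨s, hs⟩ : ∃ s : ℝ, s = 8 / m := ⟨_, rfl⟩
  have hs0 : 0 < s := by rw [hs]; positivity
  have hs2 : s ≤ 1 / 2 := by
    rw [hs, div_le_iff₀ hm0]
    linarith
  have hsm : (1 : ℝ) / m = s / 8 := by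
    rw [hs]
    field_simp
  have hsε : 2 * S.C * s ≤ S.ε / 4 := by
    rw [div_lt_iff₀ hε] at hmε
    rw [hs, mul_div_assoc', div_le_iff₀ hm0]
    linarith
  refine ⟨θ ^ (2 ^ m), by positivity, ?_⟩
  intro i ζ F b l hb hl hF hv hfol hR
  obtain ⟨Ω, hΩ⟩ : ∃ Ω : Set ℂ, Ω = ball (-((l : ℂ) * b)) l ∩ ball 0 4 := ⟨_, rfl⟩
  rw [← hΩ] at hfol ⊢
  have hΩo : IsOpen Ω := by rw [hΩ]; exact isOpen_ball.inter isOpen_ball
  have hΩc : Convex ℝ Ω := by rw [hΩ]; exact (convex_ball _ _).inter (convex_ball _ _)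
  have hb3 : ball (0 : ℂ) 3 ⊆ ball 0 4 := ball_subset_ball (by norm_num)
  have hFX : ∀ z ∈ ball (0 : ℂ) 3, F z ∈ X := fun z hz => hF.2 z (hb3 hz)
  have hfs : ∀ z ∈ ball (0 : ℂ) 3, fs (F z) (deriv F z) ≤ S.C := by
    intro z hz
    have hsub : ball z 1 ⊆ ball (0 : ℂ) 4 := by
      apply ball_subset_ball'
      rw [mem_ball] at hz
      linarith
    have h1 := S.fs_le one_pos (Curve.mono hF hsub) (B := 1) (fun w hw => hv w (hsub hw))
    rw [show max (1 : ℝ) (1 / 1) = 1 by norm_num, mul_one] at h1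
    exact h1
  have hlip : ∀ z ∈ ball (0 : ℂ) 3, ∀ w ∈ ball (0 : ℂ) 3, pd (F z) (F w) ≤ 2 * S.C * ‖z - w‖ := fun z hz w hw =>
    pd_lip isOpen_ball (convex_ball _ _) (hF.1.mono hb3) (fun z hz => S.cone.ne_zero (hFX z hz)) hfs hz hw
  obtain ⟨p, hp⟩ : ∃ p : ℕ → ℂ, ∀ j, p j = -(((1 - (j : ℝ) / m : ℝ) : ℂ) * b) := ⟨_, fun _ => rfl⟩
  have hpn : ∀ j : ℕ, j < m → ‖p j‖ = 1 - (j : ℝ) / m := by
    intro j hj
    have h1 : (j : ℝ) / m ≤ 1 := by
      rw [div_le_one hm0]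
      exact_mod_cast hj.le
    rw [hp, norm_neg, norm_mul, hb, mul_one, Complex.norm_real, Real.norm_of_nonneg (by linarith)]
  have hpball : ∀ j : ℕ, j < m → ball (p j) s ⊆ ball (0 : ℂ) 3 := by
    intro j hj
    apply ball_subset_ball'
    rw [dist_zero_right, hpn j hj]
    have : 0 ≤ (j : ℝ) / m := by positivity
    linarith
  have hpΩ : ∀ j : ℕ, j < m → p j ∈ Ω := by
    intro j hj
    have h1 : (j : ℝ) / m < 1 := by
      rw [div_lt_one hm0]
      exact_mod_cast hj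
    have h2 : 0 ≤ (j : ℝ) / m := by positivity
    rw [hΩ]
    constructor
    · rw [mem_ball_iff_norm, hp]
      have h3 : -(((1 - (j : ℝ) / m : ℝ) : ℂ) * b) - -((l : ℂ) * b) = ((l - (1 - (j : ℝ) / m) : ℝ) : ℂ) * b := by
        push_cast
        ring
      rw [h3, norm_mul, hb, mul_one, Complex.norm_real, Real.norm_of_nonneg (by linarith)]
      linarith
    · rw [mem_ball_zero_iff, hpn j hj]
      linarith
  have hpp : ∀ j : ℕ, ‖p (j + 1) - p j‖ = s / 8 := by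
    intro j
    rw [hp, hp]
    have h3 : -(((1 - ((j + 1 : ℕ) : ℝ) / m : ℝ) : ℂ) * b) - -(((1 - (j : ℝ) / m : ℝ) : ℂ) * b) = (((1 : ℝ) / m : ℝ) : ℂ) * b := by
      push_cast
      ring
    rw [h3, norm_mul, hb, mul_one, Complex.norm_real, hsm, Real.norm_of_nonneg (by positivity)]
  -- on a small ball the curve stays near a point of the curve `g i`
  have hnear : ∀ j : ℕ, j < m → ∀ a, pd (F (p j)) (S.g i a) ≤ S.ε / 4 → ∀ z ∈ ball (p j) s, pd (F z) (S.g i a) < S.ε := by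
    intro j hj a ha z hz
    have h1 := hlip z (hpball j hj hz) (p j) (hpball j hj (mem_ball_self hs0))
    rw [mem_ball_iff_norm] at hz
    have h2 : 2 * S.C * ‖z - p j‖ ≤ S.ε / 4 := by
      refine le_trans ?_ hsε
      gcongr
    have h3 := dist_triangle (pr (F z)) (pr (F (p j))) (pr (S.g i a))
    unfold pd at ha h1 ⊢
    linarith
  have hlift : ∀ j : ℕ, j < m → ∀ a, pd (F (p j)) (S.g i a) ≤ S.ε / 4 → ‖ζ (p j) - a‖ ≤ S.r →
      ∀ z ∈ ball (p j) s ∩ Ω, ‖ζ z - a‖ ≤ S.r / 32 := by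
    intro j hj a ha h0 z hz
    have hcv : Convex ℝ (ball (p j) s ∩ Ω) := (convex_ball _ _).inter hΩc
    have h1 : S.Fol i (fun _ => a) F (ball (p j) s ∩ Ω) := Fol.const fun z hz => hnear j hj a ha z hz.1
    have h2 := Fol.lift_near (isOpen_ball.inter hΩo) hcv.isPreconnected
      (Curve.mono hF fun z hz => hb3 (hpball j hj hz.1)) (hfol.mono Set.inter_subset_right) h1 (S.Λ i).zero_mem
      (z₀ := p j) ⟨mem_ball_self hs0, hpΩ j hj⟩ (by rw [sub_zero]; exact h0) hz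
    rwa [sub_zero] at h2
  have hpow : ∀ k : ℕ, θ ^ (2 ^ k) ≤ θ := fun k => pow_le_of_le_one hθ0.le hθ1 (by positivity)
  have main : ∀ j : ℕ, j < m → ∃ a : ℂ, pd (F (p j)) (S.g i a) ≤ S.ε / 4 ∧
      (∀ z ∈ ball (p j) (s / 4), S.ρ i a (F z) ≤ θ ^ (2 ^ (m - j))) ∧ ∀ z ∈ ball (p j) s ∩ Ω, ‖ζ z - a‖ ≤ S.r / 32 := by
    intro j
    induction j with
    | zero =>
      intro hj
      have hp0 : p 0 = -b := by
        rw [hp]
        simp
      have hmem : p 0 ∈ ball (-b) (1 / 2) := by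
        rw [hp0]
        exact mem_ball_self (by norm_num)
      obtain ⟨a, ha1, ha2⟩ := Fol.foot (fun z hz => hF.2 z (by rw [hΩ] at hz; exact hz.2)) hfol (hpΩ 0 hj)
      have h1 : pd (F (p 0)) (S.g i a) ≤ S.ε / 4 := by
        refine ha2.trans (le_trans ?_ hθε)
        exact mul_le_mul_of_nonneg_left ((hR _ hmem).trans (hpow m)) hC0.le
      have h2 : ‖ζ (p 0) - a‖ ≤ S.r := by
        rw [norm_sub_rev]
        linarith
      have h3 := hlift 0 hj a h1 h2
      refine ⟨a, h1, fun z hz => ?_, h3⟩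
      have hzb : z ∈ ball (-b) (1 / 2) := by
        rw [← hp0]
        exact ball_subset_ball (by linarith) hz
      have hzs : z ∈ ball (p 0) s := ball_subset_ball (by linarith) hz
      have hzΩ : z ∈ Ω := by
        rw [hΩ]
        constructor
        · rw [mem_ball_iff_norm] at hzb ⊢
          have h4 : z - -((l : ℂ) * b) = (z - -b) + ((l - 1 : ℝ) : ℂ) * b := by
            push_cast
            ring
          rw [h4]
          have h5 : ‖(z - -b) + ((l - 1 : ℝ) : ℂ) * b‖ ≤ ‖z - -b‖ + (l - 1) := by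
            refine (norm_add_le _ _).trans ?_
            rw [norm_mul, hb, mul_one, Complex.norm_real, Real.norm_of_nonneg (by linarith)]
          linarith
        · exact hb3 (hpball 0 hj hzs)
      have h4 := hR z hzb
      have h5 : S.ρ i a (F z) = S.R i ζ F z := by
        refine (S.tube i).indep a (ζ z) (F z) (hF.2 z (by rw [hΩ] at hzΩ; exact hzΩ.2)) ?_ (hnear 0 hj a h1 z hzs) (hfol.near z hzΩ)
        have := h3 z ⟨hzs, hzΩ⟩
        rw [norm_sub_rev]
        linarith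
      rw [h5, Nat.sub_zero]
      exact h4
    | succ j ih =>
      intro hj
      have hj' : j < m := by omega
      obtain ⟨a, ha1, ha2, ha3⟩ := ih hj'
      have hst := step (S := S) (i := i) (a := a) hs0 (by positivity : 0 ≤ θ ^ (2 ^ (m - j)))
        ((hpow _).trans hθ1) (Curve.mono hF fun z hz => hb3 (hpball j hj' hz)) (hnear j hj' a ha1) ha2
      have hsq : Real.sqrt (θ ^ (2 ^ (m - j))) = θ ^ (2 ^ (m - (j + 1))) := by
        have h1 : m - j = (m - (j + 1)) + 1 := by omega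
        rw [h1, pow_succ 2, pow_mul, Real.sqrt_sq (by positivity)]
      rw [hsq] at hst
      have hmem : p (j + 1) ∈ ball (p j) (s / 2) := by
        rw [mem_ball_iff_norm, hpp j]
        linarith
      have hmems : p (j + 1) ∈ ball (p j) s := ball_subset_ball (by linarith) hmem
      have hXj : F (p (j + 1)) ∈ X := hFX _ (hpball j hj' hmems)
      obtain ⟨w, hw1, hw2⟩ := (S.tube i).foot a (F (p (j + 1))) hXj (hnear j hj' a ha1 _ hmems)
      have h1 : pd (F (p (j + 1))) (S.g i w) ≤ S.ε / 4 := by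
        refine hw2.trans (le_trans ?_ hθε)
        exact mul_le_mul_of_nonneg_left ((hst _ hmem).trans (hpow _)) hC0.le
      have h2 : ‖ζ (p (j + 1)) - w‖ ≤ S.r := by
        have h3 := ha3 _ ⟨hmems, hpΩ _ hj⟩
        have h4 : ζ (p (j + 1)) - w = (ζ (p (j + 1)) - a) - (w - a) := by ring
        rw [h4]
        refine (norm_sub_le _ _).trans ?_
        linarith
      refine ⟨w, h1, fun z hz => ?_, hlift (j + 1) hj w h1 h2⟩
      have hzs : z ∈ ball (p (j + 1)) s := ball_subset_ball (by linarith) hz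
      have hzj : z ∈ ball (p j) (s / 2) := by
        rw [mem_ball_iff_norm] at hz ⊢
        have h3 : z - p j = (z - p (j + 1)) + (p (j + 1) - p j) := by ring
        rw [h3]
        refine lt_of_le_of_lt (norm_add_le _ _) ?_
        rw [hpp j]
        linarith
      have hzjs : z ∈ ball (p j) s := ball_subset_ball (by linarith) hzj
      have h5 : S.ρ i w (F z) = S.ρ i a (F z) :=
        (S.tube i).indep w a (F z) (hFX _ (hpball j hj' hzjs)) (by linarith) (hnear (j + 1) hj w h1 z hzs)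
          (hnear j hj' a ha1 z hzjs)
      rw [h5]
      exact hst z hzj
  -- the end
  have hmnat : 0 < m := by
    have : (0 : ℝ) < m := hm0
    exact_mod_cast this
  have hlast : m - 1 < m := by omega
  obtain ⟨a, ha1, ha2, ha3⟩ := main (m - 1) hlast
  have hst := step (S := S) (i := i) (a := a) hs0 (by positivity : 0 ≤ θ ^ (2 ^ (m - (m - 1))))
    ((hpow _).trans hθ1) (Curve.mono hF fun z hz => hb3 (hpball _ hlast hz)) (hnear _ hlast a ha1) ha2
  have hpl : ‖p (m - 1)‖ = s / 8 := by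
    rw [hpn _ hlast, ← hsm, Nat.cast_sub (by omega)]
    field_simp
    push_cast
    ring
  have h0mem : (0 : ℂ) ∈ ball (p (m - 1)) (s / 2) := by
    rw [mem_ball_iff_norm, zero_sub, norm_neg, hpl]
    linarith
  have h0mems : (0 : ℂ) ∈ ball (p (m - 1)) s := ball_subset_ball (by linarith) h0mem
  have h0X : F 0 ∈ X := hFX _ (hpball _ hlast h0mems)
  obtain ⟨w, hw1, hw2⟩ := (S.tube i).foot a (F 0) h0X (hnear _ hlast a ha1 _ h0mems)
  have hsq : Real.sqrt (θ ^ (2 ^ (m - (m - 1)))) ≤ θ := by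
    have h1 : m - (m - 1) = 1 := by omega
    rw [h1, pow_one, Real.sqrt_sq hθ0.le]
  refine ⟨s / 2, w, by positivity, ?_, ?_⟩
  · have h1 := mul_le_mul_of_nonneg_left ((hst 0 h0mem).trans hsq) hC0.le
    linarith
  · rintro z ⟨hzΩ, hz⟩
    have hzs : z ∈ ball (p (m - 1)) s := by
      rw [mem_ball_zero_iff] at hz
      rw [mem_ball_iff_norm]
      refine lt_of_le_of_lt (norm_sub_le _ _) ?_
      rw [hpl]
      linarith
    have h1 := ha3 z ⟨hzs, hzΩ⟩
    have h2 : ζ z - w = (ζ z - a) - (w - a) := by ring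
    rw [h2]
    refine (norm_sub_le _ _).trans ?_
    linarith

end Setup

end Pool.Agent.AD.F
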