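import Pool.Agent.AD.F.Fol
import Pool.Agent.H22.W.Mean

/-!
# AD F Cpt: compactness (Q1)

`exists_follow`: otherwise there are `R₀`, and curves `F k` on `ball 0 (k+1)` with speed `≤ 2`, speed `1` at `0`, such that for no `i`, `a`, `b` (`‖a‖ = 1`)
`pd (F k z) (g i (a z + b)) < ε` on `ball 0 R₀`.  By `Setup.fs_le` the derivative is bounded: `fs ≤ C * 2` (on `ball 0 k`).  `H62.EF.limit_curves` along the hyperfilter:
an entire limit `G` in `X`, `vel G ≤ 2`, `vel G 0 = 1` (as in `H22.W.exists_lipschitz`: `PseudoLength.lift_eq`, `PseudoLength.tendsto_curve`), so `vel G = 1`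
(`vel G ^ 2` is bounded, continuous and at most its means over circles: `H22.W.const_of_avg`, as in `H22.W.const_brody`).  `S.all`: `pr (G z) = pr (g i (a z + b))`.
`pr (F k z) → pr (G z)` pointwise and all are `4 C`-Lipschitz on `ball 0 (R₀+1)` (`pd_lip`), so uniformly on `ball 0 R₀`: contradiction.

`pd_lip`: `H62.EF.pr_lipschitz` or the derivative of `pr ∘ F`.
-/

set_option autoImplicit false

open Topology Filter Metric

namespace Pool.Agent.AD.F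

open Pool.Agent.H36.BP (EN fs wd Sub Curve)
open Pool.Agent.H14.PP (IsCone Tan CurveAt)
open Pool.Agent.H22.W (PseudoLength)
open Pool.Agent.H62.EF (pr Lat)

variable {N : ℕ} {X : Set (EN N)}

/-- the distance along a curve -/
theorem pd_lip {F : ℂ → EN N} {U : Set ℂ} (hU : IsOpen U) (hc : Convex ℝ U) (hF : DifferentiableOn ℂ F U) (h0 : ∀ z ∈ U, F z ≠ 0) {L : ℝ}
    (hL : ∀ z ∈ U, fs (F z) (deriv F z) ≤ L) {z w : ℂ} (hz : z ∈ U) (hw : w ∈ U) : pd (F z) (F w) ≤ 2 * L * ‖z - w‖ :=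
  Pool.Agent.H62.EF.pr_lipschitz hU hc hF h0 hL z hz w hw

/-- the speed of the limit of a sequence of curves -/
private theorem vel_limit (S : Setup X) {𝒰 : Ultrafilter ℕ} (F : ℕ → ℂ → EN N) (G : ℂ → EN N) (hG : Differentiable ℂ G)
    (hGX : ∀ z, G z ∈ X) (hρ : Tendsto (fun k : ℕ => (k : ℝ) + 1) 𝒰 atTop)
    (hF : ∀ k : ℕ, Curve X (ball 0 ((k : ℝ) + 2)) (F k))
    (hloc : ∀ z₀, ∃ (r : ℝ) (φ : ℕ → ℂ → EN N) (ψ : ℂ → EN N), 0 < r ∧
        (∀ᶠ n in (𝒰 : Filter ℕ), DifferentiableOn ℂ (φ n) (ball z₀ r) ∧ ∀ z ∈ ball z₀ r, ∃ c : ℂ, c ≠ 0 ∧ φ n z = c • F n z) ∧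
        DifferentiableOn ℂ ψ (ball z₀ r) ∧ (∀ z ∈ ball z₀ r, ∃ c : ℂ, c ≠ 0 ∧ ψ z = c • G z) ∧
        TendstoLocallyUniformlyOn φ ψ 𝒰 (ball z₀ r)) (z : ℂ) :
    Tendsto (fun k => vel S.ν (F k) z) 𝒰 (𝓝 (vel S.ν G z)) := by
  have hX := S.cone
  obtain ⟨r, φ, ψ, hr, hφ, hψ, hψG, hlim⟩ := hloc z
  have hnb : ball z r ∈ 𝓝 z := isOpen_ball.mem_nhds (mem_ball_self hr)
  have hψX : ∀ w ∈ ball z r, ψ w ∈ X := by
    intro w hw
    obtain ⟨c, hc, h3⟩ := hψG w hw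
    rw [h3]
    exact hX.smul_mem _ (hGX w) c hc
  have hsub : ∀ᶠ k : ℕ in (𝒰 : Filter ℕ), ball z r ⊆ ball 0 ((k : ℝ) + 2) := by
    filter_upwards [hρ.eventually_ge_atTop (‖z‖ + r)] with k hk
    apply ball_subset_ball'
    rw [dist_zero_right]
    linarith
  have hφX : ∀ᶠ k in (𝒰 : Filter ℕ), DifferentiableOn ℂ (φ k) (ball z r) ∧ ∀ w ∈ ball z r, φ k w ∈ X := by
    filter_upwards [hφ, hsub] with k hk hks
    refine ⟨hk.1, fun w hw => ?_⟩
    obtain ⟨c, hc, h3⟩ := hk.2 w hw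
    rw [h3]
    exact hX.smul_mem _ ((hF k).2 w (hks hw)) c hc
  have h3 := S.ν.tendsto_curve hr hφX hψ hψX hlim
  have h5 : S.ν.toFun (ψ z) (deriv ψ z) = vel S.ν G z := by
    refine S.ν.lift_eq hX ⟨hψ.analyticAt hnb, ?_⟩ ⟨hG.analyticAt z, Eventually.of_forall hGX⟩ ?_
    · filter_upwards [hnb] with w hw using hψX w hw
    · filter_upwards [hnb] with w hw using hψG w hw
  rw [h5] at h3
  refine h3.congr' ?_
  filter_upwards [hφ, hφX, hsub] with k hk hk2 hks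
  refine S.ν.lift_eq hX ⟨hk.1.analyticAt hnb, ?_⟩ (Curve.at isOpen_ball (hF k) (hks (mem_ball_self hr))) ?_
  · filter_upwards [hnb] with w hw using hk2.2 w hw
  · filter_upwards [hnb] with w hw using hk.2 w hw

/-- **(Q1)** -/
theorem Setup.exists_follow (S : Setup X) (R₀ : ℝ) : ∃ r₀ : ℝ, 0 < r₀ ∧ ∀ F : ℂ → EN N, Curve X (ball 0 r₀) F →
    (∀ z ∈ ball (0 : ℂ) r₀, vel S.ν F z ≤ 2) → vel S.ν F 0 = 1 → ∃ (i : S.ι) (a b : ℂ), ‖a‖ = 1 ∧
      S.Fol i (fun z => a * z + b) F (ball 0 R₀) := by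
  by_contra hcon
  push Not at hcon
  have hX := S.cone
  have hX0 : ∀ x ∈ X, x ≠ 0 := fun x hx => hX.ne_zero hx
  have hC : 1 ≤ S.C := S.C_ge
  have hseq : ∀ k : ℕ, ∃ F : ℂ → EN N, Curve X (ball 0 ((k : ℝ) + 2)) F ∧ (∀ z ∈ ball (0 : ℂ) ((k : ℝ) + 2), vel S.ν F z ≤ 2) ∧
      vel S.ν F 0 = 1 ∧ ∀ (i : S.ι) (a b : ℂ), ‖a‖ = 1 → ¬ S.Fol i (fun z => a * z + b) F (ball 0 R₀) :=
    fun k => hcon _ (by positivity)
  choose F hF hv hv0 hno using hseq
  have hfs : ∀ (k : ℕ), ∀ z ∈ ball (0 : ℂ) ((k : ℝ) + 1), fs (F k z) (deriv (F k) z) ≤ 2 * S.C := by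
    intro k z hz
    have hsub : ball z 1 ⊆ ball (0 : ℂ) ((k : ℝ) + 2) := by
      apply ball_subset_ball'
      rw [mem_ball] at hz
      linarith
    have h1 := S.fs_le one_pos (Curve.mono (hF k) hsub) (B := 2) (fun w hw => hv k w (hsub hw))
    rw [show max (2 : ℝ) (1 / 1) = 2 by norm_num] at h1
    linarith
  set 𝒰 : Ultrafilter ℕ := hyperfilter ℕ with h𝒰
  have hle : (𝒰 : Filter ℕ) ≤ atTop := Nat.hyperfilter_le_atTop
  have hρ : Tendsto (fun k : ℕ => (k : ℝ) + 1) 𝒰 atTop :=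
    (tendsto_atTop_add_const_right _ _ tendsto_natCast_atTop_atTop).mono_left hle
  have hsub1 : ∀ k : ℕ, ball (0 : ℂ) ((k : ℝ) + 1) ⊆ ball (0 : ℂ) ((k : ℝ) + 2) := fun k => ball_subset_ball (by linarith)
  obtain ⟨G, hG, hGX, hpr, hGfs, hloc⟩ := Pool.Agent.H62.EF.limit_curves hX (L := 2 * S.C) (by linarith) 𝒰 F (fun k : ℕ => (k : ℝ) + 1) hρ
    (Eventually.of_forall fun k => ⟨(hF k).1.mono (hsub1 k), fun z hz => ⟨(hF k).2 z (hsub1 k hz), hfs k z hz⟩⟩)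
  have hvel := vel_limit S F G hG hGX hρ hF hloc
  have hG2 : ∀ z, vel S.ν G z ≤ 2 := by
    intro z
    refine le_of_tendsto (hvel z) ?_
    filter_upwards [hρ.eventually_gt_atTop ‖z‖] with k hk
    exact hv k z (hsub1 k (by rwa [mem_ball_zero_iff]))
  have hG0 : ∀ z, 0 ≤ vel S.ν G z := fun z => S.ν.nonneg _ _ (Pool.Agent.H22.W.tan_entire hG hGX z)
  have hG1 : vel S.ν G 0 = 1 := by
    refine tendsto_nhds_unique (hvel 0) ?_
    simp only [hv0]
    exact tendsto_const_nhds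
  have hcont : Continuous fun z => vel S.ν G z ^ 2 := (S.ν.continuous_curve hG hGX).pow 2
  have hGone : ∀ z, vel S.ν G z = 1 := by
    intro z
    have h1 := Pool.Agent.H22.W.const_of_avg hcont (fun c r hr =>
        S.ν.curved Set.univ G isOpen_univ hG.differentiableOn (fun z _ => hGX z) c r hr (Set.subset_univ _))
      (fun z => sq_nonneg _) (K := 4) (fun t₀ => ⟨t₀, le_rfl,
        Real.circleAverage_mono_on_of_le_circle hcont.continuousOn.circleIntegrable' fun x _ => by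
          have h2 := hG2 x
          have h3 := hG0 x
          nlinarith⟩) z 0
    rw [hG1] at h1
    have h3 := hG0 z
    exact (pow_left_inj₀ h3 zero_le_one two_ne_zero).1 h1
  obtain ⟨i, a, b, ha, hprG⟩ := S.all G hG hGX hGone
  -- uniform convergence
  have hGfs2 : ∀ z, fs (G z) (deriv G z) ≤ 2 * S.C := by
    intro z
    refine le_of_tendsto (hGfs z) ?_
    filter_upwards [hρ.eventually_gt_atTop ‖z‖] with k hk
    exact hfs k z (by rwa [mem_ball_zero_iff])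
  have hGlip : ∀ z w, dist (pr (G z)) (pr (G w)) ≤ 4 * S.C * ‖z - w‖ := by
    intro z w
    have h1 := pd_lip isOpen_univ convex_univ hG.differentiableOn (fun z _ => hX0 _ (hGX z)) (fun z _ => hGfs2 z)
      (Set.mem_univ z) (Set.mem_univ w)
    unfold pd at h1
    linarith
  have hε := S.ε_pos
  have hr := S.r_pos
  obtain ⟨δ, hδ⟩ : ∃ δ : ℝ, δ = S.ε / (16 * S.C) := ⟨_, rfl⟩
  have hδ0 : 0 < δ := by rw [hδ]; positivity
  have hδ4 : 4 * S.C * δ = S.ε / 4 := by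
    rw [hδ]
    field_simp
    ring
  obtain ⟨t, htf, ht⟩ := Metric.totallyBounded_iff.1 (isCompact_closedBall (0 : ℂ) R₀).totallyBounded δ hδ0
  have hev1 : ∀ᶠ k in (𝒰 : Filter ℕ), ∀ c ∈ t, dist (pr (F k c)) (pr (G c)) < S.ε / 4 := by
    rw [htf.eventually_all (l := (𝒰 : Filter ℕ))]
    intro c _
    exact (tendsto_iff_dist_tendsto_zero.1 (hpr c)).eventually_lt_const (by positivity)
  have hev2 : ∀ᶠ k : ℕ in (𝒰 : Filter ℕ), ∀ c ∈ t, ‖c‖ < (k : ℝ) + 1 := by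
    rw [htf.eventually_all (l := (𝒰 : Filter ℕ))]
    intro c _
    exact hρ.eventually_gt_atTop _
  have hev3 : ∀ᶠ k : ℕ in (𝒰 : Filter ℕ), R₀ < (k : ℝ) + 1 := hρ.eventually_gt_atTop _
  obtain ⟨k, hk1, hk2, hk3⟩ := (hev1.and (hev2.and hev3)).exists
  refine hno k i a b ha ⟨?_, ?_⟩
  · intro z hz
    obtain ⟨c, hc, hzc⟩ := Set.mem_iUnion₂.1 (ht (ball_subset_closedBall hz))
    have hzk : z ∈ ball (0 : ℂ) ((k : ℝ) + 1) := by
      rw [mem_ball_zero_iff] at hz ⊢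
      linarith
    have hck : c ∈ ball (0 : ℂ) ((k : ℝ) + 1) := by
      rw [mem_ball_zero_iff]
      exact hk2 c hc
    have h1 := pd_lip isOpen_ball (convex_ball _ _) ((hF k).1.mono (hsub1 k)) (fun z hz => hX0 _ ((hF k).2 z (hsub1 k hz)))
      (hfs k) hzk hck
    have h2 := hGlip c z
    have h3 := hk1 c hc
    have h4 : ‖z - c‖ < δ := by rwa [mem_ball_iff_norm] at hzc
    have h5 : 4 * S.C * ‖z - c‖ ≤ S.ε / 4 := by
      rw [← hδ4]
      gcongr
    unfold pd at h1 ⊢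
    rw [← hprG z]
    have h6 := dist_triangle4 (pr (F k z)) (pr (F k c)) (pr (G c)) (pr (G z))
    rw [norm_sub_rev] at h2
    linarith
  · intro z _
    have hc : ContinuousAt (fun w : ℂ => ‖(a * w + b) - (a * z + b)‖) z := by fun_prop
    have h1 : (fun w : ℂ => ‖(a * w + b) - (a * z + b)‖) z < S.r / 8 := by
      simp only [sub_self, norm_zero]
      positivity
    filter_upwards [hc.eventually_lt_const h1] with w hw _
    exact hw.le

end Pool.Agent.AD.F
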