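import Pool.Agent.AD.F.Vel

/-!
# AD F Dbl: doubling

If `z` is not `s`-good, there is `z'` in `ball z (s / v z)` with `v z' > 2 v z`; continue: `‖z_(k+1) - z_k‖ < s / v z_k ≤ 2^(-k) s / v z`, so all `z_k` and the balls `ball z_k (s / v z_k)`
are in `closedBall z (2 s / v z)`, where `v` is bounded: the procedure stops.
-/

set_option autoImplicit false

open Topology Filter Metric

namespace Pool.Agent.AD.F

open Pool.Agent.H36.BP (EN fs wd Sub Curve)
open Pool.Agent.H14.PP (IsCone Tan CurveAt)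
open Pool.Agent.H22.W (PseudoLength)
open Pool.Agent.H62.EF (pr Lat)

variable {N : ℕ} {X : Set (EN N)}

theorem Setup.exists_good (S : Setup X) {F : ℂ → EN N} {U D : Set ℂ} (hU : IsOpen U) (hF : Curve X U F) (hDU : D ⊆ U) {s : ℝ} (hs : 0 < s) {z : ℂ}
    (hz : 0 < vel S.ν F z) (hD : closedBall z (2 * s / vel S.ν F z) ⊆ D) :
    ∃ w, ‖w - z‖ ≤ 2 * s / vel S.ν F z ∧ vel S.ν F z ≤ vel S.ν F w ∧ S.Good F D s w := by
  by_contra hcon
  push Not at hcon
  obtain ⟨v, hv⟩ : ∃ v : ℝ, v = vel S.ν F z := ⟨_, rfl⟩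
  rw [← hv] at hz hD hcon
  have key : ∀ n : ℕ, ∃ w, ‖w - z‖ ≤ (2 - 2 * (1 / 2 : ℝ) ^ n) * (s / v) ∧ 2 ^ n * v ≤ vel S.ν F w := by
    intro n
    induction n with
    | zero => exact ⟨z, by simp, by simp [hv]⟩
    | succ n ih =>
      obtain ⟨w, hw1, hw2⟩ := ih
      have hp : (0 : ℝ) < (1 / 2 : ℝ) ^ n := by positivity
      have hsv : 0 < s / v := by positivity
      have hw3 : ‖w - z‖ ≤ 2 * s / v := by
        refine hw1.trans ?_
        rw [mul_div_assoc]
        refine mul_le_mul_of_nonneg_right ?_ hsv.le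
        linarith
      have h2n : (1 : ℝ) ≤ 2 ^ n := one_le_pow₀ (by norm_num)
      have hw4 : v ≤ vel S.ν F w := le_trans (by nlinarith) hw2
      have hw0 : 0 < vel S.ν F w := lt_of_lt_of_le hz hw4
      have hng := hcon w hw3 hw4
      have hrad : s / vel S.ν F w ≤ (1 / 2 : ℝ) ^ n * (s / v) := by
        rw [div_le_iff₀ hw0]
        have h1 : (1 / 2 : ℝ) ^ n * (s / v) * (2 ^ n * v) = s := by
          rw [one_div, inv_pow]
          field_simp
        calc s = (1 / 2 : ℝ) ^ n * (s / v) * (2 ^ n * v) := h1.symm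
          _ ≤ (1 / 2 : ℝ) ^ n * (s / v) * vel S.ν F w := by
            refine mul_le_mul_of_nonneg_left hw2 (by positivity)
      have hdist : ∀ w' ∈ ball w (s / vel S.ν F w), ‖w' - z‖ ≤ (2 - 2 * (1 / 2 : ℝ) ^ (n + 1)) * (s / v) := by
        intro w' hw'
        rw [mem_ball, dist_eq_norm] at hw'
        have h3 : w' - z = (w' - w) + (w - z) := by ring
        have h4 : ‖w' - z‖ ≤ (1 / 2 : ℝ) ^ n * (s / v) + (2 - 2 * (1 / 2 : ℝ) ^ n) * (s / v) := by
          rw [h3]
          exact (norm_add_le _ _).trans (add_le_add (hw'.le.trans hrad) hw1)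
        have h5 : (1 / 2 : ℝ) ^ n * (s / v) + (2 - 2 * (1 / 2 : ℝ) ^ n) * (s / v) = (2 - 2 * (1 / 2 : ℝ) ^ (n + 1)) * (s / v) := by
          rw [pow_succ]
          ring
        linarith
      by_contra hno
      push Not at hno
      apply hng
      refine ⟨hw0, fun w' hw' => hD ?_, fun w' hw' => ?_⟩
      · rw [mem_closedBall, dist_eq_norm]
        refine (hdist w' hw').trans ?_
        rw [mul_div_assoc]
        refine mul_le_mul_of_nonneg_right ?_ hsv.le
        have : (0 : ℝ) < (1 / 2 : ℝ) ^ (n + 1) := by positivity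
        linarith
      · by_contra hlt
        push Not at hlt
        have h6 := hno w' (hdist w' hw')
        rw [pow_succ] at h6
        linarith
  have hcomp : IsCompact (closedBall z (2 * s / v)) := isCompact_closedBall _ _
  obtain ⟨B, hB⟩ := hcomp.exists_bound_of_continuousOn ((vel_cont S.ν hU hF).mono (hD.trans hDU))
  obtain ⟨n, hn⟩ := pow_unbounded_of_one_lt (B / v) (one_lt_two (α := ℝ))
  obtain ⟨w, hw1, hw2⟩ := key n
  have hsv : 0 < s / v := by positivity
  have hmem : w ∈ closedBall z (2 * s / v) := by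
    rw [mem_closedBall, dist_eq_norm, mul_div_assoc]
    refine hw1.trans (mul_le_mul_of_nonneg_right ?_ hsv.le)
    have : (0 : ℝ) < (1 / 2 : ℝ) ^ n := by positivity
    linarith
  have h7 := (le_abs_self _).trans (hB w hmem)
  rw [div_lt_iff₀ hz] at hn
  linarith

end Pool.Agent.AD.F
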