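import Pool.Agent.AD.F.Fol

/-!
# AD F Ext: extension of the lift

`Fol.extend`: for `b` on the circle `sphere c d` let `δ_b`, `w_b` be as in `NotBad`, `δ_b` so small that `pd (F z) (g w_b) < ε` on `ball b δ_b ⊆ ball c D`.
On the convex set `ball c d ∩ ball b δ_b` the curve follows `ζ` and the constant `w_b` (`Fol.const`), so `‖ζ - w_b‖ ≤ r/32` there (`Fol.lift_near`, `l = 0`).
If `ball b (δ_b/4)` and `ball b' (δ_b'/4)` meet (`δ_b' ≤ δ_b`), then `b' ∈ ball b (δ_b/2)`, so near `b'` there are points of `ball c d` in both `ball b δ_b`, `ball b' δ_b'`, so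
`‖w_b - w_b'‖ ≤ r/16`, hence `≤ r/32` (`near_of_near`).  Take a finite cover of the circle by the `ball b (δ_b/4)`; let `ζ' = ζ` on `ball c d`, and
`ζ' z = w_b` for a chosen `b = b(z)` of the cover with `z ∈ ball b (δ_b/4)` outside.  The jumps are at most `r/8`.  The open set
`ball c d ∪ ⋃ ball b (δ_b/4)` contains `closedBall c d`, so a larger ball.

`exists_max_ext`: `Σ = {d ∈ [d₀, D] | ∃ ζ', Fol on ball c d, ζ' = ζ on ball c d₀}`, `s = sup Σ`.  `s ∈ Σ`: let `d_k ∈ Σ` increase to `s` (if `s ∉ Σ`, strictly, `d_0` the given one), lifts `ζ_k`;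
`‖ζ_k - ζ_m‖ ≤ r/32` on `ball c (min d_k d_m)` (`Fol.lift_near`); let `ζ' z = ζ_k z` for the first `k` with `z ∈ ball c d_k`: jumps `≤ r/32 + r/16` by `Fol.coarse'`.
If `s < D` and no point of the circle is bad, `Fol.extend` contradicts the maximality.
-/

set_option autoImplicit false

open Topology Filter Metric

namespace Pool.Agent.AD.F

open Pool.Agent.H36.BP (EN fs wd Sub Curve)
open Pool.Agent.H14.PP (IsCone Tan CurveAt)
open Pool.Agent.H22.W (PseudoLength)
open Pool.Agent.H62.EF (pr Lat)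

variable {N : ℕ} {X : Set (EN N)}

namespace Setup

variable {S : Setup X} {i : S.ι} {ζ : ℂ → ℂ} {F : ℂ → EN N}

/-- change of the scale -/
theorem NotBad.of_affine {U V : Set ℂ} {a c b : ℂ} (ha : a ≠ 0) (hUV : ∀ z, c + a * z ∈ U → z ∈ V)
    (h : S.NotBad i (fun z => ζ (c + a * z)) (fun z => F (c + a * z)) V b) : S.NotBad i ζ F U (c + a * b) := by
  obtain ⟨δ, w, hδ, h1, h2⟩ := h
  refine ⟨δ * ‖a‖, w, mul_pos hδ (norm_pos_iff.2 ha), h1, ?_⟩
  rintro y ⟨hy, hyb⟩
  have e : c + a * ((y - c) / a) = y := by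
    field_simp
    ring
  have h3 := h2 ((y - c) / a) ⟨hUV _ (by rw [e]; exact hy), by
    rw [mem_ball_iff_norm] at hyb ⊢
    have e2 : (y - c) / a - b = (y - (c + a * b)) / a := by
      field_simp
      ring
    rw [e2, norm_div, div_lt_iff₀ (norm_pos_iff.2 ha)]
    exact hyb⟩
  simp only [e] at h3
  exact h3

/-- **(Ext)** -/
theorem Fol.extend {c : ℂ} {d D : ℝ} (hd : 0 < d) (hD : d < D) (hF : Curve X (ball c D) F) (h : S.Fol i ζ F (ball c d))
    (hb : ∀ b, ‖b - c‖ = d → S.NotBad i ζ F (ball c d) b) :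
    ∃ (d' : ℝ) (ζ' : ℂ → ℂ), d < d' ∧ d' ≤ D ∧ S.Fol i ζ' F (ball c d') ∧ ∀ z ∈ ball c d, ζ' z = ζ z := by
  classical
  have hr := S.r_pos
  have hpt : ∀ b : ℂ, ∃ (δ : ℝ) (w : ℂ), 0 < δ ∧ (‖b - c‖ = d → (∀ z ∈ ball b δ, pd (F z) (S.g i w) < S.ε) ∧
      ∀ z ∈ ball c d ∩ ball b δ, ‖ζ z - w‖ ≤ S.r / 32) := by
    intro b
    by_cases hbd : ‖b - c‖ = d
    · obtain ⟨δ, w, hδ, h1, h2⟩ := hb b hbd
      have hbD : b ∈ ball c D := by
        rw [mem_ball_iff_norm, hbd]
        exact hD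
      have h3 := F_pd_tendsto S isOpen_ball hF hbD (sub_pos.2 h1)
      obtain ⟨δ', hδ', h4⟩ := Metric.eventually_nhds_iff_ball.1 h3
      refine ⟨min δ δ', w, lt_min hδ hδ', fun _ => ⟨fun z hz => ?_, fun z hz => ?_⟩⟩
      · have h5 := (h4 z (ball_subset_ball (min_le_right _ _) hz)).2
        have h6 := F_pd_triangle (F z) (F b) (S.g i w)
        linarith
      · have h5 := (h4 z (ball_subset_ball (min_le_right _ _) hz.2)).2
        have h6 := F_pd_triangle (F z) (F b) (S.g i w)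
        have h7 := h2 z ⟨hz.1, ball_subset_ball (min_le_left _ _) hz.2⟩
        exact near_of_near (by linarith) (h.near z hz.1) (by linarith)
    · exact ⟨1, 0, one_pos, fun h => absurd h hbd⟩
  choose δ w hδ hw using hpt
  -- two balls which meet
  have hcmp : ∀ b b' : ℂ, ‖b - c‖ = d → ‖b' - c‖ = d → δ b' ≤ δ b → ∀ z, z ∈ ball b (δ b / 4) → z ∈ ball b' (δ b' / 4) →
      ‖w b - w b'‖ ≤ S.r / 16 := by
    intro b b' h1 h2 h3 z hz hz'
    have h4 : ‖b' - b‖ < δ b / 2 := by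
      rw [mem_ball_iff_norm] at hz hz'
      have e : b' - b = (z - b) - (z - b') := by ring
      rw [e]
      have := norm_sub_le (z - b) (z - b')
      linarith
    -- a point of the ball near `b'`
    obtain ⟨t, ht⟩ : ∃ t : ℝ, t = min (δ b' / 2) (min (δ b / 4) (d / 2)) := ⟨_, rfl⟩
    have ht0 : 0 < t := by
      rw [ht]
      exact lt_min (half_pos (hδ b')) (lt_min (by linarith [hδ b]) (half_pos hd))
    have ht1 : t ≤ δ b' / 2 := by rw [ht]; exact min_le_left _ _
    have ht2 : t ≤ δ b / 4 := by rw [ht]; exact (min_le_right _ _).trans (min_le_left _ _)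
    have ht3 : t ≤ d / 2 := by rw [ht]; exact (min_le_right _ _).trans (min_le_right _ _)
    obtain ⟨y, hy⟩ : ∃ y : ℂ, y = c + ((1 - t / d : ℝ) : ℂ) * (b' - c) := ⟨_, rfl⟩
    have hy1 : ‖y - b'‖ = t := by
      have e : y - b' = ((-(t / d) : ℝ) : ℂ) * (b' - c) := by
        rw [hy]
        push_cast
        ring
      rw [e, norm_mul, Complex.norm_real, h2, norm_neg, Real.norm_of_nonneg (by positivity)]
      field_simp
    have hy2 : ‖y - c‖ < d := by
      have e : y - c = ((1 - t / d : ℝ) : ℂ) * (b' - c) := by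
        rw [hy]
        ring
      have h5 : t / d ≤ 1 := by
        rw [div_le_one hd]
        linarith
      rw [e, norm_mul, Complex.norm_real, h2, Real.norm_of_nonneg (by linarith)]
      have h6 : (1 - t / d) * d = d - t := by
        field_simp
      rw [h6]
      linarith
    have h5 := (hw b h1).2 y ⟨mem_ball_iff_norm.2 hy2, by
      rw [mem_ball_iff_norm]
      have e : y - b = (y - b') + (b' - b) := by ring
      rw [e]
      have := norm_add_le (y - b') (b' - b)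
      linarith [hδ b]⟩
    have h6 := (hw b' h2).2 y ⟨mem_ball_iff_norm.2 hy2, by
      rw [mem_ball_iff_norm, hy1]
      linarith [hδ b']⟩
    have e : w b - w b' = (ζ y - w b') - (ζ y - w b) := by ring
    rw [e]
    have := norm_sub_le (ζ y - w b') (ζ y - w b)
    linarith
  -- the cover
  have hcomp : IsCompact (sphere c d) := isCompact_sphere c d
  obtain ⟨t, ht1, ht2⟩ := hcomp.elim_nhds_subcover (fun b => ball b (δ b / 4)) (fun b _ =>
    ball_mem_nhds b (by linarith [hδ b]))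
  have hVo : IsOpen (ball c d ∪ ⋃ b ∈ t, ball b (δ b / 4)) :=
    isOpen_ball.union (isOpen_biUnion fun b _ => isOpen_ball)
  have hsub : closedBall c d ⊆ ball c d ∪ ⋃ b ∈ t, ball b (δ b / 4) := by
    intro z hz
    rcases lt_or_eq_of_le (mem_closedBall.1 hz) with h1 | h1
    · exact Or.inl (mem_ball.2 h1)
    · exact Or.inr (ht2 (mem_sphere.2 h1))
  obtain ⟨e, he, hthick⟩ := (isCompact_closedBall c d).exists_thickening_subset_open hVo hsub
  have hball : ball c (d + e) ⊆ ball c d ∪ ⋃ b ∈ t, ball b (δ b / 4) := by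
    refine Set.Subset.trans ?_ hthick
    rw [thickening_closedBall he hd.le]
    exact ball_subset_ball (by linarith)
  obtain ⟨f, hf⟩ : ∃ f : ℂ → ℂ, f = fun z => if z ∈ ball c d then ζ z else
      if h : ∃ b, b ∈ t ∧ z ∈ ball b (δ b / 4) then w h.choose else 0 := ⟨_, rfl⟩
  have hf1 : ∀ z ∈ ball c d, f z = ζ z := by
    intro z hz
    rw [hf]
    exact if_pos hz
  have hf2 : ∀ z, z ∉ ball c d → z ∈ ball c (d + e) → ∃ b, ‖b - c‖ = d ∧ z ∈ ball b (δ b / 4) ∧ f z = w b := by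
    intro z hz1 hz2
    have h1 := (hball hz2).resolve_left hz1
    simp only [Set.mem_iUnion, exists_prop] at h1
    refine ⟨h1.choose, mem_sphere_iff_norm.1 (ht1 _ h1.choose_spec.1), h1.choose_spec.2, ?_⟩
    rw [hf]
    simp only [if_neg hz1]
    rw [dif_pos h1]
  refine ⟨min (d + e) D, f, lt_min (by linarith) hD, min_le_right _ _, ⟨?_, ?_⟩, hf1⟩
  · intro z hz
    have hz' := ball_subset_ball (min_le_left (d + e) D) hz
    by_cases h1 : z ∈ ball c d
    · rw [hf1 z h1]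
      exact h.near z h1
    · obtain ⟨b, h2, h3, h4⟩ := hf2 z h1 hz'
      rw [h4]
      exact (hw b h2).1 z (ball_subset_ball (by linarith [hδ b]) h3)
  · intro z hz
    have hz' := ball_subset_ball (min_le_left (d + e) D) hz
    by_cases h1 : z ∈ ball c d
    · filter_upwards [h.coarse z h1, isOpen_ball.mem_nhds h1] with v h2 h3 _
      rw [hf1 z h1, hf1 v h3]
      exact h2 h3
    · obtain ⟨b, h2, h3, h4⟩ := hf2 z h1 hz'
      filter_upwards [isOpen_ball.mem_nhds h3] with v h5 h6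
      have h6' := ball_subset_ball (min_le_left (d + e) D) h6
      rw [h4]
      by_cases h7 : v ∈ ball c d
      · rw [hf1 v h7]
        have := (hw b h2).2 v ⟨h7, ball_subset_ball (by linarith [hδ b]) h5⟩
        linarith
      · obtain ⟨b', h8, h9, h10⟩ := hf2 v h7 h6'
        rw [h10]
        rcases le_total (δ b') (δ b) with h11 | h11
        · have := hcmp b b' h2 h8 h11 v h5 h9
          rw [norm_sub_rev] at this
          linarith
        · have := hcmp b' b h8 h2 h11 v h9 h5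
          linarith

/-- a maximal extension -/
theorem Fol.exists_max_ext {c : ℂ} {d₀ D D' : ℝ} (hd : 0 < d₀) (hD : d₀ ≤ D) (hD' : D < D') (hF : Curve X (ball c D') F)
    (h : S.Fol i ζ F (ball c d₀)) : ∃ (d : ℝ) (ζ' : ℂ → ℂ), d₀ ≤ d ∧ d ≤ D ∧ S.Fol i ζ' F (ball c d) ∧ (∀ z ∈ ball c d₀, ζ' z = ζ z) ∧
      (d = D ∨ ∃ b, ‖b - c‖ = d ∧ ¬ S.NotBad i ζ' F (ball c d) b) := by
  classical
  have hr := S.r_pos
  obtain ⟨Q, hQ⟩ : ∃ Q : ℝ → Prop, Q = fun e => d₀ ≤ e ∧ e ≤ D ∧
      ∃ ζ' : ℂ → ℂ, S.Fol i ζ' F (ball c e) ∧ ∀ z ∈ ball c d₀, ζ' z = ζ z := ⟨_, rfl⟩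
  have hQ0 : Q d₀ := by
    rw [hQ]
    exact ⟨le_rfl, hD, ζ, h, fun z _ => rfl⟩
  have hbdd : BddAbove {e | Q e} := ⟨D, fun e he => by
    have h1 : Q e := he
    rw [hQ] at h1
    exact h1.2.1⟩
  obtain ⟨s, hs⟩ : ∃ s : ℝ, s = sSup {e | Q e} := ⟨_, rfl⟩
  have hs0 : d₀ ≤ s := by
    rw [hs]
    exact le_csSup hbdd hQ0
  have hsD : s ≤ D := by
    rw [hs]
    refine csSup_le ⟨d₀, hQ0⟩ fun e he => ?_
    have h1 : Q e := he
    rw [hQ] at h1
    exact h1.2.1
  -- the lifts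
  have hex : ∀ e : ℝ, ∃ ζ' : ℂ → ℂ, Q e → S.Fol i ζ' F (ball c e) ∧ ∀ z ∈ ball c d₀, ζ' z = ζ z := by
    intro e
    by_cases h1 : Q e
    · have h2 := h1
      rw [hQ] at h2
      obtain ⟨-, -, ζ', h3, h4⟩ := h2
      exact ⟨ζ', fun _ => ⟨h3, h4⟩⟩
    · exact ⟨0, fun h2 => absurd h2 h1⟩
  choose Z hZ using hex
  have hexd : ∀ z : ℂ, ∃ e : ℝ, z ∈ ball c s → Q e ∧ z ∈ ball c e := by
    intro z
    by_cases h1 : z ∈ ball c s
    · rw [mem_ball, hs] at h1
      obtain ⟨e, he, h2⟩ := exists_lt_of_lt_csSup ⟨d₀, hQ0⟩ h1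
      exact ⟨e, fun _ => ⟨he, mem_ball.2 h2⟩⟩
    · exact ⟨0, fun h2 => absurd h2 h1⟩
  choose E hE using hexd
  have hFb : ∀ e, Q e → Curve X (ball c e) F := by
    intro e he
    rw [hQ] at he
    exact Curve.mono hF (ball_subset_ball (by linarith [he.2.1]))
  -- two lifts
  have hcmp : ∀ e e' : ℝ, Q e → Q e' → ∀ z ∈ ball c e ∩ ball c e', ‖Z e z - Z e' z‖ ≤ S.r / 32 := by
    intro e e' he he' z hz
    have he1 : d₀ ≤ e := by rw [hQ] at he; exact he.1
    have he1' : d₀ ≤ e' := by rw [hQ] at he'; exact he'.1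
    have h1 := (hZ e he).1.mono (V := ball c (min e e')) (ball_subset_ball (min_le_left _ _))
    have h2 := (hZ e' he').1.mono (V := ball c (min e e')) (ball_subset_ball (min_le_right _ _))
    have hc0 : c ∈ ball c d₀ := mem_ball_self hd
    have h3 := h1.lift_near isOpen_ball (convex_ball c _).isPreconnected
      (Curve.mono (hFb e he) (ball_subset_ball (min_le_left _ _))) h2 (S.Λ i).zero_mem
      (z₀ := c) (mem_ball_self (lt_min (by linarith) (by linarith))) (by
        rw [(hZ e he).2 c hc0, (hZ e' he').2 c hc0, sub_self, sub_zero, norm_zero]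
        exact hr.le) (z := z) (by
        rw [mem_ball]
        exact lt_min (mem_ball.1 hz.1) (mem_ball.1 hz.2))
    rw [sub_zero] at h3
    exact h3
  have hQs : Q s := by
    rw [hQ]
    refine ⟨hs0, hsD, fun z => if z ∈ ball c d₀ then ζ z else Z (E z) z, ⟨?_, ?_⟩, fun z hz => if_pos hz⟩
    · intro z hz
      split_ifs with h1
      · exact h.near z h1
      · obtain ⟨h2, h3⟩ := hE z hz
        exact (hZ _ h2).1.near z h3
    · intro z hz
      -- the value is that of a lift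
      have hval : ∀ v ∈ ball c s, ∃ e, Q e ∧ v ∈ ball c e ∧ (if v ∈ ball c d₀ then ζ v else Z (E v) v) = Z e v := by
        intro v hv
        by_cases h1 : v ∈ ball c d₀
        · exact ⟨d₀, hQ0, h1, by rw [if_pos h1, (hZ d₀ hQ0).2 v h1]⟩
        · exact ⟨E v, (hE v hv).1, (hE v hv).2, by rw [if_neg h1]⟩
      obtain ⟨e, he, hze, hval0⟩ := hval z hz
      filter_upwards [(hZ e he).1.coarse' isOpen_ball (hFb e he) hze, isOpen_ball.mem_nhds hze] with v h1 h2 h3
      obtain ⟨e', he', hve', hval1⟩ := hval v h3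
      rw [hval0, hval1]
      have h4 := hcmp e' e he' he v ⟨hve', h2⟩
      have e1 : Z e' v - Z e z = (Z e' v - Z e v) + (Z e v - Z e z) := by ring
      rw [e1]
      have := norm_add_le (Z e' v - Z e v) (Z e v - Z e z)
      linarith
  obtain ⟨h1, h2⟩ := hZ s hQs
  refine ⟨s, Z s, hs0, hsD, h1, h2, ?_⟩
  by_contra hcon
  push Not at hcon
  obtain ⟨hne, hnb⟩ := hcon
  have hlt : s < D := lt_of_le_of_ne hsD hne
  obtain ⟨d', ζ'', h3, h4, h5, h6⟩ := h1.extend (by linarith) hlt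
    (Curve.mono hF (ball_subset_ball hD'.le)) hnb
  have h7 : Q d' := by
    rw [hQ]
    refine ⟨by linarith, h4, ζ'', h5, fun z hz => ?_⟩
    rw [h6 z (ball_subset_ball hs0 hz), h2 z hz]
  have h8 : d' ≤ s := by
    rw [hs]
    exact le_csSup hbdd h7
  linarith

end Setup

end Pool.Agent.AD.F
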