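import Pool.Agent.AD.F.PotC

/-!
# AD F Fol: curves which follow a curve of the family

All statements use only: `64 C ε ≤ r`, `C ≥ 1`, the properties of `Tube`, and the continuity of `z ↦ pr (F z)` (`H62.EF.continuousAt_pr`).

* `near_of_near` (T5): `‖a - b‖ ≤ C pd (g a) (g b) < 2 C ε ≤ r / 32`.
* `Fol.coarse'`: for `w` near `z`: `‖ζ w - ζ z‖ ≤ r / 8 ≤ 4 r`, so by (T5) `≤ C (pd (g ζw) (F w) + pd (F w) (F z) + pd (F z) (g ζz)) < C (2 ε + small)`.
* `Fol.lift_near` (F1): `A = {z ∈ U | ‖ζ z - ζ' z - l‖ ≤ r}` is open and closed in `U`: on `A` the distance is `≤ r / 32` (`near_of_near`, and the period `l`),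
  and `ζ`, `ζ'` change at most by `r / 8` near a point.
* `Fol.R_congr`: (T2) and (T4).
* `Fol.glue` (F2): on `U` the lift `ζ`, on `U' \ U` the lift `ζ'`; the jump is at most `r / 32 + r / 16` (`Fol.coarse'`).
* `Fol.R_cont`, `Fol.R_sub`: near `z₀` the function is `ρ (ζ z₀) (F z)` (T2), and (T3).
-/

set_option autoImplicit false

open Topology Filter Metric

namespace Pool.Agent.AD.F

open Pool.Agent.H36.BP (EN fs wd Sub Curve)
open Pool.Agent.H14.PP (IsCone Tan CurveAt)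
open Pool.Agent.H22.W (PseudoLength)
open Pool.Agent.H62.EF (pr Lat)

variable {N : ℕ} {X : Set (EN N)}

theorem F_pd_comm (x y : EN N) : pd x y = pd y x := dist_comm _ _

theorem F_pd_triangle (x y z : EN N) : pd x z ≤ pd x y + pd y z := dist_triangle _ _ _

theorem F_pd_self (x : EN N) : pd x x = 0 := dist_self _

theorem F_pd_per {S : Setup X} {i : S.ι} {l : ℂ} (hl : l ∈ S.Λ i) (x : EN N) (a : ℂ) :
    pd x (S.g i (a + l)) = pd x (S.g i a) := by
  unfold pd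
  rw [S.per i l hl a]

/-- the points of projective space given by a curve vary continuously -/
theorem F_pd_tendsto (S : Setup X) {U : Set ℂ} (hU : IsOpen U) {F : ℂ → EN N} (hF : Curve X U F) {z : ℂ} (hz : z ∈ U)
    {e : ℝ} (he : 0 < e) : ∀ᶠ w in 𝓝 z, w ∈ U ∧ pd (F w) (F z) < e := by
  have h0 : F z ≠ 0 := fun h => S.cone.zero_notMem (h ▸ hF.2 z hz)
  have h1 : ContinuousAt F z := (hF.1.differentiableAt (hU.mem_nhds hz)).continuousAt
  have h2 : ContinuousAt (fun w => pr (F w)) z :=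
    ContinuousAt.comp (g := pr) (f := F) (Pool.Agent.H62.EF.continuousAt_pr h0) h1
  filter_upwards [hU.mem_nhds hz, Metric.continuousAt_iff'.1 h2 e he] with w h3 h4 using ⟨h3, h4⟩

namespace Setup

variable {S : Setup X} {i j : S.ι} {ζ ζ' : ℂ → ℂ} {F : ℂ → EN N} {U V : Set ℂ}

theorem near_of_near {x : EN N} {a b : ℂ} (h : ‖a - b‖ ≤ 4 * S.r) (ha : pd x (S.g i a) < S.ε) (hb : pd x (S.g i b) < S.ε) :
    ‖a - b‖ ≤ S.r / 32 := by
  have h1 := (S.tube i).inj a b h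
  have h2 : pd (S.g i a) (S.g i b) ≤ pd x (S.g i a) + pd x (S.g i b) := by
    have := F_pd_triangle (S.g i a) x (S.g i b)
    rw [F_pd_comm (S.g i a) x] at this
    exact this
  have h3 := S.small
  have h4 := S.C_ge
  have h5 : S.C * pd (S.g i a) (S.g i b) ≤ S.C * (2 * S.ε) :=
    mul_le_mul_of_nonneg_left (by linarith) (by linarith)
  linarith

theorem Fol.mono (h : S.Fol i ζ F U) (hV : V ⊆ U) : S.Fol i ζ F V := by
  refine ⟨fun z hz => h.near z (hV hz), fun z hz => ?_⟩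
  filter_upwards [h.coarse z (hV hz)] with w hw hwV using hw (hV hwV)

/-- change of the variable -/
theorem Fol.comp (h : S.Fol i ζ F U) {φ : ℂ → ℂ} (hV : IsOpen V) (hφ : ContinuousOn φ V) (hm : Set.MapsTo φ V U) :
    S.Fol i (fun z => ζ (φ z)) (fun z => F (φ z)) V := by
  refine ⟨fun z hz => h.near (φ z) (hm hz), fun z hz => ?_⟩
  have h1 : ContinuousAt φ z := hφ.continuousAt (hV.mem_nhds hz)
  filter_upwards [h1.eventually (h.coarse (φ z) (hm hz))] with w hw hwV using hw (hm hwV)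

theorem Fol.add_period (h : S.Fol i ζ F U) {l : ℂ} (hl : l ∈ S.Λ i) : S.Fol i (fun z => ζ z + l) F U := by
  refine ⟨fun z hz => ?_, fun z hz => ?_⟩
  · rw [F_pd_per hl]
    exact h.near z hz
  · filter_upwards [h.coarse z hz] with w hw hwU
    rw [add_sub_add_right_eq_sub]
    exact hw hwU

theorem Fol.const {w : ℂ} (h : ∀ z ∈ U, pd (F z) (S.g i w) < S.ε) : S.Fol i (fun _ => w) F U := by
  refine ⟨h, fun z _ => Filter.Eventually.of_forall fun w _ => ?_⟩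
  rw [sub_self, norm_zero]
  have := S.r_pos
  linarith

theorem Fol.coarse' (hU : IsOpen U) (hF : Curve X U F) (h : S.Fol i ζ F U) {z : ℂ} (hz : z ∈ U) :
    ∀ᶠ w in 𝓝 z, ‖ζ w - ζ z‖ ≤ S.r / 16 := by
  have hr := S.r_pos
  have hs := S.small
  have hC := S.C_ge
  filter_upwards [h.coarse z hz, F_pd_tendsto S hU hF hz S.ε_pos] with w h1 h2
  have h3 := h1 h2.1
  have h4 := (S.tube i).inj (ζ w) (ζ z) (by linarith)
  have h5 := h.near w h2.1
  have h6 := h.near z hz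
  have h7 : pd (S.g i (ζ w)) (S.g i (ζ z)) ≤ 3 * S.ε := by
    have e1 := F_pd_triangle (S.g i (ζ w)) (F w) (S.g i (ζ z))
    have e2 := F_pd_triangle (F w) (F z) (S.g i (ζ z))
    rw [F_pd_comm (S.g i (ζ w)) (F w)] at e1
    linarith [h2.2]
  have h8 : S.C * pd (S.g i (ζ w)) (S.g i (ζ z)) ≤ S.C * (3 * S.ε) :=
    mul_le_mul_of_nonneg_left h7 (by linarith)
  linarith

/-- **(F1)** -/
theorem Fol.lift_near (hU : IsOpen U) (hc : IsPreconnected U) (hF : Curve X U F) (h : S.Fol i ζ F U) (h' : S.Fol i ζ' F U) {l : ℂ}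
    (hl : l ∈ S.Λ i) {z₀ : ℂ} (hz₀ : z₀ ∈ U) (h0 : ‖ζ z₀ - ζ' z₀ - l‖ ≤ S.r) {z : ℂ} (hz : z ∈ U) : ‖ζ z - ζ' z - l‖ ≤ S.r / 32 := by
  classical
  have hr := S.r_pos
  have key : ∀ w ∈ U, ‖ζ w - ζ' w - l‖ ≤ S.r → ‖ζ w - ζ' w - l‖ ≤ S.r / 32 := by
    intro w hw h1
    have h2 : ‖ζ w - (ζ' w + l)‖ ≤ 4 * S.r := by
      rw [← sub_sub]
      linarith
    have h3 := near_of_near h2 (h.near w hw) (by rw [F_pd_per hl]; exact h'.near w hw)
    rw [← sub_sub] at h3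
    exact h3
  have hcont : ContinuousOn (fun w => decide (‖ζ w - ζ' w - l‖ ≤ S.r)) U := by
    intro w hw
    refine ContinuousAt.continuousWithinAt ?_
    refine Filter.EventuallyEq.continuousAt (y := decide (‖ζ w - ζ' w - l‖ ≤ S.r)) ?_
    filter_upwards [h.coarse w hw, h'.coarse w hw, hU.mem_nhds hw] with v h1 h2 hv
    have h3 := h1 hv
    have h4 := h2 hv
    have e : ‖(ζ v - ζ' v - l) - (ζ w - ζ' w - l)‖ ≤ S.r / 4 := by
      have e1 : (ζ v - ζ' v - l) - (ζ w - ζ' w - l) = (ζ v - ζ w) - (ζ' v - ζ' w) := by ring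
      rw [e1]
      have := norm_sub_le (ζ v - ζ w) (ζ' v - ζ' w)
      linarith
    have hiff : ‖ζ v - ζ' v - l‖ ≤ S.r ↔ ‖ζ w - ζ' w - l‖ ≤ S.r := by
      constructor
      · intro h5
        have h6 := key v hv h5
        have h7 := norm_sub_norm_le (ζ w - ζ' w - l) (ζ v - ζ' v - l)
        have h8 := norm_sub_rev (ζ w - ζ' w - l) (ζ v - ζ' v - l)
        linarith
      · intro h5
        have h6 := key w hw h5
        have h7 := norm_sub_norm_le (ζ v - ζ' v - l) (ζ w - ζ' w - l)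
        linarith
    exact decide_eq_decide.2 hiff
  have h1 := hc.constant hcont hz₀ hz
  have h2 : ‖ζ z - ζ' z - l‖ ≤ S.r := by
    have h3 : decide (‖ζ z₀ - ζ' z₀ - l‖ ≤ S.r) = true := decide_eq_true h0
    rw [h1] at h3
    exact of_decide_eq_true h3
  exact key z hz h2

/-- the same with `Eqv` -/
theorem Fol.eqv (hU : IsOpen U) (hc : IsPreconnected U) (hF : Curve X U F) (h : S.Fol i ζ F U) (h' : S.Fol j ζ' F U)
    {z₀ : ℂ} (hz₀ : z₀ ∈ U) (h0 : S.Eqv i (ζ z₀) j (ζ' z₀)) {z : ℂ} (hz : z ∈ U) : S.Eqv i (ζ z) j (ζ' z) := by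
  obtain ⟨rfl, l, hl, h1⟩ := h0
  have := S.r_pos
  exact ⟨rfl, l, hl, (h.lift_near hU hc hF h' hl hz₀ h1 hz).trans (by linarith)⟩

/-- **(F2)** -/
theorem Fol.glue (hU : IsOpen U) (hV : IsOpen V) (hF : Curve X (U ∪ V) F) (h : S.Fol i ζ F U) (h' : S.Fol i ζ' F V)
    (hUV : ∀ z ∈ U ∩ V, ‖ζ z - ζ' z‖ ≤ S.r / 32) [∀ z, Decidable (z ∈ U)] : S.Fol i (fun z => if z ∈ U then ζ z else ζ' z) F (U ∪ V) := by
  have hr := S.r_pos
  refine ⟨fun z hz => ?_, fun z hz => ?_⟩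
  · by_cases h1 : z ∈ U
    · simp only [if_pos h1]
      exact h.near z h1
    · simp only [if_neg h1]
      exact h'.near z (hz.resolve_left h1)
  · by_cases h1 : z ∈ U
    · filter_upwards [h.coarse z h1, hU.mem_nhds h1] with w h2 h3 _
      simp only [if_pos h1, if_pos h3]
      exact h2 h3
    · have h2 : z ∈ V := hz.resolve_left h1
      filter_upwards [h'.coarse' hV (Curve.mono hF Set.subset_union_right) h2, hV.mem_nhds h2] with w h3 h4 _
      simp only [if_neg h1]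
      by_cases h5 : w ∈ U
      · simp only [if_pos h5]
        have h6 := hUV w ⟨h5, h4⟩
        have h7 : ζ w - ζ' z = (ζ w - ζ' w) + (ζ' w - ζ' z) := by ring
        rw [h7]
        have := norm_add_le (ζ w - ζ' w) (ζ' w - ζ' z)
        linarith
      · simp only [if_neg h5]
        linarith

/-- (T2), (T4) -/
theorem ρ_eqv {x : EN N} {a b : ℂ} (hx : x ∈ X) (h : S.Eqv i a j b) (ha : pd x (S.g i a) < S.ε) (hb : pd x (S.g j b) < S.ε) :
    S.ρ i a x = S.ρ j b x := by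
  obtain ⟨rfl, l, hl, h1⟩ := h
  have hr := S.r_pos
  have hb' : pd x (S.g i (b + l)) < S.ε := by rw [F_pd_per hl]; exact hb
  have h2 : ‖a - (b + l)‖ ≤ 4 * S.r := by
    rw [← sub_sub]
    linarith
  have h3 := near_of_near h2 ha hb'
  rw [(S.tube i).indep a (b + l) x hx (by linarith) ha hb', (S.tube i).per l hl]

theorem Fol.R_nonneg (z : ℂ) : 0 ≤ S.R i ζ F z := (S.tube i).nonneg _ _

theorem Fol.R_le_one (hFX : ∀ z ∈ U, F z ∈ X) (h : S.Fol i ζ F U) {z : ℂ} (hz : z ∈ U) : S.R i ζ F z ≤ 1 := by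
  exact (S.tube i).le_one _ _ (hFX z hz) (h.near z hz)

theorem Fol.foot (hFX : ∀ z ∈ U, F z ∈ X) (h : S.Fol i ζ F U) {z : ℂ} (hz : z ∈ U) :
    ∃ w, ‖w - ζ z‖ ≤ S.r / 8 ∧ pd (F z) (S.g i w) ≤ S.C * S.R i ζ F z := by
  exact (S.tube i).foot _ _ (hFX z hz) (h.near z hz)

/-- near a point the distance is that from a fixed germ -/
theorem F_R_eventually (hU : IsOpen U) (hF : Curve X U F) (h : S.Fol i ζ F U) {z : ℂ} (hz : z ∈ U) :
    ∀ᶠ w in 𝓝 z, (F w ∈ X ∧ pd (F w) (S.g i (ζ z)) < S.ε) ∧ S.ρ i (ζ z) (F w) = S.R i ζ F w := by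
  have hr := S.r_pos
  have h1 := h.near z hz
  filter_upwards [h.coarse z hz, F_pd_tendsto S hU hF hz (sub_pos.2 h1)] with w h2 h3
  have h4 : pd (F w) (S.g i (ζ z)) < S.ε := by
    have := F_pd_triangle (F w) (F z) (S.g i (ζ z))
    linarith [h3.2]
  refine ⟨⟨hF.2 w h3.1, h4⟩, ?_⟩
  refine (S.tube i).indep _ _ _ (hF.2 w h3.1) ?_ h4 (h.near w h3.1)
  rw [norm_sub_rev]
  have := h2 h3.1
  linarith

theorem Fol.R_cont (hU : IsOpen U) (hF : Curve X U F) (h : S.Fol i ζ F U) : ContinuousOn (S.R i ζ F) U := by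
  intro z hz
  refine ContinuousAt.continuousWithinAt ?_
  have h1 := F_R_eventually hU hF h hz
  have hFz : ContinuousAt F z := (hF.1.differentiableAt (hU.mem_nhds hz)).continuousAt
  have h2 : ContinuousWithinAt (S.ρ i (ζ z)) {x | x ∈ X ∧ pd x (S.g i (ζ z)) < S.ε} (F z) :=
    (S.tube i).cont (ζ z) (F z) ⟨hF.2 z hz, h.near z hz⟩
  have h3 : Tendsto F (𝓝 z) (𝓝[{x | x ∈ X ∧ pd x (S.g i (ζ z)) < S.ε}] (F z)) := by
    refine tendsto_nhdsWithin_iff.2 ⟨hFz, ?_⟩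
    filter_upwards [h1] with w hw using hw.1
  have h4 : ContinuousAt (fun w => S.ρ i (ζ z) (F w)) z := h2.tendsto.comp h3
  refine h4.congr ?_
  filter_upwards [h1] with w hw using hw.2

theorem Fol.R_sub (hU : IsOpen U) (hF : Curve X U F) (h : S.Fol i ζ F U) {z : ℂ} (hz : z ∈ U) (h0 : 0 < S.R i ζ F z) :
    Sub (S.R i ζ F) z (S.κ * fs (F z) (deriv F z) ^ 2) := by
  have h1 := F_R_eventually hU hF h hz
  exact ((S.tube i).sub (ζ z) F z (Curve.at hU hF hz) (h.near z hz) h0).congr (by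
    filter_upwards [h1] with w hw using hw.2)

theorem Fol.R_sub_vel (hU : IsOpen U) (hF : Curve X U F) (h : S.Fol i ζ F U) {z : ℂ} (hz : z ∈ U) (h0 : 0 < S.R i ζ F z) :
    Sub (S.R i ζ F) z (S.κ / S.C ^ 2 * vel S.ν F z ^ 2) := by
  refine (h.R_sub hU hF hz h0).anti ?_
  have h1 := S.vel_le hU hF hz
  have h2 := vel_nonneg S.ν hU hF hz
  have hC : 0 < S.C := lt_of_lt_of_le one_pos S.C_ge
  have h3 : vel S.ν F z ^ 2 ≤ S.C ^ 2 * fs (F z) (deriv F z) ^ 2 := by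
    rw [← mul_pow]
    exact pow_le_pow_left₀ h2 h1 2
  calc S.κ / S.C ^ 2 * vel S.ν F z ^ 2 ≤ S.κ / S.C ^ 2 * (S.C ^ 2 * fs (F z) (deriv F z) ^ 2) :=
        mul_le_mul_of_nonneg_left h3 (div_nonneg S.κ_pos.le (by positivity))
    _ = S.κ * fs (F z) (deriv F z) ^ 2 := by
        field_simp

/-- **The potential lemma** for a curve on the disc with centre `z₀` and radius `s` -/
theorem exists_potential (S : Setup X) : ∃ c : ℝ, 0 < c ∧ ∀ (i : S.ι) (ζ : ℂ → ℂ) (F : ℂ → EN N) (z₀ : ℂ) (s : ℝ), 0 < s →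
    Curve X (ball z₀ s) F → S.Fol i ζ F (ball z₀ s) → ∀ z₁ : ℂ, ‖z₁ - z₀‖ ≤ 7 / 8 * s → ∀ z ∈ ball z₀ s,
      S.R i ζ F z ≤ Real.exp (-(c * (s * vel S.ν F z₁) ^ 2 * (1 - ‖z - z₀‖ / s))) := by
  have hC : 0 < S.C := lt_of_lt_of_le one_pos S.C_ge
  obtain ⟨c, hc, H⟩ := potential S.ν (κ := S.κ / S.C ^ 2) (div_pos S.κ_pos (by positivity))
  refine ⟨c, hc, fun i ζ F z₀ s hs hF h z₁ hz₁ z hz => ?_⟩
  have hsc : ((s : ℝ) : ℂ) ≠ 0 := by exact_mod_cast hs.ne'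
  have hmaps : Set.MapsTo (fun w : ℂ => z₀ + (s : ℂ) * w) (ball 0 1) (ball z₀ s) := by
    intro w hw
    rw [mem_ball_zero_iff] at hw
    rw [mem_ball_iff_norm]
    show ‖z₀ + (s : ℂ) * w - z₀‖ < s
    rw [add_sub_cancel_left, norm_mul, Complex.norm_real, Real.norm_of_nonneg hs.le]
    calc s * ‖w‖ < s * 1 := mul_lt_mul_of_pos_left hw hs
      _ = s := mul_one s
  have hG : Curve X (ball 0 1) (fun w : ℂ => F (z₀ + (s : ℂ) * w)) := Curve.comp hF (by fun_prop) hmaps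
  have hfol : S.Fol i (fun w => ζ (z₀ + (s : ℂ) * w)) (fun w => F (z₀ + (s : ℂ) * w)) (ball 0 1) :=
    h.comp isOpen_ball (φ := fun w : ℂ => z₀ + (s : ℂ) * w) (by fun_prop) hmaps
  have hpot : PotHyp S.ν (S.κ / S.C ^ 2) (fun w => F (z₀ + (s : ℂ) * w))
      (S.R i (fun w => ζ (z₀ + (s : ℂ) * w)) (fun w => F (z₀ + (s : ℂ) * w))) :=
    ⟨hG, hfol.R_cont isOpen_ball hG, fun w _ => Fol.R_nonneg w, fun w hw => hfol.R_le_one hG.2 hw,
      fun w hw h0 => hfol.R_sub_vel isOpen_ball hG hw h0⟩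
  have hinv : ∀ w : ℂ, z₀ + (s : ℂ) * ((w - z₀) / (s : ℂ)) = w := by
    intro w
    field_simp
    ring
  have hnorm : ∀ w : ℂ, ‖(w - z₀) / (s : ℂ)‖ = ‖w - z₀‖ / s := by
    intro w
    rw [norm_div, Complex.norm_real, Real.norm_of_nonneg hs.le]
  have hz₁' : ‖(z₁ - z₀) / (s : ℂ)‖ ≤ 7 / 8 := by
    rw [hnorm, div_le_iff₀ hs]
    exact hz₁
  have hz' : (z - z₀) / (s : ℂ) ∈ ball (0 : ℂ) 1 := by
    rw [mem_ball_zero_iff, hnorm, div_lt_one hs]
    exact mem_ball_iff_norm.1 hz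
  have h1 := H _ _ hpot ((z₁ - z₀) / (s : ℂ)) hz₁' ((z - z₀) / (s : ℂ)) hz'
  have hz₁U : z₀ + (s : ℂ) * ((z₁ - z₀) / (s : ℂ)) ∈ ball z₀ s := by
    rw [hinv, mem_ball_iff_norm]
    linarith
  rw [vel_affine S.ν isOpen_ball hF _ _ hz₁U, hinv, hnorm, Complex.norm_real, Real.norm_of_nonneg hs.le] at h1
  have h2 : S.R i (fun w => ζ (z₀ + (s : ℂ) * w)) (fun w => F (z₀ + (s : ℂ) * w)) ((z - z₀) / (s : ℂ)) =
      S.R i ζ F z := by
    unfold Setup.R
    simp only [hinv]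
  rw [h2] at h1
  exact h1

end Setup

end Pool.Agent.AD.F
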