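import Pool.Agent.AD.F.Star

/-!
# AD F Kob: the distance to the family at points of large derivative; Brody curves

`kob` (K2): `A = fs (F 0) (F' 0)` large.  There is `z₁`, `‖z₁‖ < 2 C/A`, with `vel F z₁ > A/(2 C)` (otherwise `Setup.fs_le` on `ball 0 (2 C/A)` gives `A ≤ A/2`).  `star'` with `z₀ = z₁`, `s = 1/16`: `F` follows on
`ball z₁ (1/16)`; `0` is in it, `‖z₁‖ ≤ 1/32`.  `exists_potential`: `R 0 ≤ exp (-c (A/(32 C))²/2)`, and `Fol.foot`.

`brody` (K3): for `z₀` with `fs > 0`: `kob` for `F (z₀ + t z)`, `t → ∞`: `pd (F z₀) (g i w) → 0`; `pr (g i)` has compact range (periods, `Lat.cocompact`), so `pr (F z₀) = pr (g i w)` for some `i`, `w`.  The points with `fs > 0` are dense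
(`fs = 0` on an open set implies `fs = 0` everywhere: `wd = 0` iff all minors of `(F, F')` vanish, which are entire functions), and the union of the compact ranges is closed.
-/

set_option autoImplicit false

open Topology Filter Metric

namespace Pool.Agent.AD.F

open Pool.Agent.H36.BP (EN fs wd Sub Curve)
open Pool.Agent.H14.PP (IsCone Tan CurveAt)
open Pool.Agent.H22.W (PseudoLength)
open Pool.Agent.H62.EF (pr Lat)

variable {N : ℕ} {X : Set (EN N)}

/-- **(K2)** -/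
theorem Setup.kob (S : Setup X) : ∃ A₀ c : ℝ, 1 ≤ A₀ ∧ 0 < c ∧ ∀ F : ℂ → EN N, Curve X (ball 0 1) F → A₀ ≤ fs (F 0) (deriv F 0) →
    ∃ (i : S.ι) (w : ℂ), pd (F 0) (S.g i w) ≤ S.C * Real.exp (-(c * fs (F 0) (deriv F 0) ^ 2)) := by
  obtain ⟨M₀, hM₀, hstar⟩ := Setup.star' S
  obtain ⟨c₁, hc₁, hpot⟩ := Setup.exists_potential S
  have hC := S.C_ge
  have hC0 : 0 < S.C := by linarith
  refine ⟨64 * S.C * M₀, c₁ / (2048 * S.C ^ 2), by nlinarith, by positivity, ?_⟩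
  intro F hF hA
  obtain ⟨A, hAdef⟩ : ∃ A : ℝ, A = fs (F 0) (deriv F 0) := ⟨_, rfl⟩
  rw [← hAdef] at hA ⊢
  have hA64 : 64 * S.C ≤ A := by nlinarith
  have hA0 : 0 < A := by nlinarith
  have hz₁ : ∃ z₁ ∈ ball (0 : ℂ) (2 * S.C / A), A / (2 * S.C) < vel S.ν F z₁ := by
    by_contra hcon
    push Not at hcon
    have hs : 0 < 2 * S.C / A := by positivity
    have hs1 : 2 * S.C / A ≤ 1 := by
      rw [div_le_one hA0]
      linarith
    have h1 := S.fs_le hs (Curve.mono hF (ball_subset_ball hs1)) hcon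
    rw [← hAdef, one_div_div, max_self] at h1
    have h2 : S.C * (A / (2 * S.C)) = A / 2 := by field_simp
    rw [h2] at h1
    linarith
  obtain ⟨z₁, hz₁, hv⟩ := hz₁
  rw [mem_ball_zero_iff] at hz₁
  have hz₁' : ‖z₁‖ < 1 / 32 := by
    refine hz₁.trans_le ?_
    rw [div_le_iff₀ hA0]
    linarith
  have hball : ball z₁ (8 * (1 / 16)) ⊆ ball (0 : ℂ) 1 := by
    apply ball_subset_ball'
    rw [dist_zero_right]
    linarith
  have hball2 : ball z₁ (1 / 16) ⊆ ball (0 : ℂ) 1 := (ball_subset_ball (by norm_num)).trans hball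
  have hvM : M₀ ≤ 1 / 16 * vel S.ν F z₁ := by
    have h1 : 32 * M₀ ≤ A / (2 * S.C) := by
      rw [le_div_iff₀ (by positivity)]
      linarith
    linarith
  obtain ⟨i, ζ, hfol⟩ := hstar F z₁ (1 / 16) (by norm_num) (Curve.mono hF hball) hvM
  have h0 : (0 : ℂ) ∈ ball z₁ (1 / 16) := by
    rw [mem_ball_iff_norm, zero_sub, norm_neg]
    linarith
  have hR := hpot i ζ F z₁ (1 / 16) (by norm_num) (Curve.mono hF hball2) hfol z₁ (by rw [sub_self, norm_zero]; norm_num) 0 h0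
  obtain ⟨w, -, hw⟩ := Setup.Fol.foot (fun z hz => hF.2 z (hball2 hz)) hfol h0
  refine ⟨i, w, hw.trans (mul_le_mul_of_nonneg_left (hR.trans ?_) hC0.le)⟩
  rw [Real.exp_le_exp, neg_le_neg_iff, zero_sub, norm_neg]
  have h1 : 1 / 2 ≤ 1 - ‖z₁‖ / (1 / 16) := by
    have : ‖z₁‖ / (1 / 16) = 16 * ‖z₁‖ := by ring
    rw [this]
    linarith
  have h2 : A / (32 * S.C) ≤ 1 / 16 * vel S.ν F z₁ := by
    have h3 : A / (32 * S.C) = 1 / 16 * (A / (2 * S.C)) := by
      field_simp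
      norm_num
    rw [h3]
    linarith
  have h3 : (A / (32 * S.C)) ^ 2 ≤ (1 / 16 * vel S.ν F z₁) ^ 2 := pow_le_pow_left₀ (by positivity) h2 2
  calc c₁ / (2048 * S.C ^ 2) * A ^ 2 = c₁ * (A / (32 * S.C)) ^ 2 * (1 / 2) := by
        field_simp
        norm_num
    _ ≤ c₁ * (1 / 16 * vel S.ν F z₁) ^ 2 * (1 - ‖z₁‖ / (1 / 16)) := by
        gcongr

/-- the union of the curves of the family is compact -/
theorem Setup.isCompact_family (S : Setup X) : IsCompact (⋃ i, Set.range fun w => pr (S.g i w)) := by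
  have := S.fin
  refine isCompact_iUnion fun i => ?_
  obtain ⟨R, hR, hco⟩ := (S.lat i).cocompact
  have h1 : (Set.range fun w => pr (S.g i w)) = (fun w => pr (S.g i w)) '' closedBall 0 R := by
    apply Set.Subset.antisymm
    · rintro _ ⟨w, rfl⟩
      obtain ⟨l, hl, hwl⟩ := hco w
      refine ⟨w - l, by rwa [mem_closedBall_zero_iff], ?_⟩
      have h2 := S.per i l hl (w - l)
      rw [sub_add_cancel] at h2
      exact h2.symm
    · rintro _ ⟨w, -, rfl⟩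
      exact ⟨w, rfl⟩
  rw [h1]
  refine (isCompact_closedBall _ _).image_of_continuousOn fun w _ => ?_
  have h3 : ContinuousAt pr (S.g i w) := Pool.Agent.H62.EF.continuousAt_pr (S.cone.ne_zero (S.mem i w))
  exact (h3.comp (S.entire i).continuous.continuousAt).continuousWithinAt

/-- a minor of `(F, F')` -/
private noncomputable def mn (F : ℂ → EN N) (j k : Fin (N + 1)) (z : ℂ) : ℂ := F z j * deriv F z k - F z k * deriv F z j

private theorem coord_diff {F : ℂ → EN N} (hF : Differentiable ℂ F) (j : Fin (N + 1)) : Differentiable ℂ fun z => F z j :=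
  (EuclideanSpace.proj (𝕜 := ℂ) j : EN N →L[ℂ] ℂ).differentiable.comp hF

private theorem mn_diff {F : ℂ → EN N} (hF : Differentiable ℂ F) (j k : Fin (N + 1)) : Differentiable ℂ (mn F j k) := by
  have hd : Differentiable ℂ (deriv F) := (hF.contDiff (n := 2)).differentiable_deriv_two
  unfold mn
  exact ((coord_diff hF j).mul (coord_diff hd k)).sub ((coord_diff hF k).mul (coord_diff hd j))

private theorem fs_zero_iff {F : ℂ → EN N} {z : ℂ} (h0 : F z ≠ 0) : fs (F z) (deriv F z) = 0 ↔ ∀ j k, mn F j k z = 0 := by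
  have h1 : fs (F z) (deriv F z) = 0 ↔ wd (F z) (deriv F z) = 0 := by
    unfold fs
    rw [div_eq_zero_iff]
    have : ‖F z‖ ^ 2 ≠ 0 := pow_ne_zero _ (norm_ne_zero_iff.2 h0)
    tauto
  rw [h1, Pool.Agent.H36.BP.wd_eq_zero h0]
  constructor
  · rintro ⟨a, ha⟩ j k
    unfold mn
    rw [ha, PiLp.smul_apply, PiLp.smul_apply, smul_eq_mul, smul_eq_mul]
    ring
  · intro h
    obtain ⟨j, hj⟩ : ∃ j, F z j ≠ 0 := by
      by_contra hcon
      push Not at hcon
      exact h0 (by ext i; simpa using hcon i)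
    refine ⟨deriv F z j / F z j, ?_⟩
    ext k
    rw [PiLp.smul_apply, smul_eq_mul]
    have h2 := h j k
    unfold mn at h2
    rw [div_mul_eq_mul_div, eq_div_iff hj]
    linear_combination h2

/-- **(K3)** -/
theorem Setup.brody (S : Setup X) {F : ℂ → EN N} (hF : Differentiable ℂ F) (hFX : ∀ z, F z ∈ X) (hn : ∃ z, 0 < fs (F z) (deriv F z)) (z : ℂ) :
    ∃ (i : S.ι) (w : ℂ), pr (F z) = pr (S.g i w) := by
  obtain ⟨A₀, c, hA₀, hc, hkob⟩ := Setup.kob S
  have hC := S.C_ge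
  have hC0 : 0 < S.C := by linarith
  have hF0 : ∀ z, F z ≠ 0 := fun z => S.cone.ne_zero (hFX z)
  obtain ⟨K, hK⟩ : ∃ K : Set (Pool.Agent.H62.EF.MN N), K = ⋃ i, Set.range fun w => pr (S.g i w) := ⟨_, rfl⟩
  have hKc : IsCompact K := by rw [hK]; exact Setup.isCompact_family S
  have hKcl : IsClosed K := hKc.isClosed
  -- points with positive derivative
  have hpos : ∀ z₀, 0 < fs (F z₀) (deriv F z₀) → pr (F z₀) ∈ K := by
    intro z₀ hz₀
    obtain ⟨f, hf⟩ : ∃ f : ℝ, f = fs (F z₀) (deriv F z₀) := ⟨_, rfl⟩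
    rw [← hf] at hz₀
    rw [← hKcl.closure_eq, Metric.mem_closure_iff]
    intro ε hε
    have hlim : Tendsto (fun t : ℝ => S.C * Real.exp (-(c * (t * f) ^ 2))) atTop (𝓝 (S.C * 0)) := by
      refine Tendsto.const_mul _ (Real.tendsto_exp_neg_atTop_nhds_zero.comp ?_)
      refine Tendsto.const_mul_atTop hc ?_
      exact (tendsto_pow_atTop two_ne_zero).comp (tendsto_id.atTop_mul_const hz₀)
    rw [mul_zero] at hlim
    obtain ⟨t, ht1, ht2, ht3⟩ := ((hlim.eventually_lt_const hε).and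
      ((eventually_ge_atTop (A₀ / f)).and (eventually_gt_atTop 0))).exists
    have hG : Differentiable ℂ (fun w : ℂ => F (z₀ + (t : ℂ) * w)) := hF.comp ((differentiable_id.const_mul _).const_add _)
    have hfs : fs (F (z₀ + (t : ℂ) * 0)) (deriv (fun w : ℂ => F (z₀ + (t : ℂ) * w)) 0) = t * f := by
      have h1 := fs_affine isOpen_univ hF.differentiableOn (t : ℂ) z₀ (z := 0) (Set.mem_univ _)
      rw [h1, Complex.norm_real, Real.norm_of_nonneg ht3.le, mul_zero, add_zero, hf]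
    obtain ⟨i, w, hw⟩ := hkob (fun w : ℂ => F (z₀ + (t : ℂ) * w)) ⟨hG.differentiableOn, fun z _ => hFX _⟩ (by
      rw [hfs]
      rwa [div_le_iff₀ hz₀] at ht2)
    refine ⟨pr (S.g i w), ?_, ?_⟩
    · rw [hK]
      exact Set.mem_iUnion.2 ⟨i, w, rfl⟩
    · simp only [hfs] at hw
      rw [mul_zero, add_zero] at hw
      exact hw.trans_lt ht1
  have hcont : Continuous fun z => pr (F z) := by
    rw [continuous_iff_continuousAt]
    intro z
    exact (Pool.Agent.H62.EF.continuousAt_pr (hF0 z)).comp hF.continuous.continuousAt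
  have hmem : pr (F z) ∈ K := by
    by_contra hcon
    have hev : ∀ᶠ w in 𝓝 z, fs (F w) (deriv F w) = 0 := by
      have h1 : ∀ᶠ w in 𝓝 z, pr (F w) ∈ Kᶜ := hcont.continuousAt.eventually (hKcl.isOpen_compl.mem_nhds hcon)
      filter_upwards [h1] with w hw
      by_contra h2
      exact hw (hpos w (lt_of_le_of_ne (Pool.Agent.H36.BP.fs_nonneg _ _) (Ne.symm h2)))
    obtain ⟨z', hz'⟩ := hn
    refine hz'.ne' ((fs_zero_iff (hF0 z')).2 fun j k => ?_)
    have h2 : mn F j k =ᶠ[𝓝 z] fun _ => 0 := by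
      filter_upwards [hev] with w hw
      exact (fs_zero_iff (hF0 w)).1 hw j k
    have h3 : AnalyticOnNhd ℂ (mn F j k) Set.univ := fun w _ => (mn_diff hF j k).analyticAt w
    have h4 := h3.eq_of_eventuallyEq (g := fun _ => 0) (fun w _ => analyticAt_const) h2
    exact congrFun h4 z'
  rw [hK] at hmem
  obtain ⟨i, w, hw⟩ := Set.mem_iUnion.1 hmem
  exact ⟨i, w, hw.symm⟩

/-- the closest representative -/
private theorem exists_phase {x y : EN N} (hx : ‖x‖ = 1) (hy : ‖y‖ = 1) : ∃ c : ℂ, ‖c‖ = 1 ∧ ‖x - c • y‖ ≤ pd x y := by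
  have hx0 : x ≠ 0 := norm_ne_zero_iff.1 (by rw [hx]; norm_num)
  have hy0 : y ≠ 0 := norm_ne_zero_iff.1 (by rw [hy]; norm_num)
  obtain ⟨p, hp⟩ : ∃ p : ℂ, p = inner ℂ x y := ⟨_, rfl⟩
  obtain ⟨c, hc1, hc2⟩ : ∃ c : ℂ, ‖c‖ = 1 ∧ c * p = ((‖p‖ : ℝ) : ℂ) := by
    rcases eq_or_ne p 0 with h | h
    · exact ⟨1, norm_one, by rw [h]; simp⟩
    · have hpn : ‖p‖ ≠ 0 := norm_ne_zero_iff.2 h
      have hpn' : ((‖p‖ : ℝ) : ℂ) ≠ 0 := by exact_mod_cast hpn
      refine ⟨(starRingEnd ℂ) p / ((‖p‖ : ℝ) : ℂ), ?_, ?_⟩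
      · rw [norm_div, RCLike.norm_conj, Complex.norm_real, norm_norm, div_self hpn]
      · rw [div_mul_eq_mul_div, mul_comm, Complex.mul_conj', div_eq_iff hpn']
        ring
  refine ⟨c, hc1, ?_⟩
  have hi := Pool.Agent.H62.EF.norm_inner_sq hx0 hy0
  rw [hx, hy, ← hp] at hi
  have h1 : ‖x - c • y‖ ^ 2 = 2 - 2 * ‖p‖ := by
    rw [norm_sub_sq (𝕜 := ℂ), norm_smul, hc1, hx, hy, inner_smul_right, ← hp, hc2]
    simp only [RCLike.re_to_complex, Complex.ofReal_re]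
    ring
  have h2 : ‖p‖ ≤ 1 := by
    rw [hp]
    refine (norm_inner_le_norm _ _).trans ?_
    rw [hx, hy, one_mul]
  have h3 : ‖x - c • y‖ ^ 2 ≤ pd x y ^ 2 := by
    have h4 : pd x y ^ 2 = 2 - 2 * ‖p‖ ^ 2 := by
      unfold pd
      linarith
    rw [h1, h4]
    nlinarith [norm_nonneg p]
  exact (pow_le_pow_iff_left₀ (norm_nonneg _) dist_nonneg two_ne_zero).1 h3

/-- the estimate with an equation of the family -/
theorem Setup.kob_eq (S : Setup X) {Q : EN N → ℂ} (hQ : ContDiff ℂ 1 Q) {D : ℕ} (hhom : ∀ (c : ℂ) (x : EN N), Q (c • x) = c ^ D * Q x)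
    (hg : ∀ i w, Q (S.g i w) = 0) : ∃ C' : ℝ, ∀ F : ℂ → EN N, Curve X (ball 0 1) F → ‖Q (F 0)‖ / ‖F 0‖ ^ D * fs (F 0) (deriv F 0) ≤ C' := by
  obtain ⟨A₀, c, hA₀, hc, hkob⟩ := Setup.kob S
  have hC := S.C_ge
  have hC0 : 0 < S.C := by linarith
  have hcomp : IsCompact (closedBall (0 : EN N) 1) := isCompact_closedBall _ _
  obtain ⟨K₀, hK₀⟩ := hcomp.exists_bound_of_continuousOn (f := Q) hQ.continuous.continuousOn
  obtain ⟨K₁, hK₁⟩ := hcomp.exists_bound_of_continuousOn (f := fderiv ℂ Q) (hQ.continuous_fderiv one_ne_zero).continuousOn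
  have hK₀0 : 0 ≤ K₀ := (norm_nonneg _).trans (hK₀ 0 (mem_closedBall_self zero_le_one))
  have hK₁0 : 0 ≤ K₁ := (norm_nonneg _).trans (hK₁ 0 (mem_closedBall_self zero_le_one))
  have hlip : ∀ x y : EN N, ‖x‖ ≤ 1 → ‖y‖ ≤ 1 → ‖Q x - Q y‖ ≤ K₁ * ‖x - y‖ := by
    intro x y hx hy
    exact (convex_closedBall (0 : EN N) 1).norm_image_sub_le_of_norm_fderiv_le (𝕜 := ℂ)
      (fun z _ => (hQ.differentiable one_ne_zero) z) hK₁ (by rwa [mem_closedBall_zero_iff]) (by rwa [mem_closedBall_zero_iff])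
  -- normalisation
  have hnorm : ∀ x : EN N, x ≠ 0 → ∃ x' : EN N, ‖x'‖ = 1 ∧ (∃ c : ℂ, c ≠ 0 ∧ x' = c • x) ∧ ‖Q x'‖ = ‖Q x‖ / ‖x‖ ^ D := by
    intro x hx
    have hxn : 0 < ‖x‖ := norm_pos_iff.2 hx
    refine ⟨(((‖x‖⁻¹ : ℝ)) : ℂ) • x, ?_, ⟨_, by exact_mod_cast inv_ne_zero hxn.ne', rfl⟩, ?_⟩
    · rw [norm_smul, Complex.norm_real, norm_inv, norm_norm, inv_mul_cancel₀ hxn.ne']
    · rw [hhom, norm_mul, norm_pow, Complex.norm_real, norm_inv, norm_norm, inv_pow, inv_mul_eq_div]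
  refine ⟨K₀ * A₀ + K₁ * S.C / c, fun F hF => ?_⟩
  have h0 : (0 : ℂ) ∈ ball (0 : ℂ) 1 := mem_ball_self one_pos
  have hF0 : F 0 ≠ 0 := S.cone.ne_zero (hF.2 0 h0)
  obtain ⟨x', hx'1, ⟨a, ha, hx'a⟩, hx'Q⟩ := hnorm _ hF0
  rw [← hx'Q]
  obtain ⟨A, hA⟩ : ∃ A : ℝ, A = fs (F 0) (deriv F 0) := ⟨_, rfl⟩
  have hA0 : 0 ≤ A := by rw [hA]; exact Pool.Agent.H36.BP.fs_nonneg _ _
  rw [← hA]
  have hterm : 0 ≤ K₁ * S.C / c := by positivity
  rcases lt_or_ge A A₀ with hlt | hge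
  · have h1 : ‖Q x'‖ ≤ K₀ := hK₀ _ (by rw [mem_closedBall_zero_iff, hx'1])
    have h2 : ‖Q x'‖ * A ≤ K₀ * A₀ := mul_le_mul h1 hlt.le hA0 hK₀0
    linarith
  · obtain ⟨i, w, hw⟩ := hkob F hF (by rw [← hA]; exact hge)
    rw [← hA] at hw
    have hgi : S.g i w ≠ 0 := S.cone.ne_zero (S.mem i w)
    obtain ⟨y', hy'1, ⟨b, hb, hy'b⟩, -⟩ := hnorm _ hgi
    have hQy : ∀ c : ℂ, Q (c • y') = 0 := by
      intro c
      rw [hhom, hy'b, hhom, hg, mul_zero, mul_zero]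
    have hpd : pd x' y' = pd (F 0) (S.g i w) := by
      unfold pd
      rw [hx'a, hy'b, Pool.Agent.H62.EF.pr_smul _ ha, Pool.Agent.H62.EF.pr_smul _ hb]
    obtain ⟨e, he1, he2⟩ := exists_phase hx'1 hy'1
    have h1 : ‖Q x'‖ ≤ K₁ * (S.C * Real.exp (-(c * A ^ 2))) := by
      have h2 := hlip x' (e • y') hx'1.le (by rw [norm_smul, he1, hy'1, one_mul])
      rw [hQy, sub_zero] at h2
      refine h2.trans (mul_le_mul_of_nonneg_left ?_ hK₁0)
      rw [hpd] at he2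
      exact he2.trans hw
    have hA1 : 1 ≤ A := hA₀.trans hge
    have h3 : Real.exp (-(c * A ^ 2)) * A ≤ 1 / c := by
      have h4 : c * A ^ 2 ≤ Real.exp (c * A ^ 2) := by
        have := Real.add_one_le_exp (c * A ^ 2)
        linarith
      have h5 : A * c ≤ c * A ^ 2 := by
        have := mul_le_mul_of_nonneg_left hA1 (mul_nonneg hc.le hA0)
        linarith
      rw [Real.exp_neg, inv_mul_eq_div, div_le_div_iff₀ (Real.exp_pos _) hc, one_mul]
      exact h5.trans h4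
    have h5 : ‖Q x'‖ * A ≤ K₁ * S.C / c := by
      calc ‖Q x'‖ * A ≤ K₁ * (S.C * Real.exp (-(c * A ^ 2))) * A := mul_le_mul_of_nonneg_right h1 hA0
        _ = K₁ * S.C * (Real.exp (-(c * A ^ 2)) * A) := by ring
        _ ≤ K₁ * S.C * (1 / c) := mul_le_mul_of_nonneg_left h3 (by positivity)
        _ = K₁ * S.C / c := by ring
    have h6 : 0 ≤ K₀ * A₀ := by positivity
    linarith

end Pool.Agent.AD.F
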