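import Pool.Agent.AD.F.Bad

/-!
# AD F LemE: Lemma E, near a bad point the curve is fast

Let `c₁` be the constant of `exists_potential`, `η` the one of `exists_notBad` (we may take `η < 1`), `c₂ ≤ c₁ / (4 log (1/η))`, `L₁ ≥ 1` with `c₂ L₁² ≥ 64`.  Let `L = v z₁`, `L' = c₂ L²`
and suppose `v ≤ L'` on `ball b (1/16)`.  `G z = F (b + z / L')` on `ball 0 4` (`4/L' ≤ 1/16`) has `vel G ≤ 1`, and it follows `ζ (b + z/L')` on
`ball (-(L' b)) L' ∩ ball 0 4` (`‖b + z/L'‖ < 1 ↔ ‖z + L' b‖ < L'`; `Fol.comp`).  For `z ∈ ball (-b) (1/2)`: `1 - ‖b + z/L'‖ ≥ 1/(2L')`, so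
`R ≤ exp (-c₁ L²/(2 L')) = exp (-c₁/(2 c₂)) ≤ η`.  So `0` is not bad for `G`, hence `b` is not bad for `F`.
-/

set_option autoImplicit false

open Topology Filter Metric

namespace Pool.Agent.AD.F

open Pool.Agent.H36.BP (EN fs wd Sub Curve)
open Pool.Agent.H14.PP (IsCone Tan CurveAt)
open Pool.Agent.H22.W (PseudoLength)
open Pool.Agent.H62.EF (pr Lat)

variable {N : ℕ} {X : Set (EN N)}

/-- **Lemma E.** -/
theorem Setup.exists_fast (S : Setup X) : ∃ c L₁ : ℝ, 0 < c ∧ 1 ≤ L₁ ∧ ∀ (i : S.ι) (ζ : ℂ → ℂ) (F : ℂ → EN N) (z₁ b : ℂ),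
    Curve X (ball 0 1 ∪ ball b (1 / 16)) F → S.Fol i ζ F (ball 0 1) → ‖z₁‖ ≤ 7 / 8 → L₁ ≤ vel S.ν F z₁ → ‖b‖ = 1 →
    ¬ S.NotBad i ζ F (ball 0 1) b → ∃ z ∈ ball b (1 / 16), c * vel S.ν F z₁ ^ 2 ≤ vel S.ν F z := by
  obtain ⟨c₁, hc₁, hpot⟩ := Setup.exists_potential S
  obtain ⟨η, hη, hnb⟩ := Setup.exists_notBad S
  obtain ⟨A, hA⟩ : ∃ A : ℝ, A = |Real.log η| + 1 := ⟨_, rfl⟩
  have hA0 : 0 < A := by rw [hA]; positivity
  obtain ⟨c, hc⟩ : ∃ c : ℝ, c = c₁ / (2 * A) := ⟨_, rfl⟩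
  have hc0 : 0 < c := by rw [hc]; positivity
  have hcA : c₁ = 2 * A * c := by
    rw [hc]
    field_simp
  refine ⟨c, 1 + 64 / c, hc0, by have : 0 < 64 / c := by positivity
                                 linarith, ?_⟩
  intro i ζ F z₁ b hF hfol hz₁ hL₁ hb hbad
  by_contra hcon
  push Not at hcon
  apply hbad
  obtain ⟨L, hL⟩ : ∃ L : ℝ, L = vel S.ν F z₁ := ⟨_, rfl⟩
  rw [← hL] at hL₁ hcon
  have h64 : 0 < 64 / c := by positivity
  have hL1 : 1 ≤ L := by linarith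
  obtain ⟨L', hL'⟩ : ∃ L' : ℝ, L' = c * L ^ 2 := ⟨_, rfl⟩
  have hL'64 : 64 ≤ L' := by
    have h1 : 64 / c ≤ L ^ 2 := by nlinarith
    rw [div_le_iff₀ hc0] at h1
    rw [hL']
    linarith
  have hL'0 : 0 < L' := by linarith
  have hbo : IsOpen (ball b (1 / 16)) := isOpen_ball
  have hFb : Curve X (ball b (1 / 16)) F := Curve.mono hF Set.subset_union_right
  have hF1 : Curve X (ball (0 : ℂ) 1) F := Curve.mono hF Set.subset_union_left
  obtain ⟨a, ha⟩ : ∃ a : ℂ, a = ((L'⁻¹ : ℝ) : ℂ) := ⟨_, rfl⟩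
  have han : ‖a‖ = L'⁻¹ := by
    rw [ha, Complex.norm_real, Real.norm_of_nonneg (by positivity)]
  have haL : a * (L' : ℂ) = 1 := by
    rw [ha, ← Complex.ofReal_mul, inv_mul_cancel₀ hL'0.ne', Complex.ofReal_one]
  have hmaps : Set.MapsTo (fun z : ℂ => b + a * z) (ball 0 4) (ball b (1 / 16)) := by
    intro z hz
    rw [mem_ball_zero_iff] at hz
    rw [mem_ball_iff_norm]
    show ‖b + a * z - b‖ < 1 / 16
    rw [add_sub_cancel_left, norm_mul, han, inv_mul_lt_iff₀ hL'0]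
    linarith
  have hG : Curve X (ball 0 4) (fun z : ℂ => F (b + a * z)) := Curve.comp hFb (by fun_prop) hmaps
  have hGv : ∀ z ∈ ball (0 : ℂ) 4, vel S.ν (fun z : ℂ => F (b + a * z)) z ≤ 1 := by
    intro z hz
    rw [vel_affine S.ν hbo hFb a b (hmaps hz), han, inv_mul_le_iff₀ hL'0, mul_one, hL']
    exact (hcon _ (hmaps hz)).le
  have hnorm : ∀ z : ℂ, ‖b + a * z‖ = L'⁻¹ * ‖z - -((L' : ℂ) * b)‖ := by
    intro z
    have h1 : b + a * z = a * (z - -((L' : ℂ) * b)) := by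
      rw [sub_neg_eq_add, mul_add, ← mul_assoc, haL, one_mul, add_comm]
    rw [h1, norm_mul, han]
  have hmaps2 : Set.MapsTo (fun z : ℂ => b + a * z) (ball (-((L' : ℂ) * b)) L' ∩ ball 0 4) (ball 0 1) := by
    intro z hz
    have h1 := hz.1
    rw [mem_ball_iff_norm] at h1
    rw [mem_ball_zero_iff]
    show ‖b + a * z‖ < 1
    rw [hnorm, inv_mul_lt_iff₀ hL'0, mul_one]
    exact h1
  have hfol2 : S.Fol i (fun z => ζ (b + a * z)) (fun z => F (b + a * z)) (ball (-((L' : ℂ) * b)) L' ∩ ball 0 4) :=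
    Setup.Fol.comp hfol (isOpen_ball.inter isOpen_ball) (by fun_prop) hmaps2
  have hR : ∀ z ∈ ball (-b) (1 / 2), S.R i (fun z => ζ (b + a * z)) (fun z => F (b + a * z)) z ≤ η := by
    intro z hz
    rw [mem_ball_iff_norm] at hz
    have h1 : ‖b + a * z‖ ≤ 1 - 1 / (2 * L') := by
      rw [hnorm]
      have h2 : z - -((L' : ℂ) * b) = (z - -b) + ((L' - 1 : ℝ) : ℂ) * b := by
        push_cast
        ring
      have h3 : ‖z - -((L' : ℂ) * b)‖ ≤ 1 / 2 + (L' - 1) := by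
        rw [h2]
        refine (norm_add_le _ _).trans ?_
        rw [norm_mul, hb, mul_one, Complex.norm_real, Real.norm_of_nonneg (by linarith)]
        linarith
      rw [inv_mul_le_iff₀ hL'0]
      refine h3.trans (le_of_eq ?_)
      field_simp
      ring
    have hpos : 0 < 1 / (2 * L') := by positivity
    have h4 : b + a * z ∈ ball (0 : ℂ) 1 := by
      rw [mem_ball_zero_iff]
      linarith
    have h5 := hpot i ζ F 0 1 one_pos hF1 hfol z₁ (by rw [sub_zero]; linarith) _ h4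
    have h6 : S.R i (fun z => ζ (b + a * z)) (fun z => F (b + a * z)) z = S.R i ζ F (b + a * z) := rfl
    rw [h6]
    refine h5.trans ?_
    rw [← Real.le_log_iff_exp_le hη, one_mul, sub_zero, div_one, ← hL]
    have h7 : c₁ * L ^ 2 * (1 / (2 * L')) ≤ c₁ * L ^ 2 * (1 - ‖b + a * z‖) := by
      refine mul_le_mul_of_nonneg_left (by linarith) (by positivity)
    have h8 : c₁ * L ^ 2 * (1 / (2 * L')) = A := by
      rw [hL', hcA]
      have hLne : L ≠ 0 := by linarith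
      field_simp
    have h9 := neg_abs_le (Real.log η)
    rw [h8, hA] at h7
    linarith
  obtain ⟨δ, w, hδ, hw, hδw⟩ := hnb i _ _ b L' hb (by linarith) hG hGv hfol2 hR
  refine ⟨min δ 4 / L', w, by positivity, ?_, ?_⟩
  · have h1 : b + a * 0 = b := by rw [mul_zero, add_zero]
    simp only [h1] at hw
    exact hw
  · rintro z ⟨hz1, hz2⟩
    rw [mem_ball_iff_norm, lt_div_iff₀ hL'0] at hz2
    have hy : ‖(L' : ℂ) * (z - b)‖ < min δ 4 := by
      rw [norm_mul, Complex.norm_real, Real.norm_of_nonneg hL'0.le, mul_comm]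
      exact hz2
    have hyz : b + a * ((L' : ℂ) * (z - b)) = z := by
      rw [← mul_assoc, haL, one_mul]
      ring
    have hz3 := hδw ((L' : ℂ) * (z - b)) (by
      refine ⟨⟨?_, ?_⟩, ?_⟩
      · rw [mem_ball_iff_norm]
        have h1 := hnorm ((L' : ℂ) * (z - b))
        rw [hyz] at h1
        rw [mem_ball_zero_iff, h1, inv_mul_lt_iff₀ hL'0, mul_one] at hz1
        exact hz1
      · rw [mem_ball_zero_iff]
        exact hy.trans_le (min_le_right _ _)
      · rw [mem_ball_zero_iff]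
        exact hy.trans_le (min_le_left _ _))
    simp only [hyz] at hz3
    exact hz3

end Pool.Agent.AD.F
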