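import Pool.Agent.AD.F.LemE
import Pool.Agent.AD.F.Ext

/-!
# AD F LemG: Lemma G, a curve follows the family near a good point

Let `c`, `L₁` be the constants of `exists_fast`, `R₀ > max L₁ (2/c)` and `r₀` the radius of `exists_follow S R₀`; `s₀ = max r₀ (4 R₀)`.  Rescale: `w = 0`, `v 0 = 1`:
`G z = F (w + z / v w)` on `ball 0 s`, `vel G ≤ 2`, `vel G 0 = 1`.  `exists_follow`: `G` follows on `ball 0 R₀`.  `Fol.exists_max_ext` with `D = s/4`, `D' = s`: if `d < s/4`, there is a bad point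
`b`, `‖b‖ = d ≥ R₀`; `H z = G (d z)` on `ball 0 2`: `vel H 0 = d ≥ L₁`, `vel H ≤ 2 d`, so by `exists_fast` (`z₁ = 0`) `c d² ≤ 2 d`, `d ≤ 2/c`: contradiction.  So `G` follows on `ball 0 (s/4)`.
-/

set_option autoImplicit false

open Topology Filter Metric

namespace Pool.Agent.AD.F

open Pool.Agent.H36.BP (EN fs wd Sub Curve)
open Pool.Agent.H14.PP (IsCone Tan CurveAt)
open Pool.Agent.H22.W (PseudoLength)
open Pool.Agent.H62.EF (pr Lat)

variable {N : ℕ} {X : Set (EN N)}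

/-- **Lemma G.** -/
theorem Setup.exists_follow_good (S : Setup X) : ∃ s₀ : ℝ, 1 ≤ s₀ ∧ ∀ (s : ℝ), s₀ ≤ s → ∀ (F : ℂ → EN N) (D : Set ℂ) (w : ℂ), IsOpen D → Curve X D F →
    S.Good F D s w → ∃ (i : S.ι) (ζ : ℂ → ℂ), S.Fol i ζ F (ball w (s / (4 * vel S.ν F w))) := by
  obtain ⟨c, L₁, hc, hL₁, hfast⟩ := Setup.exists_fast S
  obtain ⟨R₀, hR₀⟩ : ∃ R₀ : ℝ, R₀ = max L₁ (2 / c) + 1 := ⟨_, rfl⟩
  have hR1 : L₁ + 1 ≤ R₀ := by rw [hR₀]; linarith [le_max_left L₁ (2 / c)]
  have hR2 : 2 / c + 1 ≤ R₀ := by rw [hR₀]; linarith [le_max_right L₁ (2 / c)]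
  have hR0 : 0 < R₀ := by linarith
  obtain ⟨r₀, hr₀, hfollow⟩ := Setup.exists_follow S R₀
  refine ⟨max (max r₀ (4 * R₀)) 1, le_max_right _ _, ?_⟩
  intro s hs F D w hD hF hgood
  have hsr : r₀ ≤ s := ((le_max_left _ _).trans (le_max_left _ _)).trans hs
  have hsR : 4 * R₀ ≤ s := ((le_max_right _ _).trans (le_max_left _ _)).trans hs
  have hs0 : 0 < s := by linarith
  obtain ⟨hv0, hsub, hle⟩ := hgood
  obtain ⟨v, hv⟩ : ∃ v : ℝ, v = vel S.ν F w := ⟨_, rfl⟩
  rw [← hv] at hv0 hsub hle ⊢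
  obtain ⟨a, ha⟩ : ∃ a : ℂ, a = ((v⁻¹ : ℝ) : ℂ) := ⟨_, rfl⟩
  have han : ‖a‖ = v⁻¹ := by
    rw [ha, Complex.norm_real, Real.norm_of_nonneg (by positivity)]
  have hav : a * (v : ℂ) = 1 := by
    rw [ha, ← Complex.ofReal_mul, inv_mul_cancel₀ hv0.ne', Complex.ofReal_one]
  have hmaps : Set.MapsTo (fun z : ℂ => w + a * z) (ball 0 s) (ball w (s / v)) := by
    intro z hz
    rw [mem_ball_zero_iff] at hz
    rw [mem_ball_iff_norm]
    show ‖w + a * z - w‖ < s / v
    rw [add_sub_cancel_left, norm_mul, han, inv_mul_eq_div]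
    exact div_lt_div_of_pos_right hz hv0
  have hFw : Curve X (ball w (s / v)) F := Curve.mono hF hsub
  obtain ⟨G, hG⟩ : ∃ G : ℂ → EN N, G = fun z => F (w + a * z) := ⟨_, rfl⟩
  have hGc : Curve X (ball 0 s) G := by
    rw [hG]
    exact Curve.comp hFw (by fun_prop) hmaps
  have hGv : ∀ z ∈ ball (0 : ℂ) s, vel S.ν G z = v⁻¹ * vel S.ν F (w + a * z) := by
    intro z hz
    rw [hG, vel_affine S.ν isOpen_ball hFw a w (hmaps hz), han]
  have hG2 : ∀ z ∈ ball (0 : ℂ) s, vel S.ν G z ≤ 2 := by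
    intro z hz
    rw [hGv z hz, inv_mul_le_iff₀ hv0]
    have := hle _ (hmaps hz)
    linarith
  have hG1 : vel S.ν G 0 = 1 := by
    rw [hGv 0 (mem_ball_self hs0), mul_zero, add_zero, ← hv, inv_mul_cancel₀ hv0.ne']
  obtain ⟨i, a₁, b₁, ha₁, hfol⟩ := hfollow G (Curve.mono hGc (ball_subset_ball hsr)) (fun z hz => hG2 z (ball_subset_ball hsr hz)) hG1
  obtain ⟨d, ζ', hd1, hd2, hfol', -, hor⟩ := Setup.Fol.exists_max_ext (c := 0) (D := s / 4) (D' := s) hR0 (by linarith) (by linarith) hGc hfol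
  have hd0 : 0 < d := by linarith
  have hds : d = s / 4 := by
    rcases hor with h | ⟨b, hb, hbad⟩
    · exact h
    · exfalso
      rw [sub_zero] at hb
      have hdne : (d : ℂ) ≠ 0 := by exact_mod_cast hd0.ne'
      have hdn : ‖(d : ℂ)‖ = d := by rw [Complex.norm_real, Real.norm_of_nonneg hd0.le]
      have hmaps2 : Set.MapsTo (fun z : ℂ => 0 + (d : ℂ) * z) (ball 0 2) (ball 0 s) := by
        intro z hz
        rw [mem_ball_zero_iff] at hz
        rw [mem_ball_zero_iff]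
        show ‖0 + (d : ℂ) * z‖ < s
        rw [zero_add, norm_mul, hdn]
        nlinarith
      obtain ⟨b', hb'⟩ : ∃ b' : ℂ, b' = b / d := ⟨_, rfl⟩
      have hb'n : ‖b'‖ = 1 := by
        rw [hb', norm_div, hdn, hb, div_self hd0.ne']
      have hdb : (0 : ℂ) + (d : ℂ) * b' = b := by
        rw [hb', zero_add, mul_div_cancel₀ _ hdne]
      have hU : ball (0 : ℂ) 1 ∪ ball b' (1 / 16) ⊆ ball 0 2 := by
        refine Set.union_subset (ball_subset_ball (by norm_num)) ?_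
        apply ball_subset_ball'
        rw [dist_zero_right, hb'n]
        norm_num
      have hH : Curve X (ball (0 : ℂ) 1 ∪ ball b' (1 / 16)) (fun z => G (0 + (d : ℂ) * z)) :=
        Curve.mono (Curve.comp hGc (by fun_prop) hmaps2) hU
      have hHv : ∀ z ∈ ball (0 : ℂ) 2, vel S.ν (fun z => G (0 + (d : ℂ) * z)) z = d * vel S.ν G (0 + (d : ℂ) * z) := by
        intro z hz
        rw [vel_affine S.ν isOpen_ball hGc (d : ℂ) 0 (hmaps2 hz), hdn]
      have hH0 : vel S.ν (fun z => G (0 + (d : ℂ) * z)) 0 = d := by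
        rw [hHv 0 (mem_ball_self two_pos), mul_zero, add_zero, hG1, mul_one]
      have hmaps3 : Set.MapsTo (fun z : ℂ => 0 + (d : ℂ) * z) (ball 0 1) (ball 0 d) := by
        intro z hz
        rw [mem_ball_zero_iff] at hz
        rw [mem_ball_zero_iff]
        show ‖0 + (d : ℂ) * z‖ < d
        rw [zero_add, norm_mul, hdn]
        nlinarith
      have hHfol : S.Fol i (fun z => ζ' (0 + (d : ℂ) * z)) (fun z => G (0 + (d : ℂ) * z)) (ball 0 1) :=
        Setup.Fol.comp hfol' isOpen_ball (by fun_prop) hmaps3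
      obtain ⟨z, hz, hzle⟩ := hfast i _ _ 0 b' hH hHfol (by rw [norm_zero]; norm_num) (by rw [hH0]; linarith) hb'n (by
        intro hnb
        apply hbad
        have h1 := Setup.NotBad.of_affine (S := S) (i := i) (ζ := ζ') (F := G) (U := ball 0 d) (V := ball 0 1) (a := (d : ℂ)) (c := 0)
          (b := b') hdne (fun z hz => by
            rw [mem_ball_zero_iff, zero_add, norm_mul, hdn] at hz
            rw [mem_ball_zero_iff]
            by_contra hcon
            push Not at hcon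
            nlinarith) hnb
        rwa [hdb] at h1)
      have hz2 : z ∈ ball (0 : ℂ) 2 := hU (Or.inr hz)
      rw [hH0, hHv z hz2] at hzle
      have h2 := hG2 _ (hmaps2 hz2)
      have h3 : c * d ^ 2 ≤ d * 2 := hzle.trans (mul_le_mul_of_nonneg_left h2 hd0.le)
      have h4 : c * d ≤ 2 := by nlinarith
      have h5 : d ≤ 2 / c := by
        rw [le_div_iff₀ hc]
        linarith
      linarith
  rw [hds] at hfol'
  have hmaps4 : Set.MapsTo (fun z : ℂ => (v : ℂ) * (z - w)) (ball w (s / (4 * v))) (ball 0 (s / 4)) := by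
    intro z hz
    rw [mem_ball_iff_norm, lt_div_iff₀ (by positivity)] at hz
    rw [mem_ball_zero_iff]
    show ‖(v : ℂ) * (z - w)‖ < s / 4
    rw [norm_mul, Complex.norm_real, Real.norm_of_nonneg hv0.le]
    linarith
  have hfin := Setup.Fol.comp hfol' (V := ball w (s / (4 * v))) isOpen_ball (φ := fun z : ℂ => (v : ℂ) * (z - w)) (by fun_prop) hmaps4
  have hGF : (fun z => G ((v : ℂ) * (z - w))) = F := by
    funext z
    rw [hG]
    show F (w + a * ((v : ℂ) * (z - w))) = F z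
    congr 1
    rw [← mul_assoc, hav, one_mul]
    ring
  rw [hGF] at hfin
  exact ⟨i, _, hfin⟩

end Pool.Agent.AD.F
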