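import Pool.Agent.AD.F.Max

/-!
# AD F TwoC: the two constant theorem for the speed

`B z = (z - o)/(1 - conj o z)`: `‖B‖ ≥ 1/80` on `‖z - o‖ = 1/40`, `‖B‖ → 1` for `‖z‖ → 1`, and
`‖B z‖² = 1 - (1-‖z‖²)(1-‖o‖²)/‖1 - conj o z‖² ≤ b₁² < 1` for `‖z‖ ≤ 4/7`, `‖o‖ ≤ 13/14`.  With `τ = q / log 80`: `vel_mul_le` for `u = ‖1/B‖^τ` (`Sub.of_holo`, `Sub.rpow`) on
`{‖z‖ ≤ t, ‖z - o‖ ≥ 1/40 - small}` gives `vel F ≤ A ‖B‖^τ` (`t → 1`).  `θ = min 1 (log (1/b₁) / log 80)`.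
-/

set_option autoImplicit false

open Topology Filter Metric

namespace Pool.Agent.AD.F

open Pool.Agent.H36.BP (EN fs wd Sub Curve)
open Pool.Agent.H14.PP (IsCone Tan CurveAt)
open Pool.Agent.H22.W (PseudoLength)
open Pool.Agent.H62.EF (pr Lat)

variable {N : ℕ} {X : Set (EN N)}

private theorem TwoC_ident (ρ : ℝ) (z o : ℂ) :
    ‖((ρ : ℂ) ^ 2 - (starRingEnd ℂ) o * z)‖ ^ 2 - ρ ^ 2 * ‖z - o‖ ^ 2 = (ρ ^ 2 - ‖z‖ ^ 2) * (ρ ^ 2 - ‖o‖ ^ 2) := by
  rw [← Complex.ofReal_pow]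
  simp only [← Complex.normSq_eq_norm_sq, Complex.normSq_apply, Complex.sub_re, Complex.sub_im, Complex.mul_re, Complex.mul_im,
    Complex.conj_re, Complex.conj_im, Complex.ofReal_re, Complex.ofReal_im]
  ring

theorem exists_twoConst (ν : PseudoLength X) : ∃ θ : ℝ, 0 < θ ∧ ∀ (F : ℂ → EN N) (o : ℂ) (A q : ℝ), Curve X (ball 0 1) F → ‖o‖ ≤ 13 / 14 →
    0 ≤ q → (∀ z ∈ ball (0 : ℂ) 1, vel ν F z ≤ A) → (∀ z ∈ ball (0 : ℂ) 1 ∩ ball o (1 / 38), vel ν F z ≤ A * Real.exp (-q)) →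
    ∀ z : ℂ, ‖z‖ ≤ 4 / 7 → vel ν F z ≤ A * Real.exp (-(θ * q)) := by
  have hl84 : 0 < Real.log 84 := Real.log_pos (by norm_num)
  have hl1 : 0 < Real.log (100 / 99) := Real.log_pos (by norm_num)
  have hle : Real.log (100 / 99) ≤ Real.log 84 := Real.log_le_log (by norm_num) (by norm_num)
  refine ⟨Real.log (100 / 99) / (2 * Real.log 84), by positivity, ?_⟩
  intro F o A q hF ho hq hA hB z hz
  obtain ⟨θ, hθ⟩ : ∃ θ : ℝ, θ = Real.log (100 / 99) / (2 * Real.log 84) := ⟨_, rfl⟩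
  rw [← hθ]
  have hθ1 : θ ≤ 1 := by
    rw [hθ, div_le_one (by positivity)]
    linarith
  have hA0 : 0 ≤ A := (vel_nonneg ν isOpen_ball hF (mem_ball_self one_pos)).trans (hA 0 (mem_ball_self one_pos))
  obtain ⟨ρ, hρ⟩ : ∃ ρ : ℝ, ρ = 27 / 28 := ⟨_, rfl⟩
  have hρ0 : 0 < ρ := by rw [hρ]; norm_num
  have hρ1 : ρ < 1 := by rw [hρ]; norm_num
  have hoρ : ‖o‖ < ρ := by rw [hρ]; linarith
  obtain ⟨τ, hτ⟩ : ∃ τ : ℝ, τ = q / Real.log 84 := ⟨_, rfl⟩
  have hτ0 : 0 ≤ τ := by rw [hτ]; positivity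
  obtain ⟨W, hW⟩ : ∃ W : ℂ → ℂ, ∀ z, W z = ((ρ : ℂ) ^ 2 - (starRingEnd ℂ) o * z) / ((ρ : ℂ) * (z - o)) := ⟨_, fun _ => rfl⟩
  have hρC : (ρ : ℂ) ≠ 0 := by exact_mod_cast hρ0.ne'
  have hWn : ∀ z, ‖W z‖ = ‖((ρ : ℂ) ^ 2 - (starRingEnd ℂ) o * z)‖ / (ρ * ‖z - o‖) := by
    intro z
    rw [hW, norm_div, norm_mul, Complex.norm_real, Real.norm_of_nonneg hρ0.le]
  have hnum : ∀ z : ℂ, ‖z‖ ≤ ρ → ‖((ρ : ℂ) ^ 2 - (starRingEnd ℂ) o * z)‖ ≤ 2 := by
    intro z hz
    have h1 := norm_sub_le ((ρ : ℂ) ^ 2) ((starRingEnd ℂ) o * z)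
    rw [norm_mul, RCLike.norm_conj, norm_pow, Complex.norm_real, Real.norm_of_nonneg hρ0.le] at h1
    have h2 : ‖o‖ * ‖z‖ ≤ 1 * 1 := mul_le_mul (hoρ.le.trans hρ1.le) (hz.trans hρ1.le) (norm_nonneg _) zero_le_one
    have h3 : ρ ^ 2 ≤ 1 := by nlinarith
    linarith
  have hnum0 : ∀ z : ℂ, ‖z‖ ≤ ρ → ((ρ : ℂ) ^ 2 - (starRingEnd ℂ) o * z) ≠ 0 := by
    intro z hz h0
    have h1 : ‖((ρ : ℂ) ^ 2)‖ = ‖(starRingEnd ℂ) o * z‖ := by rw [sub_eq_zero.1 h0]
    rw [norm_mul, RCLike.norm_conj, norm_pow, Complex.norm_real, Real.norm_of_nonneg hρ0.le] at h1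
    have h2 : ‖o‖ * ‖z‖ ≤ ‖o‖ * ρ := mul_le_mul_of_nonneg_left hz (norm_nonneg _)
    nlinarith
  have hmain := vel_mul_le ν (S := closedBall 0 ρ \ ball o (1 / 40)) (U := ball 0 ρ \ closedBall o (1 / 40)) (V := ball 0 1)
    ((isCompact_closedBall _ _).diff isOpen_ball) (isOpen_ball.sdiff isClosed_closedBall)
    (fun z hz => ⟨ball_subset_closedBall hz.1, fun h => hz.2 (ball_subset_closedBall h)⟩) isOpen_ball
    (fun z hz => closedBall_subset_ball hρ1 hz.1) hF (u := fun z => ‖W z‖ ^ τ) (A := A) ?_ (fun z _ => by positivity) ?_ hA0 ?_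
  · rcases lt_or_ge ‖z - o‖ (1 / 38) with hcase | hcase
    · have hzb : z ∈ ball (0 : ℂ) 1 := by rw [mem_ball_zero_iff]; linarith
      refine (hB z ⟨hzb, by rw [mem_ball, dist_eq_norm]; exact hcase⟩).trans ?_
      refine mul_le_mul_of_nonneg_left ?_ hA0
      rw [Real.exp_le_exp]
      nlinarith
    · have hzρ : ‖z‖ ≤ ρ := by rw [hρ]; linarith
      have h1 := hmain z ⟨by rw [mem_closedBall_zero_iff]; exact hzρ, by rw [mem_ball, dist_eq_norm]; linarith⟩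
      have h2 : (100 / 99 : ℝ) ≤ ‖W z‖ ^ 2 := by
        rw [hWn, div_pow, mul_pow]
        have hpos : 0 < ρ ^ 2 * ‖z - o‖ ^ 2 := by
          have : 0 < ‖z - o‖ := by linarith
          positivity
        rw [le_div_iff₀ hpos]
        have h3 := TwoC_ident ρ z o
        have h4 := hnum z hzρ
        have h5 : (1 / 25 : ℝ) ≤ (ρ ^ 2 - ‖z‖ ^ 2) * (ρ ^ 2 - ‖o‖ ^ 2) := by
          have h6 : ‖z‖ ^ 2 ≤ (4 / 7) ^ 2 := pow_le_pow_left₀ (norm_nonneg _) hz 2
          have h7 : ‖o‖ ^ 2 ≤ (13 / 14) ^ 2 := pow_le_pow_left₀ (norm_nonneg _) ho 2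
          have h8 : (473 / 784 : ℝ) ≤ ρ ^ 2 - ‖z‖ ^ 2 := by rw [hρ]; linarith
          have h9 : (53 / 784 : ℝ) ≤ ρ ^ 2 - ‖o‖ ^ 2 := by rw [hρ]; linarith
          have h10 := mul_le_mul h8 h9 (by norm_num) (by linarith)
          refine le_trans (by norm_num) h10
        have h6 : ‖((ρ : ℂ) ^ 2 - (starRingEnd ℂ) o * z)‖ ^ 2 ≤ 4 := by
          have := pow_le_pow_left₀ (norm_nonneg _) h4 2
          linarith
        nlinarith
      have h3 : Real.exp (θ * q) ≤ ‖W z‖ ^ τ := by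
        have h4 : ‖W z‖ ^ τ = (‖W z‖ ^ 2) ^ (τ / 2) := by
          rw [← Real.rpow_natCast, ← Real.rpow_mul (norm_nonneg _)]
          congr 1
          push_cast
          ring
        have h5 : Real.exp (θ * q) = (100 / 99 : ℝ) ^ (τ / 2) := by
          rw [Real.rpow_def_of_pos (by norm_num), hθ, hτ]
          congr 1
          field_simp
        rw [h4, h5]
        exact Real.rpow_le_rpow (by norm_num) h2 (by positivity)
      have hv0 : 0 ≤ vel ν F z := vel_nonneg ν isOpen_ball hF (by rw [mem_ball_zero_iff]; linarith)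
      have h6 : vel ν F z * Real.exp (θ * q) ≤ A := (mul_le_mul_of_nonneg_left h3 hv0).trans h1
      rw [Real.exp_neg, ← div_eq_mul_inv, le_div_iff₀ (Real.exp_pos _)]
      exact h6
  · -- continuity
    have hc : ContinuousOn W (closedBall 0 ρ \ ball o (1 / 40)) := by
      have h1 : W = fun z => ((ρ : ℂ) ^ 2 - (starRingEnd ℂ) o * z) / ((ρ : ℂ) * (z - o)) := funext hW
      rw [h1]
      refine ContinuousOn.div (by fun_prop) (by fun_prop) ?_
      intro z hz h0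
      rcases mul_eq_zero.1 h0 with h | h
      · exact hρC h
      · apply hz.2
        rw [sub_eq_zero.1 h]
        exact mem_ball_self (by norm_num)
    exact hc.norm.rpow_const fun z _ => Or.inr hτ0
  · -- subharmonicity
    intro z hz _
    have hzo : z - o ≠ 0 := by
      intro h
      apply hz.2
      rw [sub_eq_zero.1 h]
      exact mem_closedBall_self (by norm_num)
    have hzρ : ‖z‖ ≤ ρ := by
      have := hz.1
      rw [mem_ball_zero_iff] at this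
      exact this.le
    have han : AnalyticAt ℂ W z := by
      have h1 : W = fun z => ((ρ : ℂ) ^ 2 - (starRingEnd ℂ) o * z) / ((ρ : ℂ) * (z - o)) := funext hW
      rw [h1]
      refine AnalyticAt.div (by fun_prop) (by fun_prop) (mul_ne_zero hρC hzo)
    have hne : W z ≠ 0 := by
      rw [hW]
      exact div_ne_zero (hnum0 z hzρ) (mul_ne_zero hρC hzo)
    have h1 := (Pool.Agent.H36.BP.Sub.of_holo han hne).rpow hτ0
    rw [mul_zero] at h1
    exact h1
  · -- the boundary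
    intro z hz
    have hzS := hz.1
    have hzρ : ‖z‖ ≤ ρ := by
      have := hzS.1
      rwa [mem_closedBall_zero_iff] at this
    have hzo : 1 / 40 ≤ ‖z - o‖ := by
      have := hzS.2
      rw [mem_ball, dist_eq_norm, not_lt] at this
      exact this
    have hzb : z ∈ ball (0 : ℂ) 1 := by rw [mem_ball_zero_iff]; linarith
    have hv0 : 0 ≤ vel ν F z := vel_nonneg ν isOpen_ball hF hzb
    by_cases h1 : ‖z - o‖ ≤ 1 / 40
    · have h2 : ‖W z‖ ≤ 84 := by
        rw [hWn, div_le_iff₀ (by positivity)]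
        have h3 := hnum z hzρ
        have h4 : (2 : ℝ) ≤ 84 * (ρ * ‖z - o‖) := by
          rw [hρ]
          linarith
        exact h3.trans h4
      have h3 : ‖W z‖ ^ τ ≤ Real.exp q := by
        have h4 : Real.exp q = (84 : ℝ) ^ τ := by
          rw [Real.rpow_def_of_pos (by norm_num), hτ]
          congr 1
          field_simp
        rw [h4]
        exact Real.rpow_le_rpow (norm_nonneg _) h2 hτ0
      have h5 := hB z ⟨hzb, by rw [mem_ball, dist_eq_norm]; linarith⟩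
      calc vel ν F z * ‖W z‖ ^ τ ≤ (A * Real.exp (-q)) * Real.exp q := mul_le_mul h5 h3 (by positivity) (by positivity)
        _ = A := by rw [mul_assoc, ← Real.exp_add, neg_add_cancel, Real.exp_zero, mul_one]
    · have h2 : ‖z‖ = ρ := by
        by_contra hne
        apply hz.2
        refine ⟨?_, ?_⟩
        · rw [mem_ball_zero_iff]
          exact lt_of_le_of_ne hzρ hne
        · rw [mem_closedBall, dist_eq_norm]
          exact h1
      have h3 : ‖W z‖ = 1 := by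
        have h4 := TwoC_ident ρ z o
        rw [h2, sub_self, zero_mul, sub_eq_zero, ← mul_pow] at h4
        have h5 := (pow_left_inj₀ (norm_nonneg _) (by positivity) two_ne_zero).1 h4
        rw [hWn, h5, div_self]
        have : 0 < ‖z - o‖ := by linarith
        positivity
      show vel ν F z * ‖W z‖ ^ τ ≤ A
      rw [h3, Real.one_rpow, mul_one]
      exact hA z hzb

end Pool.Agent.AD.F
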