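import Pool.Agent.AD.F.LemX0
import Pool.Agent.AD.F.TwoC

/-!
# AD F LemX: Lemma X, no switching between different branches

Let `A = sup v` over `closedBall 0 (7/8)`, `A' = sup v` over `closedBall w' (7/16)`, `m = min A A' ≥ L`, `o' = (3/4) w'/‖w'‖`, so `1/8 ≤ ‖o' - w'‖ ≤ 3/8`.  `exists_potential` on `ball 0 1` and on
`ball w' (1/2)`: on `ball o' (1/16)` (`1 - ‖z‖ ≥ 3/16`, `1 - 2‖z - w'‖ ≥ 1/8`): `R ≤ exp (-(3/16) c A²)`, `R' ≤ exp (-(1/8) c (A'/2)²)`, so both `≤ exp (-u)`, `u = c m²/32`.  `Eqv` fails at `o'`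
(`Fol.eqv` on the convex set `ball 0 1 ∩ ball w' (1/2)`).  `exists_slow`: `v ≤ 16 B exp (-u/M)` on `ball o' (1/32)`.
Case `A ≤ A'`: `exists_twoConst` for `F ((7/8) z)` (`1/32 / (7/8) = 1/28 ≥ 1/38`, `(3/4)/(7/8) = 6/7`, `(1/2)/(7/8) = 4/7`), with the bound `(7/8) A` and
`q = u/M + log (A/(16 B)) ≥ u/M` if `L ≥ 16 B`: `v z₁ ≤ A exp (-θ c A²/(32 M))`, and `x exp (-k x²) ≤ 1/√(2 k e) < L` for all `x` if `L` is large: contradiction to `v z₁ ≥ L`.
Case `A' < A`: the same for `F (w' + (7/16) z)` and `z₂`.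
-/

set_option autoImplicit false

open Topology Filter Metric

namespace Pool.Agent.AD.F

open Pool.Agent.H36.BP (EN fs wd Sub Curve)
open Pool.Agent.H14.PP (IsCone Tan CurveAt)
open Pool.Agent.H22.W (PseudoLength)
open Pool.Agent.H62.EF (pr Lat)

variable {N : ℕ} {X : Set (EN N)}

private theorem LemX_small {k L A : ℝ} (hk : 0 < k) (hL : 0 < L) (h1 : 1 ≤ k * L ^ 2) (hA : L ≤ A) : A * Real.exp (-(k * A ^ 2)) < L := by
  have hA0 : 0 < A := lt_of_lt_of_le hL hA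
  rw [Real.exp_neg, ← div_eq_mul_inv, div_lt_iff₀ (Real.exp_pos _)]
  have h2 : k * A ^ 2 + 1 ≤ Real.exp (k * A ^ 2) := Real.add_one_le_exp _
  have h3 : L * (k * A ^ 2 + 1) ≤ L * Real.exp (k * A ^ 2) := mul_le_mul_of_nonneg_left h2 hL.le
  have h4 : A ≤ L * (k * A ^ 2) := by
    have h5 : (k * L ^ 2) * A ≤ L * (k * A ^ 2) := by
      have : (k * L ^ 2) * A = (k * L * A) * L := by ring
      have h6 : L * (k * A ^ 2) = (k * L * A) * A := by ring
      rw [this, h6]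
      exact mul_le_mul_of_nonneg_left hA (by positivity)
    nlinarith
  linarith

private theorem LemX_disc {ν : PseudoLength X} {θ : ℝ} (hθ : ∀ (F : ℂ → EN N) (o : ℂ) (A q : ℝ), Curve X (ball 0 1) F → ‖o‖ ≤ 13 / 14 →
      0 ≤ q → (∀ z ∈ ball (0 : ℂ) 1, vel ν F z ≤ A) → (∀ z ∈ ball (0 : ℂ) 1 ∩ ball o (1 / 38), vel ν F z ≤ A * Real.exp (-q)) →
      ∀ z : ℂ, ‖z‖ ≤ 4 / 7 → vel ν F z ≤ A * Real.exp (-(θ * q)))
    {F : ℂ → EN N} {c o z : ℂ} {t A q : ℝ} (ht : 0 < t) (ht1 : t ≤ 1) (hF : Curve X (ball c t) F) (ho : ‖o - c‖ ≤ 6 / 7 * t) (hq : 0 ≤ q)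
    (hA : ∀ z ∈ ball c t, vel ν F z ≤ A) (hB : ∀ z ∈ ball c t ∩ ball o (1 / 32), vel ν F z ≤ A * Real.exp (-q)) (hz : ‖z - c‖ ≤ 4 / 7 * t) :
    vel ν F z ≤ A * Real.exp (-(θ * q)) := by
  have htC : (t : ℂ) ≠ 0 := by exact_mod_cast ht.ne'
  have hmaps : ∀ w ∈ ball (0 : ℂ) 1, c + (t : ℂ) * w ∈ ball c t := by
    intro w hw
    rw [mem_ball_zero_iff] at hw
    rw [mem_ball, dist_eq_norm, add_sub_cancel_left, norm_mul, Complex.norm_real, Real.norm_of_nonneg ht.le]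
    nlinarith
  have hG : Curve X (ball 0 1) (fun w => F (c + (t : ℂ) * w)) := Curve.comp hF (by fun_prop) hmaps
  have hv : ∀ w ∈ ball (0 : ℂ) 1, vel ν (fun w => F (c + (t : ℂ) * w)) w = t * vel ν F (c + (t : ℂ) * w) := by
    intro w hw
    rw [vel_affine ν isOpen_ball hF _ _ (hmaps w hw), Complex.norm_real, Real.norm_of_nonneg ht.le]
  have hback : ∀ x : ℂ, c + (t : ℂ) * ((x - c) / t) = x := by
    intro x
    field_simp
    ring
  have hnb : ∀ x : ℂ, ‖(x - c) / (t : ℂ)‖ = ‖x - c‖ / t := by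
    intro x
    rw [norm_div, Complex.norm_real, Real.norm_of_nonneg ht.le]
  have h1 := hθ (fun w => F (c + (t : ℂ) * w)) ((o - c) / t) (t * A) q hG ?_ hq ?_ ?_ ((z - c) / t) ?_
  · have h2 : (z - c) / (t : ℂ) ∈ ball (0 : ℂ) 1 := by
      rw [mem_ball_zero_iff, hnb, div_lt_one ht]
      linarith
    rw [hv _ h2, hback, mul_assoc] at h1
    exact le_of_mul_le_mul_left h1 ht
  · rw [hnb, div_le_iff₀ ht]
    linarith
  · intro w hw
    rw [hv w hw]
    exact mul_le_mul_of_nonneg_left (hA _ (hmaps w hw)) ht.le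
  · rintro w ⟨hw, hw2⟩
    rw [hv w hw, mul_assoc]
    refine mul_le_mul_of_nonneg_left (hB _ ⟨hmaps w hw, ?_⟩) ht.le
    rw [mem_ball, dist_eq_norm] at hw2 ⊢
    have h3 : c + (t : ℂ) * w - o = (t : ℂ) * (w - (o - c) / t) := by
      field_simp
      ring
    rw [h3, norm_mul, Complex.norm_real, Real.norm_of_nonneg ht.le]
    have h4 : t * ‖w - (o - c) / (t : ℂ)‖ ≤ 1 * ‖w - (o - c) / (t : ℂ)‖ := mul_le_mul_of_nonneg_right ht1 (norm_nonneg _)
    linarith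
  · rw [hnb, div_le_iff₀ ht]
    exact hz

/-- **Lemma X.** -/
theorem Setup.exists_noSwitch (S : Setup X) : ∃ L : ℝ, 0 < L ∧ ∀ (i j : S.ι) (ζ ζ' : ℂ → ℂ) (F : ℂ → EN N) (w' z₁ z₂ o : ℂ),
    Curve X (ball 0 1 ∪ ball w' (1 / 2)) F → S.Fol i ζ F (ball 0 1) → S.Fol j ζ' F (ball w' (1 / 2)) → 7 / 8 ≤ ‖w'‖ → ‖w'‖ ≤ 9 / 8 →
    o ∈ ball (0 : ℂ) 1 → o ∈ ball w' (1 / 2) → ¬ S.Eqv i (ζ o) j (ζ' o) → ‖z₁‖ ≤ 1 / 2 → ‖z₂ - w'‖ ≤ 1 / 4 → L ≤ vel S.ν F z₁ →
    vel S.ν F z₂ < L := by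
  obtain ⟨u₀, B, hu₀, hB, hslow⟩ := S.exists_slow
  obtain ⟨θ, hθ, htwo⟩ := exists_twoConst S.ν
  obtain ⟨c, hc, hpot⟩ := S.exists_potential
  have hM : (0 : ℝ) < S.M := by exact_mod_cast S.M_pos
  obtain ⟨k, hk⟩ : ∃ k : ℝ, k = θ * c / (32 * S.M) := ⟨_, rfl⟩
  have hk0 : 0 < k := by rw [hk]; positivity
  obtain ⟨L, hL⟩ : ∃ L : ℝ, L = 1 + 16 * B + 1 / k + 32 * u₀ / c := ⟨_, rfl⟩
  have hL1 : 1 ≤ L := by
    rw [hL]
    have h1 : 0 < 1 / k := by positivity
    have h2 : 0 < 32 * u₀ / c := by positivity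
    linarith
  have hLB : 16 * B ≤ L := by
    rw [hL]
    have h1 : 0 < 1 / k := by positivity
    have h2 : 0 < 32 * u₀ / c := by positivity
    linarith
  have hL2 : L ≤ L ^ 2 := by nlinarith
  have hLk : 1 ≤ k * L ^ 2 := by
    have h1 : 1 / k ≤ L := by
      rw [hL]
      have h2 : 0 < 32 * u₀ / c := by positivity
      linarith
    rw [div_le_iff₀ hk0] at h1
    nlinarith
  have hLu : u₀ ≤ c * L ^ 2 / 32 := by
    have h1 : 32 * u₀ / c ≤ L := by
      rw [hL]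
      have h2 : 0 < 1 / k := by positivity
      linarith
    rw [div_le_iff₀ hc] at h1
    nlinarith
  have hL0 : 0 < L := lt_of_lt_of_le one_pos hL1
  refine ⟨L, hL0, ?_⟩
  intro i j ζ ζ' F w' z₁ z₂ o hF hi hj hw1 hw2 ho1 ho2 hne hz₁ hz₂ hLz
  by_contra hcon
  push Not at hcon
  have hF0 : Curve X (ball 0 1) F := Curve.mono hF Set.subset_union_left
  have hF1 : Curve X (ball w' (1 / 2)) F := Curve.mono hF Set.subset_union_right
  -- the maxima
  obtain ⟨a, ha, hamax⟩ := (isCompact_closedBall (0 : ℂ) (7 / 8)).exists_isMaxOn ⟨0, mem_closedBall_self (by norm_num)⟩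
    ((vel_cont S.ν isOpen_ball hF0).mono (closedBall_subset_ball (by norm_num)))
  obtain ⟨a', ha', hamax'⟩ := (isCompact_closedBall w' (7 / 16)).exists_isMaxOn ⟨w', mem_closedBall_self (by norm_num)⟩
    ((vel_cont S.ν isOpen_ball hF1).mono (closedBall_subset_ball (by norm_num)))
  obtain ⟨A, hA⟩ : ∃ A : ℝ, A = vel S.ν F a := ⟨_, rfl⟩
  obtain ⟨A', hA'⟩ : ∃ A' : ℝ, A' = vel S.ν F a' := ⟨_, rfl⟩
  have hmax : ∀ z ∈ closedBall (0 : ℂ) (7 / 8), vel S.ν F z ≤ A := fun z hz => by rw [hA]; exact hamax hz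
  have hmax' : ∀ z ∈ closedBall w' (7 / 16), vel S.ν F z ≤ A' := fun z hz => by rw [hA']; exact hamax' hz
  have hLA : L ≤ A := hLz.trans (hmax z₁ (by rw [mem_closedBall_zero_iff]; linarith))
  have hLA' : L ≤ A' := hcon.trans (hmax' z₂ (by rw [mem_closedBall, dist_eq_norm]; linarith))
  -- the point `o'`
  have hw0 : 0 < ‖w'‖ := by linarith
  have hwC : ((‖w'‖ : ℝ) : ℂ) ≠ 0 := by exact_mod_cast hw0.ne'
  obtain ⟨o', ho'⟩ : ∃ o' : ℂ, o' = ((3 / 4 / ‖w'‖ : ℝ) : ℂ) * w' := ⟨_, rfl⟩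
  have ho'n : ‖o'‖ = 3 / 4 := by
    rw [ho', norm_mul, Complex.norm_real, Real.norm_of_nonneg (by positivity)]
    field_simp
  have ho'w : ‖o' - w'‖ ≤ 3 / 8 := by
    have h1 : o' - w' = ((3 / 4 / ‖w'‖ - 1 : ℝ) : ℂ) * w' := by
      rw [ho']
      push_cast
      ring
    rw [h1, norm_mul, Complex.norm_real, Real.norm_eq_abs]
    have h2 : |3 / 4 / ‖w'‖ - 1| * ‖w'‖ = |3 / 4 - ‖w'‖| := by
      have h3 : |3 / 4 / ‖w'‖ - 1| * ‖w'‖ = |(3 / 4 / ‖w'‖ - 1) * ‖w'‖| := by rw [abs_mul, abs_of_pos hw0]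
      have h4 : (3 / 4 / ‖w'‖ - 1) * ‖w'‖ = 3 / 4 - ‖w'‖ := by field_simp
      rw [h3, h4]
    rw [h2, abs_le]
    constructor <;> linarith
  have ho'1 : o' ∈ ball (0 : ℂ) 1 := by rw [mem_ball_zero_iff, ho'n]; norm_num
  have ho'2 : o' ∈ ball w' (1 / 2) := by rw [mem_ball, dist_eq_norm]; linarith
  -- the places are different at `o'`
  have hne' : ¬ S.Eqv i (ζ o') j (ζ' o') := by
    intro hE
    apply hne
    exact Setup.Fol.eqv (isOpen_ball.inter isOpen_ball) ((convex_ball _ _).inter (convex_ball _ _)).isPreconnected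
      (Curve.mono hF0 Set.inter_subset_left) (hi.mono Set.inter_subset_left) (hj.mono Set.inter_subset_right) ⟨ho'1, ho'2⟩ hE ⟨ho1, ho2⟩
  -- the ball around `o'`
  have hsub0 : ball o' (1 / 16) ⊆ ball (0 : ℂ) 1 := by
    intro z hz
    rw [mem_ball, dist_eq_norm] at hz
    rw [mem_ball_zero_iff]
    have h1 : z = (z - o') + o' := by ring
    rw [h1]
    have := norm_add_le (z - o') o'
    linarith
  have hsub1 : ball o' (1 / 16) ⊆ ball w' (1 / 2) := by
    intro z hz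
    rw [mem_ball, dist_eq_norm] at hz ⊢
    have h1 : z - w' = (z - o') + (o' - w') := by ring
    rw [h1]
    have := norm_add_le (z - o') (o' - w')
    linarith
  have key : ∀ m : ℝ, L ≤ m → m ≤ A → m ≤ A' → ∀ z ∈ ball o' (1 / 32), vel S.ν F z ≤ 16 * B * Real.exp (-(c * m ^ 2 / 32 / S.M)) := by
    intro m hm hmA hmA' z hz
    have hm0 : 0 < m := lt_of_lt_of_le hL0 hm
    have h1 := hslow i j ζ ζ' F o' (1 / 16) (c * m ^ 2 / 32) (by norm_num) ?_ (Curve.mono hF0 hsub0) (hi.mono hsub0) (hj.mono hsub1) hne' ?_ ?_ z ?_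
    · refine h1.trans (le_of_eq ?_)
      ring
    · refine hLu.trans ?_
      have : L ^ 2 ≤ m ^ 2 := pow_le_pow_left₀ hL0.le hm 2
      gcongr
    · intro w hw
      refine (hpot i ζ F 0 1 one_pos hF0 hi a ?_ w (hsub0 hw)).trans ?_
      · rw [sub_zero, mul_one]
        rwa [mem_closedBall_zero_iff] at ha
      · rw [Real.exp_le_exp, neg_le_neg_iff, ← hA, one_mul, sub_zero, div_one]
        have h2 : ‖w‖ ≤ 13 / 16 := by
          rw [mem_ball, dist_eq_norm] at hw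
          have h3 : w = (w - o') + o' := by ring
          rw [h3]
          have := norm_add_le (w - o') o'
          linarith
        have h3 : m ^ 2 ≤ A ^ 2 := pow_le_pow_left₀ hm0.le hmA 2
        calc c * m ^ 2 / 32 = c * m ^ 2 * (1 / 32) := by ring
          _ ≤ c * A ^ 2 * (1 - ‖w‖) := by
            refine mul_le_mul (mul_le_mul_of_nonneg_left h3 hc.le) (by linarith) (by norm_num) (by positivity)
    · intro w hw
      refine (hpot j ζ' F w' (1 / 2) (by norm_num) hF1 hj a' ?_ w (hsub1 hw)).trans ?_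
      · rw [mem_closedBall, dist_eq_norm] at ha'
        linarith
      · rw [Real.exp_le_exp, neg_le_neg_iff, ← hA']
        have h2 : ‖w - w'‖ ≤ 7 / 16 := by
          rw [mem_ball, dist_eq_norm] at hw
          have h3 : w - w' = (w - o') + (o' - w') := by ring
          rw [h3]
          have := norm_add_le (w - o') (o' - w')
          linarith
        have h3 : m ^ 2 ≤ A' ^ 2 := pow_le_pow_left₀ hm0.le hmA' 2
        have h4 : (1 / 8 : ℝ) ≤ 1 - ‖w - w'‖ / (1 / 2) := by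
          rw [div_eq_mul_inv]
          norm_num
          linarith
        calc c * m ^ 2 / 32 = c * (m ^ 2 / 4) * (1 / 8) := by ring
          _ ≤ c * (1 / 2 * A') ^ 2 * (1 - ‖w - w'‖ / (1 / 2)) := by
            refine mul_le_mul (mul_le_mul_of_nonneg_left ?_ hc.le) h4 (by norm_num) (by positivity)
            rw [mul_pow]
            linarith
    · have : (1 / 16 / 2 : ℝ) = 1 / 32 := by norm_num
      rw [this]
      exact hz
  have hq : ∀ m : ℝ, 0 ≤ c * m ^ 2 / 32 / S.M := fun m => by positivity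
  have hexp : ∀ m : ℝ, θ * (c * m ^ 2 / 32 / S.M) = k * m ^ 2 := by
    intro m
    rw [hk]
    field_simp
  rcases le_total A A' with hcase | hcase
  · have h1 := LemX_disc htwo (F := F) (c := 0) (o := o') (z := z₁) (t := 7 / 8) (A := A) (q := c * A ^ 2 / 32 / S.M) (by norm_num) (by norm_num)
      (Curve.mono hF0 (ball_subset_ball (by norm_num))) (by rw [sub_zero, ho'n]; norm_num) (hq A)
      (fun z hz => hmax z (ball_subset_closedBall hz)) (fun z hz => (key A hLA le_rfl hcase z hz.2).trans ?_) (by rw [sub_zero]; linarith)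
    · rw [hexp] at h1
      have h2 := LemX_small hk0 hL0 hLk hLA
      linarith
    · exact mul_le_mul_of_nonneg_right (hLB.trans hLA) (Real.exp_pos _).le
  · have h1 := LemX_disc htwo (F := F) (c := w') (o := o') (z := z₂) (t := 7 / 16) (A := A') (q := c * A' ^ 2 / 32 / S.M) (by norm_num) (by norm_num)
      (Curve.mono hF1 (ball_subset_ball (by norm_num))) (by linarith) (hq A')
      (fun z hz => hmax' z (ball_subset_closedBall hz)) (fun z hz => (key A' hLA' hcase le_rfl z hz.2).trans ?_) (by linarith)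
    · rw [hexp] at h1
      have h2 := LemX_small hk0 hL0 hLk hLA'
      linarith
    · exact mul_le_mul_of_nonneg_right (hLB.trans hLA') (Real.exp_pos _).le

end Pool.Agent.AD.F
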