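import Pool.Agent.AD.F.Fol

/-!
# AD F LemX0: a curve which follows two different branches closely is slow

`fs_le_of_pd`: let `‖p‖ = 1` (scale), `f = F / ⟨p, F⟩ = p + f'`, `f' ⊥ p`, `‖f'‖ = tan θ`, `sin θ = wd p F / ‖F‖ = pd / √2` (`H62.EF.dist_pr`), so `‖f'‖ ≤ 2 δ`; the Cauchy estimate gives
`‖f''‖ ≤ 4 δ / s` for the derivative on `ball o (s/2)`, and `fs (F, F') = fs (f, (f)') ≤ ‖(f)'‖ / ‖f‖`, `‖f‖ ≥ 1`.  (`H36.BP.fs_inv`: `fs` does not depend on the lift.)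

`exists_slow`: by `Fol.foot` there are `w`, `w'` with `‖w - ζ z‖ ≤ r/8`, `pd (F z) (g i w) ≤ C e^(-u) ≤ ε` and the same for `ζ'`.  `(i, w)`, `(j, w')` are not `Eqv`: otherwise
`‖ζ z - ζ' z - l‖ ≤ r + r/4 ≤ 4 r`, so `≤ r/32` (`near_of_near` and the period), so `Eqv i (ζ z) j (ζ' z)`, and by `Fol.eqv` at `o`: contradiction.  `S.sep` with `d = C e^(-u)`:
`pd (F z) p ≤ C (C e^(-u))^(1/M) ≤ C² e^(-u/M)` for some `p ∈ pts`.  For large `u` these closed balls around the finitely many different points `pr p` are disjoint and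
`ball o s` is connected: one `p` for all `z`.  Then `fs_le_of_pd` and `Setup.vel_le`.
-/

set_option autoImplicit false

open Topology Filter Metric

namespace Pool.Agent.AD.F

open Pool.Agent.H36.BP (EN fs wd Sub Curve)
open Pool.Agent.H14.PP (IsCone Tan CurveAt)
open Pool.Agent.H22.W (PseudoLength)
open Pool.Agent.H62.EF (pr Lat norm_inner_sq continuousAt_pr)

variable {N : ℕ} {X : Set (EN N)}

private theorem LemX0_nm {p x : EN N} (hp : p ≠ 0) (hx : x ≠ 0) {δ : ℝ} (hδ : δ ≤ 1 / 2) (h : pd x p ≤ δ) :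
    (inner ℂ p x : ℂ) ≠ 0 ∧ ‖(((‖p‖ ^ 2 : ℝ) : ℂ) / inner ℂ p x) • x - p‖ ≤ ‖p‖ * δ ∧ ‖p‖ ≤ ‖(((‖p‖ ^ 2 : ℝ) : ℂ) / inner ℂ p x) • x‖ := by
  have hn : 0 < ‖p‖ := norm_pos_iff.mpr hp
  have hn' : 0 < ‖x‖ := norm_pos_iff.mpr hx
  obtain ⟨d, hd⟩ : ∃ d : ℝ, d = pd x p := ⟨_, rfl⟩
  have hd0 : 0 ≤ d := by rw [hd]; exact dist_nonneg
  have hdδ : d ≤ δ := by rw [hd]; exact h
  have hd2 : d ^ 2 ≤ 1 / 4 := by nlinarith
  have h1 : ‖(inner ℂ p x : ℂ)‖ ^ 2 = ‖p‖ ^ 2 * ‖x‖ ^ 2 * (1 - d ^ 2 / 2) := by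
    rw [norm_inner_sq hp hx, hd]
    unfold pd
    rw [dist_comm]
  have hpos : 0 < ‖p‖ ^ 2 * ‖x‖ ^ 2 * (1 - d ^ 2 / 2) := by
    have : 0 < 1 - d ^ 2 / 2 := by linarith
    positivity
  have hne : (inner ℂ p x : ℂ) ≠ 0 := by
    intro h0
    rw [h0, norm_zero] at h1
    rw [← h1] at hpos
    norm_num at hpos
  obtain ⟨y, hy⟩ : ∃ y : EN N, y = (((‖p‖ ^ 2 : ℝ) : ℂ) / inner ℂ p x) • x := ⟨_, rfl⟩
  rw [← hy]
  have hy1 : (inner ℂ p y : ℂ) = ((‖p‖ ^ 2 : ℝ) : ℂ) := by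
    rw [hy, inner_smul_right, div_mul_cancel₀ _ hne]
  have hy2 : ‖y‖ ^ 2 * (1 - d ^ 2 / 2) = ‖p‖ ^ 2 := by
    rw [hy, norm_smul, mul_pow, norm_div, div_pow, h1, Complex.norm_real, Real.norm_of_nonneg (by positivity)]
    obtain ⟨e, he⟩ : ∃ e : ℝ, e = 1 - d ^ 2 / 2 := ⟨_, rfl⟩
    have h3 : e ≠ 0 := by
      have : 0 < e := by rw [he]; linarith
      exact this.ne'
    rw [← he]
    field_simp
  have horth : (inner ℂ p (y - p) : ℂ) = 0 := by
    rw [inner_sub_right, hy1, inner_self_eq_norm_sq_to_K]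
    simp
  have hpyth : ‖y‖ ^ 2 = ‖p‖ ^ 2 + ‖y - p‖ ^ 2 := by
    have h4 := norm_add_sq_eq_norm_sq_add_norm_sq_of_inner_eq_zero p (y - p) horth
    rw [add_sub_cancel] at h4
    nlinarith [h4]
  refine ⟨hne, ?_, ?_⟩
  · have h5 : ‖y - p‖ ^ 2 ≤ (‖p‖ * δ) ^ 2 := by
      have h6 : ‖y‖ ^ 2 ≤ 2 * ‖p‖ ^ 2 := by
        have h7 : 0 ≤ ‖y‖ ^ 2 := by positivity
        nlinarith
      have h7 : ‖y - p‖ ^ 2 = ‖y‖ ^ 2 * (d ^ 2 / 2) := by
        have : ‖y - p‖ ^ 2 = ‖y‖ ^ 2 - ‖p‖ ^ 2 := by linarith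
        rw [this, ← hy2]
        ring
      have h8 : d ^ 2 ≤ δ ^ 2 := pow_le_pow_left₀ hd0 hdδ 2
      calc ‖y - p‖ ^ 2 = ‖y‖ ^ 2 * (d ^ 2 / 2) := h7
        _ ≤ (2 * ‖p‖ ^ 2) * (δ ^ 2 / 2) := mul_le_mul h6 (by linarith) (by positivity) (by positivity)
        _ = (‖p‖ * δ) ^ 2 := by ring
    have h9 : 0 ≤ ‖p‖ * δ := mul_nonneg hn.le (hd0.trans hdδ)
    exact (pow_le_pow_iff_left₀ (norm_nonneg _) h9 two_ne_zero).1 h5
  · have h5 : ‖p‖ ^ 2 ≤ ‖y‖ ^ 2 := by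
      have : 0 ≤ ‖y - p‖ ^ 2 := by positivity
      linarith
    exact (pow_le_pow_iff_left₀ hn.le (norm_nonneg _) two_ne_zero).1 h5

theorem fs_le_of_pd {p : EN N} (hp : p ≠ 0) {F : ℂ → EN N} {o : ℂ} {s δ : ℝ} (hs : 0 < s) (hF : DifferentiableOn ℂ F (ball o s))
    (h0 : ∀ z ∈ ball o s, F z ≠ 0) (hδ : δ ≤ 1 / 2) (h : ∀ z ∈ ball o s, pd (F z) p ≤ δ) {z : ℂ} (hz : z ∈ ball o (s / 2)) :
    fs (F z) (deriv F z) ≤ 16 * δ / s := by
  have hn : 0 < ‖p‖ := norm_pos_iff.mpr hp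
  obtain ⟨φ, hφ⟩ : ∃ φ : ℂ → ℂ, ∀ z, φ z = ((‖p‖ ^ 2 : ℝ) : ℂ) / inner ℂ p (F z) := ⟨_, fun _ => rfl⟩
  obtain ⟨G, hG⟩ : ∃ G : ℂ → EN N, ∀ z, G z = φ z • F z := ⟨_, fun _ => rfl⟩
  have hkey : ∀ z ∈ ball o s, (inner ℂ p (F z) : ℂ) ≠ 0 ∧ ‖G z - p‖ ≤ ‖p‖ * δ ∧ ‖p‖ ≤ ‖G z‖ := by
    intro z hz
    rw [hG, hφ]
    exact LemX0_nm hp (h0 z hz) hδ (h z hz)
  have hinner : ∀ z ∈ ball o s, DifferentiableAt ℂ (fun z => (inner ℂ p (F z) : ℂ)) z := by
    intro z hz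
    exact ((innerSL ℂ p).differentiableAt).comp z (hF.differentiableAt (isOpen_ball.mem_nhds hz))
  have hφd : ∀ z ∈ ball o s, DifferentiableAt ℂ φ z := by
    intro z hz
    have h1 : φ = fun z => ((‖p‖ ^ 2 : ℝ) : ℂ) / inner ℂ p (F z) := funext hφ
    rw [h1]
    exact (differentiableAt_const _).div (hinner z hz) (hkey z hz).1
  have hGe : G = fun z => φ z • F z := funext hG
  have hGd : ∀ z ∈ ball o s, DifferentiableAt ℂ G z := by
    intro z hz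
    rw [hGe]
    exact (hφd z hz).smul (hF.differentiableAt (isOpen_ball.mem_nhds hz))
  have hzs : z ∈ ball o s := ball_subset_ball (by linarith) hz
  have hsub : closedBall z (s / 4) ⊆ ball o s := by
    intro w hw
    rw [mem_closedBall, dist_eq_norm] at hw
    rw [mem_ball, dist_eq_norm] at hz ⊢
    have h2 : w - o = (w - z) + (z - o) := by ring
    rw [h2]
    have := norm_add_le (w - z) (z - o)
    linarith
  have hder : ‖deriv (fun w => G w - p) z‖ ≤ ‖p‖ * δ / (s / 4) := by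
    refine Complex.norm_deriv_le_of_forall_mem_sphere_norm_le (by positivity) ?_ ?_
    · refine DifferentiableOn.diffContOnCl_ball (U := ball o s) ?_ hsub
      intro w hw
      exact ((hGd w hw).sub_const p).differentiableWithinAt
    · intro w hw
      exact (hkey w (hsub (sphere_subset_closedBall hw))).2.1
  have hder2 : deriv (fun w => G w - p) z = deriv G z := by
    rw [deriv_sub_const]
  rw [hder2] at hder
  have hφ0 : φ z ≠ 0 := by
    rw [hφ]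
    refine div_ne_zero ?_ (hkey z hzs).1
    exact_mod_cast pow_ne_zero 2 hn.ne'
  have hfs : fs (G z) (deriv G z) = fs (F z) (deriv F z) := by
    have h3 : deriv G z = φ z • deriv F z + deriv φ z • F z := by
      rw [hGe]
      exact ((hφd z hzs).hasDerivAt.smul (hF.differentiableAt (isOpen_ball.mem_nhds hzs)).hasDerivAt).deriv
    rw [h3, hG]
    exact Pool.Agent.H36.BP.fs_inv (h0 z hzs) _ hφ0 _
  rw [← hfs]
  have hG0 : G z ≠ 0 := by
    intro h4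
    have := (hkey z hzs).2.2
    rw [h4, norm_zero] at this
    linarith
  have hδ0 : 0 ≤ δ := le_trans dist_nonneg (h z hzs)
  refine (Pool.Agent.H14.PP.fs_le hG0 _).trans ?_
  rw [div_le_iff₀ (norm_pos_iff.mpr hG0)]
  refine hder.trans ?_
  have h5 : ‖p‖ * δ / (s / 4) = 4 * δ / s * ‖p‖ := by field_simp
  rw [h5]
  refine mul_le_mul ?_ (hkey z hzs).2.2 hn.le (by positivity)
  gcongr
  norm_num

private theorem LemX0_gap {α : Type*} {s : Set α} (hs : s.Finite) (f : α → ℝ) (h : ∀ x ∈ s, 0 < f x) : ∃ η : ℝ, 0 < η ∧ ∀ x ∈ s, η ≤ f x := by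
  rcases s.eq_empty_or_nonempty with rfl | hne
  · exact ⟨1, one_pos, fun x hx => absurd hx (Set.notMem_empty x)⟩
  · obtain ⟨a, ha, hmin⟩ := Set.exists_min_image s f hs hne
    exact ⟨f a, h a ha, hmin⟩

/-- **Lemma X0.** -/
theorem Setup.exists_slow (S : Setup X) : ∃ u₀ B : ℝ, 0 < u₀ ∧ 0 < B ∧ ∀ (i j : S.ι) (ζ ζ' : ℂ → ℂ) (F : ℂ → EN N) (o : ℂ) (s u : ℝ), 0 < s → u₀ ≤ u →
    Curve X (ball o s) F → S.Fol i ζ F (ball o s) → S.Fol j ζ' F (ball o s) → ¬ S.Eqv i (ζ o) j (ζ' o) →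
    (∀ z ∈ ball o s, S.R i ζ F z ≤ Real.exp (-u)) → (∀ z ∈ ball o s, S.R j ζ' F z ≤ Real.exp (-u)) →
    ∀ z ∈ ball o (s / 2), vel S.ν F z ≤ B / s * Real.exp (-(u / S.M)) := by
  have hC := S.C_ge
  have hC0 : 0 < S.C := lt_of_lt_of_le one_pos hC
  have hr := S.r_pos
  have hM : (1 : ℝ) ≤ S.M := by exact_mod_cast S.M_pos
  have hM0 : (0 : ℝ) < S.M := lt_of_lt_of_le one_pos hM
  obtain ⟨η, hη, hgap⟩ := LemX0_gap (s := {x : EN N × EN N | x ∈ S.pts ×ˢ S.pts ∧ 0 < pd x.1 x.2})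
    ((S.pts_fin.prod S.pts_fin).subset fun x hx => hx.1) (fun x => pd x.1 x.2) (fun x hx => hx.2)
  obtain ⟨t, ht⟩ : ∃ t : ℝ, t = min (S.ε / S.C) (min (1 / (2 * S.C ^ 2)) (η / (4 * S.C ^ 2))) := ⟨_, rfl⟩
  have hε := S.ε_pos
  have ht0 : 0 < t := by
    rw [ht]
    refine lt_min (by positivity) (lt_min (by positivity) (by positivity))
  have ht1 : S.C * t ≤ S.ε := by
    have h1 : t ≤ S.ε / S.C := by rw [ht]; exact min_le_left _ _
    rw [le_div_iff₀ hC0] at h1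
    linarith
  have ht2 : S.C ^ 2 * t ≤ 1 / 2 := by
    have h1 : t ≤ 1 / (2 * S.C ^ 2) := by rw [ht]; exact (min_le_right _ _).trans (min_le_left _ _)
    rw [le_div_iff₀ (by positivity)] at h1
    linarith
  have ht3 : S.C ^ 2 * t ≤ η / 4 := by
    have h1 : t ≤ η / (4 * S.C ^ 2) := by rw [ht]; exact (min_le_right _ _).trans (min_le_right _ _)
    rw [le_div_iff₀ (by positivity)] at h1
    linarith
  refine ⟨S.M * max 0 (-Real.log t) + 1, 16 * S.C ^ 3, ?_, by positivity, ?_⟩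
  · have : 0 ≤ S.M * max 0 (-Real.log t) := mul_nonneg hM0.le (le_max_left _ _)
    linarith
  intro i j ζ ζ' F o s u hs hu hF hi hj hne hRi hRj z hz
  have hu0 : 0 < u := by
    have : 0 ≤ S.M * max 0 (-Real.log t) := mul_nonneg hM0.le (le_max_left _ _)
    linarith
  have huM : -Real.log t ≤ u / S.M := by
    rw [le_div_iff₀ hM0]
    have h1 : -Real.log t * S.M ≤ max 0 (-Real.log t) * S.M := mul_le_mul_of_nonneg_right (le_max_right _ _) hM0.le
    linarith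
  obtain ⟨e, he⟩ : ∃ e : ℝ, e = Real.exp (-(u / S.M)) := ⟨_, rfl⟩
  have he0 : 0 < e := by rw [he]; exact Real.exp_pos _
  have het : e ≤ t := by
    rw [he, ← Real.le_log_iff_exp_le ht0]
    linarith
  have heu : Real.exp (-u) ≤ e := by
    rw [he, Real.exp_le_exp, neg_le_neg_iff]
    exact div_le_self hu0.le hM
  obtain ⟨δ, hδ⟩ : ∃ δ : ℝ, δ = S.C ^ 2 * e := ⟨_, rfl⟩
  have hδ0 : 0 < δ := by rw [hδ]; positivity
  have hδt : δ ≤ S.C ^ 2 * t := by rw [hδ]; exact mul_le_mul_of_nonneg_left het (by positivity)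
  -- a point of `pts` near `F z`
  have hpt : ∀ z ∈ ball o s, ∃ p ∈ S.pts, pd (F z) p ≤ δ := by
    intro z hz
    have hX : F z ∈ X := hF.2 z hz
    obtain ⟨w, hw1, hw2⟩ := hi.foot (fun z hz => hF.2 z hz) hz
    obtain ⟨w', hw1', hw2'⟩ := hj.foot (fun z hz => hF.2 z hz) hz
    have hd : S.C * Real.exp (-u) ≤ S.ε := (mul_le_mul_of_nonneg_left (heu.trans het) hC0.le).trans ht1
    have hw3 : pd (F z) (S.g i w) ≤ S.C * Real.exp (-u) := hw2.trans (mul_le_mul_of_nonneg_left (hRi z hz) hC0.le)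
    have hw3' : pd (F z) (S.g j w') ≤ S.C * Real.exp (-u) := hw2'.trans (mul_le_mul_of_nonneg_left (hRj z hz) hC0.le)
    have hnE : ¬ (i = j ∧ ∃ l ∈ S.Λ i, ‖w - w' - l‖ ≤ S.r) := by
      rintro ⟨hij, l, hl, hll⟩
      subst hij
      apply hne
      refine hi.eqv isOpen_ball (convex_ball o s).isPreconnected hF hj (z₀ := z) hz ?_ (mem_ball_self hs)
      refine ⟨rfl, l, hl, ?_⟩
      have h1 : ‖ζ z - (ζ' z + l)‖ ≤ 4 * S.r := by
        have h2 : ζ z - (ζ' z + l) = -(w - ζ z) + (w - w' - l) + (w' - ζ' z) := by ring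
        rw [h2]
        have h3 := norm_add_le (-(w - ζ z) + (w - w' - l)) (w' - ζ' z)
        have h4 := norm_add_le (-(w - ζ z)) (w - w' - l)
        rw [norm_neg] at h4
        linarith
      have h5 : pd (F z) (S.g i (ζ' z + l)) < S.ε := by
        have := hj.near z hz
        unfold pd at this ⊢
        rw [S.per i l hl]
        exact this
      have h6 := Setup.near_of_near h1 (hi.near z hz) h5
      have h7 : ζ z - ζ' z - l = ζ z - (ζ' z + l) := by ring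
      rw [h7]
      linarith
    obtain ⟨p, hp, hp2⟩ := S.sep i j w w' hnE (F z) hX (S.C * Real.exp (-u)) hd hw3 hw3'
    refine ⟨p, hp, hp2.trans ?_⟩
    have h8 : (S.C * Real.exp (-u)) ^ ((S.M : ℝ)⁻¹) ≤ S.C * e := by
      rw [Real.mul_rpow hC0.le (Real.exp_pos _).le]
      refine mul_le_mul ?_ ?_ (by positivity) hC0.le
      · calc S.C ^ ((S.M : ℝ)⁻¹) ≤ S.C ^ (1 : ℝ) := Real.rpow_le_rpow_of_exponent_le hC (inv_le_one_of_one_le₀ hM)
          _ = S.C := Real.rpow_one _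
      · rw [he, ← Real.exp_mul, div_eq_mul_inv, neg_mul]
    calc S.C * (S.C * Real.exp (-u)) ^ ((S.M : ℝ)⁻¹) ≤ S.C * (S.C * e) := mul_le_mul_of_nonneg_left h8 hC0.le
      _ = δ := by rw [hδ]; ring
  obtain ⟨p₀, hp₀, hp₀'⟩ := hpt o (mem_ball_self hs)
  -- the same point for all `z`
  have hsame : ∀ z ∈ ball o s, pd (F z) p₀ ≤ δ := by
    intro z hz
    by_contra hlt
    push Not at hlt
    have hcont : ContinuousOn (fun z => pd (F z) p₀) (ball o s) := by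
      intro w hw
      have h1 : ContinuousAt (fun z => pr (F z)) w :=
        (continuousAt_pr (S.cone.ne_zero (hF.2 w hw))).comp (hF.1.differentiableAt (isOpen_ball.mem_nhds hw)).continuousAt
      have h2 : ContinuousAt (fun z => dist (pr (F z)) (pr p₀)) w := Filter.Tendsto.dist h1 tendsto_const_nhds
      exact h2.continuousWithinAt
    have hfar : ∀ w ∈ ball o s, δ < pd (F w) p₀ → η / 2 < pd (F w) p₀ := by
      intro w hw hlt
      obtain ⟨q, hq, hq'⟩ := hpt w hw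
      have h1 : pd q p₀ ≤ pd (F w) q + pd (F w) p₀ := by
        unfold pd
        rw [dist_comm (pr (F w)) (pr q)]
        exact dist_triangle _ _ _
      have h2 : 0 < pd q p₀ := by
        refine lt_of_le_of_ne dist_nonneg fun h3 => ?_
        have h4 : pr q = pr p₀ := by
          unfold pd at h3
          exact dist_eq_zero.1 h3.symm
        unfold pd at hq' hlt
        rw [h4] at hq'
        linarith
      have h5 := hgap (q, p₀) ⟨⟨hq, hp₀⟩, h2⟩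
      have h6 : η ≤ pd q p₀ := h5
      linarith
    have h1 := hfar z hz hlt
    have h2 : η / 2 ∈ Set.Icc (pd (F o) p₀) (pd (F z) p₀) := ⟨by linarith, h1.le⟩
    obtain ⟨w, hw, hw2⟩ := (convex_ball o s).isPreconnected.intermediate_value (mem_ball_self hs) hz hcont h2
    have hw3 : pd (F w) p₀ = η / 2 := hw2
    have h3 := hfar w hw (by rw [hw3]; linarith)
    linarith
  have hfs := fs_le_of_pd (S.cone.ne_zero (S.pts_mem p₀ hp₀)) hs hF.1 (fun z hz => S.cone.ne_zero (hF.2 z hz))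
    (hδt.trans ht2) hsame hz
  refine (S.vel_le isOpen_ball hF (ball_subset_ball (by linarith) hz)).trans ?_
  calc S.C * fs (F z) (deriv F z) ≤ S.C * (16 * δ / s) := mul_le_mul_of_nonneg_left hfs hC0.le
    _ = 16 * S.C ^ 3 / s * Real.exp (-(u / S.M)) := by
      rw [hδ, he]
      ring

end Pool.Agent.AD.F
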