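import Pool.Agent.AD.F.Vel
import Pool.Agent.H36.BP.MaxP
import Pool.Agent.H36.BP.SubC

/-!
# AD F Max: maximum principles

* `vel_mul_not_isLocalMax`: let `h` be analytic at `z₀`, `|h z₀| = u z₀` and `|h z| exp(c'|z - z₀|²) ≤ u z` near `z₀`, with `c' = c / 2`.  Let `Φ` be a
  primitive of `1 / h` near `z₀` with `Φ z₀ = 0` and `φ` its inverse near `0` (`φ' = h ∘ φ`).  Then
  `vel (F ∘ φ) w = |h (φ w)| vel F (φ w)` (`vel_comp`).  If `vel F * u` had a local maximum at `z₀`, then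
  `vel (F ∘ φ) w ≤ vel (F ∘ φ) 0 * exp(-c'|φ w - z₀|²)` near `0`, which is `< vel (F ∘ φ) 0` for `w ≠ 0`: this contradicts
  `PseudoLength.curved` (sub-mean value property of the square) on a small circle around `0`.
* `vel_mul_le`: multiply `u` by `exp(δ|z|²)` (`Sub.mul`, `Sub.exp_sq`), use the first item at a maximum on the compact set `S`, let `δ → 0`.
* `sub_le`: the same without `vel` (`H36.BP.max_principle`).
-/

set_option autoImplicit false

open Topology Filter Metric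

namespace Pool.Agent.AD.F

open Pool.Agent.H36.BP (EN fs wd Sub Curve)
open Pool.Agent.H14.PP (IsCone Tan CurveAt)
open Pool.Agent.H22.W (PseudoLength)
open Pool.Agent.H62.EF (pr Lat)

variable {N : ℕ} {X : Set (EN N)}

/-- a solution of `φ' = h ∘ φ` -/
theorem exists_flow {h : ℂ → ℂ} {z₀ : ℂ} (hh : AnalyticAt ℂ h z₀) (h0 : h z₀ ≠ 0) :
    ∃ φ : ℂ → ℂ, φ 0 = z₀ ∧ AnalyticAt ℂ φ 0 ∧ (∀ᶠ w in 𝓝 0, HasDerivAt φ (h (φ w)) w) ∧ ∀ᶠ w in 𝓝[≠] 0, φ w ≠ z₀ := by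
  have h1 : ∀ᶠ z in 𝓝 z₀, AnalyticAt ℂ h z ∧ h z ≠ 0 := hh.eventually_analyticAt.and (hh.continuousAt.eventually_ne h0)
  obtain ⟨r, hr, hr1⟩ := Metric.eventually_nhds_iff_ball.1 h1
  have h2 : DifferentiableOn ℂ (fun z => (h z)⁻¹) (ball z₀ r) := fun z hz =>
    ((hr1 z hz).1.differentiableAt.inv (hr1 z hz).2).differentiableWithinAt
  obtain ⟨g, hg0, hg⟩ := h2.isExactOn_ball.with_val_at z₀ 0
  have hgd : DifferentiableOn ℂ g (ball z₀ r) := fun z hz => (hg z hz).differentiableAt.differentiableWithinAt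
  have hga : AnalyticAt ℂ g z₀ := hgd.analyticAt (ball_mem_nhds _ hr)
  have hgd0 : deriv g z₀ = (h z₀)⁻¹ := (hg z₀ (mem_ball_self hr)).deriv
  have hg' : deriv g z₀ ≠ 0 := by rw [hgd0]; exact inv_ne_zero h0
  obtain ⟨φ, hφ⟩ : ∃ φ, φ = hga.hasStrictDerivAt.localInverse _ _ _ hg' := ⟨_, rfl⟩
  have ha : AnalyticAt ℂ φ 0 := by
    have := hga.analyticAt_localInverse hg'
    rw [hg0] at this
    rw [hφ]; exact this
  have hr0 : ∀ᶠ w in 𝓝 (0 : ℂ), g (φ w) = w := by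
    have := hga.hasStrictDerivAt.eventually_right_inverse hg'
    rw [hg0] at this
    rw [hφ]; exact this
  have hφ0 : φ 0 = z₀ := by
    have := (hga.hasStrictDerivAt.eventually_left_inverse hg').self_of_nhds
    rw [hg0] at this
    rw [hφ]; exact this
  have hd : ∀ᶠ w in 𝓝 (0 : ℂ), HasDerivAt φ (h (φ w)) w := by
    have hb : ∀ᶠ w in 𝓝 (0 : ℂ), φ w ∈ ball z₀ r := by
      refine ha.continuousAt.eventually ?_
      rw [hφ0]; exact ball_mem_nhds _ hr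
    filter_upwards [ha.eventually_analyticAt, hr0.eventually_nhds, hb] with w hw1 hw2 hw3
    have e1 : HasDerivAt φ (deriv φ w) w := hw1.differentiableAt.hasDerivAt
    have e2 : HasDerivAt (fun v => g (φ v)) ((h (φ w))⁻¹ * deriv φ w) w := (hg _ hw3).comp w e1
    have e3 : HasDerivAt (fun v => g (φ v)) 1 w := (hasDerivAt_id w).congr_of_eventuallyEq hw2
    have e4 : (h (φ w))⁻¹ * deriv φ w = 1 := e2.unique e3
    have e5 : deriv φ w = h (φ w) := by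
      have := (hr1 _ hw3).2
      field_simp at e4
      exact e4
    rw [e5] at e1
    exact e1
  refine ⟨φ, hφ0, ha, hd, ?_⟩
  have h3 := hd.self_of_nhds.eventually_ne (c := z₀) (by rw [hφ0]; exact h0)
  exact h3

/-- **(N2), strict maximum principle** -/
theorem vel_mul_not_isLocalMax (ν : PseudoLength X) {F : ℂ → EN N} {z₀ : ℂ} (hF : CurveAt X F z₀) (h0 : 0 < vel ν F z₀)
    {u : ℂ → ℝ} {c : ℝ} (hu : Sub u z₀ c) (hc : 0 < c) : ¬ IsLocalMax (fun z => vel ν F z * u z) z₀ := by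
  intro hmax
  obtain ⟨hpos, hsup⟩ := hu
  obtain ⟨h, hh, hh0, hhu⟩ := hsup (c / 2) (by linarith)
  have hz0 : h z₀ ≠ 0 := by
    intro e
    rw [e, norm_zero] at hh0
    exact hpos.ne hh0
  obtain ⟨φ, hφ0, hφa, hφd, hφne⟩ := exists_flow hh hz0
  obtain ⟨hFa, hFX⟩ := hF
  have hev : ∀ᶠ z in 𝓝 z₀, (AnalyticAt ℂ F z ∧ F z ∈ X) ∧ ‖h z‖ * Real.exp (c / 2 * ‖z - z₀‖ ^ 2) ≤ u z ∧
      vel ν F z * u z ≤ vel ν F z₀ * u z₀ := (hFa.eventually_analyticAt.and hFX).and (hhu.and hmax)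
  obtain ⟨r, hr, hr1⟩ := Metric.eventually_nhds_iff_ball.1 hev
  have hcur : Curve X (ball z₀ r) F :=
    ⟨fun z hz => (hr1 z hz).1.1.differentiableAt.differentiableWithinAt, fun z hz => (hr1 z hz).1.2⟩
  have hev2 : ∀ᶠ w in 𝓝 (0 : ℂ), HasDerivAt φ (h (φ w)) w ∧ φ w ∈ ball z₀ r ∧ (w ≠ 0 → φ w ≠ z₀) := by
    have hb : ∀ᶠ w in 𝓝 (0 : ℂ), φ w ∈ ball z₀ r := by
      refine hφa.continuousAt.eventually ?_
      rw [hφ0]; exact ball_mem_nhds _ hr
    rw [eventually_nhdsWithin_iff] at hφne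
    filter_upwards [hφd, hb, hφne] with w h1 h2 h3 using ⟨h1, h2, h3⟩
  obtain ⟨t, ht, ht1⟩ := Metric.eventually_nhds_iff_ball.1 hev2
  have hφD : DifferentiableOn ℂ φ (ball 0 t) := fun w hw => (ht1 w hw).1.differentiableAt.differentiableWithinAt
  have hmaps : Set.MapsTo φ (ball 0 t) (ball z₀ r) := fun w hw => (ht1 w hw).2.1
  have hG : Curve X (ball 0 t) (fun w => F (φ w)) := Curve.comp hcur hφD hmaps
  have hvel : ∀ w ∈ ball (0 : ℂ) t, vel ν (fun w => F (φ w)) w = ‖h (φ w)‖ * vel ν F (φ w) := by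
    intro w hw
    rw [vel_comp ν isOpen_ball hcur (ht1 w hw).1.differentiableAt (hmaps hw), (ht1 w hw).1.deriv]
  have hvc := vel_cont ν isOpen_ball hG
  have hsub : closedBall (0 : ℂ) (t / 2) ⊆ ball 0 t := closedBall_subset_ball (by linarith)
  have hsph : sphere (0 : ℂ) (t / 2) ⊆ ball 0 t := sphere_subset_closedBall.trans hsub
  have hcomp : IsCompact (sphere (0 : ℂ) (t / 2)) := isCompact_sphere _ _
  have hne : (sphere (0 : ℂ) (t / 2)).Nonempty := NormedSpace.sphere_nonempty.2 (by linarith)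
  obtain ⟨w₁, hw₁, hmin⟩ := hcomp.exists_isMinOn hne (f := fun w => ‖φ w - z₀‖)
    ((hφD.continuousOn.mono hsph).sub continuousOn_const).norm
  have hm0 : 0 < ‖φ w₁ - z₀‖ := by
    refine norm_pos_iff.2 (sub_ne_zero.2 ((ht1 w₁ (hsph hw₁)).2.2 ?_))
    rintro rfl
    rw [mem_sphere_zero_iff_norm, norm_zero] at hw₁
    linarith
  obtain ⟨m, hm⟩ : ∃ m, m = ‖φ w₁ - z₀‖ := ⟨_, rfl⟩
  rw [← hm] at hm0
  have h00 : (0 : ℂ) ∈ ball (0 : ℂ) t := mem_ball_self ht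
  have hv0 : vel ν (fun w => F (φ w)) 0 = ‖h z₀‖ * vel ν F z₀ := by
    have := hvel 0 h00
    rw [hφ0] at this
    exact this
  have hv0p : 0 < vel ν (fun w => F (φ w)) 0 := by
    rw [hv0]
    exact mul_pos (norm_pos_iff.2 hz0) h0
  have hle : ∀ w ∈ sphere (0 : ℂ) (t / 2), vel ν (fun w => F (φ w)) w ≤
      Real.exp (-(c / 2 * m ^ 2)) * vel ν (fun w => F (φ w)) 0 := by
    intro w hw
    have hwb := hsph hw
    obtain ⟨-, h2, h3⟩ := hr1 _ (hmaps hwb)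
    have h4 : m ≤ ‖φ w - z₀‖ := by rw [hm]; exact hmin hw
    have hvn : 0 ≤ vel ν F (φ w) := vel_nonneg ν isOpen_ball hcur (hmaps hwb)
    rw [hvel w hwb, hv0, hh0]
    have h5 : ‖h (φ w)‖ * Real.exp (c / 2 * m ^ 2) ≤ u (φ w) := by
      refine le_trans ?_ h2
      refine mul_le_mul_of_nonneg_left (Real.exp_le_exp.2 ?_) (norm_nonneg _)
      gcongr
    have h6 : vel ν F (φ w) * (‖h (φ w)‖ * Real.exp (c / 2 * m ^ 2)) ≤ vel ν F z₀ * u z₀ :=
      (mul_le_mul_of_nonneg_left h5 hvn).trans h3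
    rw [Real.exp_neg, inv_mul_eq_div, le_div_iff₀ (Real.exp_pos _)]
    nlinarith [h6]
  have hmean := ν.curved (ball 0 t) (fun w => F (φ w)) isOpen_ball hG.1 hG.2 0 (t / 2) (by linarith) hsub
  have hci : CircleIntegrable (fun z => ν.toFun (F (φ z)) (deriv (fun w => F (φ w)) z) ^ 2) 0 (t / 2) := by
    refine ContinuousOn.circleIntegrable (by linarith) ?_
    exact (hvc.mono hsph).pow 2
  have habs : |t / 2| = t / 2 := abs_of_pos (by linarith)
  have hup := Real.circleAverage_mono_on_of_le_circle (a := (Real.exp (-(c / 2 * m ^ 2)) * vel ν (fun w => F (φ w)) 0) ^ 2) hci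
    (by
      rw [habs]
      intro w hw
      have h1 := hle w hw
      have h2 : 0 ≤ vel ν (fun w => F (φ w)) w := vel_nonneg ν isOpen_ball hG (hsph hw)
      exact pow_le_pow_left₀ h2 h1 2)
  have h7 : vel ν (fun w => F (φ w)) 0 ^ 2 ≤ (Real.exp (-(c / 2 * m ^ 2)) * vel ν (fun w => F (φ w)) 0) ^ 2 := hmean.trans hup
  have h8 : Real.exp (-(c / 2 * m ^ 2)) < 1 := by
    rw [Real.exp_lt_one_iff]
    have : 0 < c / 2 * m ^ 2 := by positivity
    linarith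
  have h9 : vel ν (fun w => F (φ w)) 0 ≤ Real.exp (-(c / 2 * m ^ 2)) * vel ν (fun w => F (φ w)) 0 :=
    (pow_le_pow_iff_left₀ hv0p.le (by positivity) two_ne_zero).1 h7
  nlinarith [h9]

private theorem Max_exp_sub {u : ℂ → ℝ} {z₀ : ℂ} (h : Sub u z₀ 0) (δ : ℝ) : Sub (fun z => u z * Real.exp (δ * ‖z‖ ^ 2)) z₀ δ := by
  have h1 := h.mul (Sub.exp_sq (t := fun z : ℂ => z) (z₀ := z₀) analyticAt_id δ)
  have h2 : deriv (fun z : ℂ => z) z₀ = 1 := deriv_id z₀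
  rw [h2, norm_one, one_pow, mul_one, zero_add] at h1
  exact h1

private theorem Max_small {A B R : ℝ} (hAB : A < B) : ∃ δ : ℝ, 0 < δ ∧ A * Real.exp (δ * R ^ 2) < B := by
  have h1 : Tendsto (fun δ : ℝ => A * Real.exp (δ * R ^ 2)) (𝓝 0) (𝓝 (A * Real.exp (0 * R ^ 2))) := by
    have : Continuous fun δ : ℝ => A * Real.exp (δ * R ^ 2) := by fun_prop
    exact this.continuousAt.tendsto
  rw [zero_mul, Real.exp_zero, mul_one] at h1
  have h2 : ∀ᶠ δ in 𝓝[>] (0 : ℝ), A * Real.exp (δ * R ^ 2) < B :=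
    (h1.eventually (gt_mem_nhds hAB)).filter_mono nhdsWithin_le_nhds
  obtain ⟨δ, h3, h4⟩ := (h2.and eventually_mem_nhdsWithin).exists
  exact ⟨δ, h4, h3⟩

/-- weak maximum principle for `vel F * u` -/
theorem vel_mul_le (ν : PseudoLength X) {S U V : Set ℂ} (hS : IsCompact S) (hU : IsOpen U) (hUS : U ⊆ S) (hV : IsOpen V)
    (hSV : S ⊆ V) {F : ℂ → EN N} (hF : Curve X V F) {u : ℂ → ℝ} (hu : ContinuousOn u S) (hu0 : ∀ z ∈ S, 0 ≤ u z)
    (hsub : ∀ z ∈ U, 0 < u z → Sub u z 0) {A : ℝ} (hA : 0 ≤ A) (hbd : ∀ z ∈ S \ U, vel ν F z * u z ≤ A) :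
    ∀ z ∈ S, vel ν F z * u z ≤ A := by
  intro z₁ hz₁
  by_contra hlt
  push Not at hlt
  obtain ⟨R, hR⟩ := hS.isBounded.exists_norm_le
  obtain ⟨δ, hδ, hδ1⟩ := Max_small (R := R) hlt
  have hvn : ∀ z ∈ S, 0 ≤ vel ν F z := fun z hz => vel_nonneg ν hV hF (hSV hz)
  have hcont : ContinuousOn (fun z => vel ν F z * (u z * Real.exp (δ * ‖z‖ ^ 2))) S := by
    refine ((vel_cont ν hV hF).mono hSV).mul (hu.mul ?_)
    exact Continuous.continuousOn (by fun_prop)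
  obtain ⟨a, haS, hmax⟩ := hS.exists_isMaxOn ⟨z₁, hz₁⟩ hcont
  have h1 : vel ν F z₁ * u z₁ ≤ vel ν F a * (u a * Real.exp (δ * ‖a‖ ^ 2)) := by
    refine le_trans ?_ (hmax hz₁)
    show vel ν F z₁ * u z₁ ≤ vel ν F z₁ * (u z₁ * Real.exp (δ * ‖z₁‖ ^ 2))
    refine mul_le_mul_of_nonneg_left ?_ (hvn _ hz₁)
    exact le_mul_of_one_le_right (hu0 _ hz₁) (Real.one_le_exp (by positivity))
  have haU : a ∈ U := by
    by_contra haU
    have h2 := hbd a ⟨haS, haU⟩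
    have h3 : vel ν F a * (u a * Real.exp (δ * ‖a‖ ^ 2)) ≤ A * Real.exp (δ * R ^ 2) := by
      rw [← mul_assoc]
      refine mul_le_mul h2 (Real.exp_le_exp.2 ?_) (Real.exp_pos _).le hA
      have := hR a haS
      gcongr
    linarith
  have hpos : 0 < vel ν F a * (u a * Real.exp (δ * ‖a‖ ^ 2)) := lt_of_lt_of_le (lt_of_le_of_lt hA hlt) h1
  have hva : 0 < vel ν F a := by
    rcases (hvn a haS).eq_or_lt with h | h
    · rw [← h, zero_mul] at hpos; exact absurd hpos (lt_irrefl _)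
    · exact h
  have hua : 0 < u a := by
    rcases (hu0 a haS).eq_or_lt with h | h
    · rw [← h, zero_mul, mul_zero] at hpos; exact absurd hpos (lt_irrefl _)
    · exact h
  refine vel_mul_not_isLocalMax ν (Curve.at hV hF (hSV haS)) hva (Max_exp_sub (hsub a haU hua) δ) hδ ?_
  filter_upwards [hU.mem_nhds haU] with w hw
  exact hmax (hUS hw)

/-- weak maximum principle for `u` -/
theorem sub_le {S U : Set ℂ} (hS : IsCompact S) (hU : IsOpen U) (hUS : U ⊆ S) {u : ℂ → ℝ} (hu : ContinuousOn u S)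
    (hsub : ∀ z ∈ U, 0 < u z → Sub u z 0) {A : ℝ} (hA : 0 ≤ A) (hbd : ∀ z ∈ S \ U, u z ≤ A) : ∀ z ∈ S, u z ≤ A := by
  intro z₁ hz₁
  by_contra hlt
  push Not at hlt
  obtain ⟨R, hR⟩ := hS.isBounded.exists_norm_le
  obtain ⟨δ, hδ, hδ1⟩ := Max_small (R := R) hlt
  have hcont : ContinuousOn (fun z => u z * Real.exp (δ * ‖z‖ ^ 2)) S := by
    refine hu.mul ?_
    exact Continuous.continuousOn (by fun_prop)
  have h1 := Pool.Agent.H36.BP.max_principle hS hU hUS (u := fun z => u z * Real.exp (δ * ‖z‖ ^ 2)) hcont.upperSemicontinuousOn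
    (fun z hz h => ⟨δ, hδ, Max_exp_sub (hsub z hz (by
      by_contra h2
      push Not at h2
      have h3 : u z * Real.exp (δ * ‖z‖ ^ 2) ≤ 0 := mul_nonpos_of_nonpos_of_nonneg h2 (Real.exp_pos _).le
      have h' : 0 < u z * Real.exp (δ * ‖z‖ ^ 2) := h
      linarith)) δ⟩) (A := A * Real.exp (δ * R ^ 2)) (by positivity) (fun z hz => by
      show u z * Real.exp (δ * ‖z‖ ^ 2) ≤ A * Real.exp (δ * R ^ 2)
      have h2 := hbd z hz
      calc u z * Real.exp (δ * ‖z‖ ^ 2) ≤ A * Real.exp (δ * ‖z‖ ^ 2) := mul_le_mul_of_nonneg_right h2 (Real.exp_pos _).le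
        _ ≤ A * Real.exp (δ * R ^ 2) := by
          refine mul_le_mul_of_nonneg_left (Real.exp_le_exp.2 ?_) hA
          have := hR z hz.1
          gcongr) z₁ hz₁
  have h2 : u z₁ ≤ u z₁ * Real.exp (δ * ‖z₁‖ ^ 2) :=
    le_mul_of_one_le_right (hA.trans hlt.le) (Real.one_le_exp (by positivity))
  have h1' : u z₁ * Real.exp (δ * ‖z₁‖ ^ 2) ≤ A * Real.exp (δ * R ^ 2) := h1
  linarith

end Pool.Agent.AD.F
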