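import Pool.Agent.AD.F.Max
import Pool.Agent.H36.BP.CirB
import Pool.Agent.H36.BP.ExtE
import Pool.Agent.H62.EF.PrLip
import Mathlib.MeasureTheory.Integral.CircleAverage

/-!
# AD F Rem: removable singularities

`removable` (P4).  Let `c₀ = κ`.  For `0 < r < s₁` `annulus_approx` gives `g` holomorphic on `ℂ \ {0}` and `b` with `|Re g + b log ‖z‖ - c₀ log ‖F‖| ≤ 1` on `‖z‖ = r` and `‖z‖ = r'` (`s₂ < r' < r₁`); `ω = Re g + b log ‖z‖`.
(i) `‖F‖^c₀ e^(-ω) ≤ e` on the annulus (`sub_le`; `Sub.norm_rpow`: exponent `c₀ fs²/2 ≥ 0`; `e^(-ω) = ‖e^(-g)‖ ‖z‖^(-b)`, locally the norm of a holomorphic function).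
(ii) `R ‖F‖^(-c₀) e^ω ≤ e` on the annulus (`R` has the exponent `κ fs²`, `‖F‖^(-c₀)` has `-c₀ fs²/2`: sum `≥ 0`).
On the circles `‖z‖ = s₁`, `s₂` `R` is bounded below, so `ω` is bounded there by a constant `A` which does not depend on `r`; the mean of `Re g` over `‖z‖ = s` does not depend on `s`
(`Complex.circleIntegral_sub_center_inv_smul_eq_of_differentiable_on_annulus_off_countable`), so `|b| log (s₂/s₁) ≤ 2 A`: `|b| ≤ B`.  Take `m ≥ B/c₀` and `θ z = z^m exp (-g z/c₀)`: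
`‖θ F‖ ≤ e^(1/c₀) ‖z‖^(m + b/c₀) ≤ e^(1/c₀)` on `r ≤ ‖z‖ ≤ r'`, and at `z₁ = s₁`: `‖θ F‖ ≥ (R(z₁)/e)^(1/c₀) s₁^(m + B/c₀)`.  `H36.BP.puncture_limit`.

`removable_of_small` (P1).  By the hypothesis `diam {pr (F z) | ‖z‖ = s} → 0` for `s → 0`.  `pr '' sphere` is compact: choose `s_k → 0` with `pr (F z) → pr p` uniformly on `‖z‖ = s_k`, `‖p‖ = 1`.  `h = F/⟨p, F⟩` is holomorphic where
`pd (F z) p < 1`.  Suppose that for arbitrarily small `s` the circle `‖z‖ = s` is not mapped into `pd (·, p) < 1/4`.  For large `k` let `s' < s_k` be the largest such radius.  On the closed annulus `s' ≤ ‖z‖ ≤ s_k`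
`pd ≤ 1/4 + small`, so the means of `h` over `‖z‖ = s'` and `‖z‖ = s_k` are equal.  But `h` is almost constant on both circles, near `p` on the second and at distance `≥ c` from `p` on the first: contradiction.  So `h` is bounded near `0`,
Riemann: `Q` = the extension of `h` (`⟨p, h⟩ = 1`, so `Q 0 ≠ 0`).
-/

set_option autoImplicit false

open Topology Filter Metric

namespace Pool.Agent.AD.F

open Pool.Agent.H36.BP (EN fs wd Sub Curve)
open Pool.Agent.H14.PP (IsCone Tan CurveAt)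
open Pool.Agent.H22.W (PseudoLength)
open Pool.Agent.H62.EF (pr Lat)

variable {N : ℕ} {X : Set (EN N)}

/-- `exp (t (Re g + b log|z|))` is locally the absolute value of a holomorphic function -/
private theorem rem_sub_exp {g : ℂ → ℂ} (hg : DifferentiableOn ℂ g {0}ᶜ) (b t : ℝ) {z₀ : ℂ} (hz₀ : z₀ ≠ 0) :
    Sub (fun z => Real.exp (t * ((g z).re + b * Real.log ‖z‖))) z₀ 0 := by
  have hga : AnalyticAt ℂ g z₀ := hg.analyticAt (isOpen_compl_singleton.mem_nhds hz₀)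
  set k : ℂ → ℂ := fun z => Complex.exp ((t : ℂ) * (g z + (b : ℂ) * (Complex.log (z / z₀) + (Real.log ‖z₀‖ : ℂ)))) with hk
  have hlog : AnalyticAt ℂ (fun z : ℂ => Complex.log (z / z₀)) z₀ := by
    have h1 : AnalyticAt ℂ (fun z : ℂ => z / z₀) z₀ := by fun_prop
    refine AnalyticAt.clog h1 ?_
    simp [div_self hz₀]
  have hka : AnalyticAt ℂ k z₀ := by
    refine AnalyticAt.cexp ?_
    exact analyticAt_const.mul (hga.add (analyticAt_const.mul (hlog.add analyticAt_const)))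
  have hk0 : k z₀ ≠ 0 := Complex.exp_ne_zero _
  refine (Sub.of_holo hka hk0).congr ?_
  filter_upwards [isOpen_compl_singleton.mem_nhds hz₀] with z hz
  have hz' : z ≠ 0 := hz
  rw [hk]
  simp only
  rw [Complex.norm_exp]
  congr 1
  have h1 : (Complex.log (z / z₀)).re = Real.log ‖z‖ - Real.log ‖z₀‖ := by
    rw [Complex.log_re, norm_div, Real.log_div (norm_ne_zero_iff.mpr hz') (norm_ne_zero_iff.mpr hz₀)]
  rw [Complex.re_ofReal_mul, Complex.add_re, Complex.re_ofReal_mul, Complex.add_re, h1, Complex.ofReal_re]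
  ring

/-- the averages over two circles are equal -/
private theorem rem_avg {E : Type*} [NormedAddCommGroup E] [NormedSpace ℂ E] [CompleteSpace E] {f : ℂ → E} {r R : ℝ}
    (h0 : 0 < r) (hle : r ≤ R) (hd : ∀ z : ℂ, r ≤ ‖z‖ → ‖z‖ ≤ R → DifferentiableAt ℂ f z) :
    Real.circleAverage f 0 R = Real.circleAverage f 0 r := by
  rw [Real.circleAverage_eq_circleIntegral h0.ne', Real.circleAverage_eq_circleIntegral (h0.trans_le hle).ne']
  congr 1
  refine Complex.circleIntegral_sub_center_inv_smul_eq_of_differentiable_on_annulus_off_countable h0 hle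
    (s := ∅) Set.countable_empty ?_ ?_
  · intro z hz
    have h1 : ‖z‖ ≤ R := by simpa using hz.1
    have h2 : r ≤ ‖z‖ := by simpa using hz.2
    exact (hd z h2 h1).continuousAt.continuousWithinAt
  · intro z hz
    have h1 : ‖z‖ < R := by simpa using hz.1.1
    have h2 : r < ‖z‖ := by simpa using hz.1.2
    exact hd z h2.le h1.le

/-- the average is near a point if the values are -/
private theorem rem_avg_le {E : Type*} [NormedAddCommGroup E] [NormedSpace ℝ E] [CompleteSpace E] {f : ℂ → E} {c : E} {R A : ℝ}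
    (hR : 0 < R) (hf : ContinuousOn f (sphere 0 R)) (h : ∀ z : ℂ, ‖z‖ = R → ‖f z - c‖ ≤ A) :
    ‖Real.circleAverage f 0 R - c‖ ≤ A := by
  have hci : CircleIntegrable f 0 R := hf.circleIntegrable hR.le
  have hcc : CircleIntegrable (fun _ : ℂ => c) 0 R := circleIntegrable_const c 0 R
  have h1 : Real.circleAverage (fun z => f z - c) 0 R = Real.circleAverage f 0 R - c := by
    rw [Real.circleAverage_fun_sub hci hcc, Real.circleAverage_const]
  rw [← h1, Real.circleAverage_def, norm_smul, norm_inv, Real.norm_of_nonneg (by positivity)]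
  have h2 : ‖∫ θ in (0 : ℝ)..2 * Real.pi, (f (circleMap 0 R θ) - c)‖ ≤ A * |2 * Real.pi - 0| := by
    refine intervalIntegral.norm_integral_le_of_norm_le_const fun θ _ => h _ ?_
    rw [norm_circleMap_zero, abs_of_pos hR]
  rw [sub_zero, abs_of_pos (by positivity)] at h2
  rw [inv_mul_le_iff₀ (by positivity)]
  linarith

/-- comparison on an annulus -/
private theorem rem_bounds {F : ℂ → EN N} {R : ℂ → ℝ} {κ r r' r₁ : ℝ} (hκ : 0 < κ) (hr0 : 0 < r) (hrr : r < r') (hr' : r' < r₁) (hr1 : r₁ ≤ 1)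
    (hF : DifferentiableOn ℂ F (ball 0 1 \ {0})) (hF0 : ∀ z ∈ ball (0 : ℂ) 1 \ {0}, F z ≠ 0) (hR : ContinuousOn R (ball 0 r₁ \ {0}))
    (h0 : ∀ z ∈ ball (0 : ℂ) r₁ \ {0}, 0 ≤ R z) (h1 : ∀ z ∈ ball (0 : ℂ) r₁ \ {0}, R z ≤ 1)
    (hs : ∀ z ∈ ball (0 : ℂ) r₁ \ {0}, 0 < R z → Sub R z (κ * fs (F z) (deriv F z) ^ 2)) :
    ∃ (g : ℂ → ℂ) (b : ℝ), DifferentiableOn ℂ g {0}ᶜ ∧ ∀ z : ℂ, r ≤ ‖z‖ → ‖z‖ ≤ r' →
      κ * Real.log ‖F z‖ ≤ 1 + ((g z).re + b * Real.log ‖z‖) ∧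
      R z * Real.exp ((g z).re + b * Real.log ‖z‖ - κ * Real.log ‖F z‖) ≤ Real.exp 1 := by
  have hopen : IsOpen (ball (0 : ℂ) 1 \ {0}) := isOpen_ball.sdiff isClosed_singleton
  obtain ⟨S, hS⟩ : ∃ S : Set ℂ, S = {z | r ≤ ‖z‖ ∧ ‖z‖ ≤ r'} := ⟨_, rfl⟩
  obtain ⟨U, hU⟩ : ∃ U : Set ℂ, U = {z | r < ‖z‖ ∧ ‖z‖ < r'} := ⟨_, rfl⟩
  have hSc : IsCompact S := by
    rw [hS]
    refine (isCompact_closedBall (0 : ℂ) r').of_isClosed_subset ?_ ?_
    · exact (isClosed_le continuous_const continuous_norm).inter (isClosed_le continuous_norm continuous_const)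
    · intro z hz
      simpa using hz.2
  have hUo : IsOpen U := by
    rw [hU]
    exact (isOpen_lt continuous_const continuous_norm).inter (isOpen_lt continuous_norm continuous_const)
  have hUS : U ⊆ S := by
    rw [hU, hS]
    exact fun z hz => ⟨hz.1.le, hz.2.le⟩
  have hSsub1 : S ⊆ ball (0 : ℂ) r₁ \ {0} := by
    rw [hS]
    intro z hz
    refine ⟨?_, ?_⟩
    · rw [mem_ball_zero_iff]
      exact lt_of_le_of_lt hz.2 hr'
    · rintro rfl
      have := hz.1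
      rw [norm_zero] at this
      linarith
  have hsub1 : ball (0 : ℂ) r₁ \ {0} ⊆ ball (0 : ℂ) 1 \ {0} := fun z hz => ⟨ball_subset_ball hr1 hz.1, hz.2⟩
  have hSsub : S ⊆ ball (0 : ℂ) 1 \ {0} := hSsub1.trans hsub1
  have hSsph : S \ U ⊆ sphere (0 : ℂ) r ∪ sphere (0 : ℂ) r' := by
    rw [hS, hU]
    intro z hz
    have h1 := hz.1
    have h2 : ¬ (r < ‖z‖ ∧ ‖z‖ < r') := hz.2
    rcases h1.1.lt_or_eq with h | h
    · right
      rw [mem_sphere_zero_iff_norm]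
      by_contra hne
      exact h2 ⟨h, lt_of_le_of_ne h1.2 hne⟩
    · left
      rw [mem_sphere_zero_iff_norm, h]
  have hsphS : sphere (0 : ℂ) r ∪ sphere (0 : ℂ) r' ⊆ S := by
    rw [hS]
    rintro z (hz | hz)
    · rw [mem_sphere_zero_iff_norm] at hz
      exact ⟨hz.ge, by rw [hz]; exact hrr.le⟩
    · rw [mem_sphere_zero_iff_norm] at hz
      exact ⟨by rw [hz]; exact hrr.le, hz.le⟩
  have hFn : ∀ z ∈ ball (0 : ℂ) 1 \ {0}, 0 < ‖F z‖ := fun z hz => norm_pos_iff.mpr (hF0 z hz)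
  have hFc : ContinuousOn F S := hF.continuousOn.mono hSsub
  have hFa : ∀ z ∈ ball (0 : ℂ) 1 \ {0}, AnalyticAt ℂ F z := fun z hz => hF.analyticAt (hopen.mem_nhds hz)
  obtain ⟨g, b, hg, hgb⟩ := Pool.Agent.H36.BP.annulus_approx hr0 hrr (fun z => κ * Real.log ‖F z‖)
    (by
      refine ContinuousOn.mul continuousOn_const (ContinuousOn.log (hFc.mono hsphS).norm ?_)
      intro z hz
      exact (hFn z (hSsub (hsphS hz))).ne') (ε := 1) one_pos
  obtain ⟨w, hw⟩ : ∃ w : ℂ → ℝ, w = fun z => (g z).re + b * Real.log ‖z‖ := ⟨_, rfl⟩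
  have hwz : ∀ z, w z = (g z).re + b * Real.log ‖z‖ := fun z => by rw [hw]
  have hwc : ContinuousOn w S := by
    have h1 : ContinuousOn g S := hg.continuousOn.mono fun z hz => (hSsub hz).2
    rw [hw]
    refine (Complex.continuous_re.comp_continuousOn h1).add (continuousOn_const.mul
      (ContinuousOn.log continuous_norm.continuousOn ?_))
    intro z hz
    exact norm_ne_zero_iff.mpr (hSsub hz).2
  have hlogF : ∀ (a : ℝ), ∀ z ∈ ball (0 : ℂ) 1 \ {0}, ‖F z‖ ^ a = Real.exp (a * Real.log ‖F z‖) := by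
    intro a z hz
    rw [Real.rpow_def_of_pos (hFn z hz), mul_comm]
  have hrc : ∀ a : ℝ, ContinuousOn (fun z => ‖F z‖ ^ a) S := by
    intro a
    refine ContinuousOn.rpow_const hFc.norm ?_
    intro z hz
    exact Or.inl (hFn z (hSsub hz)).ne'
  refine ⟨g, b, hg, ?_⟩
  -- (i)
  have hA : ∀ z ∈ S, ‖F z‖ ^ κ * Real.exp (-1 * ((g z).re + b * Real.log ‖z‖)) ≤ Real.exp 1 := by
    refine sub_le hSc hUo hUS ?_ ?_ (Real.exp_nonneg _) ?_
    · refine (hrc κ).mul (Real.continuous_exp.comp_continuousOn ?_)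
      have h2 : ContinuousOn (fun z => -1 * w z) S := continuousOn_const.mul hwc
      refine h2.congr fun z hz => ?_
      show _ = -1 * w z
      rw [hwz]
    · intro z hz _
      have hz' := hSsub (hUS hz)
      have h2 := Sub.norm_rpow (hFa z hz') (hF0 z hz') κ
      have h3 := rem_sub_exp hg b (-1) (z₀ := z) hz'.2
      refine (h2.mul h3).anti ?_
      rw [add_zero]
      positivity
    · intro z hz
      rw [hlogF κ z (hSsub hz.1), ← Real.exp_add, Real.exp_le_exp]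
      have := (abs_le.mp (hgb z (hSsph hz))).1
      linarith
  -- (ii)
  have hB : ∀ z ∈ S, R z * ‖F z‖ ^ (-κ) * Real.exp (1 * ((g z).re + b * Real.log ‖z‖)) ≤ Real.exp 1 := by
    refine sub_le hSc hUo hUS ?_ ?_ (Real.exp_nonneg _) ?_
    · refine ((hR.mono hSsub1).mul (hrc (-κ))).mul (Real.continuous_exp.comp_continuousOn ?_)
      have h2 : ContinuousOn (fun z => 1 * w z) S := continuousOn_const.mul hwc
      refine h2.congr fun z hz => ?_
      show _ = 1 * w z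
      rw [hwz]
    · intro z hz hpos
      have hz' := hSsub (hUS hz)
      have hRp : 0 < R z := by
        rcases (h0 z (hSsub1 (hUS hz))).lt_or_eq with h | h
        · exact h
        · rw [← h, zero_mul, zero_mul] at hpos
          exact absurd hpos (lt_irrefl _)
      have h2 := Sub.norm_rpow (hFa z hz') (hF0 z hz') (-κ)
      have h3 := rem_sub_exp hg b 1 (z₀ := z) hz'.2
      have h4 := hs z (hSsub1 (hUS hz)) hRp
      refine ((h4.mul h2).mul h3).anti ?_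
      have : 0 ≤ κ * fs (F z) (deriv F z) ^ 2 := by positivity
      linarith
    · intro z hz
      have h2 := (abs_le.mp (hgb z (hSsph hz))).2
      have h3 : R z ≤ 1 := h1 z (hSsub1 hz.1)
      rw [hlogF (-κ) z (hSsub hz.1), mul_assoc, ← Real.exp_add]
      calc R z * Real.exp (-κ * Real.log ‖F z‖ + 1 * ((g z).re + b * Real.log ‖z‖))
          ≤ 1 * Real.exp (-κ * Real.log ‖F z‖ + 1 * ((g z).re + b * Real.log ‖z‖)) :=
            mul_le_mul_of_nonneg_right h3 (Real.exp_nonneg _)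
        _ ≤ Real.exp 1 := by
            rw [one_mul, Real.exp_le_exp]
            linarith
  intro z hz1 hz2
  have hzS : z ∈ S := by
    rw [hS]
    exact ⟨hz1, hz2⟩
  have hz' := hSsub hzS
  constructor
  · have h2 := hA z hzS
    rw [hlogF κ z hz', ← Real.exp_add, Real.exp_le_exp] at h2
    linarith
  · have h2 := hB z hzS
    rw [hlogF (-κ) z hz', mul_assoc, ← Real.exp_add] at h2
    have h3 : (g z).re + b * Real.log ‖z‖ - κ * Real.log ‖F z‖ =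
        -κ * Real.log ‖F z‖ + 1 * ((g z).re + b * Real.log ‖z‖) := by ring
    rw [h3]
    exact h2

/-- **(P4)** -/
theorem removable {F : ℂ → EN N} {R : ℂ → ℝ} {κ r₁ s₁ s₂ : ℝ} (hκ : 0 < κ) (hs₁ : 0 < s₁) (hs₂ : s₁ < s₂) (hr₁ : s₂ < r₁) (hr : r₁ ≤ 1)
    (hF : DifferentiableOn ℂ F (ball 0 1 \ {0})) (hF0 : ∀ z ∈ ball (0 : ℂ) 1 \ {0}, F z ≠ 0) (hR : ContinuousOn R (ball 0 r₁ \ {0}))
    (h0 : ∀ z ∈ ball (0 : ℂ) r₁ \ {0}, 0 ≤ R z) (h1 : ∀ z ∈ ball (0 : ℂ) r₁ \ {0}, R z ≤ 1)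
    (hs : ∀ z ∈ ball (0 : ℂ) r₁ \ {0}, 0 < R z → Sub R z (κ * fs (F z) (deriv F z) ^ 2))
    (hpos : ∀ z : ℂ, ‖z‖ = s₁ ∨ ‖z‖ = s₂ → 0 < R z) :
    ∃ Q : ℂ → EN N, AnalyticAt ℂ Q 0 ∧ Q 0 ≠ 0 ∧ ∀ᶠ z in 𝓝[≠] (0 : ℂ), ∃ k : ℂ, k ≠ 0 ∧ Q z = k • F z := by
  obtain ⟨r', hr'1, hr'2⟩ : ∃ r' : ℝ, s₂ < r' ∧ r' < r₁ := exists_between hr₁
  have hs20 : 0 < s₂ := hs₁.trans hs₂
  have hr'0 : 0 < r' := hs20.trans hr'1
  have hr'3 : r' < 1 := hr'2.trans_le hr
  have hFn : ∀ z : ℂ, 0 < ‖z‖ → ‖z‖ < 1 → 0 < ‖F z‖ := by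
    intro z hz hz'
    refine norm_pos_iff.2 (hF0 z ⟨?_, ?_⟩)
    · rw [mem_ball_zero_iff]
      exact hz'
    · exact norm_pos_iff.1 hz
  -- the constant on the two circles
  obtain ⟨K, hK⟩ : ∃ K : Set ℂ, K = sphere (0 : ℂ) s₁ ∪ sphere (0 : ℂ) s₂ := ⟨_, rfl⟩
  have hKc : IsCompact K := by
    rw [hK]
    exact (isCompact_sphere _ _).union (isCompact_sphere _ _)
  have hKm : ∀ z : ℂ, z ∈ K ↔ ‖z‖ = s₁ ∨ ‖z‖ = s₂ := by
    intro z
    rw [hK]
    simp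
  have hKs : K ⊆ ball (0 : ℂ) r₁ \ {0} := by
    intro z hz
    rcases (hKm z).1 hz with h | h
    · refine ⟨?_, ?_⟩
      · rw [mem_ball_zero_iff, h]
        linarith
      · exact norm_pos_iff.1 (by rw [h]; exact hs₁)
    · refine ⟨?_, ?_⟩
      · rw [mem_ball_zero_iff, h]
        exact hr₁
      · exact norm_pos_iff.1 (by rw [h]; exact hs20)
  have hKs' : K ⊆ ball (0 : ℂ) 1 \ {0} := fun z hz => ⟨ball_subset_ball hr (hKs hz).1, (hKs hz).2⟩
  obtain ⟨A, hA⟩ : ∃ A : ℝ, ∀ z ∈ K, |κ * Real.log ‖F z‖| + 1 + |Real.log (R z)| ≤ A := by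
    have hc : ContinuousOn (fun z => |κ * Real.log ‖F z‖| + 1 + |Real.log (R z)|) K := by
      refine ContinuousOn.add (ContinuousOn.add (ContinuousOn.abs (ContinuousOn.mul continuousOn_const
        (ContinuousOn.log (hF.continuousOn.mono hKs').norm ?_))) continuousOn_const)
        (ContinuousOn.abs (ContinuousOn.log (hR.mono hKs) ?_))
      · intro z hz
        exact (norm_pos_iff.2 (hF0 z (hKs' hz))).ne'
      · intro z hz
        exact (hpos z ((hKm z).1 hz)).ne'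
    obtain ⟨A, hA⟩ := (hKc.image_of_continuousOn hc).bddAbove
    exact ⟨A, fun z hz => hA ⟨z, hz, rfl⟩⟩
  have hlog : 0 < Real.log s₂ - Real.log s₁ := sub_pos.2 (Real.log_lt_log hs₁ hs₂)
  obtain ⟨B, hB⟩ : ∃ B : ℝ, B = 2 * A / (Real.log s₂ - Real.log s₁) := ⟨_, rfl⟩
  obtain ⟨m, hm⟩ := exists_nat_ge (B / κ)
  have hls₁ : Real.log s₁ < 0 := Real.log_neg hs₁ (by linarith)
  have hz₁ : ‖(s₁ : ℂ)‖ = s₁ := by rw [Complex.norm_real, Real.norm_of_nonneg hs₁.le]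
  -- the bound of `b`
  have hkey : ∀ r : ℝ, 0 < r → r < s₁ → ∃ (g : ℂ → ℂ) (b : ℝ), DifferentiableOn ℂ g {0}ᶜ ∧ |b| ≤ B ∧ ∀ z : ℂ, r ≤ ‖z‖ → ‖z‖ ≤ r' →
      κ * Real.log ‖F z‖ ≤ 1 + ((g z).re + b * Real.log ‖z‖) ∧
      R z * Real.exp ((g z).re + b * Real.log ‖z‖ - κ * Real.log ‖F z‖) ≤ Real.exp 1 := by
    intro r hr0 hrs
    obtain ⟨g, b, hg, hgb⟩ := rem_bounds hκ hr0 (hrs.trans (hs₂.trans hr'1)) hr'2 hr hF hF0 hR h0 h1 hs
    refine ⟨g, b, hg, ?_, hgb⟩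
    have hω : ∀ z ∈ K, |(g z).re + b * Real.log ‖z‖| ≤ A := by
      intro z hz
      have hzn : r ≤ ‖z‖ ∧ ‖z‖ ≤ r' := by
        rcases (hKm z).1 hz with h | h
        · rw [h]
          exact ⟨hrs.le, by linarith⟩
        · rw [h]
          exact ⟨by linarith, hr'1.le⟩
      obtain ⟨h2, h3⟩ := hgb z hzn.1 hzn.2
      have h4 := hA z hz
      have hRp := hpos z ((hKm z).1 hz)
      have h5 : Real.log (R z) + ((g z).re + b * Real.log ‖z‖ - κ * Real.log ‖F z‖) ≤ 1 := by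
        rw [← Real.exp_le_exp, Real.exp_add, Real.exp_log hRp]
        exact h3
      have h6 := neg_abs_le (κ * Real.log ‖F z‖)
      have h7 := le_abs_self (κ * Real.log ‖F z‖)
      have h8 := neg_abs_le (Real.log (R z))
      have h9 := abs_nonneg (Real.log (R z))
      rw [abs_le]
      constructor <;> linarith
    have hgd : ∀ z : ℂ, z ≠ 0 → DifferentiableAt ℂ g z := fun z hz => (hg z hz).differentiableAt (isOpen_compl_singleton.mem_nhds hz)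
    have hav := rem_avg (f := g) hs₁ hs₂.le (fun z hz _ => hgd z (norm_pos_iff.1 (hs₁.trans_le hz)))
    have hre : ∀ s : ℝ, 0 < s → Real.circleAverage (fun z => (g z).re) 0 s = (Real.circleAverage g 0 s).re := by
      intro s hs0
      have hgc : ContinuousOn g (sphere 0 s) := by
        intro z hz
        refine (hgd z ?_).continuousAt.continuousWithinAt
        rw [mem_sphere_zero_iff_norm] at hz
        exact norm_pos_iff.1 (by rw [hz]; exact hs0)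
      exact Complex.reCLM.circleAverage_comp_comm (hgc.circleIntegrable hs0.le)
    have hmean : ∀ s : ℝ, 0 < s → (∀ z : ℂ, ‖z‖ = s → z ∈ K) → |(Real.circleAverage g 0 s).re + b * Real.log s| ≤ A := by
      intro s hs0 hsK
      have hgc : ContinuousOn (fun z => (g z).re) (sphere 0 s) := by
        intro z hz
        refine (Complex.continuous_re.continuousAt.comp (hgd z ?_).continuousAt).continuousWithinAt
        rw [mem_sphere_zero_iff_norm] at hz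
        exact norm_pos_iff.1 (by rw [hz]; exact hs0)
      have h2 := rem_avg_le (c := -(b * Real.log s)) (A := A) hs0 hgc (fun z hz => by
        have h3 := hω z (hsK z hz)
        rw [hz] at h3
        rw [sub_neg_eq_add, Real.norm_eq_abs]
        exact h3)
      rw [hre s hs0, sub_neg_eq_add, Real.norm_eq_abs] at h2
      exact h2
    have h2 := hmean s₁ hs₁ (fun z hz => (hKm z).2 (Or.inl hz))
    have h3 := hmean s₂ hs20 (fun z hz => (hKm z).2 (Or.inr hz))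
    rw [hav] at h3
    rw [hB, le_div_iff₀ hlog]
    have h4 : |b| * (Real.log s₂ - Real.log s₁) = |b * Real.log s₂ - b * Real.log s₁| := by
      rw [← mul_sub, abs_mul, abs_of_pos hlog]
    rw [h4]
    rw [abs_le] at h2 h3 ⊢
    constructor <;> linarith
  -- the norm of the lift
  have hnorm : ∀ (g : ℂ → ℂ) (z : ℂ), 0 < ‖z‖ → 0 < ‖F z‖ → ‖(z ^ m * Complex.exp (-(g z / κ))) • F z‖ =
      Real.exp ((m : ℝ) * Real.log ‖z‖ - (g z).re / κ + Real.log ‖F z‖) := by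
    intro g z hz hFz
    rw [norm_smul, norm_mul, norm_pow, Complex.norm_exp, Real.exp_add, Real.exp_sub, Real.exp_log hFz]
    have h1 : (-(g z / (κ : ℂ))).re = -((g z).re / κ) := by
      rw [Complex.neg_re, Complex.div_ofReal_re]
    rw [h1, Real.exp_neg]
    have h2 : Real.exp ((m : ℝ) * Real.log ‖z‖) = ‖z‖ ^ m := by
      rw [mul_comm, Real.exp_mul, Real.exp_log hz, Real.rpow_natCast]
    rw [h2]
    field_simp
  refine Pool.Agent.H36.BP.puncture_limit hF hF0 (r₁ := r') (z₁ := (s₁ : ℂ)) (A := Real.exp (1 / κ))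
    (c := Real.exp (((m : ℝ) + B / κ) * Real.log s₁ + (Real.log (R s₁) - 1) / κ)) (Real.exp_pos _) (by rw [hz₁]; exact hs₁)
    (by rw [hz₁]; linarith) hr'3 ?_
  intro r hr0 hrs
  rw [hz₁] at hrs
  obtain ⟨g, b, hg, hbB, hgb⟩ := hkey r hr0 hrs
  refine ⟨fun z => z ^ m * Complex.exp (-(g z / κ)), ?_, ?_, ?_⟩
  · intro z hz
    have h2 : DifferentiableAt ℂ g z := (hg z hz).differentiableAt (isOpen_compl_singleton.mem_nhds hz)
    exact ((differentiableAt_id.pow m).mul ((h2.div_const _).neg.cexp)).differentiableWithinAt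
  · intro z hz hz'
    have hz0 : 0 < ‖z‖ := hr0.trans_le hz
    have hFz := hFn z hz0 (hz'.trans_lt hr'3)
    show ‖(z ^ m * Complex.exp (-(g z / κ))) • F z‖ ≤ _
    rw [hnorm g z hz0 hFz]
    refine Real.exp_le_exp.2 ?_
    have h2 := (hgb z hz hz').1
    have h3 : Real.log ‖z‖ ≤ 0 := Real.log_nonpos hz0.le (hz'.trans hr'3.le)
    have h4 : Real.log ‖F z‖ ≤ (1 + ((g z).re + b * Real.log ‖z‖)) / κ := by
      rw [le_div_iff₀ hκ, mul_comm]
      exact h2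
    have h5 : (1 + ((g z).re + b * Real.log ‖z‖)) / κ = 1 / κ + (g z).re / κ + b / κ * Real.log ‖z‖ := by
      field_simp
      ring
    have h6 : 0 ≤ (m : ℝ) + b / κ := by
      have h7 : -B ≤ b := (abs_le.1 hbB).1
      have h8 : -B / κ ≤ b / κ := div_le_div_of_nonneg_right h7 hκ.le
      have h9 : -B / κ = -(B / κ) := neg_div _ _
      linarith
    have h7 := mul_nonpos_of_nonneg_of_nonpos h6 h3
    rw [h5] at h4
    linarith
  · have hFz := hFn (s₁ : ℂ) (by rw [hz₁]; exact hs₁) (by rw [hz₁]; linarith)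
    show _ ≤ ‖((s₁ : ℂ) ^ m * Complex.exp (-(g s₁ / κ))) • F s₁‖
    rw [hnorm g (s₁ : ℂ) (by rw [hz₁]; exact hs₁) hFz]
    refine Real.exp_le_exp.2 ?_
    rw [hz₁]
    have hRp : 0 < R (s₁ : ℂ) := hpos _ (Or.inl hz₁)
    have h2 := (hgb (s₁ : ℂ) (by rw [hz₁]; exact hrs.le) (by rw [hz₁]; linarith)).2
    rw [hz₁] at h2
    have h3 : Real.log (R (s₁ : ℂ)) + ((g (s₁ : ℂ)).re + b * Real.log s₁ - κ * Real.log ‖F (s₁ : ℂ)‖) ≤ 1 := by
      rw [← Real.exp_le_exp, Real.exp_add, Real.exp_log hRp]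
      exact h2
    have h4 : ((g (s₁ : ℂ)).re + b * Real.log s₁ + Real.log (R (s₁ : ℂ)) - 1) / κ ≤ Real.log ‖F (s₁ : ℂ)‖ := by
      rw [div_le_iff₀ hκ]
      linarith
    have h5 : ((g (s₁ : ℂ)).re + b * Real.log s₁ + Real.log (R (s₁ : ℂ)) - 1) / κ =
        (g (s₁ : ℂ)).re / κ + b / κ * Real.log s₁ + (Real.log (R (s₁ : ℂ)) - 1) / κ := by
      field_simp
      ring
    have h6 : B / κ * Real.log s₁ ≤ b / κ * Real.log s₁ := by
      refine mul_le_mul_of_nonpos_right ?_ hls₁.le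
      exact div_le_div_of_nonneg_right (abs_le.1 hbB).2 hκ.le
    rw [h5] at h4
    linarith

/-- the circles have small diameter -/
private theorem rem_circle {F : ℂ → EN N} (hF : DifferentiableOn ℂ F (ball 0 1 \ {0})) (hF0 : ∀ z ∈ ball (0 : ℂ) 1 \ {0}, F z ≠ 0)
    (h : ∀ δ : ℝ, 0 < δ → ∃ s : ℝ, 0 < s ∧ ∀ z : ℂ, 0 < ‖z‖ → ‖z‖ < s → ‖z‖ * fs (F z) (deriv F z) ≤ δ) {η : ℝ} (hη : 0 < η) :
    ∃ s : ℝ, 0 < s ∧ s ≤ 1 ∧ ∀ z w : ℂ, 0 < ‖z‖ → ‖z‖ < s → ‖z‖ = ‖w‖ → pd (F z) (F w) ≤ η := by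
  obtain ⟨s, hs, hs'⟩ := h (η / 16) (by positivity)
  refine ⟨min s 1, lt_min hs one_pos, min_le_right _ _, ?_⟩
  intro z w hz0 hzs hzw
  obtain ⟨t, ht⟩ : ∃ t : ℝ, t = min s 1 := ⟨_, rfl⟩
  rw [← ht] at hzs
  have ht0 : 0 < t := hz0.trans hzs
  have hts : t ≤ s := ht ▸ min_le_left _ _
  have ht1 : t ≤ 1 := ht ▸ min_le_right _ _
  obtain ⟨U, hU⟩ : ∃ U : Set ℂ, U = {ζ : ℂ | ζ.re < Real.log t} := ⟨_, rfl⟩
  have hUo : IsOpen U := by
    rw [hU]
    exact isOpen_lt Complex.continuous_re continuous_const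
  have hUc : Convex ℝ U := by
    rw [hU]
    exact convex_halfSpace_re_lt _
  have hexp : ∀ ζ ∈ U, 0 < ‖Complex.exp ζ‖ ∧ ‖Complex.exp ζ‖ < t := by
    intro ζ hζ
    rw [Complex.norm_exp]
    refine ⟨Real.exp_pos _, ?_⟩
    rw [hU] at hζ
    have h2 : ζ.re < Real.log t := hζ
    calc Real.exp ζ.re < Real.exp (Real.log t) := Real.exp_lt_exp.2 h2
      _ = t := Real.exp_log ht0
  have hopen : IsOpen (ball (0 : ℂ) 1 \ {0}) := isOpen_ball.sdiff isClosed_singleton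
  have hmem : ∀ ζ ∈ U, Complex.exp ζ ∈ ball (0 : ℂ) 1 \ {0} := by
    intro ζ hζ
    refine ⟨?_, Complex.exp_ne_zero _⟩
    rw [mem_ball_zero_iff]
    exact (hexp ζ hζ).2.trans_le ht1
  have hG : DifferentiableOn ℂ (fun ζ => F (Complex.exp ζ)) U :=
    hF.comp Complex.differentiable_exp.differentiableOn hmem
  have hGfs : ∀ ζ ∈ U, fs (F (Complex.exp ζ)) (deriv (fun ζ => F (Complex.exp ζ)) ζ) ≤ η / 16 := by
    intro ζ hζ
    rw [fs_comp hopen hF Complex.differentiableAt_exp (hmem ζ hζ), Complex.deriv_exp]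
    exact hs' _ (hexp ζ hζ).1 ((hexp ζ hζ).2.trans_le hts)
  have hL := Pool.Agent.H62.EF.pr_lipschitz hUo hUc hG (fun ζ hζ => hF0 _ (hmem ζ hζ)) hGfs
  have hz : z ≠ 0 := norm_pos_iff.1 hz0
  have hw : w ≠ 0 := norm_pos_iff.1 (hzw ▸ hz0)
  have hzU : Complex.log z ∈ U := by
    rw [hU]
    show (Complex.log z).re < Real.log t
    rw [Complex.log_re]
    exact Real.log_lt_log hz0 hzs
  have hwU : Complex.log w ∈ U := by
    rw [hU]
    show (Complex.log w).re < Real.log t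
    rw [Complex.log_re, ← hzw]
    exact Real.log_lt_log hz0 hzs
  have h2 := hL _ hzU _ hwU
  simp only [Complex.exp_log hz, Complex.exp_log hw] at h2
  have h3 : ‖Complex.log z - Complex.log w‖ ≤ 8 := by
    have h4 : Complex.log z - Complex.log w = ((Complex.arg z - Complex.arg w : ℝ) : ℂ) * Complex.I := by
      apply Complex.ext
      · rw [Complex.sub_re, Complex.log_re, Complex.log_re, hzw]
        simp
      · rw [Complex.sub_im, Complex.log_im, Complex.log_im]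
        simp
    rw [h4, norm_mul, Complex.norm_I, mul_one, Complex.norm_real, Real.norm_eq_abs, abs_le]
    have h5 := Complex.neg_pi_lt_arg z
    have h6 := Complex.arg_le_pi z
    have h7 := Complex.neg_pi_lt_arg w
    have h8 := Complex.arg_le_pi w
    have h9 := Real.pi_le_four
    constructor <;> linarith
  show dist (pr (F z)) (pr (F w)) ≤ η
  calc dist (pr (F z)) (pr (F w)) ≤ 2 * (η / 16) * ‖Complex.log z - Complex.log w‖ := h2
    _ ≤ 2 * (η / 16) * 8 := mul_le_mul_of_nonneg_left h3 (by positivity)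
    _ = η := by ring

/-- two vectors with the same scalar product with `p` -/
private theorem rem_wd {p x y : EN N} (hp : ‖p‖ = 1) (hx : (inner ℂ p x : ℂ) = 1) (hy : (inner ℂ p y : ℂ) = 1) : ‖x - y‖ ≤ wd x y := by
  have hxy : (inner ℂ p (y - x) : ℂ) = 0 := by
    rw [inner_sub_right, hx, hy, sub_self]
  obtain ⟨u, hu⟩ : ∃ u : EN N, u = y - x := ⟨_, rfl⟩
  rw [← hu] at hxy
  have h1 : wd x y = wd x u := by
    have h2 := Pool.Agent.H36.BP.wd_inv x u 1 1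
    have h3 : (1 : ℂ) • u + (1 : ℂ) • x = y := by
      rw [one_smul, one_smul, hu, sub_add_cancel]
    rw [h3, one_smul, norm_one, one_pow, one_mul] at h2
    exact h2
  obtain ⟨x', hx'⟩ : ∃ x' : EN N, x' = x - p := ⟨_, rfl⟩
  have hpp : (inner ℂ p p : ℂ) = 1 := by
    rw [inner_self_eq_norm_sq_to_K, hp]
    simp
  have hpx' : (inner ℂ p x' : ℂ) = 0 := by
    rw [hx', inner_sub_right, hx, hpp, sub_self]
  have hx2 : x = p + x' := by rw [hx']; abel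
  have h4 : ‖x‖ ^ 2 = 1 + ‖x'‖ ^ 2 := by
    rw [hx2, norm_add_sq (𝕜 := ℂ), hpx', hp]
    simp
  have h5 : (inner ℂ x u : ℂ) = inner ℂ x' u := by
    rw [hx2, inner_add_left, hxy, zero_add]
  have h6 : ‖(inner ℂ x' u : ℂ)‖ ≤ ‖x'‖ * ‖u‖ := norm_inner_le_norm _ _
  have h7 : ‖u‖ ^ 2 ≤ wd x u ^ 2 := by
    rw [Pool.Agent.H62.EF.wd_sq, h4, h5]
    have h8 : ‖(inner ℂ x' u : ℂ)‖ ^ 2 ≤ (‖x'‖ * ‖u‖) ^ 2 := pow_le_pow_left₀ (norm_nonneg _) h6 2
    nlinarith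
  have h8 : ‖x - y‖ = ‖u‖ := by rw [hu, norm_sub_rev]
  rw [h8, h1]
  exact abs_le_of_sq_le_sq' h7 (Real.sqrt_nonneg _) |>.2

/-- the normalised curve -/
private theorem rem_norm {p x : EN N} (hp : ‖p‖ = 1) (hx : x ≠ 0) {d : ℝ} (hd0 : 0 ≤ d) (hd : d ≤ 1 / 2) (h : pd x p ≤ d) :
    (inner ℂ p x : ℂ) ≠ 0 ∧ ‖(inner ℂ p x : ℂ)⁻¹ • x‖ ≤ 5 / 4 ∧ 1 ≤ ‖(inner ℂ p x : ℂ)⁻¹ • x‖ ∧
      (inner ℂ p ((inner ℂ p x : ℂ)⁻¹ • x) : ℂ) = 1 := by
  have hp0 : p ≠ 0 := by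
    intro h0
    rw [h0, norm_zero] at hp
    exact zero_ne_one hp
  have hxn : 0 < ‖x‖ := norm_pos_iff.2 hx
  have hi := Pool.Agent.H62.EF.norm_inner_sq hp0 hx
  have hpd : dist (pr p) (pr x) ≤ d := by
    rw [dist_comm]
    exact h
  rw [hp] at hi
  have hpd2 : dist (pr p) (pr x) ^ 2 ≤ 1 / 4 := by
    have h2 : dist (pr p) (pr x) ≤ 1 / 2 := hpd.trans hd
    have h3 : 0 ≤ dist (pr p) (pr x) := dist_nonneg
    nlinarith
  have h4 : 7 / 8 * ‖x‖ ^ 2 ≤ ‖(inner ℂ p x : ℂ)‖ ^ 2 := by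
    rw [hi]
    nlinarith [sq_nonneg ‖x‖]
  have h5 : 0 < ‖(inner ℂ p x : ℂ)‖ := by
    rcases (norm_nonneg (inner ℂ p x : ℂ)).lt_or_eq with h6 | h6
    · exact h6
    · rw [← h6] at h4
      have : 0 < ‖x‖ ^ 2 := by positivity
      nlinarith
  have hne : (inner ℂ p x : ℂ) ≠ 0 := norm_pos_iff.1 h5
  refine ⟨hne, ?_, ?_, ?_⟩
  · rw [norm_smul, norm_inv, inv_mul_le_iff₀ h5]
    have h6 : ‖x‖ ^ 2 ≤ (‖(inner ℂ p x : ℂ)‖ * (5 / 4)) ^ 2 := by
      rw [mul_pow]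
      nlinarith
    exact abs_le_of_sq_le_sq' h6 (by positivity) |>.2
  · rw [norm_smul, norm_inv, le_inv_mul_iff₀ h5, mul_one]
    have h6 : ‖(inner ℂ p x : ℂ)‖ ≤ ‖p‖ * ‖x‖ := norm_inner_le_norm _ _
    rw [hp, one_mul] at h6
    exact h6
  · rw [inner_smul_right, inv_mul_cancel₀ hne]

/-- **(P1)** -/
theorem removable_of_small {F : ℂ → EN N} (hF : DifferentiableOn ℂ F (ball 0 1 \ {0})) (hF0 : ∀ z ∈ ball (0 : ℂ) 1 \ {0}, F z ≠ 0)
    (h : ∀ δ : ℝ, 0 < δ → ∃ s : ℝ, 0 < s ∧ ∀ z : ℂ, 0 < ‖z‖ → ‖z‖ < s → ‖z‖ * fs (F z) (deriv F z) ≤ δ) :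
    ∃ Q : ℂ → EN N, AnalyticAt ℂ Q 0 ∧ Q 0 ≠ 0 ∧ ∀ᶠ z in 𝓝[≠] (0 : ℂ), ∃ k : ℂ, k ≠ 0 ∧ Q z = k • F z := by
  have hopen : IsOpen (ball (0 : ℂ) 1 \ {0}) := isOpen_ball.sdiff isClosed_singleton
  have hmem : ∀ z : ℂ, 0 < ‖z‖ → ‖z‖ < 1 → z ∈ ball (0 : ℂ) 1 \ {0} := by
    intro z hz hz'
    refine ⟨?_, norm_pos_iff.1 hz⟩
    rw [mem_ball_zero_iff]
    exact hz'
  -- a limit point
  obtain ⟨p, hp, hlim⟩ : ∃ p : EN N, ‖p‖ = 1 ∧ ∀ η : ℝ, 0 < η → ∀ s : ℝ, 0 < s → ∃ z : ℂ, 0 < ‖z‖ ∧ ‖z‖ < s ∧ ‖z‖ < 1 ∧ pd (F z) p ≤ η := by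
    have hk : ∀ k : ℕ, 0 < ‖(((1 : ℝ) / ((k : ℝ) + 2) : ℝ) : ℂ)‖ ∧ ‖(((1 : ℝ) / ((k : ℝ) + 2) : ℝ) : ℂ)‖ = 1 / ((k : ℝ) + 2) ∧
        ‖(((1 : ℝ) / ((k : ℝ) + 2) : ℝ) : ℂ)‖ < 1 := by
      intro k
      have h2 : ‖(((1 : ℝ) / ((k : ℝ) + 2) : ℝ) : ℂ)‖ = 1 / ((k : ℝ) + 2) := by
        rw [Complex.norm_real, Real.norm_of_nonneg (by positivity)]
      have hk0 : (0 : ℝ) ≤ k := Nat.cast_nonneg k
      refine ⟨by rw [h2]; positivity, h2, ?_⟩
      rw [h2, div_lt_one (by positivity)]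
      linarith
    obtain ⟨x, hx⟩ : ∃ x : ℕ → EN N, x = fun k : ℕ => ((‖F (((1 : ℝ) / ((k : ℝ) + 2) : ℝ) : ℂ)‖⁻¹ : ℝ) : ℂ) • F (((1 : ℝ) / ((k : ℝ) + 2) : ℝ) : ℂ) :=
      ⟨_, rfl⟩
    have hxn : ∀ k, x k ∈ sphere (0 : EN N) 1 := by
      intro k
      have h2 : 0 < ‖F (((1 : ℝ) / ((k : ℝ) + 2) : ℝ) : ℂ)‖ := norm_pos_iff.2 (hF0 _ (hmem _ (hk k).1 (hk k).2.2))
      rw [mem_sphere_zero_iff_norm, hx]
      show ‖((‖F (((1 : ℝ) / ((k : ℝ) + 2) : ℝ) : ℂ)‖⁻¹ : ℝ) : ℂ) • F (((1 : ℝ) / ((k : ℝ) + 2) : ℝ) : ℂ)‖ = 1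
      rw [norm_smul, Complex.norm_real, norm_inv, norm_norm, inv_mul_cancel₀ h2.ne']
    obtain ⟨p, hp, φ, hφ, hφl⟩ := (isCompact_sphere (0 : EN N) 1).tendsto_subseq hxn
    have hp1 : ‖p‖ = 1 := by rwa [mem_sphere_zero_iff_norm] at hp
    refine ⟨p, hp1, fun η hη s hs => ?_⟩
    have hp0 : p ≠ 0 := norm_pos_iff.1 (by rw [hp1]; exact one_pos)
    have h2 : Tendsto (fun k => pr (x (φ k))) atTop (𝓝 (pr p)) :=
      (Pool.Agent.H62.EF.continuousAt_pr hp0).tendsto.comp hφl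
    have h3 : ∀ᶠ k in atTop, dist (pr (x (φ k))) (pr p) < η := (tendsto_iff_dist_tendsto_zero.1 h2).eventually_lt_const hη
    have h4 : Tendsto (fun k : ℕ => (1 : ℝ) / ((φ k : ℝ) + 2)) atTop (𝓝 0) := by
      have h5 : Tendsto (fun n : ℕ => (1 : ℝ) / ((n : ℝ) + 2)) atTop (𝓝 0) :=
        Tendsto.div_atTop tendsto_const_nhds (tendsto_natCast_atTop_atTop.atTop_add tendsto_const_nhds)
      exact h5.comp hφ.tendsto_atTop
    obtain ⟨k, hk1, hk2⟩ := (h3.and (h4.eventually_lt_const hs)).exists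
    refine ⟨_, (hk (φ k)).1, by rw [(hk (φ k)).2.1]; exact hk2, (hk (φ k)).2.2, ?_⟩
    have h6 : 0 < ‖F (((1 : ℝ) / ((φ k : ℝ) + 2) : ℝ) : ℂ)‖ := norm_pos_iff.2 (hF0 _ (hmem _ (hk (φ k)).1 (hk (φ k)).2.2))
    have h7 : pr (x (φ k)) = pr (F (((1 : ℝ) / ((φ k : ℝ) + 2) : ℝ) : ℂ)) := by
      rw [hx]
      refine Pool.Agent.H62.EF.pr_smul _ ?_
      rw [Ne, Complex.ofReal_eq_zero]
      exact (inv_pos.2 h6).ne'
    rw [h7] at hk1
    exact hk1.le
  have hp0 : p ≠ 0 := norm_pos_iff.1 (by rw [hp]; exact one_pos)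
  obtain ⟨H, hH⟩ : ∃ H : ℂ → EN N, ∀ z, H z = (inner ℂ p (F z) : ℂ)⁻¹ • F z := ⟨_, fun _ => rfl⟩
  have hHd : ∀ z : ℂ, 0 < ‖z‖ → ‖z‖ < 1 → (inner ℂ p (F z) : ℂ) ≠ 0 → DifferentiableAt ℂ H z := by
    intro z hz hz' hne
    have h2 : DifferentiableAt ℂ F z := hF.differentiableAt (hopen.mem_nhds (hmem z hz hz'))
    have h3 : DifferentiableAt ℂ (fun z => (inner ℂ p (F z) : ℂ)) z := (innerSL ℂ p).differentiableAt.comp z h2
    have h4 : H = fun z => (inner ℂ p (F z) : ℂ)⁻¹ • F z := funext hH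
    rw [h4]
    exact (h3.inv hne).smul h2
  -- distances
  have hwd : ∀ z w : ℂ, 0 < ‖z‖ → ‖z‖ < 1 → 0 < ‖w‖ → ‖w‖ < 1 → pd (F z) p ≤ 1 / 2 → pd (F w) p ≤ 1 / 2 →
      ‖H z - H w‖ ≤ 3 * pd (F z) (F w) := by
    intro z w hz0 hz1 hw0 hw1 hzp hwp
    have hFz := hF0 _ (hmem z hz0 hz1)
    have hFw := hF0 _ (hmem w hw0 hw1)
    obtain ⟨a1, a2, a3, a4⟩ := rem_norm hp hFz (by norm_num) le_rfl hzp
    obtain ⟨b1, b2, b3, b4⟩ := rem_norm hp hFw (by norm_num) le_rfl hwp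
    rw [← hH] at a2 a3 a4 b2 b3 b4
    have c1 := rem_wd hp a4 b4
    have hHz : H z ≠ 0 := norm_pos_iff.1 (by linarith)
    have hHw : H w ≠ 0 := norm_pos_iff.1 (by linarith)
    have c2 := Pool.Agent.H62.EF.dist_pr hHz hHw
    have c3 : pr (H z) = pr (F z) := by
      rw [hH]
      exact Pool.Agent.H62.EF.pr_smul _ (inv_ne_zero a1)
    have c4 : pr (H w) = pr (F w) := by
      rw [hH]
      exact Pool.Agent.H62.EF.pr_smul _ (inv_ne_zero b1)
    rw [c3, c4] at c2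
    have c5 : 0 < ‖H z‖ * ‖H w‖ := mul_pos (by linarith) (by linarith)
    have c6 : wd (H z) (H w) / (‖H z‖ * ‖H w‖) ≤ pd (F z) (F w) := by
      show _ ≤ dist (pr (F z)) (pr (F w))
      rw [c2]
      have c7 : 0 ≤ wd (H z) (H w) / (‖H z‖ * ‖H w‖) := div_nonneg (Real.sqrt_nonneg _) c5.le
      have c8 : (1 : ℝ) ≤ Real.sqrt 2 := Real.one_le_sqrt.2 (by norm_num)
      nlinarith
    rw [div_le_iff₀ c5] at c6
    have c9 : ‖H z‖ * ‖H w‖ ≤ 3 := by nlinarith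
    have c10 : 0 ≤ pd (F z) (F w) := dist_nonneg
    nlinarith
  have hwp : ∀ z : ℂ, 0 < ‖z‖ → ‖z‖ < 1 → pd (F z) p ≤ 1 / 2 → ‖H z - p‖ ≤ 3 * pd (F z) p ∧ pd (F z) p ≤ 2 * ‖H z - p‖ := by
    intro z hz0 hz1 hzp
    have hFz := hF0 _ (hmem z hz0 hz1)
    obtain ⟨a1, a2, a3, a4⟩ := rem_norm hp hFz (by norm_num) le_rfl hzp
    rw [← hH] at a2 a3 a4
    have hpp : (inner ℂ p p : ℂ) = 1 := by
      rw [inner_self_eq_norm_sq_to_K, hp]
      simp
    have c1 := rem_wd hp a4 hpp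
    have hHz : H z ≠ 0 := norm_pos_iff.1 (by linarith)
    have c2 := Pool.Agent.H62.EF.dist_pr hHz hp0
    have c3 : pr (H z) = pr (F z) := by
      rw [hH]
      exact Pool.Agent.H62.EF.pr_smul _ (inv_ne_zero a1)
    rw [c3, hp, mul_one] at c2
    have c5 : 0 < ‖H z‖ := by linarith
    have c8 : (1 : ℝ) ≤ Real.sqrt 2 := Real.one_le_sqrt.2 (by norm_num)
    have c9 : Real.sqrt 2 ≤ 2 := Real.sqrt_le_iff.2 ⟨by norm_num, by norm_num⟩
    have c7 : 0 ≤ wd (H z) p / ‖H z‖ := div_nonneg (Real.sqrt_nonneg _) c5.le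
    constructor
    · have c6 : wd (H z) p / ‖H z‖ ≤ pd (F z) p := by
        show _ ≤ dist (pr (F z)) (pr p)
        rw [c2]
        nlinarith
      rw [div_le_iff₀ c5] at c6
      have c10 : 0 ≤ pd (F z) p := dist_nonneg
      nlinarith
    · have d1 : wd (H z) p ≤ ‖H z - p‖ := by
        have d2 : wd (H z) p = wd p (H z - p) := by
          have d3 := Pool.Agent.H36.BP.wd_inv p (H z - p) 1 1
          have d4 : (1 : ℂ) • (H z - p) + (1 : ℂ) • p = H z := by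
            rw [one_smul, one_smul, sub_add_cancel]
          rw [d4, one_smul, norm_one, one_pow, one_mul] at d3
          rw [← d3]
          have e1 : wd (H z) p ^ 2 = wd p (H z) ^ 2 := by
            rw [Pool.Agent.H62.EF.wd_sq, Pool.Agent.H62.EF.wd_sq, norm_inner_symm, mul_comm]
          exact (pow_left_inj₀ (Real.sqrt_nonneg _) (Real.sqrt_nonneg _) two_ne_zero).1 e1
        rw [d2]
        have d5 : wd p (H z - p) ^ 2 ≤ ‖H z - p‖ ^ 2 := by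
          rw [Pool.Agent.H62.EF.wd_sq, hp]
          have : 0 ≤ ‖(inner ℂ p (H z - p) : ℂ)‖ ^ 2 := by positivity
          linarith
        exact abs_le_of_sq_le_sq' d5 (norm_nonneg _) |>.2
      show dist (pr (F z)) (pr p) ≤ _
      rw [c2]
      have d6 : wd (H z) p / ‖H z‖ ≤ ‖H z - p‖ := by
        rw [div_le_iff₀ c5]
        nlinarith [norm_nonneg (H z - p)]
      nlinarith [norm_nonneg (H z - p)]
  obtain ⟨s₀, hs₀, hs₀1, hdiam⟩ := rem_circle hF hF0 h (η := 1 / 100) (by norm_num)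
  -- one circle
  obtain ⟨z₂, hz₂0, hz₂s, hz₂1, hz₂p⟩ := hlim (1 / 100) (by norm_num) s₀ hs₀
  have hcirc : ∀ z : ℂ, ‖z‖ = ‖z₂‖ → pd (F z) p ≤ 1 / 50 := by
    intro z hz
    have h2 := hdiam z z₂ (by rw [hz]; exact hz₂0) (by rw [hz]; exact hz₂s) hz
    calc pd (F z) p ≤ pd (F z) (F z₂) + pd (F z₂) p := dist_triangle _ _ _
      _ ≤ 1 / 50 := by linarith
  have hpdc : ContinuousOn (fun z => pd (F z) p) (ball (0 : ℂ) 1 \ {0}) := by
    intro z hz
    refine ContinuousAt.continuousWithinAt ?_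
    have h2 : ContinuousAt F z := (hF.differentiableAt (hopen.mem_nhds hz)).continuousAt
    have h3 : ContinuousAt (fun z => pr (F z)) z := (Pool.Agent.H62.EF.continuousAt_pr (hF0 z hz)).comp h2
    exact h3.dist continuousAt_const
  have hall : ∀ z : ℂ, 0 < ‖z‖ → ‖z‖ ≤ ‖z₂‖ → pd (F z) p ≤ 1 / 4 := by
    intro z₀ hz₀ hz₀2
    by_contra hcon
    push Not at hcon
    obtain ⟨T, hT⟩ : ∃ T : Set ℂ, T = {z | ‖z₀‖ ≤ ‖z‖ ∧ ‖z‖ ≤ ‖z₂‖} := ⟨_, rfl⟩
    have hTc : IsCompact T := by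
      rw [hT]
      refine (isCompact_closedBall (0 : ℂ) ‖z₂‖).of_isClosed_subset ?_ ?_
      · exact (isClosed_le continuous_const continuous_norm).inter (isClosed_le continuous_norm continuous_const)
      · intro z hz
        simpa using hz.2
    have hTs : T ⊆ ball (0 : ℂ) 1 \ {0} := by
      rw [hT]
      exact fun z hz => hmem z (hz₀.trans_le hz.1) (hz.2.trans_lt hz₂1)
    have hT'c : IsCompact (T ∩ (fun z => pd (F z) p) ⁻¹' Set.Ici (1 / 4)) :=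
      hTc.of_isClosed_subset ((hpdc.mono hTs).preimage_isClosed_of_isClosed hTc.isClosed isClosed_Ici) Set.inter_subset_left
    have hz₀T : z₀ ∈ T ∩ (fun z => pd (F z) p) ⁻¹' Set.Ici (1 / 4) := by
      refine ⟨?_, hcon.le⟩
      rw [hT]
      exact ⟨le_rfl, hz₀2⟩
    obtain ⟨z₁, hz₁, hmax⟩ := hT'c.exists_isMaxOn ⟨z₀, hz₀T⟩ continuous_norm.continuousOn
    have hz₁T := hz₁.1
    rw [hT] at hz₁T
    have hz₁0 : 0 < ‖z₁‖ := hz₀.trans_le hz₁T.1
    have hz₁p : 1 / 4 ≤ pd (F z₁) p := hz₁.2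
    have hz₁2 : ‖z₁‖ < ‖z₂‖ := by
      refine lt_of_le_of_ne hz₁T.2 fun he => ?_
      have := hcirc z₁ he
      linarith
    have hout : ∀ z : ℂ, ‖z₁‖ < ‖z‖ → ‖z‖ ≤ ‖z₂‖ → pd (F z) p ≤ 1 / 4 := by
      intro z h1 h2
      by_contra h3
      push Not at h3
      have h4 : z ∈ T ∩ (fun z => pd (F z) p) ⁻¹' Set.Ici (1 / 4) := by
        refine ⟨?_, h3.le⟩
        rw [hT]
        exact ⟨hz₁T.1.trans h1.le, h2⟩
      have h5 : ‖z‖ ≤ ‖z₁‖ := hmax h4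
      linarith
    have hann : ∀ z : ℂ, ‖z₁‖ ≤ ‖z‖ → ‖z‖ ≤ ‖z₂‖ → pd (F z) p ≤ 1 / 4 := by
      intro z h1 h2
      rcases h1.lt_or_eq with h3 | h3
      · exact hout z h3 h2
      · have h4 : ContinuousAt (fun z => pd (F z) p) z :=
          (hpdc z (hmem z (h3 ▸ hz₁0) (h2.trans_lt hz₂1))).continuousAt (hopen.mem_nhds (hmem z (h3 ▸ hz₁0) (h2.trans_lt hz₂1)))
        have h5 : Tendsto (fun t : ℝ => (t : ℂ) * z) (𝓝[>] 1) (𝓝 z) := by
          apply tendsto_nhdsWithin_of_tendsto_nhds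
          have hc : Continuous (fun t : ℝ => (t : ℂ) * z) := by fun_prop
          have := hc.tendsto 1
          simpa using this
        have h6 : Tendsto (fun t : ℝ => t * ‖z‖) (𝓝[>] 1) (𝓝 ‖z‖) := by
          apply tendsto_nhdsWithin_of_tendsto_nhds
          have hc : Continuous (fun t : ℝ => t * ‖z‖) := by fun_prop
          have := hc.tendsto 1
          simpa using this
        have h7 : ‖z‖ < ‖z₂‖ := h3 ▸ hz₁2
        refine le_of_tendsto (h4.tendsto.comp h5) ?_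
        filter_upwards [h6.eventually_lt_const h7, self_mem_nhdsWithin] with t ht1 ht2
        have ht3 : (1 : ℝ) < t := ht2
        have ht4 : ‖(t : ℂ) * z‖ = t * ‖z‖ := by
          rw [norm_mul, Complex.norm_real, Real.norm_of_nonneg (by linarith)]
        refine hout _ ?_ ?_
        · rw [ht4, h3]
          have : 0 < ‖z‖ := h3 ▸ hz₁0
          nlinarith
        · rw [ht4]
          exact ht1.le
    have hHd' : ∀ z : ℂ, ‖z₁‖ ≤ ‖z‖ → ‖z‖ ≤ ‖z₂‖ → DifferentiableAt ℂ H z := by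
      intro z h1 h2
      have h3 := hann z h1 h2
      have h4 : 0 < ‖z‖ := hz₁0.trans_le h1
      have h5 : ‖z‖ < 1 := h2.trans_lt hz₂1
      exact hHd z h4 h5 (rem_norm hp (hF0 _ (hmem z h4 h5)) (by norm_num) le_rfl (h3.trans (by norm_num))).1
    have hav := rem_avg (f := H) hz₁0 hz₁2.le hHd'
    have hA2 : ‖Real.circleAverage H 0 ‖z₂‖ - p‖ ≤ 3 / 50 := by
      refine rem_avg_le hz₂0 ?_ ?_
      · intro z hz
        rw [mem_sphere_zero_iff_norm] at hz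
        exact (hHd' z (by rw [hz]; exact hz₁2.le) hz.le).continuousAt.continuousWithinAt
      · intro z hz
        have h1 := hcirc z hz
        have h2 := (hwp z (by rw [hz]; exact hz₂0) (by rw [hz]; exact hz₂1) (h1.trans (by norm_num))).1
        linarith
    have hA1 : ‖Real.circleAverage H 0 ‖z₁‖ - H z₁‖ ≤ 3 / 100 := by
      refine rem_avg_le hz₁0 ?_ ?_
      · intro z hz
        rw [mem_sphere_zero_iff_norm] at hz
        exact (hHd' z hz.ge (by rw [hz]; exact hz₁2.le)).continuousAt.continuousWithinAt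
      · intro z hz
        have h1 := hann z hz.ge (by rw [hz]; exact hz₁2.le)
        have h2 := hann z₁ le_rfl hz₁2.le
        have h3 := hwd z z₁ (by rw [hz]; exact hz₁0) (by rw [hz]; linarith) hz₁0 (by linarith) (h1.trans (by norm_num)) (h2.trans (by norm_num))
        have h4 := hdiam z z₁ (by rw [hz]; exact hz₁0) (by rw [hz]; linarith) hz
        linarith
    rw [hav] at hA2
    have h1 : ‖H z₁ - p‖ ≤ 3 / 50 + 3 / 100 := by
      have h2 : H z₁ - p = (Real.circleAverage H 0 ‖z₁‖ - p) - (Real.circleAverage H 0 ‖z₁‖ - H z₁) := by abel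
      rw [h2]
      exact (norm_sub_le _ _).trans (add_le_add hA2 hA1)
    have h2 := (hwp z₁ hz₁0 (by linarith) ((hann z₁ le_rfl hz₁2.le).trans (by norm_num))).2
    linarith
  -- the extension
  have hin : ∀ z ∈ ball (0 : ℂ) ‖z₂‖ \ {0}, 0 < ‖z‖ ∧ ‖z‖ ≤ ‖z₂‖ ∧ ‖z‖ < 1 := by
    intro z hz
    have h1 : ‖z‖ < ‖z₂‖ := by
      have := hz.1
      rwa [mem_ball_zero_iff] at this
    exact ⟨norm_pos_iff.2 hz.2, h1.le, h1.trans hz₂1⟩
  have hne : ∀ z ∈ ball (0 : ℂ) ‖z₂‖ \ {0}, (inner ℂ p (F z) : ℂ) ≠ 0 ∧ ‖H z‖ ≤ 5 / 4 ∧ (inner ℂ p (H z) : ℂ) = 1 := by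
    intro z hz
    obtain ⟨h1, h2, h3⟩ := hin z hz
    obtain ⟨a1, a2, a3, a4⟩ := rem_norm hp (hF0 _ (hmem z h1 h3)) (by norm_num) le_rfl ((hall z h1 h2).trans (by norm_num))
    rw [← hH] at a2 a4
    exact ⟨a1, a2, a4⟩
  have hball : ball (0 : ℂ) ‖z₂‖ ∈ 𝓝 (0 : ℂ) := ball_mem_nhds _ hz₂0
  have hext := Complex.differentiableOn_update_limUnder_of_bddAbove (f := H) hball
    (fun z hz => (hHd z (hin z hz).1 (hin z hz).2.2 (hne z hz).1).differentiableWithinAt)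
    (by
      refine ⟨5 / 4, ?_⟩
      rintro _ ⟨z, hz, rfl⟩
      exact (hne z hz).2.1)
  obtain ⟨Q, hQ⟩ : ∃ Q : ℂ → EN N, Q = Function.update H 0 (limUnder (𝓝[≠] (0 : ℂ)) H) := ⟨_, rfl⟩
  rw [← hQ] at hext
  have hQz : ∀ z : ℂ, z ≠ 0 → Q z = H z := by
    intro z hz
    rw [hQ]
    exact Function.update_of_ne hz _ _
  have hQa : AnalyticAt ℂ Q 0 := hext.analyticAt hball
  have hev : ∀ᶠ z in 𝓝[≠] (0 : ℂ), z ∈ ball (0 : ℂ) ‖z₂‖ \ {0} := by
    have h1 : ball (0 : ℂ) ‖z₂‖ \ {0} = ball (0 : ℂ) ‖z₂‖ ∩ {0}ᶜ := rfl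
    rw [h1]
    exact inter_mem (mem_nhdsWithin_of_mem_nhds hball) self_mem_nhdsWithin
  refine ⟨Q, hQa, ?_, ?_⟩
  · have h1 : Tendsto (fun z => (inner ℂ p (Q z) : ℂ)) (𝓝[≠] (0 : ℂ)) (𝓝 (inner ℂ p (Q 0))) := by
      have h2 : ContinuousAt (fun z => (inner ℂ p (Q z) : ℂ)) 0 := continuousAt_const.inner hQa.continuousAt
      exact h2.tendsto.mono_left nhdsWithin_le_nhds
    have h3 : Tendsto (fun z => (inner ℂ p (Q z) : ℂ)) (𝓝[≠] (0 : ℂ)) (𝓝 1) := by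
      refine tendsto_const_nhds.congr' ?_
      filter_upwards [hev] with z hz
      rw [hQz z hz.2, (hne z hz).2.2]
    have h4 := tendsto_nhds_unique h1 h3
    intro h5
    rw [h5, inner_zero_right] at h4
    exact zero_ne_one h4
  · filter_upwards [hev] with z hz
    refine ⟨(inner ℂ p (F z) : ℂ)⁻¹, inv_ne_zero (hne z hz).1, ?_⟩
    rw [hQz z hz.2, hH]

end Pool.Agent.AD.F
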