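import Pool.Agent.AD.F.Star
import Pool.Agent.AD.F.Rem

/-!
# AD F Pic: the big Picard theorem

`exists_tubeFunction` (P3).  `G w = F (exp w)` on `Re w < 0`.  Let `M₀` be the constant of `star'`.  For large `y`: `w_y`, `Re w_y = -y`, `v_G(w_y) ≥ m₀`: `star'` with `s = y/8` (`y m₀/8 ≥ M₀`; `ball w_y y` is in `Re w < 0`): `G` follows `(i_y, ζ_y)` on
`ball w_y (y/8)`, and `R_y ≤ exp (-c (y m₀/8)²/2)` on `ball w_y (y/16)` (`exists_potential`).  For `|y - y'| ≤ 2` and `k ∈ ℤ` with `‖w_y' + 2πik - w_y‖ ≤ 10`: `G` follows also `ζ_y' (· - 2πik)` (periodicity of `G`), and the two are `Eqv` on the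
intersection of the discs: otherwise `exists_slow` (`o = w_y`, `s = y/32`) gives `v_G(w_y) ≤ (32 B/y) exp (-u/M) < m₀`, `u = c ((y-2) m₀/8)²/2`, for large `y`.  So for `z` with `y = -log ‖z‖` large the number `R z = ρ i_y (ζ_y w) (F z)`, `exp w = z`,
`|Im (w - w_y)| ≤ π` (choose such a `w = w(z)`), is locally given by one pair `(i_y, ζ_y)` (`ρ_eqv`): it is continuous, in `[0, 1]`, and `Sub R z (κ fs²)` (`Fol.R_sub` for `G`, composed with a branch of the logarithm: `Sub` under a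
holomorphic change of the variable, `fs (G, G') = ‖z‖ fs (F, F')`).  `R z = 0` implies `pr (F z) = pr (g i w)` (`Fol.foot`).

`picard`.  If `‖z‖ vel F z → 0`: `Setup.fs_le` for `G` on `ball w s`, `s` large fixed, gives `fs (G, G') → 0`, that is `‖z‖ fs (F, F') → 0`: `removable_of_small`.  Otherwise there are `m₀ > 0`
and arbitrarily small `z` with `‖z‖ vel F z > m₀`.  If also `‖z‖ vel F z < m₀` on arbitrarily small circles: contradiction to the maximum principle (`vel_mul_le` for `F` on the annulus with `u z = ‖z‖`).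
So `exists_tubeFunction`.  The zeros of `R` are zeros of `z ↦ Q (F z)`, which is holomorphic and not identically zero on the connected punctured disc: isolated there, so
finitely many in every compact annulus; choose `s₁ < s₂ < r₁` such that there are none with `‖z‖ = s₁, s₂`.  `removable`.
-/

set_option autoImplicit false

open Topology Filter Metric

namespace Pool.Agent.AD.F

open Pool.Agent.H36.BP (EN fs wd Sub Curve)
open Pool.Agent.H14.PP (IsCone Tan CurveAt)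
open Pool.Agent.H22.W (PseudoLength)
open Pool.Agent.H62.EF (pr Lat)

variable {N : ℕ} {X : Set (EN N)}

/-- holomorphic change of the variable for lower supports -/
private theorem pic_sub_comp {R : ℂ → ℝ} {φ : ℂ → ℂ} {z₀ : ℂ} {c : ℝ} (h : Sub R (φ z₀) c) (hφ : AnalyticAt ℂ φ z₀) :
    Sub (fun z => R (φ z)) z₀ (‖deriv φ z₀‖ ^ 2 * c) := by
  refine ⟨h.1, fun c'' hc'' => ?_⟩
  obtain ⟨c', hc', hc2⟩ : ∃ c' : ℝ, c' < c ∧ c'' < ‖deriv φ z₀‖ ^ 2 * c' := by
    have ht : Tendsto (fun c' : ℝ => ‖deriv φ z₀‖ ^ 2 * c') (𝓝[<] c) (𝓝 (‖deriv φ z₀‖ ^ 2 * c)) := by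
      apply tendsto_nhdsWithin_of_tendsto_nhds
      have hcc : Continuous (fun c' : ℝ => ‖deriv φ z₀‖ ^ 2 * c') := by fun_prop
      exact hcc.tendsto c
    obtain ⟨c', h1, h2⟩ := ((ht.eventually_const_lt hc'').and self_mem_nhdsWithin).exists
    exact ⟨c', h2, h1⟩
  obtain ⟨g, hg, hg0, hge⟩ := h.2 c' hc'
  refine ⟨fun z => g (φ z), hg.fun_comp hφ, hg0, ?_⟩
  have hsl := hasDerivAt_iff_tendsto_slope.mp hφ.differentiableAt.hasDerivAt
  have hlim : Tendsto (fun z => ‖slope φ z₀ z‖ ^ 2 * c') (𝓝[≠] z₀) (𝓝 (‖deriv φ z₀‖ ^ 2 * c')) := (hsl.norm.pow 2).mul_const c'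
  have hev := hlim.eventually (lt_mem_nhds hc2)
  have hev' : ∀ᶠ z in 𝓝 z₀, c'' * ‖z - z₀‖ ^ 2 ≤ c' * ‖φ z - φ z₀‖ ^ 2 := by
    rw [eventually_nhdsWithin_iff] at hev
    filter_upwards [hev] with z hz'
    rcases eq_or_ne z z₀ with h | h
    · rw [h]
      simp
    · have h1 := hz' h
      have h2 : 0 < ‖z - z₀‖ := norm_pos_iff.mpr (sub_ne_zero.mpr h)
      rw [slope_def_field, norm_div, div_pow] at h1
      have h3 : c'' * ‖z - z₀‖ ^ 2 < ‖φ z - φ z₀‖ ^ 2 / ‖z - z₀‖ ^ 2 * c' * ‖z - z₀‖ ^ 2 :=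
        mul_lt_mul_of_pos_right h1 (by positivity)
      have h4 : ‖φ z - φ z₀‖ ^ 2 / ‖z - z₀‖ ^ 2 * c' * ‖z - z₀‖ ^ 2 = c' * ‖φ z - φ z₀‖ ^ 2 := by
        field_simp
      rw [h4] at h3
      exact h3.le
  filter_upwards [hev', hφ.continuousAt.eventually hge] with z h1 h2
  refine le_trans ?_ h2
  exact mul_le_mul_of_nonneg_left (Real.exp_le_exp.2 h1) (norm_nonneg _)

/-- **(P3)** -/
theorem Setup.exists_tubeFunction (S : Setup X) {F : ℂ → EN N} (hF : Curve X (ball 0 1 \ {0}) F) {m₀ x₀ : ℝ} (hm : 0 < m₀)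
    (h : ∀ y : ℝ, x₀ ≤ y → ∃ w : ℂ, w.re = -y ∧ m₀ ≤ vel S.ν (fun w => F (Complex.exp w)) w) :
    ∃ (r₁ : ℝ) (R : ℂ → ℝ), 0 < r₁ ∧ r₁ ≤ 1 ∧ ContinuousOn R (ball 0 r₁ \ {0}) ∧ (∀ z ∈ ball (0 : ℂ) r₁ \ {0}, 0 ≤ R z ∧ R z ≤ 1) ∧
      (∀ z ∈ ball (0 : ℂ) r₁ \ {0}, 0 < R z → Sub R z (S.κ * fs (F z) (deriv F z) ^ 2)) ∧
      ∀ z ∈ ball (0 : ℂ) r₁ \ {0}, R z = 0 → ∃ (i : S.ι) (w : ℂ), pr (F z) = pr (S.g i w) := by
  obtain ⟨G, hG⟩ : ∃ G : ℂ → EN N, G = fun w => F (Complex.exp w) := ⟨_, rfl⟩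
  have hGz : ∀ w, G w = F (Complex.exp w) := fun w => by rw [hG]
  rw [← hG] at h
  have hopen : IsOpen (ball (0 : ℂ) 1 \ {0}) := isOpen_ball.sdiff isClosed_singleton
  obtain ⟨H, hH⟩ : ∃ H : Set ℂ, H = {w : ℂ | w.re < 0} := ⟨_, rfl⟩
  have hHm : ∀ w : ℂ, w ∈ H ↔ w.re < 0 := fun w => by rw [hH]; rfl
  have hmaps : Set.MapsTo Complex.exp H (ball (0 : ℂ) 1 \ {0}) := by
    intro w hw
    refine ⟨?_, Complex.exp_ne_zero w⟩
    rw [mem_ball_zero_iff, Complex.norm_exp, Real.exp_lt_one_iff]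
    exact (hHm w).1 hw
  have hGc : Curve X H G := by
    rw [hG]
    exact Curve.comp hF Complex.differentiable_exp.differentiableOn hmaps
  have hπ := Real.pi_le_four
  have hπ0 := Real.pi_pos
  -- periodicity
  have hGper : ∀ (k : ℤ) (w : ℂ), G (w - k * (2 * Real.pi * Complex.I)) = G w := by
    intro k w
    rw [hGz, hGz]
    congr 1
    exact Complex.exp_eq_exp_iff_exists_int.2 ⟨-k, by push_cast; ring⟩
  obtain ⟨M₀, hM₀, hstar⟩ := S.star'
  obtain ⟨c, hc, hpot⟩ := Setup.exists_potential S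
  obtain ⟨u₀, B, hu₀, hB, hslow⟩ := S.exists_slow
  choose! W hW1 hW2 using h
  obtain ⟨Y, hY1, hY2, hY3, hY4, hY5⟩ : ∃ Y : ℝ, x₀ ≤ Y ∧ 1000 ≤ Y ∧ 8 * M₀ / m₀ ≤ Y ∧ 32 * B / m₀ + 1 ≤ Y ∧
      u₀ * 128 / (c * m₀ ^ 2) + 3 ≤ Y := by
    refine ⟨max x₀ (max 1000 (max (8 * M₀ / m₀) (max (32 * B / m₀ + 1) (u₀ * 128 / (c * m₀ ^ 2) + 3)))), ?_, ?_, ?_, ?_, ?_⟩
    · exact le_max_left _ _
    · exact (le_max_left _ _).trans (le_max_right _ _)
    · exact ((le_max_left _ _).trans (le_max_right _ _)).trans (le_max_right _ _)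
    · exact (((le_max_left _ _).trans (le_max_right _ _)).trans (le_max_right _ _)).trans (le_max_right _ _)
    · exact (((le_max_right _ _).trans (le_max_right _ _)).trans (le_max_right _ _)).trans (le_max_right _ _)
  have hball : ∀ y, Y ≤ y → ball (W y) y ⊆ H := by
    intro y hy w hw
    rw [hHm]
    rw [mem_ball_iff_norm] at hw
    have h1 : (w - W y).re ≤ ‖w - W y‖ := Complex.re_le_norm _
    have h2 : (W y).re = -y := hW1 y (hY1.trans hy)
    rw [Complex.sub_re, h2] at h1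
    linarith
  have hfol : ∀ y, Y ≤ y → ∃ (i : S.ι) (ζ : ℂ → ℂ), S.Fol i ζ G (ball (W y) (y / 8)) := by
    intro y hy
    refine hstar G (W y) (y / 8) (by linarith) (Curve.mono hGc ?_) ?_
    · have h1 : 8 * (y / 8) = y := by ring
      rw [h1]
      exact hball y hy
    · have h1 := hW2 y (hY1.trans hy)
      have h2 : 8 * M₀ ≤ y * m₀ := by
        have := hY3.trans hy
        rwa [div_le_iff₀ hm] at this
      have h3 : y * m₀ ≤ y * vel S.ν G (W y) := mul_le_mul_of_nonneg_left h1 (by linarith)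
      linarith
  have : Nonempty S.ι := ⟨(hfol Y le_rfl).choose⟩
  choose! I Z hIZ using hfol
  have hRle : ∀ y, Y ≤ y → ∀ w : ℂ, ‖w - W y‖ ≤ y / 16 → S.R (I y) (Z y) G w ≤ Real.exp (-(c * (y / 8 * m₀) ^ 2 / 2)) := by
    intro y hy w hw
    have hy0 : 0 < y := by linarith
    have h1 := hpot (I y) (Z y) G (W y) (y / 8) (by linarith)
      (Curve.mono hGc ((ball_subset_ball (by linarith)).trans (hball y hy))) (hIZ y hy) (W y)
      (by rw [sub_self, norm_zero]; linarith) w (by rw [mem_ball_iff_norm]; linarith)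
    refine h1.trans (Real.exp_le_exp.2 (neg_le_neg ?_))
    have h2 := hW2 y (hY1.trans hy)
    have h3 : y / 8 * m₀ ≤ y / 8 * vel S.ν G (W y) := mul_le_mul_of_nonneg_left h2 (by linarith)
    have h4 : (y / 8 * m₀) ^ 2 ≤ (y / 8 * vel S.ν G (W y)) ^ 2 := pow_le_pow_left₀ (by positivity) h3 2
    have h5 : (1 : ℝ) / 2 ≤ 1 - ‖w - W y‖ / (y / 8) := by
      have h6 : ‖w - W y‖ / (y / 8) ≤ 1 / 2 := by
        rw [div_le_iff₀ (by linarith)]
        linarith
      linarith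
    calc c * (y / 8 * m₀) ^ 2 / 2 = (c * (y / 8 * m₀) ^ 2) * (1 / 2) := by ring
      _ ≤ (c * (y / 8 * vel S.ν G (W y)) ^ 2) * (1 - ‖w - W y‖ / (y / 8)) :=
        mul_le_mul (mul_le_mul_of_nonneg_left h4 hc.le) h5 (by norm_num) (by positivity)
  -- consistency
  have hcons : ∀ y y' : ℝ, Y ≤ y → Y ≤ y' → |y - y'| ≤ 2 → ∀ k : ℤ, ‖W y' + k * (2 * Real.pi * Complex.I) - W y‖ ≤ 10 →
      ∀ w : ℂ, ‖w - W y‖ < y / 8 → ‖w - (W y' + k * (2 * Real.pi * Complex.I))‖ < y' / 8 →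
        S.Eqv (I y) (Z y w) (I y') (Z y' (w - k * (2 * Real.pi * Complex.I))) := by
    intro y y' hy hy' hyy k hk w hw1 hw2
    obtain ⟨o', ho'⟩ : ∃ o' : ℂ, o' = W y' + k * (2 * Real.pi * Complex.I) := ⟨_, rfl⟩
    rw [← ho'] at hk hw2
    rw [abs_le] at hyy
    have hfol' : S.Fol (I y') (fun w => Z y' (w - k * (2 * Real.pi * Complex.I))) G (ball o' (y' / 8)) := by
      have h1 := Setup.Fol.comp (V := ball o' (y' / 8)) (φ := fun w => w - k * (2 * Real.pi * Complex.I)) (hIZ y' hy') isOpen_ball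
        (by fun_prop) (by
          intro w hw
          rw [mem_ball_iff_norm] at hw ⊢
          rw [ho'] at hw
          have h2 : w - k * (2 * Real.pi * Complex.I) - W y' = w - (W y' + k * (2 * Real.pi * Complex.I)) := by ring
          rw [h2]
          exact hw)
      have h3 : (fun w => G (w - k * (2 * Real.pi * Complex.I))) = G := funext fun w => hGper k w
      rw [h3] at h1
      exact h1
    have hsub1 : ball (W y) (y / 8) ⊆ H := (ball_subset_ball (by linarith)).trans (hball y hy)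
    -- at the centre
    have hcen : S.Eqv (I y) (Z y (W y)) (I y') ((fun w => Z y' (w - k * (2 * Real.pi * Complex.I))) (W y)) := by
      by_contra hne
      have hin : ball (W y) (y / 32) ⊆ ball o' (y' / 16) := by
        intro w hw
        rw [mem_ball_iff_norm] at hw ⊢
        have h1 : w - o' = (w - W y) - (o' - W y) := by ring
        rw [h1]
        calc ‖(w - W y) - (o' - W y)‖ ≤ ‖w - W y‖ + ‖o' - W y‖ := norm_sub_le _ _
          _ < y' / 16 := by linarith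
      have h1 := hslow (I y) (I y') (Z y) (fun w => Z y' (w - k * (2 * Real.pi * Complex.I))) G (W y) (y / 32)
        (c * ((y - 2) / 8 * m₀) ^ 2 / 2) (by linarith) ?_
        (Curve.mono hGc ((ball_subset_ball (by linarith)).trans hsub1))
        (Setup.Fol.mono (hIZ y hy) (ball_subset_ball (by linarith)))
        (Setup.Fol.mono hfol' (hin.trans (ball_subset_ball (by linarith)))) hne ?_ ?_ (W y) (mem_ball_self (by linarith))
      · have h2 := hW2 y (hY1.trans hy)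
        have h3 : B / (y / 32) * Real.exp (-(c * ((y - 2) / 8 * m₀) ^ 2 / 2 / S.M)) ≤ B / (y / 32) * 1 := by
          refine mul_le_mul_of_nonneg_left ?_ (div_nonneg hB.le (by linarith))
          rw [Real.exp_le_one_iff, neg_nonpos]
          positivity
        have h4 : B / (y / 32) * 1 < m₀ := by
          rw [mul_one, div_lt_iff₀ (by linarith)]
          have h5 : 32 * B / m₀ < y := by linarith
          rw [div_lt_iff₀ hm] at h5
          linarith
        linarith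
      · -- u₀ ≤ u
        have h2 : u₀ * 128 / (c * m₀ ^ 2) ≤ (y - 2) ^ 2 := by nlinarith
        rw [div_le_iff₀ (by positivity)] at h2
        have h3 : c * ((y - 2) / 8 * m₀) ^ 2 / 2 = (y - 2) ^ 2 * (c * m₀ ^ 2) / 128 := by ring
        rw [h3, le_div_iff₀ (by norm_num)]
        exact h2
      · intro w hw
        rw [mem_ball_iff_norm] at hw
        refine (hRle y hy w (by linarith)).trans (Real.exp_le_exp.2 (neg_le_neg ?_))
        have h2 : ((y - 2) / 8 * m₀) ^ 2 ≤ (y / 8 * m₀) ^ 2 := by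
          refine pow_le_pow_left₀ ?_ ?_ 2
          · exact mul_nonneg (by linarith) hm.le
          · exact mul_le_mul_of_nonneg_right (by linarith) hm.le
        have := mul_le_mul_of_nonneg_left h2 hc.le
        linarith
      · intro w hw
        have h2 := hin hw
        rw [mem_ball_iff_norm, ho'] at h2
        have h3 : S.R (I y') (fun w => Z y' (w - k * (2 * Real.pi * Complex.I))) G w =
            S.R (I y') (Z y') G (w - k * (2 * Real.pi * Complex.I)) := by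
          show S.ρ (I y') (Z y' (w - k * (2 * Real.pi * Complex.I))) (G w) =
            S.ρ (I y') (Z y' (w - k * (2 * Real.pi * Complex.I))) (G (w - k * (2 * Real.pi * Complex.I)))
          rw [hGper]
        rw [h3]
        have h4 : w - k * (2 * Real.pi * Complex.I) - W y' = w - (W y' + k * (2 * Real.pi * Complex.I)) := by ring
        refine (hRle y' hy' _ (by rw [h4]; exact h2.le)).trans (Real.exp_le_exp.2 (neg_le_neg ?_))
        have h2 : ((y - 2) / 8 * m₀) ^ 2 ≤ (y' / 8 * m₀) ^ 2 := by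
          refine pow_le_pow_left₀ ?_ ?_ 2
          · exact mul_nonneg (by linarith) hm.le
          · exact mul_le_mul_of_nonneg_right (by linarith) hm.le
        have := mul_le_mul_of_nonneg_left h2 hc.le
        linarith
    have hconv : Convex ℝ (ball (W y) (y / 8) ∩ ball o' (y' / 8)) := (convex_ball _ _).inter (convex_ball _ _)
    have hWy : W y ∈ ball (W y) (y / 8) ∩ ball o' (y' / 8) := by
      refine ⟨mem_ball_self (by linarith), ?_⟩
      rw [mem_ball_iff_norm, norm_sub_rev]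
      linarith
    exact Setup.Fol.eqv (isOpen_ball.inter isOpen_ball) hconv.isPreconnected (Curve.mono hGc (Set.inter_subset_left.trans hsub1))
      (Setup.Fol.mono (hIZ y hy) Set.inter_subset_left) (Setup.Fol.mono hfol' Set.inter_subset_right) hWy hcen
      (z := w) ⟨by rw [mem_ball_iff_norm]; exact hw1, by rw [mem_ball_iff_norm]; exact hw2⟩
  -- the logarithm near the centre
  have hV : ∀ z : ℂ, z ≠ 0 → ∃ v : ℂ, Complex.exp v = z ∧ |v.im - (W (-Real.log ‖z‖)).im| ≤ Real.pi := by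
    intro z hz
    obtain ⟨k, hk⟩ : ∃ k : ℤ, k = round (((W (-Real.log ‖z‖)).im - (Complex.log z).im) / (2 * Real.pi)) := ⟨_, rfl⟩
    refine ⟨Complex.log z + k * (2 * Real.pi * Complex.I), ?_, ?_⟩
    · rw [Complex.exp_eq_exp_iff_exists_int.2 ⟨k, rfl⟩, Complex.exp_log hz]
    · have h1 := abs_sub_round (((W (-Real.log ‖z‖)).im - (Complex.log z).im) / (2 * Real.pi))
      rw [← hk] at h1
      have h2 : (Complex.log z + k * (2 * Real.pi * Complex.I)).im = (Complex.log z).im + k * (2 * Real.pi) := by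
        simp
      rw [h2]
      have h3 : (Complex.log z).im + k * (2 * Real.pi) - (W (-Real.log ‖z‖)).im =
          -((((W (-Real.log ‖z‖)).im - (Complex.log z).im) / (2 * Real.pi) - k) * (2 * Real.pi)) := by
        field_simp
        ring
      rw [h3, abs_neg, abs_mul, abs_of_pos (by positivity : 0 < 2 * Real.pi)]
      calc |((W (-Real.log ‖z‖)).im - (Complex.log z).im) / (2 * Real.pi) - k| * (2 * Real.pi) ≤ 1 / 2 * (2 * Real.pi) :=
            mul_le_mul_of_nonneg_right h1 (by positivity)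
        _ = Real.pi := by ring
  choose! V hV1 hV2 using hV
  obtain ⟨y, hy⟩ : ∃ y : ℂ → ℝ, ∀ z, y z = -Real.log ‖z‖ := ⟨fun z => -Real.log ‖z‖, fun _ => rfl⟩
  obtain ⟨R, hR⟩ : ∃ R : ℂ → ℝ, ∀ z, R z = S.ρ (I (y z)) (Z (y z) (V z)) (F z) := ⟨_, fun _ => rfl⟩
  have hVre : ∀ z : ℂ, z ≠ 0 → (V z).re = -y z := by
    intro z hz
    have h1 := congrArg norm (hV1 z hz)
    rw [Complex.norm_exp] at h1
    rw [hy, neg_neg, ← h1, Real.log_exp]
  have hVW : ∀ z : ℂ, z ≠ 0 → Y ≤ y z → ‖V z - W (y z)‖ ≤ 4 := by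
    intro z hz hyz
    have h1 : (V z - W (y z)).re = 0 := by
      rw [Complex.sub_re, hVre z hz, hW1 _ (hY1.trans hyz), sub_self]
    have h2 : |(V z - W (y z)).im| ≤ Real.pi := by
      rw [Complex.sub_im, hy]
      exact hV2 z hz
    calc ‖V z - W (y z)‖ ≤ |(V z - W (y z)).re| + |(V z - W (y z)).im| := Complex.norm_le_abs_re_add_abs_im _
      _ ≤ 4 := by rw [h1, abs_zero]; linarith
  have hFG : ∀ z : ℂ, z ≠ 0 → G (V z) = F z := by
    intro z hz
    rw [hGz, hV1 z hz]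
  have hr₁ : ∀ z ∈ ball (0 : ℂ) (Real.exp (-(Y + 2))) \ {0}, z ≠ 0 ∧ Y + 2 < y z := by
    intro z hz
    have h1 : ‖z‖ < Real.exp (-(Y + 2)) := by
      have := hz.1
      rwa [mem_ball_zero_iff] at this
    have h2 : z ≠ 0 := hz.2
    refine ⟨h2, ?_⟩
    have h3 : Real.log ‖z‖ < -(Y + 2) := by
      rw [Real.log_lt_iff_lt_exp (norm_pos_iff.2 h2)]
      exact h1
    rw [hy]
    linarith
  have hYball : ∀ z : ℂ, z ≠ 0 → Y ≤ y z → V z ∈ ball (W (y z)) (y z / 8) := by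
    intro z hz hyz
    rw [mem_ball_iff_norm]
    have := hVW z hz hyz
    linarith
  have hHball : ∀ z : ℂ, Y ≤ y z → ball (W (y z)) (y z / 8) ⊆ H := fun z hyz =>
    (ball_subset_ball (by linarith)).trans (hball _ hyz)
  -- the local form
  have hloc : ∀ z₀ ∈ ball (0 : ℂ) (Real.exp (-(Y + 2))) \ {0}, ∃ φ : ℂ → ℂ, AnalyticAt ℂ φ z₀ ∧ φ z₀ = V z₀ ∧ deriv φ z₀ = z₀⁻¹ ∧
      ∀ᶠ z in 𝓝 z₀, R z = S.R (I (y z₀)) (Z (y z₀)) G (φ z) := by
    intro z₀ hz₀
    obtain ⟨hz₀0, hy₀⟩ := hr₁ z₀ hz₀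
    obtain ⟨φ, hφ⟩ : ∃ φ : ℂ → ℂ, φ = fun z => V z₀ + Complex.log (z / z₀) := ⟨_, rfl⟩
    have hφz : ∀ z, φ z = V z₀ + Complex.log (z / z₀) := fun z => by rw [hφ]
    have hφa : AnalyticAt ℂ φ z₀ := by
      have h1 : AnalyticAt ℂ (fun z : ℂ => z / z₀) z₀ := by fun_prop
      rw [hφ]
      refine analyticAt_const.add (AnalyticAt.clog h1 ?_)
      simp [div_self hz₀0]
    have hφ0 : φ z₀ = V z₀ := by
      rw [hφz, div_self hz₀0, Complex.log_one, add_zero]
    have hφd : deriv φ z₀ = z₀⁻¹ := by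
      have h1 : HasDerivAt (fun z : ℂ => z / z₀) (1 / z₀) z₀ := (hasDerivAt_id z₀).div_const z₀
      have h2 : HasDerivAt (fun z : ℂ => Complex.log (z / z₀)) ((1 / z₀) / (z₀ / z₀)) z₀ := h1.clog (by simp [div_self hz₀0])
      have h3 : HasDerivAt φ ((1 / z₀) / (z₀ / z₀)) z₀ := by
        rw [hφ]
        exact h2.const_add _
      rw [h3.deriv, div_self hz₀0]
      simp
    refine ⟨φ, hφa, hφ0, hφd, ?_⟩
    have hφe : ∀ z : ℂ, z ≠ 0 → Complex.exp (φ z) = z := by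
      intro z hz
      rw [hφz, Complex.exp_add, hV1 z₀ hz₀0, Complex.exp_log (div_ne_zero hz hz₀0)]
      field_simp
    have hclose : ∀ᶠ z in 𝓝 z₀, ‖φ z - V z₀‖ < 1 / 10 := by
      have h1 : Tendsto (fun z => ‖φ z - V z₀‖) (𝓝 z₀) (𝓝 ‖φ z₀ - V z₀‖) :=
        ((hφa.continuousAt.sub continuousAt_const).norm).tendsto
      rw [hφ0, sub_self, norm_zero] at h1
      exact h1.eventually_lt_const (by norm_num)
    filter_upwards [hclose, isOpen_compl_singleton.mem_nhds hz₀0] with z hz1 hz2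
    have hz0 : z ≠ 0 := hz2
    have hφre : (φ z).re = -y z := by
      have h1 := congrArg norm (hφe z hz0)
      rw [Complex.norm_exp] at h1
      rw [hy, neg_neg, ← h1, Real.log_exp]
    have hyd : |y z₀ - y z| ≤ 1 / 10 := by
      have h1 : (φ z - V z₀).re = y z₀ - y z := by
        rw [Complex.sub_re, hφre, hVre z₀ hz₀0]
        ring
      rw [← h1]
      exact (Complex.abs_re_le_norm _).trans hz1.le
    have hyz : Y ≤ y z := by
      rw [abs_le] at hyd
      linarith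
    have hyz₀ : Y ≤ y z₀ := by linarith
    obtain ⟨k, hk⟩ : ∃ k : ℤ, φ z = V z + k * (2 * Real.pi * Complex.I) := by
      refine Complex.exp_eq_exp_iff_exists_int.1 ?_
      rw [hφe z hz0, hV1 z hz0]
    have hk' : ‖W (y z) + k * (2 * Real.pi * Complex.I) - W (y z₀)‖ ≤ 10 := by
      have h1 : W (y z) + k * (2 * Real.pi * Complex.I) - W (y z₀) = (φ z - V z₀) + (V z₀ - W (y z₀)) - (V z - W (y z)) := by
        rw [hk]
        ring
      rw [h1]
      have h2 := hVW z hz0 hyz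
      have h3 := hVW z₀ hz₀0 hyz₀
      calc ‖(φ z - V z₀) + (V z₀ - W (y z₀)) - (V z - W (y z))‖ ≤ ‖(φ z - V z₀) + (V z₀ - W (y z₀))‖ + ‖V z - W (y z)‖ := norm_sub_le _ _
        _ ≤ (‖φ z - V z₀‖ + ‖V z₀ - W (y z₀)‖) + ‖V z - W (y z)‖ := by
          have := norm_add_le (φ z - V z₀) (V z₀ - W (y z₀))
          linarith
        _ ≤ 10 := by linarith
    have h1 : ‖φ z - W (y z₀)‖ < y z₀ / 8 := by
      have h2 : φ z - W (y z₀) = (φ z - V z₀) + (V z₀ - W (y z₀)) := by ring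
      have h3 := hVW z₀ hz₀0 hyz₀
      rw [h2]
      have h4 := norm_add_le (φ z - V z₀) (V z₀ - W (y z₀))
      linarith
    have h2 : ‖φ z - (W (y z) + k * (2 * Real.pi * Complex.I))‖ < y z / 8 := by
      have h3 : φ z - (W (y z) + k * (2 * Real.pi * Complex.I)) = V z - W (y z) := by
        rw [hk]
        ring
      rw [h3]
      have := hVW z hz0 hyz
      linarith
    have h3 := hcons (y z₀) (y z) hyz₀ hyz (hyd.trans (by norm_num)) k hk' (φ z) h1 h2
    have h4 : φ z - k * (2 * Real.pi * Complex.I) = V z := by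
      rw [hk]
      ring
    rw [h4] at h3
    have hGφ : G (φ z) = F z := by rw [hGz, hφe z hz0]
    have hFz : F z ∈ X := by
      rw [← hFG z hz0]
      exact hGc.2 _ (hHball z hyz (hYball z hz0 hyz))
    have h5 := Setup.ρ_eqv hFz h3
      (by
        have := (hIZ (y z₀) hyz₀).near (φ z) (by rw [mem_ball_iff_norm]; exact h1)
        rwa [hGφ] at this)
      (by
        have := (hIZ (y z) hyz).near (V z) (hYball z hz0 hyz)
        rwa [hFG z hz0] at this)
    rw [hR]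
    show _ = S.ρ (I (y z₀)) (Z (y z₀) (φ z)) (G (φ z))
    rw [hGφ]
    exact h5.symm
  have hyz' : ∀ z ∈ ball (0 : ℂ) (Real.exp (-(Y + 2))) \ {0}, z ≠ 0 ∧ Y ≤ y z := by
    intro z hz
    obtain ⟨h1, h2⟩ := hr₁ z hz
    exact ⟨h1, by linarith⟩
  have hRV : ∀ z : ℂ, z ≠ 0 → R z = S.R (I (y z)) (Z (y z)) G (V z) := by
    intro z hz
    rw [hR]
    show _ = S.ρ (I (y z)) (Z (y z) (V z)) (G (V z))
    rw [hFG z hz]
  refine ⟨Real.exp (-(Y + 2)), R, Real.exp_pos _, ?_, ?_, ?_, ?_, ?_⟩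
  · rw [Real.exp_le_one_iff]
    linarith
  · intro z₀ hz₀
    obtain ⟨hz₀0, hy₀⟩ := hyz' z₀ hz₀
    obtain ⟨φ, hφa, hφ0, -, hφR⟩ := hloc z₀ hz₀
    refine ContinuousAt.continuousWithinAt ?_
    have h1 := Setup.Fol.R_cont isOpen_ball (Curve.mono hGc (hHball z₀ hy₀)) (hIZ (y z₀) hy₀)
    have h2 : ContinuousAt (S.R (I (y z₀)) (Z (y z₀)) G) (φ z₀) := by
      rw [hφ0]
      exact h1.continuousAt (isOpen_ball.mem_nhds (hYball z₀ hz₀0 hy₀))
    have h3 : ContinuousAt (fun z => S.R (I (y z₀)) (Z (y z₀)) G (φ z)) z₀ := h2.comp hφa.continuousAt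
    exact h3.congr (hφR.mono fun z hz => hz.symm)
  · intro z hz
    obtain ⟨hz0, hyz⟩ := hyz' z hz
    rw [hRV z hz0]
    refine ⟨Setup.Fol.R_nonneg _, Setup.Fol.R_le_one ?_ (hIZ (y z) hyz) (hYball z hz0 hyz)⟩
    intro w hw
    exact hGc.2 _ (hHball z hyz hw)
  · intro z₀ hz₀ hpos
    obtain ⟨hz₀0, hy₀⟩ := hyz' z₀ hz₀
    obtain ⟨φ, hφa, hφ0, hφd, hφR⟩ := hloc z₀ hz₀
    rw [hRV z₀ hz₀0] at hpos
    have h1 := Setup.Fol.R_sub isOpen_ball (Curve.mono hGc (hHball z₀ hy₀)) (hIZ (y z₀) hy₀) (hYball z₀ hz₀0 hy₀) hpos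
    rw [← hφ0] at h1
    have h2 := pic_sub_comp h1 hφa
    have h3 : fs (G (φ z₀)) (deriv G (φ z₀)) = ‖z₀‖ * fs (F z₀) (deriv F z₀) := by
      have hVH : φ z₀ ∈ H := by
        rw [hφ0]
        exact hHball z₀ hy₀ (hYball z₀ hz₀0 hy₀)
      have h4 := fs_comp hopen hF.1 Complex.differentiableAt_exp (hmaps hVH)
      rw [Complex.deriv_exp, hφ0, hV1 z₀ hz₀0] at h4
      rw [hG, hφ0]
      simp only [hV1 z₀ hz₀0]
      exact h4
    rw [h3, hφd, norm_inv] at h2
    have h5 : ‖z₀‖⁻¹ ^ 2 * (S.κ * (‖z₀‖ * fs (F z₀) (deriv F z₀)) ^ 2) = S.κ * fs (F z₀) (deriv F z₀) ^ 2 := by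
      have h6 : ‖z₀‖ ≠ 0 := norm_ne_zero_iff.2 hz₀0
      field_simp
    rw [h5] at h2
    exact h2.congr (hφR.mono fun z hz => hz.symm)
  · intro z hz hR0
    obtain ⟨hz0, hyz⟩ := hyz' z hz
    obtain ⟨w, -, hw⟩ := Setup.Fol.foot (fun w hw => hGc.2 _ (hHball z hyz hw)) (hIZ (y z) hyz) (hYball z hz0 hyz)
    rw [← hRV z hz0, hR0, mul_zero, hFG z hz0] at hw
    exact ⟨I (y z), w, dist_le_zero.1 hw⟩

/-- the punctured disc is connected -/
private theorem pic_preconnected : IsPreconnected (ball (0 : ℂ) 1 \ {0}) := by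
  have h1 : Complex.exp '' {w : ℂ | w.re < 0} = ball (0 : ℂ) 1 \ {0} := by
    ext z
    constructor
    · rintro ⟨w, hw, rfl⟩
      refine ⟨?_, Complex.exp_ne_zero w⟩
      rw [mem_ball_zero_iff, Complex.norm_exp, Real.exp_lt_one_iff]
      exact hw
    · intro hz
      have h2 : ‖z‖ < 1 := by
        have := hz.1
        rwa [mem_ball_zero_iff] at this
      have h3 : z ≠ 0 := hz.2
      refine ⟨Complex.log z, ?_, Complex.exp_log h3⟩
      show (Complex.log z).re < 0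
      rw [Complex.log_re]
      exact Real.log_neg (norm_pos_iff.2 h3) h2
  rw [← h1]
  exact (convex_halfSpace_re_lt 0).isPreconnected.image _ Complex.continuous_exp.continuousOn

/-- circles without zeros -/
private theorem pic_circles {f : ℂ → ℂ} (hf : DifferentiableOn ℂ f (ball (0 : ℂ) 1 \ {0})) (hne : ∃ z ∈ ball (0 : ℂ) 1 \ {0}, f z ≠ 0) {r₁ : ℝ}
    (hr₁ : 0 < r₁) (hr₁1 : r₁ ≤ 1) : ∃ s₁ s₂ : ℝ, 0 < s₁ ∧ s₁ < s₂ ∧ s₂ < r₁ ∧ ∀ z : ℂ, ‖z‖ = s₁ ∨ ‖z‖ = s₂ → f z ≠ 0 := by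
  have hopen : IsOpen (ball (0 : ℂ) 1 \ {0}) := isOpen_ball.sdiff isClosed_singleton
  have han : AnalyticOnNhd ℂ f (ball (0 : ℂ) 1 \ {0}) := hf.analyticOnNhd hopen
  have hev : ∀ z ∈ ball (0 : ℂ) 1 \ {0}, ∀ᶠ w in 𝓝[≠] z, f w ≠ 0 := by
    intro z hz
    rcases (han z hz).eventually_eq_zero_or_eventually_ne_zero with h | h
    · exfalso
      obtain ⟨w, hw, hfw⟩ := hne
      exact hfw (han.eqOn_zero_of_preconnected_of_eventuallyEq_zero pic_preconnected hz h hw)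
    · exact h
  obtain ⟨K, hK⟩ : ∃ K : Set ℂ, K = {z | r₁ / 4 ≤ ‖z‖ ∧ ‖z‖ ≤ r₁ / 2} := ⟨_, rfl⟩
  have hKc : IsCompact K := by
    rw [hK]
    refine (isCompact_closedBall (0 : ℂ) (r₁ / 2)).of_isClosed_subset ?_ ?_
    · exact (isClosed_le continuous_const continuous_norm).inter (isClosed_le continuous_norm continuous_const)
    · intro z hz
      simpa using hz.2
  have hKs : K ⊆ ball (0 : ℂ) 1 \ {0} := by
    rw [hK]
    intro z hz
    refine ⟨?_, ?_⟩
    · rw [mem_ball_zero_iff]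
      exact lt_of_le_of_lt hz.2 (by linarith)
    · refine norm_pos_iff.1 (lt_of_lt_of_le ?_ hz.1)
      linarith
  have hfin : (K ∩ {z | f z = 0}).Finite := by
    by_contra hinf
    obtain ⟨x, hx, hacc⟩ := Set.Infinite.exists_accPt_of_subset_isCompact hinf hKc Set.inter_subset_left
    have h1 := accPt_iff_frequently_nhdsNE.1 hacc
    have h2 := hev x (hKs hx)
    obtain ⟨w, hw1, hw2⟩ := (h1.and_eventually h2).exists
    exact hw2 hw1.2
  have hfin' : ((fun z : ℂ => ‖z‖) '' (K ∩ {z | f z = 0})).Finite := hfin.image _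
  have hinf : (Set.Ioo (r₁ / 4) (r₁ / 2) \ ((fun z : ℂ => ‖z‖) '' (K ∩ {z | f z = 0}))).Infinite :=
    (Set.Ioo_infinite (by linarith)).sdiff hfin'
  obtain ⟨b, hb, a, ha, hab⟩ := hinf.nontrivial
  have hgood : ∀ a : ℝ, a ∈ Set.Ioo (r₁ / 4) (r₁ / 2) \ ((fun z : ℂ => ‖z‖) '' (K ∩ {z | f z = 0})) → ∀ z : ℂ, ‖z‖ = a → f z ≠ 0 := by
    intro a ha z hz h0
    refine ha.2 ⟨z, ⟨?_, h0⟩, hz⟩
    rw [hK]
    exact ⟨by rw [hz]; exact ha.1.1.le, by rw [hz]; exact ha.1.2.le⟩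
  rcases lt_or_gt_of_ne hab with h | h
  · refine ⟨b, a, ?_, h, ?_, ?_⟩
    · have := hb.1.1
      linarith
    · have := ha.1.2
      linarith
    · rintro z (hz | hz)
      · exact hgood b hb z hz
      · exact hgood a ha z hz
  · refine ⟨a, b, ?_, h, ?_, ?_⟩
    · have := ha.1.1
      linarith
    · have := hb.1.2
      linarith
    · rintro z (hz | hz)
      · exact hgood a ha z hz
      · exact hgood b hb z hz

/-- **The big Picard theorem.** -/
theorem Setup.picard (S : Setup X) {F : ℂ → EN N} (hF : Curve X (ball 0 1 \ {0}) F) {Q : EN N → ℂ} (hQ : Differentiable ℂ Q) {D : ℕ}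
    (hhom : ∀ (c : ℂ) (x : EN N), Q (c • x) = c ^ D * Q x) (hg : ∀ i w, Q (S.g i w) = 0) (hFQ : ∃ z ∈ ball (0 : ℂ) 1 \ {0}, Q (F z) ≠ 0) :
    ∃ G : ℂ → EN N, AnalyticAt ℂ G 0 ∧ G 0 ≠ 0 ∧ ∀ᶠ z in 𝓝[≠] (0 : ℂ), ∃ k : ℂ, k ≠ 0 ∧ G z = k • F z := by
  have hopen : IsOpen (ball (0 : ℂ) 1 \ {0}) := isOpen_ball.sdiff isClosed_singleton
  have hX0 : ∀ x ∈ X, x ≠ 0 := fun x hx h0 => S.cone.zero_notMem (h0 ▸ hx)
  have hF0 : ∀ z ∈ ball (0 : ℂ) 1 \ {0}, F z ≠ 0 := fun z hz => hX0 _ (hF.2 z hz)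
  have hmem : ∀ z : ℂ, 0 < ‖z‖ → ‖z‖ < 1 → z ∈ ball (0 : ℂ) 1 \ {0} := by
    intro z hz hz'
    refine ⟨?_, norm_pos_iff.1 hz⟩
    rw [mem_ball_zero_iff]
    exact hz'
  obtain ⟨H, hH⟩ : ∃ H : Set ℂ, H = {w : ℂ | w.re < 0} := ⟨_, rfl⟩
  have hHm : ∀ w : ℂ, w ∈ H ↔ w.re < 0 := fun w => by rw [hH]; rfl
  have hmaps : Set.MapsTo Complex.exp H (ball (0 : ℂ) 1 \ {0}) := by
    intro w hw
    refine ⟨?_, Complex.exp_ne_zero w⟩
    rw [mem_ball_zero_iff, Complex.norm_exp, Real.exp_lt_one_iff]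
    exact (hHm w).1 hw
  have hGc : Curve X H (fun w => F (Complex.exp w)) := Curve.comp hF Complex.differentiable_exp.differentiableOn hmaps
  have hGv : ∀ w ∈ H, vel S.ν (fun w => F (Complex.exp w)) w = ‖Complex.exp w‖ * vel S.ν F (Complex.exp w) := by
    intro w hw
    rw [vel_comp S.ν hopen hF Complex.differentiableAt_exp (hmaps hw), Complex.deriv_exp]
  by_cases hsmall : ∀ δ : ℝ, 0 < δ → ∃ s : ℝ, 0 < s ∧ ∀ z : ℂ, 0 < ‖z‖ → ‖z‖ < s → ‖z‖ < 1 → ‖z‖ * vel S.ν F z ≤ δ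
  · -- small speed
    refine removable_of_small hF.1 hF0 ?_
    intro δ hδ
    have hC : 0 < S.C := lt_of_lt_of_le one_pos S.C_ge
    obtain ⟨s, hs, hs'⟩ := hsmall (δ / S.C) (by positivity)
    obtain ⟨ρ, hρ⟩ : ∃ ρ : ℝ, ρ = S.C / δ := ⟨_, rfl⟩
    have hρ0 : 0 < ρ := by rw [hρ]; positivity
    refine ⟨min s 1 * Real.exp (-ρ), by positivity, ?_⟩
    intro z hz0 hzs
    have hz : z ≠ 0 := norm_pos_iff.1 hz0
    have hlz : Real.log ‖z‖ < Real.log (min s 1) - ρ := by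
      have h1 := Real.log_lt_log hz0 hzs
      rwa [Real.log_mul (lt_min hs one_pos).ne' (Real.exp_pos _).ne', Real.log_exp, ← sub_eq_add_neg] at h1
    have hball : ∀ w ∈ ball (Complex.log z) ρ, ‖Complex.exp w‖ < min s 1 := by
      intro w hw
      rw [mem_ball_iff_norm] at hw
      have h1 : (w - Complex.log z).re ≤ ‖w - Complex.log z‖ := Complex.re_le_norm _
      rw [Complex.sub_re, Complex.log_re] at h1
      rw [Complex.norm_exp, ← Real.lt_log_iff_exp_lt (lt_min hs one_pos)]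
      linarith
    have hballH : ball (Complex.log z) ρ ⊆ H := by
      intro w hw
      have h1 := hball w hw
      rw [hHm, ← Real.exp_lt_one_iff, ← Complex.norm_exp]
      exact h1.trans_le (min_le_right _ _)
    have h1 := S.fs_le hρ0 (Curve.mono hGc hballH) (B := δ / S.C) (by
      intro w hw
      rw [hGv w (hballH hw)]
      have h2 := hball w hw
      exact hs' _ (norm_pos_iff.2 (Complex.exp_ne_zero w)) (h2.trans_le (min_le_left _ _)) (h2.trans_le (min_le_right _ _)))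
    have h2 : max (δ / S.C) (1 / ρ) = δ / S.C := by
      rw [hρ, one_div_div, max_self]
    rw [h2, mul_div_cancel₀ _ hC.ne'] at h1
    have h3 := fs_comp hopen hF.1 Complex.differentiableAt_exp (hmaps (hballH (mem_ball_self hρ0)))
    rw [Complex.deriv_exp] at h3
    simp only [Complex.exp_log hz] at h1 h3
    rw [h3] at h1
    exact h1
  · -- large speed
    push Not at hsmall
    obtain ⟨m₀, hm₀, hm₀'⟩ := hsmall
    have hlarge : ∃ s : ℝ, 0 < s ∧ s < 1 ∧ ∀ t : ℝ, 0 < t → t ≤ s → ∃ z : ℂ, ‖z‖ = t ∧ m₀ ≤ ‖z‖ * vel S.ν F z := by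
      by_contra hcon
      push Not at hcon
      obtain ⟨t₁, ht₁, ht₁', hc₁⟩ := hcon (1 / 2) (by norm_num) (by norm_num)
      obtain ⟨z, hz0, hzt, hz1, hzm⟩ := hm₀' t₁ ht₁
      obtain ⟨t₂, ht₂, ht₂', hc₂⟩ := hcon (‖z‖ / 2) (by linarith) (by linarith)
      have hv : IsOpen (ball (0 : ℂ) 1 \ {0}) := hopen
      have hA := vel_mul_le S.ν (S := {z : ℂ | t₂ ≤ ‖z‖ ∧ ‖z‖ ≤ t₁}) (U := {z : ℂ | t₂ < ‖z‖ ∧ ‖z‖ < t₁}) (V := ball (0 : ℂ) 1 \ {0})
        (u := fun z => ‖z‖) (F := F) (A := m₀) ?_ ?_ ?_ hopen ?_ hF continuous_norm.continuousOn (fun z _ => norm_nonneg z) ?_ hm₀.le ?_ z ?_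
      · rw [mul_comm] at hA
        exact absurd hzm (not_lt.2 hA)
      · refine (isCompact_closedBall (0 : ℂ) t₁).of_isClosed_subset ?_ ?_
        · exact (isClosed_le continuous_const continuous_norm).inter (isClosed_le continuous_norm continuous_const)
        · intro z hz
          simpa using hz.2
      · exact (isOpen_lt continuous_const continuous_norm).inter (isOpen_lt continuous_norm continuous_const)
      · exact fun z hz => ⟨hz.1.le, hz.2.le⟩
      · exact fun z hz => hmem z (ht₂.trans_le hz.1) (lt_of_le_of_lt hz.2 (by linarith))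
      · intro z hz h0
        exact Sub.of_holo (h := fun z => z) analyticAt_id (norm_pos_iff.1 h0)
      · intro w hw
        have h1 := hw.1
        have h2 : ¬ (t₂ < ‖w‖ ∧ ‖w‖ < t₁) := hw.2
        show vel S.ν F w * ‖w‖ ≤ m₀
        rw [mul_comm]
        rcases h1.1.lt_or_eq with h3 | h3
        · have h4 : ‖w‖ = t₁ := by
            by_contra hne
            exact h2 ⟨h3, lt_of_le_of_ne h1.2 hne⟩
          exact (hc₁ w h4).le
        · exact (hc₂ w h3.symm).le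
      · exact ⟨by linarith, hzt.le⟩
    obtain ⟨s, hs0, hs1, hs⟩ := hlarge
    obtain ⟨r₁, R, hr₁, hr₁1, hRc, hR01, hRs, hR0⟩ := S.exists_tubeFunction hF hm₀ (x₀ := -Real.log s) (by
      intro y hy
      obtain ⟨z, hz, hzm⟩ := hs (Real.exp (-y)) (Real.exp_pos _) (by
        rw [← Real.le_log_iff_exp_le hs0]
        linarith)
      have hz0 : 0 < ‖z‖ := by rw [hz]; exact Real.exp_pos _
      have hzr : (Complex.log z).re = -y := by
        rw [Complex.log_re, hz, Real.log_exp]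
      refine ⟨Complex.log z, hzr, ?_⟩
      rw [hGv (Complex.log z) ((hHm _).2 (by
        rw [hzr]
        have := Real.log_neg hs0 hs1
        linarith)), Complex.exp_log (norm_pos_iff.1 hz0)]
      exact hzm)
    have hQF : DifferentiableOn ℂ (fun z => Q (F z)) (ball (0 : ℂ) 1 \ {0}) := hQ.comp_differentiableOn hF.1
    obtain ⟨s₁, s₂, hs₁, hs₁₂, hs₂, hzero⟩ := pic_circles hQF hFQ hr₁ hr₁1
    refine removable S.κ_pos hs₁ hs₁₂ hs₂ hr₁1 hF.1 hF0 hRc (fun z hz => (hR01 z hz).1) (fun z hz => (hR01 z hz).2) hRs ?_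
    intro z hz
    have hzr : 0 < ‖z‖ ∧ ‖z‖ < r₁ := by
      rcases hz with h | h
      · rw [h]
        exact ⟨hs₁, by linarith⟩
      · rw [h]
        exact ⟨by linarith, hs₂⟩
    have hzm : z ∈ ball (0 : ℂ) r₁ \ {0} := by
      refine ⟨?_, norm_pos_iff.1 hzr.1⟩
      rw [mem_ball_zero_iff]
      exact hzr.2
    rcases (hR01 z hzm).1.lt_or_eq with h | h
    · exact h
    · exfalso
      obtain ⟨i, w, hiw⟩ := hR0 z hzm h.symm
      have hz1 : z ∈ ball (0 : ℂ) 1 \ {0} := hmem z hzr.1 (hzr.2.trans_le hr₁1)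
      obtain ⟨a, -, ha⟩ := (Pool.Agent.H62.EF.pr_eq_iff (hF0 z hz1) (hX0 _ (S.mem i w))).1 hiw
      refine hzero z hz ?_
      show Q (F z) = 0
      rw [ha, hhom, hg, mul_zero]

end Pool.Agent.AD.F
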