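import Pool.Agent.AD.F.Max

/-!
# AD F PotA: the potential lemma, first part

`pot_a` (Ahlfors-Schwarz for all exponents).  For `0 < t < 1` maximise `R z ^ (1/b) * vel F z * (t² - ‖z‖²)` on `‖z‖ ≤ t` (compact, continuous, zero on
`‖z‖ = t`).  At a positive maximum `z₀`: `u z = R z ^ (1/b) * (t² - ‖z‖²)` has `Sub u z₀ (κ v(z₀)²/b - t²/(t² - ‖z₀‖²)²)`
(`Sub.rpow`, `Sub.mul`, and `sub_sq` below), so by `vel_mul_not_isLocalMax` this number is `≤ 0`, i.e. `v(z₀) (t² - ‖z₀‖²) ≤ t √(b/κ)`, and `R ≤ 1`.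
Let `t → 1`.

`sub_sq`: lower support of `t² - ‖z‖²` at `z₀` (`‖z₀‖ < t`): `log(t² - |z|²)` has `∂∂̄ = -t²/(t² - |z|²)²`.  With
`h z = (t² - ‖z₀‖²) * exp(- conj z₀ (z - z₀) * 2 / (2 (t² - ‖z₀‖²)) - (conj z₀)² (z - z₀)² / (2 (t² - ‖z₀‖²)²))` (Taylor expansion of `log`) the quotient
`(t² - ‖z‖²) / |h z|` is `1 - t²/(t² - ‖z₀‖²)² ‖z - z₀‖² + O(‖z - z₀‖³)`.  (Another way: with `D = t² - ‖z₀‖²`, use the Moebius map `w = t² (z - z₀)/(..)`.)
-/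

set_option autoImplicit false

open Topology Filter Metric

namespace Pool.Agent.AD.F

open Pool.Agent.H36.BP (EN fs wd Sub Curve)
open Pool.Agent.H14.PP (IsCone Tan CurveAt)
open Pool.Agent.H22.W (PseudoLength)
open Pool.Agent.H62.EF (pr Lat)

variable {N : ℕ} {X : Set (EN N)}

/-- the hypotheses of the potential lemma -/
structure PotHyp (ν : PseudoLength X) (κ : ℝ) (F : ℂ → EN N) (R : ℂ → ℝ) : Prop where
  curve : Curve X (ball 0 1) F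
  cont : ContinuousOn R (ball 0 1)
  nonneg : ∀ z ∈ ball (0 : ℂ) 1, 0 ≤ R z
  le_one : ∀ z ∈ ball (0 : ℂ) 1, R z ≤ 1
  sub : ∀ z ∈ ball (0 : ℂ) 1, 0 < R z → Sub R z (κ * vel ν F z ^ 2)

private theorem PotA_exp_le {a s : ℝ} (ha : 1 < a) (hs : 0 ≤ s) (hs1 : a * s ≤ a - 1) : Real.exp (-(a * s)) ≤ 1 - s := by
  have h1 : 1 + a * s ≤ Real.exp (a * s) := by
    have := Real.add_one_le_exp (a * s)
    linarith
  have h2 : 0 < 1 + a * s := by nlinarith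
  have h3 : Real.exp (-(a * s)) ≤ (1 + a * s)⁻¹ := by
    rw [Real.exp_neg]
    exact inv_anti₀ h2 h1
  refine h3.trans ?_
  rw [inv_le_iff_one_le_mul₀ h2]
  nlinarith [mul_nonneg hs (sub_nonneg.2 hs1)]

theorem sub_sq {t : ℝ} {z₀ : ℂ} (h : ‖z₀‖ < t) : Sub (fun z => t ^ 2 - ‖z‖ ^ 2) z₀ (-(t ^ 2 / (t ^ 2 - ‖z₀‖ ^ 2) ^ 2)) := by
  have ht : 0 < t := lt_of_le_of_lt (norm_nonneg _) h
  obtain ⟨D, hD⟩ : ∃ D : ℝ, D = t ^ 2 - ‖z₀‖ ^ 2 := ⟨_, rfl⟩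
  have hD0 : 0 < D := by
    rw [hD]
    have := norm_nonneg z₀
    nlinarith
  rw [← hD]
  obtain ⟨q, hq⟩ : ∃ q : ℂ → ℂ, q = fun z => (t : ℂ) ^ 2 - (starRingEnd ℂ) z₀ * z := ⟨_, rfl⟩
  have hqa : ∀ z, AnalyticAt ℂ q z := by
    intro z
    rw [hq]
    exact analyticAt_const.sub (analyticAt_const.mul analyticAt_id)
  have hq0 : q z₀ = (D : ℂ) := by
    rw [hq]
    simp only
    rw [mul_comm, Complex.mul_conj', hD]
    push_cast
    ring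
  have hq00 : q z₀ ≠ 0 := by rw [hq0]; exact_mod_cast hD0.ne'
  obtain ⟨B, hB⟩ : ∃ B : ℂ → ℂ, B = fun z => (t : ℂ) * (z - z₀) / q z := ⟨_, rfl⟩
  have hBa : AnalyticAt ℂ B z₀ := by
    rw [hB]
    exact (analyticAt_const.mul (analyticAt_id.sub analyticAt_const)).div (hqa z₀) hq00
  have hB0 : B z₀ = 0 := by rw [hB]; simp
  have hBd : deriv B z₀ = (t : ℂ) / D := by
    have h1 : HasDerivAt (fun z : ℂ => (t : ℂ) * (z - z₀)) (t : ℂ) z₀ := by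
      simpa using ((hasDerivAt_id z₀).sub_const z₀).const_mul (t : ℂ)
    have h2 : HasDerivAt q (deriv q z₀) z₀ := (hqa z₀).differentiableAt.hasDerivAt
    have h3 := h1.div h2 hq00
    rw [hB]
    have h4 : deriv (fun z => (t : ℂ) * (z - z₀) / q z) z₀ = _ := h3.deriv
    rw [h4, sub_self, mul_zero, zero_mul, sub_zero, hq0]
    have : (D : ℂ) ≠ 0 := by exact_mod_cast hD0.ne'
    field_simp
  have key : ∀ᶠ z in 𝓝 z₀, t ^ 2 - ‖z‖ ^ 2 = ‖q z ^ 2 / (D : ℂ)‖ * (1 - ‖B z‖ ^ 2) := by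
    filter_upwards [(hqa z₀).continuousAt.eventually_ne hq00] with z hz
    have e1 : ‖q z‖ ^ 2 - t ^ 2 * ‖z - z₀‖ ^ 2 = (t ^ 2 - ‖z‖ ^ 2) * D := by
      rw [hD, hq]
      simp only [Complex.sq_norm, Complex.normSq_apply, Complex.sub_re, Complex.sub_im, Complex.mul_re, Complex.mul_im,
        Complex.conj_re, Complex.conj_im]
      have e2 : (((t : ℂ)) ^ 2).re = t ^ 2 := by
        rw [← Complex.ofReal_pow, Complex.ofReal_re]
      have e3 : (((t : ℂ)) ^ 2).im = 0 := by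
        rw [← Complex.ofReal_pow, Complex.ofReal_im]
      rw [e2, e3]
      ring
    have e4 : ‖B z‖ ^ 2 = t ^ 2 * ‖z - z₀‖ ^ 2 / ‖q z‖ ^ 2 := by
      rw [hB]
      simp only
      rw [norm_div, norm_mul, Complex.norm_real, Real.norm_of_nonneg ht.le, div_pow, mul_pow]
    have hqn : ‖q z‖ ≠ 0 := norm_ne_zero_iff.2 hz
    rw [e4, norm_div, norm_pow, Complex.norm_real, Real.norm_of_nonneg hD0.le]
    field_simp
    linarith
  have hhol : Sub (fun z => ‖q z ^ 2 / (D : ℂ)‖) z₀ 0 := by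
    refine Sub.of_holo (((hqa z₀).pow 2).div analyticAt_const (by exact_mod_cast hD0.ne')) ?_
    exact div_ne_zero (pow_ne_zero _ hq00) (by exact_mod_cast hD0.ne')
  have hone : Sub (fun z => 1 - ‖B z‖ ^ 2) z₀ (-(t ^ 2 / D ^ 2)) := by
    refine Sub.of_forall fun d hd => ?_
    obtain ⟨m, hm⟩ : ∃ m : ℝ, m = t ^ 2 / D ^ 2 := ⟨_, rfl⟩
    rw [← hm] at hd
    have hm0 : 0 < m := by rw [hm]; positivity
    obtain ⟨a, ha⟩ : ∃ a : ℝ, a = -d / m := ⟨_, rfl⟩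
    have ha1 : 1 < a := by
      rw [ha, lt_div_iff₀ hm0]
      linarith
    have h1 := Sub.exp_sq hBa (-a)
    have h2 : -a * ‖deriv B z₀‖ ^ 2 = d := by
      rw [hBd, norm_div, Complex.norm_real, Complex.norm_real, Real.norm_of_nonneg ht.le, Real.norm_of_nonneg hD0.le, div_pow, ← hm, ha]
      field_simp
    rw [h2] at h1
    refine h1.mono ?_ ?_
    · show Real.exp (-a * ‖B z₀‖ ^ 2) = 1 - ‖B z₀‖ ^ 2
      rw [hB0]
      simp
    · have hc : ContinuousAt (fun z => a * ‖B z‖ ^ 2) z₀ := ((hBa.continuousAt.norm.pow 2).const_mul a)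
      have h3 : ∀ᶠ z in 𝓝 z₀, a * ‖B z‖ ^ 2 < a - 1 := by
        refine hc.eventually (gt_mem_nhds ?_)
        show a * ‖B z₀‖ ^ 2 < a - 1
        rw [hB0, norm_zero]
        linarith
      filter_upwards [h3] with z hz
      rw [neg_mul]
      exact PotA_exp_le ha1 (by positivity) hz.le
  have h1 := hhol.mul hone
  rw [zero_add] at h1
  refine h1.congr ?_
  filter_upwards [key] with z hz
  exact hz.symm

private theorem PotA_aux (ν : PseudoLength X) {κ : ℝ} (hκ : 0 < κ) {F : ℂ → EN N} {R : ℂ → ℝ} (h : PotHyp ν κ F R) {b : ℝ}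
    (hb : 0 < b) {t : ℝ} (ht0 : 0 < t) (ht : t < 1) {z : ℂ} (hz : ‖z‖ ≤ t) :
    R z ^ (1 / b) * vel ν F z * (t ^ 2 - ‖z‖ ^ 2) ≤ Real.sqrt (b / κ) := by
  have hsub : closedBall (0 : ℂ) t ⊆ ball 0 1 := closedBall_subset_ball ht
  have hb1 : (0 : ℝ) ≤ 1 / b := by positivity
  have hcR : ContinuousOn (fun z => R z ^ (1 / b)) (closedBall 0 t) := (h.cont.mono hsub).rpow_const fun _ _ => Or.inr hb1
  have hcv : ContinuousOn (vel ν F) (closedBall 0 t) := (vel_cont ν isOpen_ball h.curve).mono hsub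
  have hcw : ContinuousOn (fun z => vel ν F z * (R z ^ (1 / b) * (t ^ 2 - ‖z‖ ^ 2))) (closedBall 0 t) := by
    refine hcv.mul (hcR.mul ?_)
    exact Continuous.continuousOn (by fun_prop)
  have hzS : z ∈ closedBall (0 : ℂ) t := by rw [mem_closedBall_zero_iff]; exact hz
  obtain ⟨a, haS, hmax⟩ := (isCompact_closedBall (0 : ℂ) t).exists_isMaxOn ⟨z, hzS⟩ hcw
  have h1 : R z ^ (1 / b) * vel ν F z * (t ^ 2 - ‖z‖ ^ 2) ≤ vel ν F a * (R a ^ (1 / b) * (t ^ 2 - ‖a‖ ^ 2)) := by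
    have h' : vel ν F z * (R z ^ (1 / b) * (t ^ 2 - ‖z‖ ^ 2)) ≤ vel ν F a * (R a ^ (1 / b) * (t ^ 2 - ‖a‖ ^ 2)) := hmax hzS
    calc R z ^ (1 / b) * vel ν F z * (t ^ 2 - ‖z‖ ^ 2) = vel ν F z * (R z ^ (1 / b) * (t ^ 2 - ‖z‖ ^ 2)) := by ring
      _ ≤ _ := h'
  refine h1.trans ?_
  by_contra hlt
  push Not at hlt
  have hpos : 0 < vel ν F a * (R a ^ (1 / b) * (t ^ 2 - ‖a‖ ^ 2)) := lt_of_le_of_lt (Real.sqrt_nonneg _) hlt
  have haB := hsub haS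
  have hva0 : 0 ≤ vel ν F a := vel_nonneg ν isOpen_ball h.curve haB
  have hRa0 : 0 ≤ R a := h.nonneg a haB
  have hRp0 : 0 ≤ R a ^ (1 / b) := Real.rpow_nonneg hRa0 _
  have hat : ‖a‖ ≤ t := by rw [mem_closedBall_zero_iff] at haS; exact haS
  have hD0 : 0 ≤ t ^ 2 - ‖a‖ ^ 2 := by
    have := norm_nonneg a
    nlinarith
  have hva : 0 < vel ν F a := by
    rcases hva0.eq_or_lt with e | e
    · rw [← e, zero_mul] at hpos; exact absurd hpos (lt_irrefl _)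
    · exact e
  have hRp : 0 < R a ^ (1 / b) := by
    rcases hRp0.eq_or_lt with e | e
    · rw [← e, zero_mul, mul_zero] at hpos; exact absurd hpos (lt_irrefl _)
    · exact e
  have hRa : 0 < R a := by
    rcases hRa0.eq_or_lt with e | e
    · rw [← e, Real.zero_rpow (by positivity)] at hRp; exact absurd hRp (lt_irrefl _)
    · exact e
  have hD : 0 < t ^ 2 - ‖a‖ ^ 2 := by
    rcases hD0.eq_or_lt with e | e
    · rw [← e, mul_zero, mul_zero] at hpos; exact absurd hpos (lt_irrefl _)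
    · exact e
  have hat' : ‖a‖ < t := by
    have := norm_nonneg a
    nlinarith
  have hs1 : Sub (fun z => R z ^ (1 / b) * (t ^ 2 - ‖z‖ ^ 2)) a
      (1 / b * (κ * vel ν F a ^ 2) + -(t ^ 2 / (t ^ 2 - ‖a‖ ^ 2) ^ 2)) := ((h.sub a haB hRa).rpow hb1).mul (sub_sq hat')
  have hc : ¬ 0 < 1 / b * (κ * vel ν F a ^ 2) + -(t ^ 2 / (t ^ 2 - ‖a‖ ^ 2) ^ 2) := by
    intro hc
    refine vel_mul_not_isLocalMax ν (Curve.at isOpen_ball h.curve haB) hva hs1 hc ?_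
    have hnb : ball (0 : ℂ) t ∈ 𝓝 a := isOpen_ball.mem_nhds (by rw [mem_ball_zero_iff]; exact hat')
    filter_upwards [hnb] with w hw
    exact hmax (ball_subset_closedBall hw)
  push Not at hc
  have hR1 : R a ^ (1 / b) ≤ 1 := Real.rpow_le_one hRa0 (h.le_one a haB) hb1
  clear hs1 hmax h1
  obtain ⟨D, hDe⟩ : ∃ D : ℝ, D = t ^ 2 - ‖a‖ ^ 2 := ⟨_, rfl⟩
  obtain ⟨v, hv⟩ : ∃ v : ℝ, v = vel ν F a := ⟨_, rfl⟩
  rw [← hDe] at hc hpos hlt hD
  rw [← hv] at hc hpos hlt hva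
  have h5 : (v * D) ^ 2 ≤ b / κ := by
    have e1 : 1 / b * (κ * v ^ 2) ≤ t ^ 2 / D ^ 2 := by linarith
    rw [le_div_iff₀ (by positivity)] at e1
    rw [le_div_iff₀ hκ]
    have e2 : 1 / b * (κ * v ^ 2) * D ^ 2 = (v * D) ^ 2 * κ / b := by ring
    rw [e2, div_le_iff₀ hb] at e1
    have e3 : t ^ 2 * b ≤ 1 * b := mul_le_mul_of_nonneg_right (by nlinarith) hb.le
    linarith
  have h6 : v * D ≤ Real.sqrt (b / κ) := Real.le_sqrt_of_sq_le h5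
  have h7 : v * (R a ^ (1 / b) * D) ≤ v * D := by
    refine mul_le_mul_of_nonneg_left ?_ hva.le
    exact mul_le_of_le_one_left hD.le hR1
  linarith

theorem pot_a (ν : PseudoLength X) {κ : ℝ} (hκ : 0 < κ) {F : ℂ → EN N} {R : ℂ → ℝ} (h : PotHyp ν κ F R) {b : ℝ} (hb : 0 < b)
    {z : ℂ} (hz : z ∈ ball (0 : ℂ) 1) : R z ^ (1 / b) * vel ν F z * (1 - ‖z‖ ^ 2) ≤ Real.sqrt (b / κ) := by
  rw [mem_ball_zero_iff] at hz
  have h1 : Tendsto (fun t : ℝ => R z ^ (1 / b) * vel ν F z * (t ^ 2 - ‖z‖ ^ 2)) (𝓝[<] 1)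
      (𝓝 (R z ^ (1 / b) * vel ν F z * (1 ^ 2 - ‖z‖ ^ 2))) := by
    have hc : Continuous fun t : ℝ => R z ^ (1 / b) * vel ν F z * (t ^ 2 - ‖z‖ ^ 2) := by fun_prop
    exact (hc.tendsto 1).mono_left nhdsWithin_le_nhds
  rw [one_pow] at h1
  refine le_of_tendsto h1 ?_
  have h2 : ∀ᶠ t : ℝ in 𝓝[<] 1, max ‖z‖ 0 < t := by
    have : ∀ᶠ t : ℝ in 𝓝 1, max ‖z‖ 0 < t := lt_mem_nhds (max_lt hz one_pos)
    exact this.filter_mono nhdsWithin_le_nhds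
  filter_upwards [h2, eventually_mem_nhdsWithin] with t h3 h4
  exact PotA_aux ν hκ h hb (lt_of_le_of_lt (le_max_right _ _) h3) h4 ((le_max_left _ _).trans h3.le)

end Pool.Agent.AD.F
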