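import Pool.Agent.AD.F.PotA
import Pool.Agent.H36.BP.CirA

/-!
# AD F PotB: the potential lemma, second part

`harnack`: for `g` entire with `0 ≤ Re g` on `‖z‖ = 3/4`: `Re g z ≥ (1/2) Re g 0` for `‖z‖ ≤ 1/4`.  (Harnack's inequality: minimum principle for `Re g`, then e.g. the
Schwarz lemma for `(g - g 0)/(g + conj (g 0))` on `‖z‖ < 3/4`; or Borel-Caratheodory in Mathlib; or the Poisson formula.)

`pot_b`: Let `L = vel F 0` (the case `L = 0` is `R ≤ 1`), `η` small (absolute), `b = η κ L²`.  By `pot_a` on `‖z‖ = 3/4`: `R ≤ exp (-b φ)`,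
`φ = max 0 (log (7 v / (16 √η L)))` (take the power `b` of `R ^ (1/b) ≤ min 1 (16 √η L / (7 v))`).  `circle_approx` gives `g` entire, `|Re g - φ| ≤ 1/4` on
`‖z‖ = 3/4` (write `φ = log (max 1 (7 v / (16 √η L)))`, it is continuous on the circle).  `vel_mul_le` for `u = ‖exp (-g)‖` on `‖z‖ ≤ 3/4`:
`v e^(-Re g) ≤ (16 √η L / 7) e^(1/4)` on the circle, so `Re g 0 ≥ log (7 / (16 √η)) - 1/4`.  `harnack` for `g + 1/4`: `Re g ≥ 4` on `‖z‖ ≤ 1/4` if
`log (7 / (16 √η)) ≥ 17/2`.  `sub_le` for `R ‖exp (b g)‖` on `‖z‖ ≤ 3/4`: it is `≤ exp (b/4)` on the circle (`Re g ≤ φ + 1/4`), so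
`R ≤ exp (b/4 - b Re g) ≤ exp (-3 b)` on `‖z‖ ≤ 1/4`.
-/

set_option autoImplicit false

open Topology Filter Metric

namespace Pool.Agent.AD.F

open Pool.Agent.H36.BP (EN fs wd Sub Curve)
open Pool.Agent.H14.PP (IsCone Tan CurveAt)
open Pool.Agent.H22.W (PseudoLength)
open Pool.Agent.H62.EF (pr Lat)

variable {N : ℕ} {X : Set (EN N)}

private theorem PotB_min {g : ℂ → ℂ} (hg : Differentiable ℂ g) (h : ∀ z : ℂ, ‖z‖ = 3 / 4 → 0 ≤ (g z).re) {z : ℂ} (hz : ‖z‖ ≤ 3 / 4) :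
    0 ≤ (g z).re := by
  have hd : DiffContOnCl ℂ (fun z => Complex.exp (-g z)) (ball 0 (3 / 4)) :=
    (Complex.differentiable_exp.comp hg.neg).diffContOnCl
  have h1 := Complex.norm_le_of_forall_mem_frontier_norm_le isBounded_ball hd (C := 1) (z := z) (by
    intro w hw
    rw [frontier_ball _ (by norm_num), mem_sphere_zero_iff_norm] at hw
    rw [Complex.norm_exp, Real.exp_le_one_iff, Complex.neg_re]
    have := h w hw
    linarith) (by
    rw [closure_ball _ (by norm_num), mem_closedBall_zero_iff]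
    exact hz)
  rw [Complex.norm_exp, Real.exp_le_one_iff, Complex.neg_re] at h1
  linarith

private theorem PotB_alg {x y a : ℝ} (ha : 0 < a) (hx : 0 ≤ x) (h : 9 * ((x - a) ^ 2 + y ^ 2) ≤ (x + a) ^ 2 + y ^ 2) : a / 2 ≤ x := by
  have h1 : 9 * (x - a) ^ 2 ≤ (x + a) ^ 2 := by nlinarith [sq_nonneg y]
  have h2 : (3 * (x - a)) ^ 2 ≤ (x + a) ^ 2 := by nlinarith
  have h3 := abs_le_of_sq_le_sq' h2 (by linarith)
  linarith [h3.1]

theorem harnack {g : ℂ → ℂ} (hg : Differentiable ℂ g) (h : ∀ z : ℂ, ‖z‖ = 3 / 4 → 0 ≤ (g z).re) {z : ℂ} (hz : ‖z‖ ≤ 1 / 4) :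
    (g 0).re / 2 ≤ (g z).re := by
  have hmin : ∀ w : ℂ, ‖w‖ ≤ 3 / 4 → 0 ≤ (g w).re := fun w hw => PotB_min hg h hw
  have h00 : 0 ≤ (g 0).re := hmin 0 (by rw [norm_zero]; norm_num)
  have hz0 := hmin z (by linarith)
  rcases h00.eq_or_lt with e | ha
  · rw [← e]
    linarith
  obtain ⟨c, hc⟩ : ∃ c : ℂ, c = (starRingEnd ℂ) (g 0) := ⟨_, rfl⟩
  have hcre : c.re = (g 0).re := by rw [hc, Complex.conj_re]
  have hcim : c.im = -(g 0).im := by rw [hc, Complex.conj_im]
  have hden : ∀ w : ℂ, ‖w‖ ≤ 3 / 4 → g w + c ≠ 0 := by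
    intro w hw e
    have := congrArg Complex.re e
    rw [Complex.add_re, Complex.zero_re, hcre] at this
    have := hmin w hw
    linarith
  have hn1 : ∀ w : ℂ, ‖g w - g 0‖ ^ 2 = ((g w).re - (g 0).re) ^ 2 + ((g w).im - (g 0).im) ^ 2 := by
    intro w
    rw [Complex.sq_norm, Complex.normSq_apply, Complex.sub_re, Complex.sub_im]
    ring
  have hn2 : ∀ w : ℂ, ‖g w + c‖ ^ 2 = ((g w).re + (g 0).re) ^ 2 + ((g w).im - (g 0).im) ^ 2 := by
    intro w
    rw [Complex.sq_norm, Complex.normSq_apply, Complex.add_re, Complex.add_im, hcre, hcim]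
    ring
  obtain ⟨f, hf⟩ : ∃ f : ℂ → ℂ, f = fun w => (g w - g 0) / (g w + c) := ⟨_, rfl⟩
  have hf0 : f 0 = 0 := by rw [hf]; simp
  have hfd : DifferentiableOn ℂ f (ball 0 (3 / 4)) := by
    rw [hf]
    intro w hw
    rw [mem_ball_zero_iff] at hw
    exact (((hg w).sub_const _).div ((hg w).add_const _) (hden w hw.le)).differentiableWithinAt
  have hmaps : Set.MapsTo f (ball 0 (3 / 4)) (closedBall (f 0) 1) := by
    intro w hw
    rw [mem_ball_zero_iff] at hw
    rw [hf0, mem_closedBall_zero_iff, hf]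
    simp only
    rw [norm_div]
    refine div_le_one_of_le₀ ?_ (norm_nonneg _)
    refine (pow_le_pow_iff_left₀ (norm_nonneg _) (norm_nonneg _) two_ne_zero).1 ?_
    rw [hn1, hn2]
    have := hmin w hw.le
    nlinarith
  have h1 := Complex.dist_le_div_mul_dist_of_mapsTo_ball hfd hmaps (z := z) (by rw [mem_ball_zero_iff]; linarith)
  rw [hf0, dist_zero_right, dist_zero_right] at h1
  have h2 : ‖f z‖ ≤ 1 / 3 := by
    refine h1.trans ?_
    have : (1 : ℝ) / (3 / 4) * ‖z‖ ≤ 1 / (3 / 4) * (1 / 4) := mul_le_mul_of_nonneg_left hz (by norm_num)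
    linarith
  have h3 : ‖g z - g 0‖ ≤ 1 / 3 * ‖g z + c‖ := by
    rw [hf] at h2
    simp only at h2
    rw [norm_div, div_le_iff₀ (norm_pos_iff.2 (hden z (by linarith)))] at h2
    exact h2
  have h4 : 9 * ‖g z - g 0‖ ^ 2 ≤ ‖g z + c‖ ^ 2 := by
    have h5 : (3 * ‖g z - g 0‖) ^ 2 ≤ ‖g z + c‖ ^ 2 := pow_le_pow_left₀ (by positivity) (by linarith) 2
    linarith [h5, mul_pow (3 : ℝ) ‖g z - g 0‖ 2]
  rw [hn1, hn2] at h4
  exact PotB_alg ha hz0 h4

theorem pot_b (ν : PseudoLength X) {κ : ℝ} (hκ : 0 < κ) : ∃ c : ℝ, 0 < c ∧ ∀ (F : ℂ → EN N) (R : ℂ → ℝ), PotHyp ν κ F R →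
    ∀ z : ℂ, ‖z‖ ≤ 1 / 4 → R z ≤ Real.exp (-(c * vel ν F 0 ^ 2)) := by
  obtain ⟨η, hη⟩ : ∃ η : ℝ, η = Real.exp (-20) := ⟨_, rfl⟩
  have hη0 : 0 < η := by rw [hη]; exact Real.exp_pos _
  have hsη : Real.sqrt η = Real.exp (-10) := by
    rw [hη, show (-20 : ℝ) = -10 + -10 by norm_num, Real.exp_add, Real.sqrt_mul_self (Real.exp_pos _).le]
  refine ⟨3 * η * κ, by positivity, fun F R h z hz => ?_⟩
  have h00 : (0 : ℂ) ∈ ball (0 : ℂ) 1 := mem_ball_self one_pos
  obtain ⟨L, hL⟩ : ∃ L : ℝ, L = vel ν F 0 := ⟨_, rfl⟩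
  have hL0 : 0 ≤ L := by rw [hL]; exact vel_nonneg ν isOpen_ball h.curve h00
  rw [← hL]
  have hzb : z ∈ ball (0 : ℂ) 1 := by rw [mem_ball_zero_iff]; linarith
  rcases hL0.eq_or_lt with e | hLp
  · rw [← e]
    simpa using h.le_one z hzb
  obtain ⟨b, hb⟩ : ∃ b : ℝ, b = η * κ * L ^ 2 := ⟨_, rfl⟩
  have hb0 : 0 < b := by rw [hb]; positivity
  obtain ⟨K, hK⟩ : ∃ K : ℝ, K = 16 * Real.exp (-10) * L := ⟨_, rfl⟩
  have hK0 : 0 < K := by rw [hK]; positivity
  have hsq : Real.sqrt (b / κ) = Real.exp (-10) * L := by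
    rw [show b / κ = η * L ^ 2 by rw [hb]; field_simp, Real.sqrt_mul hη0.le, hsη, Real.sqrt_sq hL0]
  have hcb : closedBall (0 : ℂ) (3 / 4) ⊆ ball 0 1 := closedBall_subset_ball (by norm_num)
  obtain ⟨m, hm⟩ : ∃ m : ℂ → ℝ, m = fun w => max 1 (7 * vel ν F w / K) := ⟨_, rfl⟩
  have hm1 : ∀ w, 1 ≤ m w := fun w => by rw [hm]; exact le_max_left _ _
  have hm2 : ∀ w, 7 * vel ν F w / K ≤ m w := fun w => by rw [hm]; exact le_max_right _ _
  have hvc : ContinuousOn (vel ν F) (closedBall 0 (3 / 4)) := (vel_cont ν isOpen_ball h.curve).mono hcb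
  have hmc : ContinuousOn m (closedBall 0 (3 / 4)) := by
    rw [hm]
    exact ContinuousOn.sup continuousOn_const ((continuousOn_const.mul hvc).div_const _)
  obtain ⟨φ, hφ⟩ : ∃ φ : ℂ → ℝ, φ = fun w => Real.log (m w) := ⟨_, rfl⟩
  have hφ0 : ∀ w, 0 ≤ φ w := fun w => by rw [hφ]; exact Real.log_nonneg (hm1 w)
  have hφe : ∀ w, Real.exp (φ w) = m w := fun w => by rw [hφ]; exact Real.exp_log (lt_of_lt_of_le one_pos (hm1 w))
  have hφc : ContinuousOn φ (sphere 0 (3 / 4)) := by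
    rw [hφ]
    exact (hmc.mono sphere_subset_closedBall).log fun w _ => (lt_of_lt_of_le one_pos (hm1 w)).ne'
  obtain ⟨g, hg, hgφ⟩ := Pool.Agent.H36.BP.circle_approx (R := 3 / 4) (by norm_num) φ hφc (ε := 1 / 4) (by norm_num)
  have hgφ' : ∀ w : ℂ, ‖w‖ = 3 / 4 → |(g w).re - φ w| ≤ 1 / 4 := fun w hw => hgφ w (by rw [mem_sphere_zero_iff_norm]; exact hw)
  -- bound of `R` on the circle
  have hR : ∀ w : ℂ, ‖w‖ = 3 / 4 → R w ≤ Real.exp (-(b * φ w)) := by
    intro w hw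
    have hwb : w ∈ ball (0 : ℂ) 1 := by rw [mem_ball_zero_iff, hw]; norm_num
    have h1 := pot_a ν hκ h hb0 hwb
    rw [hsq, hw] at h1
    have hR0 := h.nonneg w hwb
    have hR1 : R w ^ (1 / b) ≤ 1 := Real.rpow_le_one hR0 (h.le_one w hwb) (by positivity)
    have hRn : 0 ≤ R w ^ (1 / b) := Real.rpow_nonneg hR0 _
    have h2 : R w ^ (1 / b) * m w ≤ 1 := by
      rw [hm]
      simp only
      rw [mul_max_of_nonneg _ _ hRn]
      refine max_le (by linarith) ?_
      rw [← mul_div_assoc, div_le_one hK0, hK]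
      nlinarith
    have h3 : R w ^ (1 / b) ≤ Real.exp (-φ w) := by
      rw [Real.exp_neg, hφe, ← one_div, le_div_iff₀ (lt_of_lt_of_le one_pos (hm1 w))]
      exact h2
    have h4 : (R w ^ (1 / b)) ^ b ≤ (Real.exp (-φ w)) ^ b := Real.rpow_le_rpow hRn h3 hb0.le
    rw [← Real.rpow_mul hR0, one_div, inv_mul_cancel₀ hb0.ne', Real.rpow_one, ← Real.exp_mul] at h4
    refine h4.trans_eq ?_
    congr 1
    ring
  -- `Re g` at `0`
  have hg0 : 33 / 4 ≤ (g 0).re := by
    have hu : Continuous fun w => ‖Complex.exp (-g w)‖ := (Complex.continuous_exp.comp hg.continuous.neg).norm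
    have h1 := vel_mul_le ν (isCompact_closedBall (0 : ℂ) (3 / 4)) (isOpen_ball (x := (0 : ℂ)) (ε := 3 / 4)) ball_subset_closedBall
      isOpen_ball hcb h.curve (u := fun w => ‖Complex.exp (-g w)‖) hu.continuousOn (fun w _ => norm_nonneg _)
      (fun w _ _ => Sub.of_holo (((hg.analyticAt w).neg).cexp) (Complex.exp_ne_zero _))
      (A := Real.exp (1 / 4) * K / 7) (by positivity) (by
        rintro w ⟨hw1, hw2⟩
        rw [mem_closedBall_zero_iff] at hw1
        rw [mem_ball_zero_iff, not_lt] at hw2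
        have hw : ‖w‖ = 3 / 4 := le_antisymm hw1 hw2
        have h2 := abs_le.1 (hgφ' w hw)
        have hwb : w ∈ ball (0 : ℂ) 1 := by rw [mem_ball_zero_iff, hw]; norm_num
        have hv := vel_nonneg ν isOpen_ball h.curve hwb
        show vel ν F w * ‖Complex.exp (-g w)‖ ≤ _
        rw [Complex.norm_exp, Complex.neg_re]
        have h3 : Real.exp (-(g w).re) ≤ Real.exp (1 / 4) * (m w)⁻¹ := by
          rw [← hφe, ← Real.exp_neg, ← Real.exp_add]
          exact Real.exp_le_exp.2 (by linarith)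
        have h4 : vel ν F w * (m w)⁻¹ ≤ K / 7 := by
          rw [← div_eq_mul_inv, div_le_iff₀ (lt_of_lt_of_le one_pos (hm1 w))]
          have h5 := hm2 w
          rw [div_le_iff₀ hK0] at h5
          linarith
        calc vel ν F w * Real.exp (-(g w).re) ≤ vel ν F w * (Real.exp (1 / 4) * (m w)⁻¹) := mul_le_mul_of_nonneg_left h3 hv
          _ = Real.exp (1 / 4) * (vel ν F w * (m w)⁻¹) := by ring
          _ ≤ Real.exp (1 / 4) * (K / 7) := mul_le_mul_of_nonneg_left h4 (Real.exp_pos _).le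
          _ = Real.exp (1 / 4) * K / 7 := by ring) 0 (mem_closedBall_self (by norm_num))
    have h1' : L * Real.exp (-(g 0).re) ≤ Real.exp (1 / 4) * K / 7 := by
      rw [hL]
      have h2 : vel ν F 0 * ‖Complex.exp (-g 0)‖ ≤ Real.exp (1 / 4) * K / 7 := h1
      rw [Complex.norm_exp, Complex.neg_re] at h2
      exact h2
    have h2 : Real.exp (-(g 0).re) ≤ Real.exp (1 / 4) * (16 / 7) * Real.exp (-10) := by
      rw [hK] at h1'
      have e1 : Real.exp (1 / 4) * (16 * Real.exp (-10) * L) / 7 = L * (Real.exp (1 / 4) * (16 / 7) * Real.exp (-10)) := by ring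
      rw [e1] at h1'
      exact le_of_mul_le_mul_left h1' hLp
    have h3 : (16 : ℝ) / 7 ≤ Real.exp (3 / 2) := by
      have := Real.add_one_le_exp (3 / 2 : ℝ)
      linarith
    have h4 : Real.exp (-(g 0).re) ≤ Real.exp (-(33 / 4)) := by
      refine h2.trans ?_
      calc Real.exp (1 / 4) * (16 / 7) * Real.exp (-10) ≤ Real.exp (1 / 4) * Real.exp (3 / 2) * Real.exp (-10) := by gcongr
        _ = Real.exp (-(33 / 4)) := by
          rw [← Real.exp_add, ← Real.exp_add]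
          norm_num
    have h5 := Real.exp_le_exp.1 h4
    linarith
  have hgz : 4 ≤ (g z).re := by
    have h1 := harnack (g := fun w => g w + 1 / 4) (hg.add_const _) (fun w hw => by
      have h2 := abs_le.1 (hgφ' w hw)
      have h3 := hφ0 w
      rw [Complex.add_re]
      have h4 : (1 / 4 : ℂ).re = 1 / 4 := by norm_num
      rw [h4]
      linarith) hz
    simp only [Complex.add_re] at h1
    have h4 : (1 / 4 : ℂ).re = 1 / 4 := by norm_num
    rw [h4] at h1
    linarith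
  have hexp : ∀ w, ‖Complex.exp ((b : ℂ) * g w)‖ = Real.exp (b * (g w).re) := by
    intro w
    rw [Complex.norm_exp, Complex.re_ofReal_mul]
  have hu : Continuous fun w => ‖Complex.exp ((b : ℂ) * g w)‖ :=
    (Complex.continuous_exp.comp (continuous_const.mul hg.continuous)).norm
  have h1 := sub_le (isCompact_closedBall (0 : ℂ) (3 / 4)) (isOpen_ball (x := (0 : ℂ)) (ε := 3 / 4)) ball_subset_closedBall
    (u := fun w => R w * ‖Complex.exp ((b : ℂ) * g w)‖) ((h.cont.mono hcb).mul hu.continuousOn)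
    (fun w hw hpos => by
      have hwb : w ∈ ball (0 : ℂ) 1 := hcb (ball_subset_closedBall hw)
      have hRw : 0 < R w := by
        rcases (h.nonneg w hwb).eq_or_lt with e | e
        · have h' : 0 < R w * ‖Complex.exp ((b : ℂ) * g w)‖ := hpos
          rw [← e, zero_mul] at h'
          exact absurd h' (lt_irrefl _)
        · exact e
      have h2 : Sub R w 0 := (h.sub w hwb hRw).anti (by positivity)
      have h3 := h2.mul (Sub.of_holo (h := fun w => Complex.exp ((b : ℂ) * g w)) (z₀ := w)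
        ((analyticAt_const.mul (hg.analyticAt w)).cexp) (Complex.exp_ne_zero _))
      rw [add_zero] at h3
      exact h3) (A := Real.exp (b / 4)) (Real.exp_pos _).le (by
      rintro w ⟨hw1, hw2⟩
      rw [mem_closedBall_zero_iff] at hw1
      rw [mem_ball_zero_iff, not_lt] at hw2
      have hw : ‖w‖ = 3 / 4 := le_antisymm hw1 hw2
      have h2 := abs_le.1 (hgφ' w hw)
      show R w * ‖Complex.exp ((b : ℂ) * g w)‖ ≤ _
      rw [hexp]
      calc R w * Real.exp (b * (g w).re) ≤ Real.exp (-(b * φ w)) * Real.exp (b * (g w).re) :=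
            mul_le_mul_of_nonneg_right (hR w hw) (Real.exp_pos _).le
        _ = Real.exp (b * ((g w).re - φ w)) := by
          rw [← Real.exp_add]
          congr 1
          ring
        _ ≤ Real.exp (b / 4) := by
          refine Real.exp_le_exp.2 ?_
          nlinarith) z (by rw [mem_closedBall_zero_iff]; linarith)
  have h2 : R z * Real.exp (b * (g z).re) ≤ Real.exp (b / 4) := by
    have h3 : R z * ‖Complex.exp ((b : ℂ) * g z)‖ ≤ Real.exp (b / 4) := h1
    rw [hexp] at h3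
    exact h3
  have h3 : R z ≤ Real.exp (b / 4) * Real.exp (-(b * (g z).re)) := by
    rw [Real.exp_neg, ← div_eq_mul_inv, le_div_iff₀ (Real.exp_pos _)]
    exact h2
  refine h3.trans ?_
  rw [← Real.exp_add]
  refine Real.exp_le_exp.2 ?_
  have e1 : 3 * η * κ * L ^ 2 = 3 * b := by rw [hb]; ring
  rw [e1]
  nlinarith

end Pool.Agent.AD.F
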