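import Pool.Agent.AD.F.PotB

/-!
# AD F PotC: the potential lemma

For `‖z₁‖ ≤ 7/8` apply `pot_b` to `F (z₁ + z/8)` (its speed at `0` is `v(z₁)/8`, `vel_affine`; `Sub` under the change of scale: exponent times `1/64`):
`R ≤ exp (-c v(z₁)²)` on `‖z - z₁‖ ≤ 1/32`.  Let `B z = (z - z₁)/(1 - conj z₁ z)`: `‖B‖ ≥ 1/64` on `‖z - z₁‖ = 1/32`.  With `τ log 64 = c v(z₁)²`,
`τ ≥ 0`: `R ‖1/B‖^τ ≤ 1` on `‖z - z₁‖ = 1/32`; `sub_le` on `{‖z‖ ≤ t, ‖z - z₁‖ ≥ 1/32}` with the bound `sup_{‖z‖ = t} ‖B‖^(-τ)`, which tends to `1` for `t → 1`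
(`Sub (fun z => ‖1/B z‖^τ) z 0`: `Sub.of_holo`, `Sub.rpow`).  So `R ≤ ‖B‖^τ` there, and `1 - ‖B‖² = (1-‖z‖²)(1-‖z₁‖²)/|1 - conj z₁ z|² ≥ (1-‖z‖)/32`, so
`‖B‖^τ ≤ exp (-τ (1 - ‖z‖)/64)`.
-/

set_option autoImplicit false

open Topology Filter Metric

namespace Pool.Agent.AD.F

open Pool.Agent.H36.BP (EN fs wd Sub Curve)
open Pool.Agent.H14.PP (IsCone Tan CurveAt)
open Pool.Agent.H22.W (PseudoLength)
open Pool.Agent.H62.EF (pr Lat)

variable {N : ℕ} {X : Set (EN N)}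

/-- change of the scale -/
theorem sub_affine {R : ℂ → ℝ} {z₀ a b : ℂ} {c : ℝ} (h : Sub R (b + a * z₀) c) (ha : a ≠ 0) :
    Sub (fun z => R (b + a * z)) z₀ (‖a‖ ^ 2 * c) := by
  have hn : 0 < ‖a‖ := norm_pos_iff.2 ha
  refine ⟨h.1, fun c' hc' => ?_⟩
  obtain ⟨g, hg, hg0, hge⟩ := h.2 (c' / ‖a‖ ^ 2) (by
    rw [div_lt_iff₀ (by positivity)]
    linarith)
  have hφ : AnalyticAt ℂ (fun z : ℂ => b + a * z) z₀ := analyticAt_const.add (analyticAt_const.mul analyticAt_id)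
  refine ⟨fun z => g (b + a * z), hg.comp_of_eq hφ rfl, hg0, ?_⟩
  filter_upwards [hφ.continuousAt.eventually hge] with z hz
  have e1 : c' / ‖a‖ ^ 2 * ‖b + a * z - (b + a * z₀)‖ ^ 2 = c' * ‖z - z₀‖ ^ 2 := by
    rw [show b + a * z - (b + a * z₀) = a * (z - z₀) by ring, norm_mul, mul_pow]
    field_simp
  rw [e1] at hz
  exact hz

private theorem PotC_mem {z₁ w : ℂ} (h₁ : ‖z₁‖ ≤ 7 / 8) (hw : w ∈ ball (0 : ℂ) 1) : z₁ + 1 / 8 * w ∈ ball (0 : ℂ) 1 := by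
  rw [mem_ball_zero_iff] at hw ⊢
  have h1 : ‖(1 / 8 : ℂ) * w‖ = 1 / 8 * ‖w‖ := by
    rw [norm_mul]
    norm_num
  have h2 := norm_add_le z₁ (1 / 8 * w)
  rw [h1] at h2
  linarith

private theorem PotC_scale (ν : PseudoLength X) {κ : ℝ} {F : ℂ → EN N} {R : ℂ → ℝ} (h : PotHyp ν κ F R) {z₁ : ℂ}
    (h₁ : ‖z₁‖ ≤ 7 / 8) : PotHyp ν κ (fun w => F (z₁ + 1 / 8 * w)) (fun w => R (z₁ + 1 / 8 * w)) where
  curve := Curve.comp h.curve (by fun_prop) fun w hw => PotC_mem h₁ hw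
  cont := h.cont.comp (Continuous.continuousOn (by fun_prop)) fun w hw => PotC_mem h₁ hw
  nonneg := fun w hw => h.nonneg _ (PotC_mem h₁ hw)
  le_one := fun w hw => h.le_one _ (PotC_mem h₁ hw)
  sub := fun w hw h0 => by
    have h1 := sub_affine (a := 1 / 8) (h.sub _ (PotC_mem h₁ hw) h0) (by norm_num)
    have h2 := vel_affine ν isOpen_ball h.curve (1 / 8) z₁ (z := w) (PotC_mem h₁ hw)
    have h3 : ‖(1 / 8 : ℂ)‖ = 1 / 8 := by norm_num
    rw [h3] at h1 h2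
    rw [h2]
    have e : (1 / 8 : ℝ) ^ 2 * (κ * vel ν F (z₁ + 1 / 8 * w) ^ 2) = κ * (1 / 8 * vel ν F (z₁ + 1 / 8 * w)) ^ 2 := by ring
    rw [e] at h1
    exact h1

private theorem PotC_id (z z₁ : ℂ) : ‖1 - (starRingEnd ℂ) z₁ * z‖ ^ 2 - ‖z - z₁‖ ^ 2 = (1 - ‖z‖ ^ 2) * (1 - ‖z₁‖ ^ 2) := by
  simp only [Complex.sq_norm, Complex.normSq_apply, Complex.sub_re, Complex.sub_im, Complex.mul_re, Complex.mul_im,
    Complex.conj_re, Complex.conj_im, Complex.one_re, Complex.one_im]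
  ring

private theorem PotC_q {z z₁ : ℂ} (h₁ : ‖z₁‖ ≤ 7 / 8) (hz : ‖z‖ ≤ 1) : 1 / 8 ≤ ‖1 - (starRingEnd ℂ) z₁ * z‖ ∧
    ‖1 - (starRingEnd ℂ) z₁ * z‖ ≤ 2 := by
  have h1 : ‖(starRingEnd ℂ) z₁ * z‖ ≤ 7 / 8 := by
    rw [norm_mul, RCLike.norm_conj]
    have := norm_nonneg z
    have := norm_nonneg z₁
    nlinarith
  constructor
  · have h2 := norm_sub_norm_le (1 : ℂ) ((starRingEnd ℂ) z₁ * z)
    rw [norm_one] at h2
    linarith
  · have h2 := norm_sub_le (1 : ℂ) ((starRingEnd ℂ) z₁ * z)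
    rw [norm_one] at h2
    linarith

private theorem PotC_far (ν : PseudoLength X) {κ : ℝ} (hκ : 0 < κ) {F : ℂ → EN N} {R : ℂ → ℝ} (h : PotHyp ν κ F R) {z₁ : ℂ}
    (h₁ : ‖z₁‖ ≤ 7 / 8) {τ : ℝ} (hτ : 0 ≤ τ) (hR : ∀ z : ℂ, ‖z - z₁‖ ≤ 1 / 32 → R z ≤ (1 / 64 : ℝ) ^ τ) {z : ℂ} (hz : ‖z‖ < 1)
    (hz1 : 1 / 32 ≤ ‖z - z₁‖) : R z * ‖(1 - (starRingEnd ℂ) z₁ * z) / (z - z₁)‖ ^ τ ≤ 1 := by
  obtain ⟨q, hq⟩ : ∃ q : ℂ → ℂ, q = fun z => 1 - (starRingEnd ℂ) z₁ * z := ⟨_, rfl⟩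
  have hqa : ∀ z, AnalyticAt ℂ q z := by
    intro z
    rw [hq]
    exact analyticAt_const.sub (analyticAt_const.mul analyticAt_id)
  have hqn : ∀ z : ℂ, ‖z‖ ≤ 1 → 1 / 8 ≤ ‖q z‖ ∧ ‖q z‖ ≤ 2 := fun z hz => by rw [hq]; exact PotC_q h₁ hz
  have hid : ∀ z : ℂ, ‖q z‖ ^ 2 - ‖z - z₁‖ ^ 2 = (1 - ‖z‖ ^ 2) * (1 - ‖z₁‖ ^ 2) := fun z => by rw [hq]; exact PotC_id z z₁
  obtain ⟨A, hA⟩ : ∃ A : ℝ → ℝ, A = fun t => ((Real.sqrt (1 - 64 * (1 - t ^ 2)))⁻¹) ^ τ := ⟨_, rfl⟩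
  have hlim : Tendsto A (𝓝[<] 1) (𝓝 1) := by
    have h1 : ContinuousAt A 1 := by
      rw [hA]
      refine ContinuousAt.rpow_const (ContinuousAt.inv₀ ?_ ?_) (Or.inr hτ)
      · exact Continuous.continuousAt (by fun_prop)
      · norm_num
    have h2 : A 1 = 1 := by
      rw [hA]
      norm_num
    have h3 := h1.tendsto
    rw [h2] at h3
    exact h3.mono_left nhdsWithin_le_nhds
  refine ge_of_tendsto hlim ?_
  have hev : ∀ᶠ t : ℝ in 𝓝[<] 1, max ‖z‖ (127 / 128) < t := by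
    have : ∀ᶠ t : ℝ in 𝓝 1, max ‖z‖ (127 / 128) < t := lt_mem_nhds (max_lt hz (by norm_num))
    exact this.filter_mono nhdsWithin_le_nhds
  filter_upwards [hev, eventually_mem_nhdsWithin] with t ht ht1
  have htz : ‖z‖ < t := (le_max_left _ _).trans_lt ht
  have ht2 : 127 / 128 < t := (le_max_right _ _).trans_lt ht
  have ht1' : t < 1 := ht1
  have hcb : closedBall (0 : ℂ) t ⊆ ball 0 1 := closedBall_subset_ball ht1'
  obtain ⟨S, hS⟩ : ∃ S : Set ℂ, S = closedBall (0 : ℂ) t ∩ {w | 1 / 32 ≤ ‖w - z₁‖} := ⟨_, rfl⟩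
  obtain ⟨U, hU⟩ : ∃ U : Set ℂ, U = ball (0 : ℂ) t ∩ {w | 1 / 32 < ‖w - z₁‖} := ⟨_, rfl⟩
  have hSc : IsCompact S := by
    rw [hS]
    exact (isCompact_closedBall _ _).inter_right (isClosed_le continuous_const (by fun_prop))
  have hUo : IsOpen U := by
    rw [hU]
    exact isOpen_ball.inter (isOpen_lt continuous_const (by fun_prop))
  have hUS : U ⊆ S := by
    rw [hU, hS]
    rintro w ⟨h1, h2⟩
    have h2' : 1 / 32 < ‖w - z₁‖ := h2
    exact ⟨ball_subset_closedBall h1, h2'.le⟩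
  have hSb : S ⊆ ball 0 1 := by rw [hS]; exact fun w hw => hcb hw.1
  have hSne : ∀ w ∈ S, w - z₁ ≠ 0 := by
    intro w hw e
    rw [hS] at hw
    have h1 : 1 / 32 ≤ ‖w - z₁‖ := hw.2
    rw [e, norm_zero] at h1
    linarith
  have hτn : ∀ w, 0 ≤ ‖q w / (w - z₁)‖ ^ τ := fun w => Real.rpow_nonneg (norm_nonneg _) _
  have hcont : ContinuousOn (fun w => R w * ‖q w / (w - z₁)‖ ^ τ) S := by
    refine (h.cont.mono hSb).mul ?_
    refine ContinuousOn.rpow_const ?_ fun _ _ => Or.inr hτ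
    refine ContinuousOn.norm (ContinuousOn.div ?_ ?_ hSne)
    · exact fun w _ => (hqa w).continuousAt.continuousWithinAt
    · exact Continuous.continuousOn (by fun_prop)
  have hm0 : 0 < 1 - 64 * (1 - t ^ 2) := by nlinarith
  have hsm : 0 < Real.sqrt (1 - 64 * (1 - t ^ 2)) := Real.sqrt_pos.2 hm0
  have hA1 : 1 ≤ A t := by
    rw [hA]
    refine Real.one_le_rpow ?_ hτ
    rw [one_le_inv₀ hsm]
    refine Real.sqrt_le_one.2 ?_
    nlinarith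
  have hzS : z ∈ S := by
    rw [hS]
    exact ⟨by rw [mem_closedBall_zero_iff]; exact htz.le, hz1⟩
  have hfin := sub_le hSc hUo hUS (u := fun w => R w * ‖q w / (w - z₁)‖ ^ τ) hcont
    (fun w hw hpos => by
      have hwS := hUS hw
      have hwb := hSb hwS
      have hRw : 0 < R w := by
        rcases (h.nonneg w hwb).eq_or_lt with e | e
        · have h' : 0 < R w * ‖q w / (w - z₁)‖ ^ τ := hpos
          rw [← e, zero_mul] at h'
          exact absurd h' (lt_irrefl _)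
        · exact e
      have hwn : ‖w‖ ≤ 1 := by
        rw [mem_ball_zero_iff] at hwb
        exact hwb.le
      have hq0 : q w ≠ 0 := by
        intro e
        have := (hqn w hwn).1
        rw [e, norm_zero] at this
        linarith
      have h2 : Sub R w 0 := (h.sub w hwb hRw).anti (by positivity)
      have h3 : Sub (fun w => ‖q w / (w - z₁)‖) w 0 :=
        Sub.of_holo ((hqa w).div (analyticAt_id.sub analyticAt_const) (hSne w hwS)) (div_ne_zero hq0 (hSne w hwS))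
      have h4 := h2.mul (h3.rpow hτ)
      rw [mul_zero, add_zero] at h4
      exact h4) (A := A t) (le_trans zero_le_one hA1) (by
      rintro w ⟨hw1, hw2⟩
      have hwb := hSb hw1
      have hwn : ‖w‖ < 1 := by rw [mem_ball_zero_iff] at hwb; exact hwb
      have hR0 := h.nonneg w hwb
      have hR1 := h.le_one w hwb
      have hne := hSne w hw1
      have hnp : 0 < ‖w - z₁‖ := norm_pos_iff.2 hne
      rw [hS] at hw1
      obtain ⟨hw3, hw4⟩ := hw1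
      have hw4' : 1 / 32 ≤ ‖w - z₁‖ := hw4
      rw [mem_closedBall_zero_iff] at hw3
      show R w * ‖q w / (w - z₁)‖ ^ τ ≤ A t
      rcases hw4'.eq_or_lt with e | e
      · refine le_trans ?_ hA1
        have h5 : ‖q w / (w - z₁)‖ ≤ 64 := by
          rw [norm_div, ← e, div_le_iff₀ (by norm_num)]
          have := (hqn w hwn.le).2
          linarith
        have h6 : ‖q w / (w - z₁)‖ ^ τ ≤ 64 ^ τ := Real.rpow_le_rpow (norm_nonneg _) h5 hτ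
        have h7 := hR w e.symm.le
        calc R w * ‖q w / (w - z₁)‖ ^ τ ≤ (1 / 64 : ℝ) ^ τ * 64 ^ τ :=
              mul_le_mul h7 h6 (hτn w) (Real.rpow_nonneg (by norm_num) _)
          _ = 1 := by
            rw [← Real.mul_rpow (by norm_num) (by norm_num)]
            norm_num
      · have hwt : ‖w‖ = t := by
          refine le_antisymm hw3 ?_
          by_contra hlt
          push Not at hlt
          refine hw2 ?_
          rw [hU]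
          exact ⟨by rw [mem_ball_zero_iff]; exact hlt, e⟩
        have h5 : (1 - 64 * (1 - t ^ 2)) * ‖q w‖ ^ 2 ≤ ‖w - z₁‖ ^ 2 := by
          have h6 := hid w
          rw [hwt] at h6
          have h7 := (hqn w hwn.le).1
          have h8 : (1 - t ^ 2) * (1 - ‖z₁‖ ^ 2) ≤ (1 - t ^ 2) * 1 := by
            refine mul_le_mul_of_nonneg_left ?_ (by nlinarith)
            have := sq_nonneg ‖z₁‖
            linarith
          have h9 : 1 ≤ 64 * ‖q w‖ ^ 2 := by nlinarith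
          have h10 : 0 ≤ 1 - t ^ 2 := by nlinarith
          have h11 : (1 - t ^ 2) * 1 ≤ (1 - t ^ 2) * (64 * ‖q w‖ ^ 2) := mul_le_mul_of_nonneg_left h9 h10
          nlinarith
        have h6 : ‖q w / (w - z₁)‖ ≤ (Real.sqrt (1 - 64 * (1 - t ^ 2)))⁻¹ := by
          rw [norm_div, div_le_iff₀ hnp, inv_mul_eq_div, le_div_iff₀ hsm]
          refine (pow_le_pow_iff_left₀ (by positivity) (norm_nonneg _) two_ne_zero).1 ?_
          rw [mul_pow, Real.sq_sqrt hm0.le]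
          linarith
        have h7 : ‖q w / (w - z₁)‖ ^ τ ≤ A t := by
          rw [hA]
          exact Real.rpow_le_rpow (norm_nonneg _) h6 hτ
        calc R w * ‖q w / (w - z₁)‖ ^ τ ≤ 1 * ‖q w / (w - z₁)‖ ^ τ := mul_le_mul_of_nonneg_right hR1 (hτn w)
          _ ≤ A t := by rw [one_mul]; exact h7) z hzS
  have hfin' : R z * ‖q z / (z - z₁)‖ ^ τ ≤ A t := hfin
  rw [hq] at hfin'
  exact hfin'

/-- **The potential lemma.** -/
theorem potential (ν : PseudoLength X) {κ : ℝ} (hκ : 0 < κ) : ∃ c : ℝ, 0 < c ∧ ∀ (F : ℂ → EN N) (R : ℂ → ℝ), PotHyp ν κ F R →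
    ∀ z₁ : ℂ, ‖z₁‖ ≤ 7 / 8 → ∀ z ∈ ball (0 : ℂ) 1, R z ≤ Real.exp (-(c * vel ν F z₁ ^ 2 * (1 - ‖z‖))) := by
  obtain ⟨c₀, hc₀, hpot⟩ := pot_b (X := X) ν hκ
  have hlog : 1 ≤ Real.log 64 := by
    have h1 : Real.exp 1 ≤ 64 := by
      have := Real.exp_one_lt_d9
      linarith
    have h2 := Real.log_le_log (Real.exp_pos 1) h1
    rw [Real.log_exp] at h2
    exact h2
  have hlog0 : 0 < Real.log 64 := lt_of_lt_of_le one_pos hlog
  refine ⟨c₀ / (4096 * Real.log 64), by positivity, fun F R h z₁ h₁ z hz => ?_⟩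
  obtain ⟨v, hv⟩ : ∃ v : ℝ, v = vel ν F z₁ := ⟨_, rfl⟩
  rw [← hv]
  have hz0 : ‖z‖ < 1 := by rw [mem_ball_zero_iff] at hz; exact hz
  have hz00 := norm_nonneg z
  have hnear : ∀ w : ℂ, ‖w - z₁‖ ≤ 1 / 32 → R w ≤ Real.exp (-(c₀ / 64 * v ^ 2)) := by
    intro w hw
    have h1 := hpot _ _ (PotC_scale ν h h₁) (8 * (w - z₁)) (by
      rw [norm_mul]
      norm_num
      linarith)
    have e1 : z₁ + 1 / 8 * (8 * (w - z₁)) = w := by ring
    have e2 := vel_affine ν isOpen_ball h.curve (1 / 8) z₁ (z := 0) (by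
      have := PotC_mem h₁ (mem_ball_self one_pos)
      exact this)
    have e3 : ‖(1 / 8 : ℂ)‖ = 1 / 8 := by norm_num
    rw [e3, mul_zero, add_zero, ← hv] at e2
    simp only [e1, e2] at h1
    refine h1.trans_eq ?_
    congr 1
    ring
  obtain ⟨τ, hτ⟩ : ∃ τ : ℝ, τ = c₀ / 64 * v ^ 2 / Real.log 64 := ⟨_, rfl⟩
  have hτ0 : 0 ≤ τ := by rw [hτ]; positivity
  have hτl : τ * Real.log 64 = c₀ / 64 * v ^ 2 := by
    rw [hτ]
    field_simp
  have h64 : (1 / 64 : ℝ) ^ τ = Real.exp (-(c₀ / 64 * v ^ 2)) := by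
    rw [Real.rpow_def_of_pos (by norm_num), one_div, Real.log_inv, ← hτl]
    congr 1
    ring
  have hgoal : c₀ / (4096 * Real.log 64) * v ^ 2 = τ / 64 := by
    rw [hτ]
    field_simp
    ring
  rw [hgoal]
  rcases le_total ‖z - z₁‖ (1 / 32) with hcase | hcase
  · refine (hnear z hcase).trans (Real.exp_le_exp.2 ?_)
    rw [← hτl]
    have h1 : τ / 64 * (1 - ‖z‖) ≤ τ / 64 * 1 := mul_le_mul_of_nonneg_left (by linarith) (by positivity)
    have h2 : τ * 1 ≤ τ * Real.log 64 := mul_le_mul_of_nonneg_left hlog hτ0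
    linarith
  · have h1 := PotC_far ν hκ h h₁ hτ0 (fun w hw => by rw [h64]; exact hnear w hw) hz0 hcase
    obtain ⟨q, hq⟩ : ∃ q : ℂ, q = 1 - (starRingEnd ℂ) z₁ * z := ⟨_, rfl⟩
    obtain ⟨hq1, hq2⟩ := PotC_q h₁ hz0.le
    have hid := PotC_id z z₁
    rw [← hq] at h1 hq1 hq2 hid
    have hqp : 0 < ‖q‖ := by linarith
    have hdp : 0 < ‖z - z₁‖ := by linarith
    obtain ⟨x, hx⟩ : ∃ x : ℝ, x = ‖q / (z - z₁)‖ := ⟨_, rfl⟩
    have hxp : 0 < x := by rw [hx, norm_div]; positivity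
    rw [← hx] at h1
    have hxt : 0 < x ^ τ := Real.rpow_pos_of_pos hxp _
    have h2 : R z ≤ (x ^ τ)⁻¹ := by
      rw [← one_div, le_div_iff₀ hxt]
      exact h1
    refine h2.trans ?_
    rw [Real.rpow_def_of_pos hxp, ← Real.exp_neg]
    refine Real.exp_le_exp.2 ?_
    have h3 : (1 - ‖z‖) / 64 ≤ Real.log x := by
      have e1 : ‖z - z₁‖ ^ 2 / ‖q‖ ^ 2 = 1 - (1 - ‖z‖ ^ 2) * (1 - ‖z₁‖ ^ 2) / ‖q‖ ^ 2 := by
        rw [← hid]
        field_simp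
        ring
      have e2 : (1 - ‖z‖) / 32 ≤ (1 - ‖z‖ ^ 2) * (1 - ‖z₁‖ ^ 2) / ‖q‖ ^ 2 := by
        rw [le_div_iff₀ (by positivity)]
        have e3 : ‖q‖ ^ 2 ≤ 4 := by nlinarith
        have e4 : 15 / 64 ≤ 1 - ‖z₁‖ ^ 2 := by nlinarith [norm_nonneg z₁]
        have e5 : 1 - ‖z‖ ≤ 1 - ‖z‖ ^ 2 := by nlinarith
        have e6 : (1 - ‖z‖) / 32 * ‖q‖ ^ 2 ≤ (1 - ‖z‖) / 32 * 4 := mul_le_mul_of_nonneg_left e3 (by linarith)
        have e7 : (1 - ‖z‖) * (15 / 64) ≤ (1 - ‖z‖ ^ 2) * (1 - ‖z₁‖ ^ 2) := by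
          refine mul_le_mul e5 e4 (by norm_num) (by nlinarith)
        linarith
      have e8 : Real.log (‖z - z₁‖ ^ 2 / ‖q‖ ^ 2) ≤ ‖z - z₁‖ ^ 2 / ‖q‖ ^ 2 - 1 := Real.log_le_sub_one_of_pos (by positivity)
      have e9 : Real.log (‖z - z₁‖ ^ 2 / ‖q‖ ^ 2) = -(2 * Real.log x) := by
        rw [hx, norm_div, ← div_pow, Real.log_pow, Real.log_div hdp.ne' hqp.ne', Real.log_div hqp.ne' hdp.ne']
        push_cast
        ring
      rw [e9, e1] at e8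
      linarith
    have h4 : (1 - ‖z‖) / 64 * τ ≤ Real.log x * τ := mul_le_mul_of_nonneg_right h3 hτ0
    linarith

end Pool.Agent.AD.F
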