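import Pool.Agent.AD.F.SepA

/-!
# AD F Sep: the separation (S)

`exists_sep`: a point which is near two different branches of the finitely many doubly periodic curves `g i` is near one of finitely many points.
Compactness modulo the periods.  At a pair `(i, a)`, `(j, b)` with `pr (g i a) ≠ pr (g j b)` the number `d` is bounded from below.  If the points are the same then either the germs are
the same up to a change `φ` of the variable; as the speed is one, `|φ'| = 1`, so `φ` is affine, and by uniqueness `i = j`; a rotation has a fixed point, where the derivative would be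
zero; so `φ` is a translation by a period, and all the near pairs are equivalent; or the distance of `g i s` from `g j t` is at least `c |s - a| ^ M` (`local_branch`).
-/

set_option autoImplicit false

open Topology Filter Metric

namespace Pool.Agent.AD.F.Sp

open Pool.Agent.H36.BP (EN fs wd Curve)
open Pool.Agent.H14.PP (IsCone Tan CurveAt)
open Pool.Agent.H22.W (PseudoLength tan_curve)
open Pool.Agent.H62.EF (pr pr_smul pr_eq_iff norm_pr nm Lat continuousAt_pr)

variable {N : ℕ} {X : Set (EN N)}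

/-- the speed depends only on the curve in the projective space -/
theorem vel_congr (hX : IsCone X) (ν : PseudoLength X) {F G : ℂ → EN N} {z₀ : ℂ} (hF : CurveAt X F z₀) (hG : CurveAt X G z₀)
    (h : ∀ᶠ z in 𝓝 z₀, pr (F z) = pr (G z)) : vel ν F z₀ = vel ν G z₀ := by
  have hG0 : G z₀ ≠ 0 := hX.ne_zero hG.mem
  have hi : (inner ℂ (G z₀) (G z₀) : ℂ) ≠ 0 := by rw [inner_self']; exact sq_ne' hG0
  obtain ⟨k, hk⟩ : ∃ k : ℂ → ℂ, k = fun z => (inner ℂ (G z₀) (F z) : ℂ) / inner ℂ (G z₀) (G z) := ⟨_, rfl⟩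
  have hkan : AnalyticAt ℂ k z₀ := by
    rw [hk]
    exact (inner_an hF.1 _).div (inner_an hG.1 _) hi
  have heq : ∀ᶠ z in 𝓝 z₀, F z = k z • G z := by
    filter_upwards [h, (inner_an hG.1 (G z₀)).continuousAt.eventually_ne hi, hF.2, hG.2] with z h1 h2 h3 h4
    obtain ⟨c, hc, hcc⟩ := (pr_eq_iff (hX.ne_zero h3) (hX.ne_zero h4)).1 h1
    have h5 : k z = c := by
      rw [hk]
      show (inner ℂ (G z₀) (F z) : ℂ) / inner ℂ (G z₀) (G z) = c
      rw [hcc, inner_smul_right, mul_div_assoc, div_self h2, mul_one]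
    rw [h5, hcc]
  have hk0 : k z₀ ≠ 0 := by
    intro h0
    have h1 := heq.self_of_nhds
    rw [h0, zero_smul] at h1
    exact hX.ne_zero hF.mem h1
  have hd : HasDerivAt F (k z₀ • deriv G z₀ + deriv k z₀ • G z₀) z₀ := by
    have h1 := hkan.differentiableAt.hasDerivAt.smul hG.1.differentiableAt.hasDerivAt
    exact h1.congr_of_eventuallyEq heq
  unfold vel
  rw [hd.deriv, heq.self_of_nhds]
  exact ν.inv hX (tan_curve hG) hk0 _

theorem deriv_nm_ne (hX : IsCone X) (ν : PseudoLength X) {F : ℂ → EN N} {z₀ : ℂ} (hF : CurveAt X F z₀) {p : EN N}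
    (hi : (inner ℂ p (F z₀) : ℂ) ≠ 0) (hv : vel ν F z₀ ≠ 0) : deriv (fun z => nm p (F z)) z₀ ≠ 0 := by
  intro h0
  have hp : p ≠ 0 := by
    rintro rfl
    rw [inner_zero_left] at hi
    exact hi rfl
  have hev : ∀ᶠ z in 𝓝 z₀, (inner ℂ p (F z) : ℂ) ≠ 0 := (inner_an hF.1 p).continuousAt.eventually_ne hi
  have hc : CurveAt X (fun z => nm p (F z)) z₀ := by
    refine ⟨nm_an hF.1 hi, ?_⟩
    filter_upwards [hev, hF.2] with z h1 h2
    exact hX.smul_mem _ h2 _ (div_ne_zero (sq_ne' hp) h1)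
  have h1 := vel_congr hX ν hF hc (by
    filter_upwards [hev] with z h1
    exact (pr_nm hp h1).symm)
  apply hv
  rw [h1]
  have ht := tan_curve hc
  rw [h0] at ht
  unfold vel
  rw [h0]
  have h2 := ν.smul _ _ ht 0
  rw [smul_zero, norm_zero, zero_mul] at h2
  exact h2

/-- two curves which agree near one point agree -/
theorem curve_uniq {F G : ℂ → EN N} (hF : Differentiable ℂ F) (hG : Differentiable ℂ G) (hF0 : ∀ z, F z ≠ 0) (hG0 : ∀ z, G z ≠ 0) {z₀ : ℂ}
    (h : ∀ᶠ z in 𝓝 z₀, pr (F z) = pr (G z)) (z : ℂ) : pr (F z) = pr (G z) := by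
  have hcoord : ∀ (H : ℂ → EN N), Differentiable ℂ H → ∀ i, Differentiable ℂ (fun z => H z i) := by
    intro H hH i
    have := (EuclideanSpace.proj (𝕜 := ℂ) i).differentiable.comp hH
    exact this
  have hmin : ∀ i j, ∀ z, F z i * G z j - F z j * G z i = 0 := by
    intro i j
    have hd : Differentiable ℂ (fun z => F z i * G z j - F z j * G z i) :=
      ((hcoord F hF i).mul (hcoord G hG j)).sub ((hcoord F hF j).mul (hcoord G hG i))
    have ha : AnalyticOnNhd ℂ (fun z => F z i * G z j - F z j * G z i) Set.univ :=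
      fun z _ => hd.analyticAt z
    have he : (fun z => F z i * G z j - F z j * G z i) =ᶠ[𝓝 z₀] 0 := by
      filter_upwards [h] with z hz
      obtain ⟨c, _, hc⟩ := (pr_eq_iff (hF0 z) (hG0 z)).1 hz
      have h1 : ∀ k, F z k = c * G z k := by
        intro k
        rw [hc]
        simp
      simp only [Pi.zero_apply]
      rw [h1 i, h1 j]
      ring
    intro z'
    have := ha.eqOn_zero_of_preconnected_of_eventuallyEq_zero isPreconnected_univ (Set.mem_univ z₀) he (Set.mem_univ z')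
    exact this
  obtain ⟨j, hj⟩ : ∃ j, G z j ≠ 0 := by
    by_contra hcon
    push Not at hcon
    apply hG0 z
    ext k
    simpa using hcon k
  have hFc : F z = (F z j / G z j) • G z := by
    ext k
    have h1 := hmin k j z
    simp only [PiLp.smul_apply, smul_eq_mul]
    field_simp
    linear_combination h1
  have hne : F z j / G z j ≠ 0 := by
    intro h'
    rw [h', zero_smul] at hFc
    exact hF0 z hFc
  exact (pr_eq_iff (hF0 z) (hG0 z)).2 ⟨_, hne, hFc⟩

/-- curves of speed one which agree up to a change of the variable near one point agree up to an affine change of the variable -/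
theorem exists_affine (hX : IsCone X) (ν : PseudoLength X) {F G : ℂ → EN N} (hF : Differentiable ℂ F) (hG : Differentiable ℂ G)
    (hFX : ∀ z, F z ∈ X) (hGX : ∀ z, G z ∈ X) (hFu : ∀ z, vel ν F z = 1) (hGu : ∀ z, vel ν G z = 1) {φ : ℂ → ℂ} {a : ℂ}
    (hφ : AnalyticAt ℂ φ a) (h : ∀ᶠ s in 𝓝 a, pr (F s) = pr (G (φ s))) :
    ∃ α β : ℂ, ‖α‖ = 1 ∧ α * a + β = φ a ∧ ∀ z, pr (F z) = pr (G (α * z + β)) := by
  have hGc : Curve X Set.univ G := ⟨hG.differentiableOn, fun z _ => hGX z⟩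
  have h1 : ∀ᶠ s in 𝓝 a, ‖deriv φ s‖ = 1 := by
    filter_upwards [hφ.eventually_analyticAt, h.eventually_nhds] with s h2 h3
    have h4 : CurveAt X F s := ⟨hF.analyticAt s, Eventually.of_forall hFX⟩
    have h5 : CurveAt X (fun t => G (φ t)) s :=
      ⟨(hG.analyticAt (φ s)).comp h2, Eventually.of_forall fun t => hGX _⟩
    have h6 := vel_congr hX ν h4 h5 h3
    rw [vel_comp ν isOpen_univ hGc h2.differentiableAt (Set.mem_univ _), hFu, hGu, mul_one] at h6
    exact h6.symm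
  have h2 : IsLocalMax (norm ∘ deriv φ) a := by
    filter_upwards [h1] with s h3
    show ‖deriv φ s‖ ≤ ‖deriv φ a‖
    rw [h3, h1.self_of_nhds]
  have h3 : ∀ᶠ s in 𝓝 a, DifferentiableAt ℂ (deriv φ) s := by
    filter_upwards [hφ.eventually_analyticAt] with s h4
    exact h4.deriv.differentiableAt
  have h4 := Complex.eventually_eq_of_isLocalMax_norm h3 h2
  obtain ⟨s, hs, hball⟩ := Metric.eventually_nhds_iff_ball.1 (h4.and (hφ.eventually_analyticAt.and h))
  refine ⟨deriv φ a, φ a - deriv φ a * a, h1.self_of_nhds, by ring, ?_⟩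
  have h5 : ∀ t ∈ ball a s, φ t = deriv φ a * t + (φ a - deriv φ a * a) := by
    intro t ht
    have h6 : DifferentiableOn ℂ (fun t => φ t - deriv φ a * t) (ball a s) := by
      intro w hw
      have h7 := (hball w hw).2.1.differentiableAt
      exact (h7.sub ((differentiableAt_id).const_mul _)).differentiableWithinAt
    have h7 : (ball a s).EqOn (deriv fun t => φ t - deriv φ a * t) 0 := by
      intro w hw
      have h8 := (hball w hw).2.1.differentiableAt.hasDerivAt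
      have h9 := h8.sub ((hasDerivAt_id w).const_mul (deriv φ a))
      rw [mul_one] at h9
      have h10 : deriv (fun t => φ t - deriv φ a * t) w = deriv φ w - deriv φ a := h9.deriv
      rw [h10, (hball w hw).1, sub_self]
      rfl
    have h8 := isOpen_ball.is_const_of_deriv_eq_zero (convex_ball a s).isPreconnected h6 h7 ht (mem_ball_self hs)
    linear_combination h8
  refine curve_uniq (z₀ := a) hF (hG.comp ((differentiable_id.const_mul _).add_const _)) (fun z => hX.ne_zero (hFX z))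
    (fun z => hX.ne_zero (hGX _)) ?_
  filter_upwards [ball_mem_nhds a hs] with t ht
  rw [(hball t ht).2.2, h5 t ht]

/-- a curve of speed one has no rotations -/
theorem rot_eq_one (hX : IsCone X) (ν : PseudoLength X) {F : ℂ → EN N} (hF : Differentiable ℂ F)
    (hFX : ∀ z, F z ∈ X) (hFu : ∀ z, vel ν F z = 1) {α β : ℂ} (h : ∀ z, pr (F z) = pr (F (α * z + β))) : α = 1 := by
  by_contra hα
  have hα' : 1 - α ≠ 0 := sub_ne_zero.2 (Ne.symm hα)
  obtain ⟨z₀, hz₀⟩ : ∃ z₀ : ℂ, z₀ = β / (1 - α) := ⟨_, rfl⟩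
  have hfix : α * z₀ + β = z₀ := by
    rw [hz₀]
    field_simp
    ring
  obtain ⟨p, hp⟩ : ∃ p : EN N, p = F z₀ := ⟨_, rfl⟩
  have hp0 : p ≠ 0 := by rw [hp]; exact hX.ne_zero (hFX z₀)
  have hi : (inner ℂ p (F z₀) : ℂ) ≠ 0 := by rw [← hp, inner_self']; exact sq_ne' hp0
  have hc : CurveAt X F z₀ := ⟨hF.analyticAt z₀, Eventually.of_forall hFX⟩
  have hD := deriv_nm_ne hX ν hc hi (by rw [hFu]; exact one_ne_zero)
  obtain ⟨D, hDD⟩ : ∃ D : ℂ → EN N, D = fun z => nm p (F z) := ⟨_, rfl⟩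
  have hDan : AnalyticAt ℂ D z₀ := by rw [hDD]; exact nm_an hc.1 hi
  rw [← hDD] at hD
  have h1 : D = fun z => D (α * z + β) := by
    rw [hDD]
    funext z
    show nm p (F z) = nm p (F (α * z + β))
    obtain ⟨c, hc0, hc1⟩ := (pr_eq_iff (hX.ne_zero (hFX z)) (hX.ne_zero (hFX (α * z + β)))).1 (h z)
    rw [hc1, nm_smul hc0]
  have h2 : HasDerivAt D (deriv D z₀) z₀ := hDan.differentiableAt.hasDerivAt
  have h3 : HasDerivAt (fun z : ℂ => α * z + β) α z₀ := by
    simpa using ((hasDerivAt_id z₀).const_mul α).add_const β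
  have h4 : HasDerivAt D (deriv D z₀) (α * z₀ + β) := by rw [hfix]; exact h2
  have h5 : HasDerivAt (fun z => D (α * z + β)) (α • deriv D z₀) z₀ := h4.scomp z₀ h3
  rw [← h1] at h5
  have h6 := h2.unique h5
  have h7 : (1 - α) • deriv D z₀ = 0 := by rw [sub_smul, one_smul, ← h6, sub_self]
  rcases smul_eq_zero.1 h7 with h8 | h8
  · exact hα' h8
  · exact hD h8

theorem pd_le_two {x y : EN N} (hx : x ≠ 0) (hy : y ≠ 0) : pd x y ≤ 2 := by
  unfold pd
  rw [dist_eq_norm]
  have h1 := norm_sub_le (pr x) (pr y)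
  rw [norm_pr hx, norm_pr hy] at h1
  linarith

private theorem bump {t d C C' : ℝ} {M M' : ℕ} (hd : 0 ≤ d) (ht : t ≤ 2) (hC : 0 < C) (hM : 1 ≤ M) (hMM : M ≤ M') (hCC : C ≤ C') (h2 : 2 ≤ C')
    (h : t ≤ C * d ^ ((M : ℝ)⁻¹)) : t ≤ C' * d ^ ((M' : ℝ)⁻¹) := by
  have hM0 : (0 : ℝ) < M := by exact_mod_cast hM
  have hMM' : (M : ℝ) ≤ M' := by exact_mod_cast hMM
  rcases le_total d 1 with h1 | h1
  · have h3 : d ^ ((M : ℝ)⁻¹) ≤ d ^ ((M' : ℝ)⁻¹) :=
      Real.rpow_le_rpow_of_exponent_ge' hd h1 (by positivity) (inv_anti₀ hM0 hMM')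
    calc t ≤ C * d ^ ((M : ℝ)⁻¹) := h
      _ ≤ C' * d ^ ((M' : ℝ)⁻¹) := mul_le_mul hCC h3 (Real.rpow_nonneg hd _) (by linarith)
  · have h3 : 1 ≤ d ^ ((M' : ℝ)⁻¹) := Real.one_le_rpow h1 (by positivity)
    nlinarith

variable {ι : Type}

/-- the separation for the pairs of places in the set `S` -/
def Bd (X : Set (EN N)) (g : ι → ℂ → EN N) (Λ : ι → AddSubgroup ℂ) (r : ℝ) (S : Set ((ι × ℂ) × (ι × ℂ))) : Prop :=
  ∃ (M : ℕ) (pts : Set (EN N)) (C : ℝ), 1 ≤ M ∧ pts.Finite ∧ (∀ p ∈ pts, p ∈ X) ∧ 0 < C ∧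
    ∀ i j a b, ((i, a), (j, b)) ∈ S → ¬ (i = j ∧ ∃ l ∈ Λ i, ‖a - b - l‖ ≤ r) → ∀ x ∈ X, ∀ d : ℝ, pd x (g i a) ≤ d → pd x (g j b) ≤ d →
      ∃ p ∈ pts, pd x p ≤ C * d ^ ((M : ℝ)⁻¹)

theorem Bd.mono {g : ι → ℂ → EN N} {Λ : ι → AddSubgroup ℂ} {r : ℝ} {S T : Set ((ι × ℂ) × (ι × ℂ))} (h : Bd X g Λ r T) (hST : S ⊆ T) :
    Bd X g Λ r S := by
  obtain ⟨M, pts, C, h1, h2, h3, h4, h5⟩ := h
  exact ⟨M, pts, C, h1, h2, h3, h4, fun i j a b hab => h5 i j a b (hST hab)⟩

theorem Bd.empty {g : ι → ℂ → EN N} {Λ : ι → AddSubgroup ℂ} {r : ℝ} : Bd X g Λ r ∅ :=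
  ⟨1, ∅, 1, le_rfl, Set.finite_empty, fun _ h => absurd h (Set.notMem_empty _), one_pos, fun _ _ _ _ h => absurd h (Set.notMem_empty _)⟩

theorem Bd.union (hX : IsCone X) {g : ι → ℂ → EN N} {Λ : ι → AddSubgroup ℂ} {r : ℝ} {S T : Set ((ι × ℂ) × (ι × ℂ))} (h : Bd X g Λ r S)
    (h' : Bd X g Λ r T) : Bd X g Λ r (S ∪ T) := by
  obtain ⟨M, pts, C, h1, h2, h3, h4, h5⟩ := h
  obtain ⟨M', pts', C', h1', h2', h3', h4', h5'⟩ := h'
  refine ⟨max M M', pts ∪ pts', max (max C C') 2, h1.trans (le_max_left _ _), h2.union h2', ?_, by positivity, ?_⟩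
  · rintro p (hp | hp)
    · exact h3 p hp
    · exact h3' p hp
  · intro i j a b hab hne x hx d hd1 hd2
    have hd0 : 0 ≤ d := le_trans dist_nonneg hd1
    rcases hab with hab | hab
    · obtain ⟨p, hp, hpp⟩ := h5 i j a b hab hne x hx d hd1 hd2
      exact ⟨p, Or.inl hp, bump hd0 (pd_le_two (hX.ne_zero hx) (hX.ne_zero (h3 p hp))) h4 h1 (le_max_left _ _)
        ((le_max_left _ _).trans (le_max_left _ _)) (le_max_right _ _) hpp⟩
    · obtain ⟨p, hp, hpp⟩ := h5' i j a b hab hne x hx d hd1 hd2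
      exact ⟨p, Or.inr hp, bump hd0 (pd_le_two (hX.ne_zero hx) (hX.ne_zero (h3' p hp))) h4' h1' (le_max_right _ _)
        ((le_max_right _ _).trans (le_max_left _ _)) (le_max_right _ _) hpp⟩

/-- the places near `(i, a)`, `(j, b)` -/
theorem Bd.loc (hX : IsCone X) (ν : PseudoLength X) (g : ι → ℂ → EN N) (Λ : ι → AddSubgroup ℂ)
    (hd : ∀ i, Differentiable ℂ (g i)) (hm : ∀ i z, g i z ∈ X) (hu : ∀ i z, vel ν (g i) z = 1)
    (hfull : ∀ i l, (∀ z, pr (g i (z + l)) = pr (g i z)) → l ∈ Λ i)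
    (hrep : ∀ i j a b, ‖a‖ = 1 → (∀ z, pr (g i z) = pr (g j (a * z + b))) → i = j) {r : ℝ} (hr : 0 < r) (i j : ι) (a b : ℂ) :
    ∃ U ∈ 𝓝 (a, b), Bd X g Λ r {q | q.1.1 = i ∧ q.2.1 = j ∧ (q.1.2, q.2.2) ∈ U} := by
  have hi0 : g i a ≠ 0 := hX.ne_zero (hm i a)
  have hj0 : g j b ≠ 0 := hX.ne_zero (hm j b)
  have t1 : Tendsto (fun q : ℂ × ℂ => q.1) (𝓝 (a, b)) (𝓝 a) := continuousAt_fst
  have t2 : Tendsto (fun q : ℂ × ℂ => q.2) (𝓝 (a, b)) (𝓝 b) := continuousAt_snd
  by_cases hpr : pr (g i a) = pr (g j b)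
  · have hci : CurveAt X (g i) a := ⟨(hd i).analyticAt a, Eventually.of_forall (hm i)⟩
    have hcj : CurveAt X (g j) b := ⟨(hd j).analyticAt b, Eventually.of_forall (hm j)⟩
    have hii : (inner ℂ (g i a) (g j b) : ℂ) ≠ 0 := by
      obtain ⟨c, hc, hcc⟩ := (pr_eq_iff hj0 hi0).1 hpr.symm
      rw [hcc, inner_smul_right, inner_self']
      exact mul_ne_zero hc (sq_ne' hi0)
    have hv := deriv_nm_ne hX ν hcj hii (by rw [hu]; exact one_ne_zero)
    rcases local_branch hci.1 hcj.1 hi0 hj0 hpr hv with ⟨φ, hφ, hφa, hev⟩ | ⟨M, c, hM, hc, hev⟩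
    · obtain ⟨α, β, hα, hαβ, hall⟩ := exists_affine hX ν (hd i) (hd j) (hm i) (hm j) (hu i) (hu j) hφ hev
      have hij := hrep i j α β hα hall
      subst hij
      have hα1 := rot_eq_one hX ν (hd i) (hm i) (hu i) hall
      subst hα1
      have hβ : β ∈ Λ i := hfull i β fun z => by
        have := hall z
        rw [one_mul] at this
        exact this.symm
      rw [one_mul, hφa] at hαβ
      refine ⟨ball (a, b) (r / 2), ball_mem_nhds _ (half_pos hr), 1, ∅, 1, le_rfl, Set.finite_empty, fun _ h => absurd h (Set.notMem_empty _),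
        one_pos, ?_⟩
      rintro i' j' s t ⟨h1, h2, h3⟩ hne
      simp only at h1 h2 h3
      subst h1
      subst h2
      exfalso
      refine hne ⟨rfl, -β, (Λ _).neg_mem hβ, ?_⟩
      rw [mem_ball, Prod.dist_eq, max_lt_iff, dist_eq_norm, dist_eq_norm] at h3
      have h4 : s - t - -β = (s - a) - (t - b) := by rw [← hαβ]; ring
      rw [h4]
      have h5 := norm_sub_le (s - a) (t - b)
      have h6 := h3.1
      have h7 := h3.2
      simp only at h6 h7
      linarith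
    · obtain ⟨K, s, hs, hK⟩ := ((hd i).analyticAt a).hasStrictDerivAt.hasStrictFDerivAt.exists_lipschitzOnWith
      have hpn : 0 < ‖g i a‖ := norm_pos_iff.2 hi0
      obtain ⟨L, hL⟩ : ∃ L : ℝ, L = 2 / ‖g i a‖ * K := ⟨_, rfl⟩
      have hL0 : 0 ≤ L := by rw [hL]; positivity
      have hM0 : (0 : ℝ) < M := by exact_mod_cast hM
      obtain ⟨B, hB⟩ : ∃ B : ℝ, B = (2 / c) ^ ((M : ℝ)⁻¹) := ⟨_, rfl⟩
      have hB0 : 0 ≤ B := by rw [hB]; positivity
      refine ⟨{q : ℂ × ℂ | c * ‖q.1 - a‖ ^ M ≤ dist (pr (g i q.1)) (pr (g j q.2)) ∧ q.1 ∈ s}, hev.and (t1.eventually hs), M, {g i a}, 2 + L * B, hM,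
        Set.finite_singleton _, ?_, by positivity, ?_⟩
      · rintro p hp
        rw [Set.mem_singleton_iff.1 hp]
        exact hm i a
      · rintro i' j' s' t' ⟨h1, h2, h3⟩ hne x hx d hd1 hd2
        simp only at h1 h2 h3
        subst h1
        subst h2
        obtain ⟨h4, h5⟩ := h3
        simp only at h4 h5
        refine ⟨g i' a, Set.mem_singleton _, ?_⟩
        have hd0 : 0 ≤ d := le_trans dist_nonneg hd1
        have hx0 := hX.ne_zero hx
        have h6 : dist (pr (g i' s')) (pr (g j' t')) ≤ 2 * d := by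
          have h7 := dist_triangle_left (pr (g i' s')) (pr (g j' t')) (pr x)
          unfold pd at hd1 hd2
          linarith
        have h7 : ‖s' - a‖ ≤ B * d ^ ((M : ℝ)⁻¹) := by
          have h8 : ‖s' - a‖ ^ M ≤ 2 / c * d := by
            rw [div_mul_eq_mul_div, le_div_iff₀ hc]
            linarith
          have h9 := Real.rpow_le_rpow (by positivity) h8 (by positivity : (0 : ℝ) ≤ (M : ℝ)⁻¹)
          rw [Real.pow_rpow_inv_natCast (norm_nonneg _) (by omega), Real.mul_rpow (by positivity) hd0, ← hB] at h9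
          exact h9
        have h8 : pd (g i' s') (g i' a) ≤ L * ‖s' - a‖ := by
          have h9 := dist_pr_le (hX.ne_zero (hm i' s')) hi0
          have h10 := hK.dist_le_mul _ h5 _ (mem_of_mem_nhds hs)
          rw [dist_eq_norm, dist_eq_norm] at h10
          unfold pd
          rw [hL, mul_assoc]
          exact h9.trans (mul_le_mul_of_nonneg_left h10 (by positivity))
        have h9 : pd x (g i' a) ≤ d + L * ‖s' - a‖ := by
          have h10 := dist_triangle (pr x) (pr (g i' s')) (pr (g i' a))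
          unfold pd at hd1 h8 ⊢
          linarith
        have hnn : 0 ≤ d ^ ((M : ℝ)⁻¹) := Real.rpow_nonneg hd0 _
        have h12 : L * ‖s' - a‖ ≤ L * (B * d ^ ((M : ℝ)⁻¹)) := mul_le_mul_of_nonneg_left h7 hL0
        rcases le_total d 1 with h10 | h10
        · have h11 : d ≤ d ^ ((M : ℝ)⁻¹) := by
            have h13 := Real.rpow_le_rpow_of_exponent_ge' hd0 h10 (by positivity : (0 : ℝ) ≤ (M : ℝ)⁻¹)
              (inv_le_one_of_one_le₀ (by exact_mod_cast hM) : (M : ℝ)⁻¹ ≤ 1)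
            rwa [Real.rpow_one] at h13
          nlinarith
        · have h11 : 1 ≤ d ^ ((M : ℝ)⁻¹) := Real.one_le_rpow h10 (by positivity)
          have h13 := pd_le_two hx0 hi0
          have h14 : 0 ≤ L * B := by positivity
          nlinarith
  · obtain ⟨c, hc⟩ : ∃ c : ℝ, c = dist (pr (g i a)) (pr (g j b)) := ⟨_, rfl⟩
    have hc0 : 0 < c := by rw [hc]; exact dist_pos.2 hpr
    have hti : Tendsto (fun s => pr (g i s)) (𝓝 a) (𝓝 (pr (g i a))) :=
      (continuousAt_pr hi0).tendsto.comp (hd i).continuous.continuousAt.tendsto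
    have htj : Tendsto (fun s => pr (g j s)) (𝓝 b) (𝓝 (pr (g j b))) :=
      (continuousAt_pr hj0).tendsto.comp (hd j).continuous.continuousAt.tendsto
    have hev : ∀ᶠ q : ℂ × ℂ in 𝓝 (a, b), c / 2 < dist (pr (g i q.1)) (pr (g j q.2)) := by
      have h1 := (hti.comp t1).dist (htj.comp t2)
      rw [← hc] at h1
      exact h1.eventually (lt_mem_nhds (half_lt_self hc0))
    refine ⟨_, hev, 1, {g i a}, 8 / c, le_rfl, Set.finite_singleton _, ?_, by positivity, ?_⟩
    · rintro p hp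
      rw [Set.mem_singleton_iff.1 hp]
      exact hm i a
    · rintro i' j' s' t' ⟨h1, h2, h3⟩ hne x hx d hd1 hd2
      simp only at h1 h2 h3
      subst h1
      subst h2
      refine ⟨g i' a, Set.mem_singleton _, ?_⟩
      have h4 : c / 2 < dist (pr (g i' s')) (pr (g j' t')) := h3
      have h6 : dist (pr (g i' s')) (pr (g j' t')) ≤ 2 * d := by
        have h7 := dist_triangle_left (pr (g i' s')) (pr (g j' t')) (pr x)
        unfold pd at hd1 hd2
        linarith
      have h7 := pd_le_two (hX.ne_zero hx) hi0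
      rw [Nat.cast_one, inv_one, Real.rpow_one]
      have h8 : c / 4 ≤ d := by linarith
      have h9 : 2 ≤ 8 / c * d := by
        calc (2 : ℝ) = 8 / c * (c / 4) := by field_simp; norm_num
          _ ≤ 8 / c * d := mul_le_mul_of_nonneg_left h8 (by positivity)
      linarith

end Pool.Agent.AD.F.Sp

namespace Pool.Agent.AD.F

open Sp
open Pool.Agent.H36.BP (EN fs wd Curve)
open Pool.Agent.H14.PP (IsCone Tan CurveAt)
open Pool.Agent.H22.W (PseudoLength tan_curve)
open Pool.Agent.H62.EF (pr pr_smul pr_eq_iff norm_pr nm Lat continuousAt_pr)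

variable {N : ℕ} {X : Set (EN N)} {ι : Type}

/-- **The separation (S).** -/
theorem exists_sep (hX : IsCone X) (ν : PseudoLength X) [Finite ι] (g : ι → ℂ → EN N) (Λ : ι → AddSubgroup ℂ)
    (hd : ∀ i, Differentiable ℂ (g i)) (hm : ∀ i z, g i z ∈ X) (hu : ∀ i z, vel ν (g i) z = 1) (hL : ∀ i, Lat (Λ i))
    (hper : ∀ i, ∀ l ∈ Λ i, ∀ z, pr (g i (z + l)) = pr (g i z))
    (hfull : ∀ i l, (∀ z, pr (g i (z + l)) = pr (g i z)) → l ∈ Λ i)
    (hrep : ∀ i j a b, ‖a‖ = 1 → (∀ z, pr (g i z) = pr (g j (a * z + b))) → i = j) {r : ℝ} (hr : 0 < r) :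
    ∃ (M : ℕ) (pts : Set (EN N)) (C : ℝ), 1 ≤ M ∧ pts.Finite ∧ (∀ p ∈ pts, p ∈ X) ∧ 0 < C ∧
      ∀ i j a b, ¬ (i = j ∧ ∃ l ∈ Λ i, ‖a - b - l‖ ≤ r) → ∀ x ∈ X, ∀ d : ℝ, pd x (g i a) ≤ d → pd x (g j b) ≤ d →
        ∃ p ∈ pts, pd x p ≤ C * d ^ ((M : ℝ)⁻¹) := by
  have hcomp : ∀ i j, ∀ K : Set (ℂ × ℂ), IsCompact K → Bd X g Λ r {q | q.1.1 = i ∧ q.2.1 = j ∧ (q.1.2, q.2.2) ∈ K} := by
    intro i j K hK
    refine hK.induction_on (p := fun K => Bd X g Λ r {q | q.1.1 = i ∧ q.2.1 = j ∧ (q.1.2, q.2.2) ∈ K}) ?_ ?_ ?_ ?_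
    · exact Bd.empty.mono fun q hq => absurd hq.2.2 (Set.notMem_empty _)
    · intro S T hST h
      exact h.mono fun q hq => ⟨hq.1, hq.2.1, hST hq.2.2⟩
    · intro S T h h'
      refine (Bd.union hX h h').mono ?_
      rintro q ⟨h1, h2, h3 | h3⟩
      · exact Or.inl ⟨h1, h2, h3⟩
      · exact Or.inr ⟨h1, h2, h3⟩
    · rintro ⟨a, b⟩ -
      obtain ⟨U, hU, h⟩ := Bd.loc hX ν g Λ hd hm hu hfull hrep hr i j a b
      exact ⟨U, mem_nhdsWithin_of_mem_nhds hU, h⟩
  have hpair : ∀ i j, Bd X g Λ r {q | q.1.1 = i ∧ q.2.1 = j} := by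
    intro i j
    obtain ⟨R, hR, hRi⟩ := (hL i).cocompact
    obtain ⟨R', hR', hRj⟩ := (hL j).cocompact
    obtain ⟨M, pts, C, h1, h2, h3, h4, h5⟩ := hcomp i j _ ((isCompact_closedBall (0 : ℂ) R).prod (isCompact_closedBall (0 : ℂ) R'))
    refine ⟨M, pts, C, h1, h2, h3, h4, ?_⟩
    rintro i' j' a b ⟨e1, e2⟩ hne x hx d hd1 hd2
    simp only at e1 e2
    subst e1
    subst e2
    obtain ⟨l, hl, hla⟩ := hRi a
    obtain ⟨l', hl', hlb⟩ := hRj b
    have ea : pr (g i' (a - l)) = pr (g i' a) := by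
      have := hper i' l hl (a - l)
      rw [sub_add_cancel] at this
      exact this.symm
    have eb : pr (g j' (b - l')) = pr (g j' b) := by
      have := hper j' l' hl' (b - l')
      rw [sub_add_cancel] at this
      exact this.symm
    refine h5 i' j' (a - l) (b - l') ⟨rfl, rfl, ?_⟩ ?_ x hx d ?_ ?_
    · exact ⟨by rw [mem_closedBall_zero_iff]; exact hla, by rw [mem_closedBall_zero_iff]; exact hlb⟩
    · rintro ⟨rfl, m, hm', hmr⟩
      refine hne ⟨rfl, l - l' + m, (Λ _).add_mem ((Λ _).sub_mem hl hl') hm', ?_⟩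
      have e3 : a - b - (l - l' + m) = a - l - (b - l') - m := by ring
      rw [e3]
      exact hmr
    · unfold pd
      rw [ea]
      exact hd1
    · unfold pd
      rw [eb]
      exact hd2
  have hfin : ∀ T : Set (ι × ι), T.Finite → Bd X g Λ r {q | (q.1.1, q.2.1) ∈ T} := by
    intro T hT
    induction T, hT using Set.Finite.induction_on with
    | empty => exact Bd.empty.mono fun q hq => absurd hq (Set.notMem_empty _)
    | @insert p T _ _ ih =>
      refine (Bd.union hX (hpair p.1 p.2) ih).mono ?_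
      rintro q (hq | hq)
      · exact Or.inl ⟨congrArg Prod.fst hq, congrArg Prod.snd hq⟩
      · exact Or.inr hq
  obtain ⟨M, pts, C, h1, h2, h3, h4, h5⟩ := hfin Set.univ Set.finite_univ
  exact ⟨M, pts, C, h1, h2, h3, h4, fun i j a b => h5 i j a b (Set.mem_univ _)⟩

end Pool.Agent.AD.F
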