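import Pool.Agent.AD.F.Vel
import Mathlib.Analysis.Calculus.InverseFunctionTheorem.Analytic

/-!
# AD F SepA: two germs of curves through one point

`nm p x` is the representative of the line of `x` in the affine hyperplane `⟨p, x⟩ = ‖p‖²`.  In this hyperplane, near `p`, the norm of `x - y` is comparable with `dist (pr x) (pr y)`
(`hyper_le`).  `local_branch`: let `G s = nm p (γ s)`, `D t = nm p (δ t)`, `p = γ a`, `v = D' b ≠ 0`; `ψ` is the inverse of `t ↦ ⟨v, D t⟩` near `b`, `φ s = ψ ⟨v, G s⟩`, `e s = G s - D (φ s)`.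
If `e = 0` near `a` then the germs are the same up to the change `φ` of the variable.  Otherwise `‖e s‖ ≥ c ‖s - a‖ ^ n`, and `‖e s‖ ≤ K ‖G s - D t‖`, because
`‖D t - D (φ s)‖ ≤ K ‖t - φ s‖ = K ‖ψ ⟨v, D t⟩ - ψ ⟨v, G s⟩‖`.
-/

set_option autoImplicit false

open Topology Filter Metric

namespace Pool.Agent.AD.F.Sp

open Pool.Agent.H36.BP (EN fs wd wd_sq wd_le wd_inv wd_nonneg)
open Pool.Agent.H14.PP (IsCone Tan CurveAt)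
open Pool.Agent.H22.W (PseudoLength)
open Pool.Agent.H62.EF (pr pr_smul pr_eq_iff norm_pr nm dist_pr dist_pr_sq)

variable {N : ℕ} {X : Set (EN N)}

theorem inner_nm {p x : EN N} (h : (inner ℂ p x : ℂ) ≠ 0) : (inner ℂ p (nm p x) : ℂ) = ((‖p‖ ^ 2 : ℝ) : ℂ) := by
  unfold nm
  rw [inner_smul_right, div_mul_cancel₀ _ h]

theorem sq_ne' {p : EN N} (hp : p ≠ 0) : ((‖p‖ ^ 2 : ℝ) : ℂ) ≠ 0 := by
  have : ‖p‖ ≠ 0 := norm_ne_zero_iff.mpr hp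
  exact_mod_cast pow_ne_zero 2 this

theorem pr_nm {p x : EN N} (hp : p ≠ 0) (h : (inner ℂ p x : ℂ) ≠ 0) : pr (nm p x) = pr x :=
  pr_smul x (div_ne_zero (sq_ne' hp) h)

theorem inner_self' (p : EN N) : (inner ℂ p p : ℂ) = ((‖p‖ ^ 2 : ℝ) : ℂ) := by
  rw [inner_self_eq_norm_sq_to_K]
  push_cast
  rfl

theorem nm_self {p : EN N} (hp : p ≠ 0) : nm p p = p := by
  unfold nm
  rw [inner_self', div_self (sq_ne' hp), one_smul]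

theorem nm_smul {p x : EN N} {c : ℂ} (hc : c ≠ 0) : nm p (c • x) = nm p x := by
  unfold nm
  rw [inner_smul_right, smul_smul]
  congr 1
  by_cases h : (inner ℂ p x : ℂ) = 0
  · rw [h]; simp
  · field_simp

theorem inner_an {F : ℂ → EN N} {z₀ : ℂ} (hF : AnalyticAt ℂ F z₀) (p : EN N) : AnalyticAt ℂ (fun z => (inner ℂ p (F z) : ℂ)) z₀ :=
  ((innerSL ℂ p).analyticAt (F z₀)).comp hF

theorem nm_an {F : ℂ → EN N} {z₀ : ℂ} (hF : AnalyticAt ℂ F z₀) {p : EN N} (h : (inner ℂ p (F z₀) : ℂ) ≠ 0) :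
    AnalyticAt ℂ (fun z => nm p (F z)) z₀ :=
  (analyticAt_const.div (inner_an hF p) h).smul hF

theorem hyper_le {p x y : EN N} (hp : p ≠ 0) (hx : (inner ℂ p x : ℂ) = ((‖p‖ ^ 2 : ℝ) : ℂ)) (hy : (inner ℂ p y : ℂ) = ((‖p‖ ^ 2 : ℝ) : ℂ))
    (hxp : ‖x - p‖ ≤ ‖p‖ / 4) (hyp : ‖y - p‖ ≤ ‖p‖ / 4) : ‖x - y‖ ≤ 2 * ‖p‖ * dist (pr x) (pr y) := by
  have hp0 : 0 < ‖p‖ := norm_pos_iff.2 hp
  have hx0 : x ≠ 0 := by
    rintro rfl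
    rw [inner_zero_right] at hx
    exact sq_ne' hp hx.symm
  have hy0 : y ≠ 0 := by
    rintro rfl
    rw [inner_zero_right] at hy
    exact sq_ne' hp hy.symm
  obtain ⟨w, hw⟩ : ∃ w : EN N, w = y - x := ⟨_, rfl⟩
  have hpw : (inner ℂ p w : ℂ) = 0 := by rw [hw, inner_sub_right, hx, hy, sub_self]
  have h1 : wd x y = wd x w := by
    have h2 := wd_inv x w 1 1
    simp only [one_smul, norm_one, one_pow, one_mul] at h2
    have h3 : w + x = y := by rw [hw]; abel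
    rw [h3] at h2
    exact h2
  have h4 : ‖(inner ℂ x w : ℂ)‖ ≤ ‖p‖ / 4 * ‖w‖ := by
    have h5 : (inner ℂ x w : ℂ) = inner ℂ (x - p) w := by rw [inner_sub_left, hpw, sub_zero]
    rw [h5]
    exact (norm_inner_le_norm _ _).trans (mul_le_mul_of_nonneg_right hxp (norm_nonneg _))
  have hxl : 3 / 4 * ‖p‖ ≤ ‖x‖ := by
    have := norm_sub_norm_le p x
    rw [norm_sub_rev] at this
    linarith
  have hxu : ‖x‖ ≤ 5 / 4 * ‖p‖ := by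
    have := norm_sub_norm_le x p
    linarith
  have hyu : ‖y‖ ≤ 5 / 4 * ‖p‖ := by
    have := norm_sub_norm_le y p
    linarith
  have hxn : 0 < ‖x‖ := norm_pos_iff.2 hx0
  have hyn : 0 < ‖y‖ := norm_pos_iff.2 hy0
  have hW : 1 / 2 * ‖p‖ ^ 2 * ‖w‖ ^ 2 ≤ wd x w ^ 2 := by
    rw [wd_sq]
    have h6 : ‖(inner ℂ x w : ℂ)‖ ^ 2 ≤ (‖p‖ / 4 * ‖w‖) ^ 2 := pow_le_pow_left₀ (norm_nonneg _) h4 2
    have h7 : (3 / 4 * ‖p‖) ^ 2 ≤ ‖x‖ ^ 2 := pow_le_pow_left₀ (by positivity) hxl 2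
    have h8 := mul_le_mul_of_nonneg_right h7 (sq_nonneg ‖w‖)
    nlinarith
  have hD := dist_pr_sq hx0 hy0
  rw [h1, ← dist_eq_norm] at hD
  have hxw : ‖x - y‖ = ‖w‖ := by rw [hw, norm_sub_rev]
  rw [hxw]
  have hden : 0 < ‖x‖ ^ 2 * ‖y‖ ^ 2 := by positivity
  have h9 : ‖w‖ ^ 2 ≤ (2 * ‖p‖ * dist (pr x) (pr y)) ^ 2 := by
    rw [mul_pow, hD]
    have h10 : ‖x‖ ^ 2 * ‖y‖ ^ 2 ≤ (5 / 4 * ‖p‖) ^ 2 * (5 / 4 * ‖p‖) ^ 2 :=
      mul_le_mul (pow_le_pow_left₀ hxn.le hxu 2) (pow_le_pow_left₀ hyn.le hyu 2) (by positivity) (by positivity)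
    have h11 : ‖w‖ ^ 2 * (‖x‖ ^ 2 * ‖y‖ ^ 2) ≤ (2 * ‖p‖) ^ 2 * 2 * wd x w ^ 2 := by
      have h12 := mul_le_mul_of_nonneg_left h10 (sq_nonneg ‖w‖)
      have h13 := mul_le_mul_of_nonneg_left hW (show 0 ≤ (2 * ‖p‖) ^ 2 * 2 by positivity)
      have h14 : ‖w‖ ^ 2 * ((5 / 4 * ‖p‖) ^ 2 * (5 / 4 * ‖p‖) ^ 2) ≤ (2 * ‖p‖) ^ 2 * 2 * (1 / 2 * ‖p‖ ^ 2 * ‖w‖ ^ 2) := by
        have h15 : 0 ≤ ‖w‖ ^ 2 * ‖p‖ ^ 4 := by positivity
        nlinarith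
      linarith
    calc ‖w‖ ^ 2 = ‖w‖ ^ 2 * (‖x‖ ^ 2 * ‖y‖ ^ 2) / (‖x‖ ^ 2 * ‖y‖ ^ 2) := by rw [mul_div_assoc, div_self hden.ne', mul_one]
      _ ≤ (2 * ‖p‖) ^ 2 * 2 * wd x w ^ 2 / (‖x‖ ^ 2 * ‖y‖ ^ 2) := div_le_div_of_nonneg_right h11 hden.le
      _ = (2 * ‖p‖) ^ 2 * (2 * (wd x w ^ 2 / (‖x‖ ^ 2 * ‖y‖ ^ 2))) := by ring
  exact (pow_le_pow_iff_left₀ (norm_nonneg _) (by positivity) two_ne_zero).1 h9

/-- the distance in the projective space is bounded by the distance in the cone -/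
theorem dist_pr_le {x y : EN N} (hx : x ≠ 0) (hy : y ≠ 0) : dist (pr x) (pr y) ≤ 2 / ‖y‖ * ‖x - y‖ := by
  have hxn : 0 < ‖x‖ := norm_pos_iff.2 hx
  have hyn : 0 < ‖y‖ := norm_pos_iff.2 hy
  have h1 : wd x y = wd x (y - x) := by
    have h2 := wd_inv x (y - x) 1 1
    simp only [one_smul, norm_one, one_pow, one_mul, sub_add_cancel] at h2
    exact h2
  have h3 := wd_le x (y - x)
  rw [dist_pr hx hy, h1]
  have h4 : Real.sqrt 2 ≤ 2 := by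
    rw [Real.sqrt_le_left (by norm_num)]
    norm_num
  have h5 : wd x (y - x) / (‖x‖ * ‖y‖) ≤ ‖y - x‖ / ‖y‖ := by
    rw [div_le_div_iff₀ (by positivity) hyn]
    nlinarith [h3]
  calc Real.sqrt 2 * (wd x (y - x) / (‖x‖ * ‖y‖)) ≤ 2 * (‖y - x‖ / ‖y‖) :=
        mul_le_mul h4 h5 (div_nonneg (wd_nonneg _ _) (by positivity)) (by norm_num)
    _ = 2 / ‖y‖ * ‖x - y‖ := by rw [norm_sub_rev x y]; ring

theorem local_branch {γ δ : ℂ → EN N} {a b : ℂ} (hγ : AnalyticAt ℂ γ a) (hδ : AnalyticAt ℂ δ b) (h0 : γ a ≠ 0) (h1 : δ b ≠ 0)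
    (hpr : pr (γ a) = pr (δ b)) (hv : deriv (fun t => nm (γ a) (δ t)) b ≠ 0) :
    (∃ φ : ℂ → ℂ, AnalyticAt ℂ φ a ∧ φ a = b ∧ ∀ᶠ s in 𝓝 a, pr (γ s) = pr (δ (φ s))) ∨
      ∃ (M : ℕ) (c : ℝ), 1 ≤ M ∧ 0 < c ∧ ∀ᶠ q : ℂ × ℂ in 𝓝 (a, b), c * ‖q.1 - a‖ ^ M ≤ dist (pr (γ q.1)) (pr (δ q.2)) := by
  obtain ⟨p, hp⟩ : ∃ p : EN N, p = γ a := ⟨_, rfl⟩
  have hp0 : p ≠ 0 := by rw [hp]; exact h0
  have hpn : 0 < ‖p‖ := norm_pos_iff.2 hp0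
  rw [← hp] at hv
  obtain ⟨c₀, hc₀, hc₀'⟩ : ∃ c : ℂ, c ≠ 0 ∧ δ b = c • p := by
    rw [hp]
    exact (pr_eq_iff h1 h0).1 hpr.symm
  have hpp : (inner ℂ p p : ℂ) ≠ 0 := by rw [inner_self']; exact sq_ne' hp0
  have hiγ : (inner ℂ p (γ a) : ℂ) ≠ 0 := by rw [← hp]; exact hpp
  have hiδ : (inner ℂ p (δ b) : ℂ) ≠ 0 := by rw [hc₀', inner_smul_right]; exact mul_ne_zero hc₀ hpp
  obtain ⟨G, hG⟩ : ∃ G : ℂ → EN N, G = fun s => nm p (γ s) := ⟨_, rfl⟩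
  obtain ⟨D, hD⟩ : ∃ D : ℂ → EN N, D = fun t => nm p (δ t) := ⟨_, rfl⟩
  have hGan : AnalyticAt ℂ G a := by rw [hG]; exact nm_an hγ hiγ
  have hDan : AnalyticAt ℂ D b := by rw [hD]; exact nm_an hδ hiδ
  have hGa : G a = p := by rw [hG]; show nm p (γ a) = p; rw [← hp]; exact nm_self hp0
  have hDb : D b = p := by rw [hD]; show nm p (δ b) = p; rw [hc₀', nm_smul hc₀]; exact nm_self hp0
  obtain ⟨v, hvv⟩ : ∃ v : EN N, v = deriv D b := ⟨_, rfl⟩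
  have hv0 : v ≠ 0 := by rw [hvv, hD]; exact hv
  obtain ⟨ξ, hξ⟩ : ∃ ξ : ℂ → ℂ, ξ = fun t => (inner ℂ v (D t) : ℂ) := ⟨_, rfl⟩
  have hξan : AnalyticAt ℂ ξ b := by rw [hξ]; exact inner_an hDan v
  have hξd : HasDerivAt ξ (inner ℂ v v : ℂ) b := by
    have h2 : HasDerivAt D v b := by rw [hvv]; exact hDan.differentiableAt.hasDerivAt
    have h3 := (innerSL ℂ v).hasFDerivAt.comp_hasDerivAt b h2
    rw [hξ]
    exact h3
  have hξ0 : deriv ξ b ≠ 0 := by rw [hξd.deriv, inner_self']; exact sq_ne' hv0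
  obtain ⟨ψ, hψan, hψl⟩ : ∃ ψ : ℂ → ℂ, AnalyticAt ℂ ψ (ξ b) ∧ ∀ᶠ t in 𝓝 b, ψ (ξ t) = t :=
    ⟨_, hξan.analyticAt_localInverse hξ0, HasStrictFDerivAt.eventually_left_inverse _⟩
  have hψb : ψ (ξ b) = b := hψl.self_of_nhds
  have hξb : ξ b = (inner ℂ v (G a) : ℂ) := by rw [hξ]; show (inner ℂ v (D b) : ℂ) = _; rw [hDb, hGa]
  obtain ⟨φ, hφ⟩ : ∃ φ : ℂ → ℂ, φ = fun s => ψ (inner ℂ v (G s) : ℂ) := ⟨_, rfl⟩
  have hφan : AnalyticAt ℂ φ a := by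
    rw [hφ]
    have h2 : AnalyticAt ℂ ψ ((fun s => (inner ℂ v (G s) : ℂ)) a) := by
      show AnalyticAt ℂ ψ (inner ℂ v (G a) : ℂ)
      rw [← hξb]
      exact hψan
    exact AnalyticAt.comp (g := ψ) (f := fun s => (inner ℂ v (G s) : ℂ)) h2 (inner_an hGan v)
  have hφa : φ a = b := by rw [hφ]; show ψ (inner ℂ v (G a) : ℂ) = b; rw [← hξb, hψb]
  have hDφ : AnalyticAt ℂ (fun s => D (φ s)) a := by
    have h2 : AnalyticAt ℂ D (φ a) := by rw [hφa]; exact hDan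
    exact h2.comp hφan
  have hean : AnalyticAt ℂ (fun s => G s - D (φ s)) a := hGan.sub hDφ
  -- the values of `nm`
  have hevγ : ∀ᶠ s in 𝓝 a, (inner ℂ p (γ s) : ℂ) ≠ 0 := (inner_an hγ p).continuousAt.eventually_ne hiγ
  have hevδ : ∀ᶠ t in 𝓝 b, (inner ℂ p (δ t) : ℂ) ≠ 0 := (inner_an hδ p).continuousAt.eventually_ne hiδ
  have hprG : ∀ s, (inner ℂ p (γ s) : ℂ) ≠ 0 → pr (G s) = pr (γ s) := fun s hs => by rw [hG]; exact pr_nm hp0 hs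
  have hprD : ∀ t, (inner ℂ p (δ t) : ℂ) ≠ 0 → pr (D t) = pr (δ t) := fun t ht => by rw [hD]; exact pr_nm hp0 ht
  by_cases hcase : ∀ᶠ s in 𝓝 a, G s - D (φ s) = 0
  · left
    refine ⟨φ, hφan, hφa, ?_⟩
    have hcφ : Tendsto φ (𝓝 a) (𝓝 b) := by
      have := hφan.continuousAt.tendsto
      rwa [hφa] at this
    filter_upwards [hcase, hevγ, hcφ.eventually hevδ] with s h2 h3 h4
    rw [← hprG s h3, ← hprD _ h4, sub_eq_zero.1 h2]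
  · right
    obtain ⟨n, u, hu, hu0, heq⟩ := hean.exists_eventuallyEq_pow_smul_nonzero_iff.2 hcase
    have hu1 : 0 < ‖u a‖ := norm_pos_iff.2 hu0
    have hu2 : ∀ᶠ s in 𝓝 a, ‖u a‖ / 2 < ‖u s‖ :=
      hu.continuousAt.norm.eventually (lt_mem_nhds (half_lt_self hu1))
    obtain ⟨K₁, s₁, hs₁, hK₁⟩ := hDan.hasStrictDerivAt.hasStrictFDerivAt.exists_lipschitzOnWith
    obtain ⟨K₂, s₂, hs₂, hK₂⟩ := hψan.hasStrictDerivAt.hasStrictFDerivAt.exists_lipschitzOnWith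
    have hKpos : 0 < (1 + K₁ * K₂ * ‖v‖) * (2 * ‖p‖) := by positivity
    refine ⟨n + 1, ‖u a‖ / 2 / ((1 + K₁ * K₂ * ‖v‖) * (2 * ‖p‖)), Nat.le_add_left 1 n, by positivity, ?_⟩
    have t1 : Tendsto (fun q : ℂ × ℂ => q.1) (𝓝 (a, b)) (𝓝 a) := continuousAt_fst
    have t2 : Tendsto (fun q : ℂ × ℂ => q.2) (𝓝 (a, b)) (𝓝 b) := continuousAt_snd
    have e1 : ∀ᶠ q : ℂ × ℂ in 𝓝 (a, b), q.1 ∈ ball a 1 := t1.eventually (ball_mem_nhds a one_pos)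
    have e2 : ∀ᶠ q : ℂ × ℂ in 𝓝 (a, b), q.2 ∈ s₁ := t2.eventually hs₁
    have e3 : ∀ᶠ q : ℂ × ℂ in 𝓝 (a, b), φ q.1 ∈ s₁ := by
      have h2 : Tendsto φ (𝓝 a) (𝓝 b) := by
        have := hφan.continuousAt.tendsto
        rwa [hφa] at this
      exact t1.eventually (h2.eventually hs₁)
    have e4 : ∀ᶠ q : ℂ × ℂ in 𝓝 (a, b), ξ q.2 ∈ s₂ := t2.eventually (hξan.continuousAt.tendsto.eventually hs₂)
    have e5 : ∀ᶠ q : ℂ × ℂ in 𝓝 (a, b), (inner ℂ v (G q.1) : ℂ) ∈ s₂ := by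
      have h2 : Tendsto (fun s => (inner ℂ v (G s) : ℂ)) (𝓝 a) (𝓝 (ξ b)) := by
        rw [hξb]
        exact (inner_an hGan v).continuousAt.tendsto
      exact t1.eventually (h2.eventually hs₂)
    have e6 : ∀ᶠ q : ℂ × ℂ in 𝓝 (a, b), ‖G q.1 - p‖ ≤ ‖p‖ / 4 := by
      have h2 : Tendsto (fun s => ‖G s - p‖) (𝓝 a) (𝓝 0) := by
        have h3 := (hGan.continuousAt.tendsto.sub_const p).norm
        rwa [hGa, sub_self, norm_zero] at h3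
      exact t1.eventually ((h2.eventually (gt_mem_nhds (by positivity : (0 : ℝ) < ‖p‖ / 4))).mono fun _ h => h.le)
    have e7 : ∀ᶠ q : ℂ × ℂ in 𝓝 (a, b), ‖D q.2 - p‖ ≤ ‖p‖ / 4 := by
      have h2 : Tendsto (fun s => ‖D s - p‖) (𝓝 b) (𝓝 0) := by
        have h3 := (hDan.continuousAt.tendsto.sub_const p).norm
        rwa [hDb, sub_self, norm_zero] at h3
      exact t2.eventually ((h2.eventually (gt_mem_nhds (by positivity : (0 : ℝ) < ‖p‖ / 4))).mono fun _ h => h.le)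
    filter_upwards [e1, e2, e3, e4, e5, e6, e7, t1.eventually hevγ, t2.eventually hevδ, t1.eventually hu2, t1.eventually heq,
      t2.eventually hψl] with q q1 q2 q3 q4 q5 q6 q7 q8 q9 q10 q11 q12
    rw [mem_ball, dist_eq_norm] at q1
    have f1 : ‖G q.1 - D q.2‖ ≤ 2 * ‖p‖ * dist (pr (γ q.1)) (pr (δ q.2)) := by
      have h2 := hyper_le hp0 (x := G q.1) (y := D q.2) (by rw [hG]; exact inner_nm q8) (by rw [hD]; exact inner_nm q9) q6 q7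
      rwa [hprG _ q8, hprD _ q9] at h2
    have f2 : ‖D q.2 - D (φ q.1)‖ ≤ K₁ * K₂ * ‖v‖ * ‖G q.1 - D q.2‖ := by
      have h2 := hK₁.dist_le_mul _ q2 _ q3
      have h3 : dist q.2 (φ q.1) ≤ K₂ * (‖v‖ * ‖G q.1 - D q.2‖) := by
        have h4 := hK₂.dist_le_mul _ q4 _ q5
        rw [q12] at h4
        have h5 : dist q.2 (ψ (inner ℂ v (G q.1) : ℂ)) = dist q.2 (φ q.1) := by rw [hφ]
        rw [h5] at h4
        refine h4.trans (mul_le_mul_of_nonneg_left ?_ K₂.2)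
        have h6 : ξ q.2 = (inner ℂ v (D q.2) : ℂ) := by rw [hξ]
        rw [h6, dist_eq_norm, ← inner_sub_right, norm_sub_rev (G q.1)]
        exact norm_inner_le_norm _ _
      rw [dist_eq_norm] at h2
      calc ‖D q.2 - D (φ q.1)‖ ≤ K₁ * dist q.2 (φ q.1) := h2
        _ ≤ K₁ * (K₂ * (‖v‖ * ‖G q.1 - D q.2‖)) := mul_le_mul_of_nonneg_left h3 K₁.2
        _ = K₁ * K₂ * ‖v‖ * ‖G q.1 - D q.2‖ := by ring
    have f3 : ‖G q.1 - D (φ q.1)‖ ≤ (1 + K₁ * K₂ * ‖v‖) * (2 * ‖p‖) * dist (pr (γ q.1)) (pr (δ q.2)) := by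
      have h2 := norm_add_le (G q.1 - D q.2) (D q.2 - D (φ q.1))
      rw [sub_add_sub_cancel] at h2
      have h3 : (0 : ℝ) ≤ 1 + K₁ * K₂ * ‖v‖ := by positivity
      calc ‖G q.1 - D (φ q.1)‖ ≤ (1 + K₁ * K₂ * ‖v‖) * ‖G q.1 - D q.2‖ := by linarith
        _ ≤ (1 + K₁ * K₂ * ‖v‖) * (2 * ‖p‖ * dist (pr (γ q.1)) (pr (δ q.2))) := mul_le_mul_of_nonneg_left f1 h3
        _ = _ := by ring
    have f4 : ‖u a‖ / 2 * ‖q.1 - a‖ ^ (n + 1) ≤ ‖G q.1 - D (φ q.1)‖ := by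
      rw [q11, norm_smul, norm_pow, pow_succ]
      have h2 : 0 ≤ ‖q.1 - a‖ ^ n := by positivity
      calc ‖u a‖ / 2 * (‖q.1 - a‖ ^ n * ‖q.1 - a‖) ≤ ‖u a‖ / 2 * (‖q.1 - a‖ ^ n * 1) := by
            refine mul_le_mul_of_nonneg_left (mul_le_mul_of_nonneg_left q1.le h2) (by positivity)
        _ = ‖q.1 - a‖ ^ n * (‖u a‖ / 2) := by ring
        _ ≤ ‖q.1 - a‖ ^ n * ‖u q.1‖ := mul_le_mul_of_nonneg_left q10.le h2
    rw [div_mul_eq_mul_div, div_le_iff₀ hKpos]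
    linarith

end Pool.Agent.AD.F.Sp
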