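import Pool.Agent.AD.F.LemX
import Pool.Agent.AD.F.LemG
import Pool.Agent.AD.F.Dbl

/-!
# AD F Star: THEOREM STAR

`exists_descent`: let `c`, `L₁` be the constants of `exists_fast`, `s₀` of `exists_follow_good`, `L` of `exists_noSwitch`; `s ≥ s₀`, `s/4 ≥ L₁, L`, `c (s/4)² ≥ L`, `c s ≥ 2048`.  `exists_fast` (`z₁ = 0`): `z ∈ ball b (1/16)`,
`v z ≥ c (s/4)²`, so `2 s / v z ≤ 1/64`.  `exists_good`: `w`, `‖w - z‖ ≤ 1/64`, `v w ≥ v z`, good.  `exists_follow_good`, then `Fol.exists_max_ext` (`D = 1/2`, `D' = 5/8`): `d`, `ζ'`, `d v w ≥ s/4`.  Suppose `d = 1/2`.  Let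
`o = (3/4) b`.  If `Eqv i (ζ o) j (ζ' o)` with the period `l`: `‖ζ z - ζ' z - l‖ ≤ r/32` on `ball 0 1 ∩ ball w (1/2)` (`Fol.lift_near`), so `b` is not bad, with `ζ' b + l`.  If not, `exists_noSwitch` (`z₁ = 0`, `z₂ = w`).

`star`: `s = s₁`, `M₀ = 200 s`.  `exists_good` near `0`: `w₀`, `‖w₀‖ ≤ 1/100`, `v w₀ ≥ M₀`.  `exists_follow_good`, `Fol.exists_max_ext` with `D = 11/10`: `d₀`.  If `d₀ = 11/10`: restrict to `ball 0 1`.  Otherwise let
`P w d`: `w` is `s`-good in `ball 0 8`, `0 < d`, `s/4 ≤ d v w`, `‖w‖ + 4 d ≤ 7`, and `F` follows some `(j, ζ')` on `ball w d` with a bad point on the circle.  `P w₀ d₀` (`1/100 + 4.4 ≤ 7`).  `P w d` implies `P w' d'` with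
`d' < d/2` (`exists_descent` for `F (w + d z)`, `NotBad.of_affine`).  So there are `w_k` in `closedBall 0 7` with `v w_k ≥ s/(4 d_k) → ∞`: contradiction.
-/

set_option autoImplicit false

open Topology Filter Metric

namespace Pool.Agent.AD.F

open Pool.Agent.H36.BP (EN fs wd Sub Curve)
open Pool.Agent.H14.PP (IsCone Tan CurveAt)
open Pool.Agent.H22.W (PseudoLength)
open Pool.Agent.H62.EF (pr Lat)

variable {N : ℕ} {X : Set (EN N)}

theorem Setup.exists_descent (S : Setup X) : ∃ s₁ : ℝ, 1 ≤ s₁ ∧ ∀ s : ℝ, s₁ ≤ s → ∀ (i : S.ι) (ζ : ℂ → ℂ) (F : ℂ → EN N) (b : ℂ),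
    Curve X (ball 0 2) F → S.Fol i ζ F (ball 0 1) → ‖b‖ = 1 → ¬ S.NotBad i ζ F (ball 0 1) b → s / 4 ≤ vel S.ν F 0 →
    ∃ (w : ℂ) (j : S.ι) (ζ' : ℂ → ℂ) (d : ℝ), ‖w‖ ≤ 5 / 4 ∧ S.Good F (ball 0 2) s w ∧ 0 < d ∧ d < 1 / 2 ∧ s / 4 ≤ d * vel S.ν F w ∧
      S.Fol j ζ' F (ball w d) ∧ ∃ b', ‖b' - w‖ = d ∧ ¬ S.NotBad j ζ' F (ball w d) b' := by
  obtain ⟨c, L₁, hc, hL₁, hfast⟩ := S.exists_fast
  obtain ⟨s₀, hs₀, hfol⟩ := S.exists_follow_good
  obtain ⟨L, hL, hsw⟩ := S.exists_noSwitch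
  have hr := S.r_pos
  refine ⟨s₀ + 4 * L₁ + 4 * L + 16 * L / c + 2048 / c, ?_, ?_⟩
  · have h1 : 0 < 16 * L / c := by positivity
    have h2 : 0 < 2048 / c := by positivity
    linarith
  intro s hs i ζ F b hF hi hb hbad hv
  have h1 : 0 < 16 * L / c := by positivity
  have h2 : 0 < 2048 / c := by positivity
  have hss₀ : s₀ ≤ s := by linarith
  have hs1 : 1 ≤ s := by linarith
  have hs0 : 0 < s := by linarith
  have hsL₁ : L₁ ≤ s / 4 := by linarith
  have hsL : L ≤ s / 4 := by linarith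
  have hcs : 2048 ≤ c * s := by
    have h3 : 2048 / c ≤ s := by linarith
    rw [div_le_iff₀ hc] at h3
    linarith
  have hcL : L ≤ c * (s / 4) ^ 2 := by
    have h3 : 16 * L / c ≤ s := by linarith
    rw [div_le_iff₀ hc] at h3
    have h4 : s ≤ s ^ 2 := by nlinarith
    have h5 : 16 * L ≤ s ^ 2 * c := h3.trans (mul_le_mul_of_nonneg_right h4 hc.le)
    nlinarith
  have hsubU : ball (0 : ℂ) 1 ∪ ball b (1 / 16) ⊆ ball 0 2 := by
    rintro z (hz | hz)
    · exact ball_subset_ball (by norm_num) hz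
    · rw [mem_ball, dist_eq_norm] at hz
      rw [mem_ball_zero_iff]
      have h3 : z = (z - b) + b := by ring
      rw [h3]
      have := norm_add_le (z - b) b
      linarith
  obtain ⟨z, hz, hvz⟩ := hfast i ζ F 0 b (Curve.mono hF hsubU) hi (by rw [norm_zero]; norm_num) (hsL₁.trans hv) hb hbad
  have hvz2 : c * (s / 4) ^ 2 ≤ vel S.ν F z := by
    refine le_trans ?_ hvz
    have : (s / 4) ^ 2 ≤ vel S.ν F 0 ^ 2 := pow_le_pow_left₀ (by positivity) hv 2
    exact mul_le_mul_of_nonneg_left this hc.le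
  have hvz0 : 0 < vel S.ν F z := lt_of_lt_of_le hL (hcL.trans hvz2)
  have hrad : 2 * s / vel S.ν F z ≤ 1 / 64 := by
    rw [div_le_iff₀ hvz0]
    nlinarith
  have hzn : ‖z - b‖ < 1 / 16 := by rwa [mem_ball, dist_eq_norm] at hz
  obtain ⟨w, hw1, hw2, hgood⟩ := S.exists_good (U := ball 0 2) (D := ball 0 2) isOpen_ball hF subset_rfl hs0 hvz0 (by
    intro x hx
    rw [mem_closedBall, dist_eq_norm] at hx
    rw [mem_ball_zero_iff]
    have h3 : x = (x - z) + (z - b) + b := by ring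
    rw [h3]
    have h4 := norm_add_le ((x - z) + (z - b)) b
    have h5 := norm_add_le (x - z) (z - b)
    linarith)
  have hwb : ‖w - b‖ ≤ 5 / 64 := by
    have h3 : w - b = (w - z) + (z - b) := by ring
    rw [h3]
    have h4 := norm_add_le (w - z) (z - b)
    linarith
  have hwn1 : ‖w‖ ≤ 1 + 5 / 64 := by
    have h3 : w = (w - b) + b := by ring
    rw [h3]
    have h4 := norm_add_le (w - b) b
    linarith
  have hwn2 : 1 - 5 / 64 ≤ ‖w‖ := by
    have h3 : b = -(w - b) + w := by ring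
    have h4 := norm_add_le (-(w - b)) w
    rw [← h3, norm_neg] at h4
    linarith
  have hvw : c * (s / 4) ^ 2 ≤ vel S.ν F w := hvz2.trans hw2
  have hvw0 : 0 < vel S.ν F w := hgood.1
  obtain ⟨j, ζ₀, hj₀⟩ := hfol s hss₀ F (ball 0 2) w isOpen_ball hF hgood
  have hd₀ : 0 < s / (4 * vel S.ν F w) := by positivity
  have hd₀2 : s / (4 * vel S.ν F w) ≤ 1 / 2 := by
    rw [div_le_iff₀ (by positivity)]
    nlinarith
  have hsubw : ball w (5 / 8) ⊆ ball (0 : ℂ) 2 := by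
    intro x hx
    rw [mem_ball, dist_eq_norm] at hx
    rw [mem_ball_zero_iff]
    have h3 : x = (x - w) + w := by ring
    rw [h3]
    have h4 := norm_add_le (x - w) w
    linarith
  obtain ⟨d, ζ', hd1, hd2, hj, -, hor⟩ := Setup.Fol.exists_max_ext hd₀ hd₀2 (by norm_num : (1 / 2 : ℝ) < 5 / 8) (Curve.mono hF hsubw) hj₀
  have hd0 : 0 < d := lt_of_lt_of_le hd₀ hd1
  have hdv : s / 4 ≤ d * vel S.ν F w := by
    have h3 : s / 4 = s / (4 * vel S.ν F w) * vel S.ν F w := by field_simp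
    rw [h3]
    exact mul_le_mul_of_nonneg_right hd1 hvw0.le
  rcases hd2.eq_or_lt with hd | hd
  swap
  · refine ⟨w, j, ζ', d, by linarith, hgood, hd0, hd, hdv, hj, ?_⟩
    rcases hor with h3 | h3
    · exact absurd h3 hd.ne
    · exact h3
  · exfalso
    subst hd
    have hbw : b ∈ ball w (1 / 2) := by
      rw [mem_ball, dist_eq_norm, norm_sub_rev]
      linarith
    obtain ⟨o, ho⟩ : ∃ o : ℂ, o = (3 / 4 : ℂ) * b := ⟨_, rfl⟩
    have hon : ‖o‖ = 3 / 4 := by
      rw [ho, norm_mul, hb, mul_one]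
      norm_num
    have hob : ‖o - b‖ = 1 / 4 := by
      have h3 : o - b = (-(1 / 4) : ℂ) * b := by rw [ho]; ring
      rw [h3, norm_mul, hb, mul_one]
      norm_num
    have ho1 : o ∈ ball (0 : ℂ) 1 := by rw [mem_ball_zero_iff, hon]; norm_num
    have ho2 : o ∈ ball w (1 / 2) := by
      rw [mem_ball, dist_eq_norm]
      have h3 : o - w = (o - b) + -(w - b) := by ring
      rw [h3]
      have h4 := norm_add_le (o - b) (-(w - b))
      rw [norm_neg] at h4
      linarith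
    have hsub3 : ball (0 : ℂ) 1 ∪ ball w (1 / 2) ⊆ ball 0 2 :=
      Set.union_subset (ball_subset_ball (by norm_num)) ((ball_subset_ball (by norm_num)).trans hsubw)
    by_cases hE : S.Eqv i (ζ o) j (ζ' o)
    · obtain ⟨hij, l, hl, hll⟩ := hE
      subst hij
      apply hbad
      have hco := hj.coarse b hbw
      have hmem : ∀ᶠ x in 𝓝 b, x ∈ ball w (1 / 2) := isOpen_ball.mem_nhds hbw
      obtain ⟨δ, hδ, hδ2⟩ := Metric.eventually_nhds_iff_ball.1 (hco.and hmem)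
      refine ⟨δ, ζ' b + l, hδ, ?_, ?_⟩
      · have h3 := hj.near b hbw
        unfold pd at h3 ⊢
        rw [S.per i l hl]
        exact h3
      · rintro x ⟨hx1, hx2⟩
        obtain ⟨h3, h4⟩ := hδ2 x hx2
        have h5 := h3 h4
        have h6 : ‖ζ x - ζ' x - l‖ ≤ S.r / 32 :=
          Setup.Fol.lift_near (isOpen_ball.inter isOpen_ball) ((convex_ball _ _).inter (convex_ball _ _)).isPreconnected
            (Curve.mono hF (Set.inter_subset_left.trans (ball_subset_ball (by norm_num))))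
            (hi.mono Set.inter_subset_left) (hj.mono Set.inter_subset_right) hl ⟨ho1, ho2⟩ hll ⟨hx1, h4⟩
        have h7 : ζ x - (ζ' b + l) = (ζ x - ζ' x - l) + (ζ' x - ζ' b) := by ring
        rw [h7]
        have h8 := norm_add_le (ζ x - ζ' x - l) (ζ' x - ζ' b)
        linarith
    · have h3 := hsw i j ζ ζ' F w 0 w o (Curve.mono hF hsub3) hi hj (by linarith) (by linarith) ho1 ho2 hE (by rw [norm_zero]; norm_num)
        (by rw [sub_self, norm_zero]; norm_num) (hsL.trans hv)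
      linarith [hcL.trans hvw]

/-- **Theorem STAR.** -/
theorem Setup.star (S : Setup X) : ∃ M₀ : ℝ, 1 ≤ M₀ ∧ ∀ F : ℂ → EN N, Curve X (ball 0 8) F → M₀ ≤ vel S.ν F 0 →
    ∃ (i : S.ι) (ζ : ℂ → ℂ), S.Fol i ζ F (ball 0 1) := by
  obtain ⟨s₁, hs₁, hdesc⟩ := S.exists_descent
  obtain ⟨s₀, hs₀, hfol⟩ := S.exists_follow_good
  obtain ⟨s, hs⟩ : ∃ s : ℝ, s = max s₁ s₀ := ⟨_, rfl⟩
  have hss₁ : s₁ ≤ s := by rw [hs]; exact le_max_left _ _
  have hss₀ : s₀ ≤ s := by rw [hs]; exact le_max_right _ _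
  have hs1 : 1 ≤ s := hs₁.trans hss₁
  have hs0 : 0 < s := lt_of_lt_of_le one_pos hs1
  refine ⟨200 * s, by linarith, ?_⟩
  intro F hF hv
  have hv0 : 0 < vel S.ν F 0 := by linarith
  have hrad : 2 * s / vel S.ν F 0 ≤ 1 / 100 := by
    rw [div_le_iff₀ hv0]
    linarith
  obtain ⟨w₀, hw1, hw2, hgood⟩ := S.exists_good (U := ball 0 8) (D := ball 0 8) isOpen_ball hF subset_rfl hs0 hv0
    (closedBall_subset_ball (by linarith))
  rw [sub_zero] at hw1
  have hvw : 200 * s ≤ vel S.ν F w₀ := hv.trans hw2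
  have hvw0 : 0 < vel S.ν F w₀ := hgood.1
  obtain ⟨i₀, ζ₀, hi₀⟩ := hfol s hss₀ F (ball 0 8) w₀ isOpen_ball hF hgood
  have hd₀ : 0 < s / (4 * vel S.ν F w₀) := by positivity
  have hd₀2 : s / (4 * vel S.ν F w₀) ≤ 11 / 10 := by
    rw [div_le_iff₀ (by positivity)]
    nlinarith
  have hsubw : ball w₀ 2 ⊆ ball (0 : ℂ) 8 := by
    intro x hx
    rw [mem_ball, dist_eq_norm] at hx
    rw [mem_ball_zero_iff]
    have h3 : x = (x - w₀) + w₀ := by ring
    rw [h3]
    have h4 := norm_add_le (x - w₀) w₀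
    linarith
  obtain ⟨d₀, ζ', hd1, hd2, hj, -, hor⟩ := Setup.Fol.exists_max_ext hd₀ hd₀2 (by norm_num : (11 / 10 : ℝ) < 2) (Curve.mono hF hsubw) hi₀
  have hd0 : 0 < d₀ := lt_of_lt_of_le hd₀ hd1
  have hdv : s / 4 ≤ d₀ * vel S.ν F w₀ := by
    have h3 : s / 4 = s / (4 * vel S.ν F w₀) * vel S.ν F w₀ := by field_simp
    rw [h3]
    exact mul_le_mul_of_nonneg_right hd1 hvw0.le
  rcases hor with hor | hor
  · refine ⟨i₀, ζ', hj.mono ?_⟩
    rw [hor]
    intro x hx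
    rw [mem_ball_zero_iff] at hx
    rw [mem_ball, dist_eq_norm]
    have h4 := norm_sub_le x w₀
    linarith
  · exfalso
    let P : ℂ → ℝ → Prop := fun w d => S.Good F (ball 0 8) s w ∧ 0 < d ∧ s / 4 ≤ d * vel S.ν F w ∧ ‖w‖ + 4 * d ≤ 7 ∧
      ∃ (j : S.ι) (ζ' : ℂ → ℂ), S.Fol j ζ' F (ball w d) ∧ ∃ b', ‖b' - w‖ = d ∧ ¬ S.NotBad j ζ' F (ball w d) b'
    have hP₀ : P w₀ d₀ := ⟨hgood, hd0, hdv, by linarith, i₀, ζ', hj, hor⟩
    have hstep : ∀ w d, P w d → ∃ w' d', d' ≤ d / 2 ∧ P w' d' := by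
      rintro w d ⟨hg, hd, hdv, hwd, j, ζj, hfj, b', hb', hbad⟩
      have hdC : (d : ℂ) ≠ 0 := by exact_mod_cast hd.ne'
      have hmaps : ∀ x ∈ ball (0 : ℂ) 2, w + (d : ℂ) * x ∈ ball (0 : ℂ) 8 := by
        intro x hx
        rw [mem_ball_zero_iff] at hx ⊢
        have h3 := norm_add_le w ((d : ℂ) * x)
        rw [norm_mul, Complex.norm_real, Real.norm_of_nonneg hd.le] at h3
        nlinarith
      have hG : Curve X (ball 0 2) (fun x => F (w + (d : ℂ) * x)) := Curve.comp hF (by fun_prop) hmaps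
      have hvG : ∀ x ∈ ball (0 : ℂ) 2, vel S.ν (fun x => F (w + (d : ℂ) * x)) x = d * vel S.ν F (w + (d : ℂ) * x) := by
        intro x hx
        rw [vel_affine S.ν isOpen_ball hF _ _ (hmaps x hx), Complex.norm_real, Real.norm_of_nonneg hd.le]
      have hmaps1 : Set.MapsTo (fun x : ℂ => w + (d : ℂ) * x) (ball 0 1) (ball w d) := by
        intro x hx
        rw [mem_ball_zero_iff] at hx
        show w + (d : ℂ) * x ∈ ball w d
        rw [mem_ball, dist_eq_norm, add_sub_cancel_left, norm_mul, Complex.norm_real, Real.norm_of_nonneg hd.le]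
        nlinarith
      have hbn : ‖(b' - w) / (d : ℂ)‖ = 1 := by
        rw [norm_div, Complex.norm_real, Real.norm_of_nonneg hd.le, hb', div_self hd.ne']
      have hbad1 : ¬ S.NotBad j (fun x => ζj (w + (d : ℂ) * x)) (fun x => F (w + (d : ℂ) * x)) (ball 0 1) ((b' - w) / d) := by
        intro hnb
        apply hbad
        have h3 := Setup.NotBad.of_affine (U := ball w d) hdC (fun x hx => ?_) hnb
        · have h4 : w + (d : ℂ) * ((b' - w) / d) = b' := by
            field_simp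
            ring
          rwa [h4] at h3
        · rw [mem_ball, dist_eq_norm, add_sub_cancel_left, norm_mul, Complex.norm_real, Real.norm_of_nonneg hd.le] at hx
          rw [mem_ball_zero_iff]
          by_contra hlt
          push Not at hlt
          nlinarith
      obtain ⟨w1, j1, ζ1, d1, hw1, hg1, hd1, hd1', hdv1, hf1, b1, hb1, hbad1'⟩ := hdesc s hss₁ j (fun x => ζj (w + (d : ℂ) * x))
        (fun x => F (w + (d : ℂ) * x)) ((b' - w) / d) hG (hfj.comp isOpen_ball (by fun_prop) hmaps1) hbn hbad1 (by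
          rw [hvG 0 (mem_ball_self (by norm_num)), mul_zero, add_zero]
          exact hdv)
      have hw12 : w1 ∈ ball (0 : ℂ) 2 := by rw [mem_ball_zero_iff]; linarith
      have hv1 := hvG w1 hw12
      have hv1pos : 0 < vel S.ν (fun x => F (w + (d : ℂ) * x)) w1 := hg1.1
      have hback : ∀ x : ℂ, w + (d : ℂ) * (-(w / d) + (d : ℂ)⁻¹ * x) = x := by
        intro x
        field_simp
        ring
      have hFeq : (fun x => F (w + (d : ℂ) * (-(w / d) + (d : ℂ)⁻¹ * x))) = F := by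
        funext x
        rw [hback]
      have hsubx : ∀ x : ℂ, ‖-(w / (d : ℂ)) + (d : ℂ)⁻¹ * x - w1‖ = ‖x - (w + (d : ℂ) * w1)‖ / d := by
        intro x
        have h3 : -(w / (d : ℂ)) + (d : ℂ)⁻¹ * x - w1 = (x - (w + (d : ℂ) * w1)) / d := by
          field_simp
          ring
        rw [h3, norm_div, Complex.norm_real, Real.norm_of_nonneg hd.le]
      have hmaps2 : Set.MapsTo (fun x : ℂ => -(w / (d : ℂ)) + (d : ℂ)⁻¹ * x) (ball (w + (d : ℂ) * w1) (d * d1)) (ball w1 d1) := by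
        intro x hx
        rw [mem_ball, dist_eq_norm] at hx
        show -(w / (d : ℂ)) + (d : ℂ)⁻¹ * x ∈ ball w1 d1
        rw [mem_ball, dist_eq_norm, hsubx, div_lt_iff₀ hd]
        linarith
      refine ⟨w + (d : ℂ) * w1, d * d1, by nlinarith, ⟨?_, ?_, ?_⟩, by positivity, ?_, ?_, j1,
        fun x => ζ1 (-(w / (d : ℂ)) + (d : ℂ)⁻¹ * x), ?_, w + (d : ℂ) * b1, ?_, ?_⟩
      · -- positive
        rw [hv1] at hv1pos
        exact pos_of_mul_pos_right hv1pos hd.le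
      · -- the ball
        intro x hx
        rw [mem_ball, dist_eq_norm] at hx
        have h3 : -(w / (d : ℂ)) + (d : ℂ)⁻¹ * x ∈ ball w1 (s / vel S.ν (fun x => F (w + (d : ℂ) * x)) w1) := by
          rw [mem_ball, dist_eq_norm, hsubx, hv1, div_lt_iff₀ hd]
          have h4 : s / (d * vel S.ν F (w + (d : ℂ) * w1)) * d = s / vel S.ν F (w + (d : ℂ) * w1) := by
            field_simp
          rw [h4]
          exact hx
        have h5 := hmaps _ (hg1.2.1 h3)
        rwa [hback] at h5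
      · -- the speed
        intro x hx
        rw [mem_ball, dist_eq_norm] at hx
        have h3 : -(w / (d : ℂ)) + (d : ℂ)⁻¹ * x ∈ ball w1 (s / vel S.ν (fun x => F (w + (d : ℂ) * x)) w1) := by
          rw [mem_ball, dist_eq_norm, hsubx, hv1, div_lt_iff₀ hd]
          have h4 : s / (d * vel S.ν F (w + (d : ℂ) * w1)) * d = s / vel S.ν F (w + (d : ℂ) * w1) := by
            field_simp
          rw [h4]
          exact hx
        have h6 := hg1.2.2 _ h3
        rw [hvG _ (hg1.2.1 h3), hv1, hback] at h6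
        have h7 : d * vel S.ν F x ≤ d * (2 * vel S.ν F (w + (d : ℂ) * w1)) := by linarith
        exact le_of_mul_le_mul_left h7 hd
      · -- the radius
        rw [hv1] at hdv1
        linarith
      · -- the norm
        have h3 := norm_add_le w ((d : ℂ) * w1)
        rw [norm_mul, Complex.norm_real, Real.norm_of_nonneg hd.le] at h3
        nlinarith
      · -- follows
        have h3 := hf1.comp (V := ball (w + (d : ℂ) * w1) (d * d1)) (φ := fun x : ℂ => -(w / (d : ℂ)) + (d : ℂ)⁻¹ * x) isOpen_ball (by fun_prop) hmaps2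
        have h4 : (fun z => (fun x => F (w + (d : ℂ) * x)) ((fun x : ℂ => -(w / (d : ℂ)) + (d : ℂ)⁻¹ * x) z)) = F := hFeq
        rw [h4] at h3
        exact h3
      · -- the point
        have h3 : w + (d : ℂ) * b1 - (w + (d : ℂ) * w1) = (d : ℂ) * (b1 - w1) := by ring
        rw [h3, norm_mul, Complex.norm_real, Real.norm_of_nonneg hd.le, hb1]
      · -- bad
        intro hnb
        apply hbad1'
        have h3 := Setup.NotBad.of_affine (S := S) (i := j1) (ζ := ζ1) (F := fun x => F (w + (d : ℂ) * x)) (U := ball w1 d1)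
          (V := ball (w + (d : ℂ) * w1) (d * d1)) (a := (d : ℂ)⁻¹) (c := -(w / (d : ℂ))) (b := w + (d : ℂ) * b1) (inv_ne_zero hdC) (fun x hx => ?_) ?_
        · have h4 : -(w / (d : ℂ)) + (d : ℂ)⁻¹ * (w + (d : ℂ) * b1) = b1 := by
            field_simp
            ring
          rwa [h4] at h3
        · rw [mem_ball, dist_eq_norm, hsubx, div_lt_iff₀ hd] at hx
          rw [mem_ball, dist_eq_norm]
          linarith
        · rw [hFeq]
          exact hnb
    have hall : ∀ n : ℕ, ∃ w d, P w d ∧ d ≤ d₀ * (1 / 2) ^ n := by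
      intro n
      induction n with
      | zero => exact ⟨w₀, d₀, hP₀, by simp⟩
      | succ n ih =>
        obtain ⟨w, d, hP, hd⟩ := ih
        obtain ⟨w', d', hd', hP'⟩ := hstep w d hP
        refine ⟨w', d', hP', hd'.trans ?_⟩
        rw [pow_succ]
        linarith
    obtain ⟨B, hB⟩ := (isCompact_closedBall (0 : ℂ) 7).exists_bound_of_continuousOn
      ((vel_cont S.ν isOpen_ball hF).mono (closedBall_subset_ball (by norm_num)))
    have hB0 : 0 ≤ B := (norm_nonneg _).trans (hB 0 (mem_closedBall_self (by norm_num)))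
    obtain ⟨n, hn⟩ := exists_pow_lt_of_lt_one (show (0 : ℝ) < s / 4 / (d₀ * (B + 1)) by positivity) (show (1 / 2 : ℝ) < 1 by norm_num)
    obtain ⟨w, d, ⟨hg, hd, hdv, hwd, -⟩, hdn⟩ := hall n
    have h3 : vel S.ν F w ≤ B := (le_abs_self _).trans (hB w (by rw [mem_closedBall_zero_iff]; linarith))
    rw [lt_div_iff₀ (by positivity)] at hn
    have h4 : d * vel S.ν F w ≤ (d₀ * (1 / 2) ^ n) * B := mul_le_mul hdn h3 hg.1.le (by positivity)
    have h5 : (d₀ * (1 / 2 : ℝ) ^ n) * B ≤ (1 / 2 : ℝ) ^ n * (d₀ * (B + 1)) := by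
      have h6 : 0 < d₀ * (1 / 2 : ℝ) ^ n := by positivity
      nlinarith
    linarith

/-- the same with center `z₀` and radius `s` -/
theorem Setup.star' (S : Setup X) : ∃ M₀ : ℝ, 1 ≤ M₀ ∧ ∀ (F : ℂ → EN N) (z₀ : ℂ) (s : ℝ), 0 < s → Curve X (ball z₀ (8 * s)) F →
    M₀ ≤ s * vel S.ν F z₀ → ∃ (i : S.ι) (ζ : ℂ → ℂ), S.Fol i ζ F (ball z₀ s) := by
  obtain ⟨M₀, hM₀, hstar⟩ := S.star
  refine ⟨M₀, hM₀, ?_⟩
  intro F z₀ s hs hF hv
  have hsC : (s : ℂ) ≠ 0 := by exact_mod_cast hs.ne'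
  have hmaps : Set.MapsTo (fun x : ℂ => z₀ + (s : ℂ) * x) (ball 0 8) (ball z₀ (8 * s)) := by
    intro x hx
    rw [mem_ball_zero_iff] at hx
    show z₀ + (s : ℂ) * x ∈ ball z₀ (8 * s)
    rw [mem_ball, dist_eq_norm, add_sub_cancel_left, norm_mul, Complex.norm_real, Real.norm_of_nonneg hs.le]
    nlinarith
  have hG : Curve X (ball 0 8) (fun x => F (z₀ + (s : ℂ) * x)) := Curve.comp hF (by fun_prop) hmaps
  have h0 : (0 : ℂ) ∈ ball (0 : ℂ) 8 := mem_ball_self (by norm_num)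
  have hv0 : vel S.ν (fun x => F (z₀ + (s : ℂ) * x)) 0 = s * vel S.ν F z₀ := by
    rw [vel_affine S.ν isOpen_ball hF _ _ (hmaps h0), Complex.norm_real, Real.norm_of_nonneg hs.le, mul_zero, add_zero]
  obtain ⟨i, ζ, hi⟩ := hstar _ hG (by rw [hv0]; exact hv)
  refine ⟨i, fun x => ζ (-(z₀ / (s : ℂ)) + (s : ℂ)⁻¹ * x), ?_⟩
  have hmaps2 : Set.MapsTo (fun x : ℂ => -(z₀ / (s : ℂ)) + (s : ℂ)⁻¹ * x) (ball z₀ s) (ball 0 1) := by
    intro x hx
    rw [mem_ball, dist_eq_norm] at hx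
    show -(z₀ / (s : ℂ)) + (s : ℂ)⁻¹ * x ∈ ball (0 : ℂ) 1
    have h3 : -(z₀ / (s : ℂ)) + (s : ℂ)⁻¹ * x = (x - z₀) / s := by
      field_simp
      ring
    rw [mem_ball_zero_iff, h3, norm_div, Complex.norm_real, Real.norm_of_nonneg hs.le, div_lt_one hs]
    exact hx
  have h3 := hi.comp (V := ball z₀ s) (φ := fun x : ℂ => -(z₀ / (s : ℂ)) + (s : ℂ)⁻¹ * x) isOpen_ball (by fun_prop) hmaps2
  have h4 : (fun z => (fun x => F (z₀ + (s : ℂ) * x)) ((fun x : ℂ => -(z₀ / (s : ℂ)) + (s : ℂ)⁻¹ * x) z)) = F := by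
    funext x
    show F (z₀ + (s : ℂ) * (-(z₀ / (s : ℂ)) + (s : ℂ)⁻¹ * x)) = F x
    congr 1
    field_simp
    ring
  rw [h4] at h3
  exact h3

end Pool.Agent.AD.F
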